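import Pool.Agent.NH10.SV.Pc
import Pool.Agent.NH10.GM.Near2

/-! # The sharp windows near the edge -/

set_option autoImplicit false
set_option maxHeartbeats 4000000

open Filter Topology Set MeasureTheory ArithmeticFunction

namespace Pool.Agent.NH10.SV

open Pool.Agent.NH10.GM

lemma one_lt_log' {T : ℝ} (hT : 3 ≤ T) : 1 < Real.log T := by
  rw [Real.lt_log_iff_exp_lt (by linarith)]
  have := Real.exp_one_lt_d9
  linarith

/-- the weight of one integer -/
noncomputable def Gn (T : ℝ) (n : ℕ) : ℝ → ℝ :=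
  (Ico (Real.log n - Real.log (1 + 1 / T)) (Real.log n)).indicator fun t => Real.exp (-t)

lemma Gn_nonneg (T : ℝ) (n : ℕ) (t : ℝ) : 0 ≤ Gn T n t :=
  indicator_nonneg (fun _ _ => (Real.exp_pos _).le) t

lemma Gn_int {T : ℝ} (hT : 0 < T) {n : ℕ} (hn : 1 ≤ n) : Integrable (Gn T n) ∧
    ∫ t, Gn T n t = 1 / T / n := by
  have hh := hT_pos hT
  have hn0 : (0 : ℝ) < n := by exact_mod_cast hn
  have hc : Continuous fun t : ℝ => Real.exp (-t) := by fun_prop
  have hle : Real.log n - Real.log (1 + 1 / T) ≤ Real.log n := by linarith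
  unfold Gn
  constructor
  · exact ((hc.integrableOn_Icc).mono_set Ico_subset_Icc_self).integrable_indicator
      measurableSet_Ico
  · rw [integral_indicator measurableSet_Ico, integral_Ico_eq_integral_Ioo,
      ← integral_Ioc_eq_integral_Ioo, ← intervalIntegral.integral_of_le hle]
    have h1 : ∫ t in (Real.log n - Real.log (1 + 1 / T))..(Real.log n), Real.exp (-t) =
        Real.exp (-(Real.log n - Real.log (1 + 1 / T))) - Real.exp (-Real.log n) := by
      rw [intervalIntegral.integral_comp_neg (fun t => Real.exp t), integral_exp]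
    rw [h1]
    have e1 : Real.exp (-(Real.log n - Real.log (1 + 1 / T))) =
        Real.exp (-Real.log n) * (1 + 1 / T) := by
      have : -(Real.log n - Real.log (1 + 1 / T)) = -Real.log n + Real.log (1 + 1 / T) := by ring
      rw [this, Real.exp_add, Real.exp_log (by positivity)]
    rw [e1, Real.exp_neg, Real.exp_log hn0]
    field_simp
    ring

lemma mem_near {T t : ℝ} (hT : 0 < T) {n : ℕ} : n ∈ Finset.Ioc ⌊Real.exp t⌋₊
      ⌊Real.exp t * (1 + 1 / T)⌋₊ ↔ Real.exp t < n ∧ (n : ℝ) ≤ Real.exp t * (1 + 1 / T) := by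
  have hx := Real.exp_pos t
  rw [Finset.mem_Ioc, Nat.floor_lt hx.le, Nat.le_floor_iff (by positivity)]

lemma Gn_val {T t : ℝ} (hT : 0 < T) {n : ℕ} (h : Real.exp t < n ∧
    (n : ℝ) ≤ Real.exp t * (1 + 1 / T)) : Gn T n t = Real.exp (-t) := by
  have hn0 : (0 : ℝ) < n := (Real.exp_pos t).trans h.1
  unfold Gn
  rw [indicator_of_mem]
  constructor
  · have h2 := Real.log_le_log hn0 h.2
    rw [Real.log_mul (Real.exp_pos t).ne' (by positivity), Real.log_exp] at h2
    linarith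
  · rw [Real.lt_log_iff_exp_lt hn0]
    exact h.1

/-- the pointwise bound -/
lemma Qu_near {T L t : ℝ} (hT : 3 ≤ T) (hL : Real.exp L = T) (ht : t ≤ L + 1) {A : Finset ℕ}
    (hA : ∀ n : ℕ, Real.exp t < n → (n : ℝ) ≤ Real.exp t * (1 + 1 / T) → n ∈ A) :
    Qu T t ≤ 8 * ∑ n ∈ A, vonMangoldt n ^ 2 * Gn T n t + 6 / T := by
  have hT0 : 0 < T := by linarith
  have hx := Real.exp_pos t
  have hxT : Real.exp t / T ≤ Real.exp 1 := by
    rw [div_le_iff₀ hT0, ← hL, ← Real.exp_add]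
    apply Real.exp_le_exp.2
    linarith
  have he1 : Real.exp 1 < 3 := by have := Real.exp_one_lt_d9; linarith
  obtain ⟨B, hB⟩ : ∃ B : Finset ℕ, B = Finset.Ioc ⌊Real.exp t⌋₊ ⌊Real.exp t * (1 + 1 / T)⌋₊ :=
    ⟨_, rfl⟩
  have hcard : (B.card : ℝ) ≤ 4 := by
    rw [hB, Nat.card_Ioc]
    have h1 : ⌊Real.exp t⌋₊ ≤ ⌊Real.exp t * (1 + 1 / T)⌋₊ := by
      apply Nat.floor_le_floor
      have : 0 < 1 / T := by positivity
      nlinarith
    rw [Nat.cast_sub h1]
    have h2 := Nat.floor_le (show 0 ≤ Real.exp t * (1 + 1 / T) by positivity)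
    have h3 := Nat.lt_floor_add_one (Real.exp t)
    have h4 : Real.exp t * (1 + 1 / T) = Real.exp t + Real.exp t / T := by ring
    linarith
  have h1 : (∑ n ∈ B, vonMangoldt n) ^ 2 ≤ 4 * ∑ n ∈ B, vonMangoldt n ^ 2 := by
    refine (sq_sum_le_card_mul_sum_sq).trans ?_
    exact mul_le_mul_of_nonneg_right hcard (Finset.sum_nonneg fun n _ => sq_nonneg _)
  have h2 : Real.exp (-t) * ∑ n ∈ B, vonMangoldt n ^ 2 ≤
      ∑ n ∈ A, vonMangoldt n ^ 2 * Gn T n t := by
    rw [Finset.mul_sum]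
    have h3 : ∑ n ∈ B, Real.exp (-t) * vonMangoldt n ^ 2 =
        ∑ n ∈ B, vonMangoldt n ^ 2 * Gn T n t := by
      refine Finset.sum_congr rfl fun n hn => ?_
      rw [hB, mem_near hT0] at hn
      rw [Gn_val hT0 hn]
      ring
    rw [h3]
    refine Finset.sum_le_sum_of_subset_of_nonneg (fun n hn => ?_) fun n _ _ =>
      mul_nonneg (sq_nonneg _) (Gn_nonneg _ _ _)
    rw [hB, mem_near hT0] at hn
    exact hA n hn.1 hn.2
  have h3 : Su T t = (∑ n ∈ B, vonMangoldt n) - Real.exp t / T := by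
    rw [Su_In hT0, ← In_tsum hT0, hB]
  obtain ⟨S, hS⟩ : ∃ S : ℝ, S = ∑ n ∈ B, vonMangoldt n := ⟨_, rfl⟩
  rw [← hS] at h1 h3
  have h4 : Su T t ^ 2 ≤ 2 * S ^ 2 + 2 * (Real.exp t / T) ^ 2 := by
    rw [h3]
    nlinarith [sq_nonneg (S + Real.exp t / T)]
  have h5 : Real.exp (-t) * (2 * (Real.exp t / T) ^ 2) ≤ 6 / T := by
    have e : Real.exp (-t) * (2 * (Real.exp t / T) ^ 2) = 2 / T * (Real.exp t / T) := by
      rw [Real.exp_neg]
      field_simp
    rw [e]
    calc 2 / T * (Real.exp t / T) ≤ 2 / T * 3 := by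
          apply mul_le_mul_of_nonneg_left (by linarith) (by positivity)
      _ = 6 / T := by ring
  have hE := Real.exp_pos (-t)
  unfold Qu
  have h6 := mul_le_mul_of_nonneg_left h4 hE.le
  have h7 := mul_le_mul_of_nonneg_left h1 hE.le
  nlinarith

/-- **the edge for sharp windows** -/
theorem near_sharp {ε : ℝ} (hε : 0 < ε) : ∃ δ : ℝ, 0 < δ ∧ δ ≤ 1 / 8 ∧ ∀ᶠ T in atTop,
    T / Real.log T ^ 2 * ∫ u in ((1 - δ) * Real.log T)..(Real.log T + 1), Qu T u ≤ ε := by
  obtain ⟨δ, hδ⟩ : ∃ δ : ℝ, δ = min (1 / 8) (ε / 16) := ⟨_, rfl⟩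
  have hδ0 : 0 < δ := by rw [hδ]; exact lt_min (by norm_num) (by positivity)
  have hδ1 : δ ≤ 1 / 8 := by rw [hδ]; exact min_le_left _ _
  have hδ2 : δ ≤ ε / 16 := by rw [hδ]; exact min_le_right _ _
  refine ⟨δ, hδ0, hδ1, ?_⟩
  filter_upwards [eventually_ge_atTop (10 : ℝ),
    Real.tendsto_log_atTop.eventually_ge_atTop (10 + 1000 / ε)] with T hT hLL
  have hT0 : 0 < T := by linarith
  obtain ⟨L, hLe⟩ : ∃ L : ℝ, L = Real.log T := ⟨_, rfl⟩
  rw [← hLe] at hLL ⊢
  have hq : 0 ≤ 1000 / ε := by positivity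
  have hL10 : 10 ≤ L := by linarith
  have hL0 : 0 < L := by linarith
  have hexpL : Real.exp L = T := by rw [hLe]; exact Real.exp_log hT0
  obtain ⟨a, ha⟩ : ∃ a : ℝ, a = (1 - δ) * L := ⟨_, rfl⟩
  rw [← ha]
  have ha2 : 3 ≤ a := by rw [ha]; nlinarith
  have haL : a ≤ L := by rw [ha]; nlinarith
  have hba : L + 1 - a = δ * L + 1 := by rw [ha]; ring
  obtain ⟨N₁, hN₁⟩ : ∃ N₁ : ℕ, N₁ = ⌊Real.exp a⌋₊ := ⟨_, rfl⟩
  obtain ⟨N₂, hN₂⟩ : ∃ N₂ : ℕ, N₂ = ⌊Real.exp (L + 2)⌋₊ := ⟨_, rfl⟩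
  have hy1 : 1 ≤ Real.exp a := Real.one_le_exp (by linarith)
  have hN1 : 1 ≤ N₁ := by
    rw [hN₁]
    exact Nat.le_floor (by simpa using hy1)
  have hN12 : N₁ ≤ N₂ := by
    rw [hN₁, hN₂]
    exact Nat.floor_le_floor (Real.exp_le_exp.2 (by linarith))
  have hN1' : (0 : ℝ) < N₁ := by exact_mod_cast hN1
  have hN2' : (0 : ℝ) < N₂ := by exact_mod_cast (hN1.trans hN12)
  have hlogN2 : Real.log N₂ ≤ L + 2 := by
    rw [Real.log_le_iff_le_exp hN2', hN₂]
    exact Nat.floor_le (Real.exp_pos _).le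
  have hlogN1 : a - 1 ≤ Real.log N₁ := by
    have h1 : Real.exp a < N₁ + 1 := by rw [hN₁]; exact Nat.lt_floor_add_one _
    have h2 : (1 : ℝ) ≤ N₁ := by exact_mod_cast hN1
    have h3 : Real.exp (a - 1) ≤ N₁ := by
      have e : Real.exp a = Real.exp (a - 1) * Real.exp 1 := by
        rw [← Real.exp_add]; congr 1; ring
      have h4 : 2 ≤ Real.exp 1 := by have := Real.add_one_le_exp (1 : ℝ); linarith
      have h5 := Real.exp_pos (a - 1)
      nlinarith
    rw [Real.le_log_iff_exp_le hN1']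
    exact h3
  have hmem1 : ∀ n ∈ Finset.Ioc N₁ N₂, 1 ≤ n := by
    intro n hn
    rw [Finset.mem_Ioc] at hn
    omega
  have hinv : 1 / T ≤ 1 := by rw [div_le_one hT0]; linarith
  have hpt : ∀ t ∈ Icc a (L + 1), Qu T t ≤
      8 * ∑ n ∈ Finset.Ioc N₁ N₂, vonMangoldt n ^ 2 * Gn T n t + 6 / T := by
    intro t ht
    refine Qu_near (by linarith) hexpL ht.2 fun n h1 h2 => ?_
    rw [Finset.mem_Ioc, hN₁, hN₂, Nat.floor_lt (Real.exp_pos a).le,
      Nat.le_floor_iff (Real.exp_pos _).le]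
    refine ⟨lt_of_le_of_lt (Real.exp_le_exp.2 ht.1) h1, h2.trans ?_⟩
    have h3 : Real.exp t ≤ Real.exp (L + 1) := Real.exp_le_exp.2 ht.2
    have h4 : Real.exp (L + 2) = Real.exp (L + 1) * Real.exp 1 := by
      rw [← Real.exp_add]; congr 1; ring
    have h5 : 2 ≤ Real.exp 1 := by have := Real.add_one_le_exp (1 : ℝ); linarith
    have h6 := Real.exp_pos t
    have h7 := Real.exp_pos (L + 1)
    have h8 : 0 < 1 / T := by positivity
    rw [h4]
    exact mul_le_mul h3 (by linarith) (by linarith) h7.le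
  have iG : ∀ n ∈ Finset.Ioc N₁ N₂, Integrable fun t => vonMangoldt n ^ 2 * Gn T n t :=
    fun n hn => (Gn_int hT0 (hmem1 n hn)).1.const_mul _
  have iS : Integrable fun t => ∑ n ∈ Finset.Ioc N₁ N₂, vonMangoldt n ^ 2 * Gn T n t :=
    integrable_finsetSum _ iG
  have hab : a ≤ L + 1 := by linarith
  have i1 : IntervalIntegrable (fun t => 8 * ∑ n ∈ Finset.Ioc N₁ N₂,
      vonMangoldt n ^ 2 * Gn T n t) volume a (L + 1) := (iS.const_mul 8).intervalIntegrable
  have h1 := intervalIntegral.integral_mono_on hab (Qu_ii (show 1 ≤ T by linarith) _ _)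
    (i1.add (by simp)) hpt
  rw [intervalIntegral.integral_add i1 (by simp), intervalIntegral.integral_const_mul,
    intervalIntegral.integral_const, smul_eq_mul, hba] at h1
  have h2 : ∫ t in a..(L + 1), ∑ n ∈ Finset.Ioc N₁ N₂, vonMangoldt n ^ 2 * Gn T n t ≤
      1 / T * ((L + 2) * (δ * L + 10)) := by
    calc ∫ t in a..(L + 1), ∑ n ∈ Finset.Ioc N₁ N₂, vonMangoldt n ^ 2 * Gn T n t ≤
          ∫ t, ∑ n ∈ Finset.Ioc N₁ N₂, vonMangoldt n ^ 2 * Gn T n t := by
          rw [intervalIntegral.integral_of_le hab]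
          refine setIntegral_le_integral iS (ae_of_all _ fun t => ?_)
          exact Finset.sum_nonneg fun n _ => mul_nonneg (sq_nonneg _) (Gn_nonneg _ _ _)
      _ = ∑ n ∈ Finset.Ioc N₁ N₂, vonMangoldt n ^ 2 * (1 / T / n) := by
          rw [integral_finsetSum _ iG]
          refine Finset.sum_congr rfl fun n hn => ?_
          rw [integral_const_mul, (Gn_int hT0 (hmem1 n hn)).2]
      _ ≤ ∑ n ∈ Finset.Ioc N₁ N₂, 1 / T * ((L + 2) * (vonMangoldt n / n)) := by
          refine Finset.sum_le_sum fun n hn => ?_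
          have hn1 := hmem1 n hn
          have hn0 : (0 : ℝ) < n := by exact_mod_cast hn1
          have h3 := vonMangoldt_nonneg (n := n)
          have h4 : vonMangoldt n ≤ L + 2 := by
            refine vonMangoldt_le_log.trans ((Real.log_le_log hn0 ?_).trans hlogN2)
            rw [Finset.mem_Ioc] at hn
            exact_mod_cast hn.2
          calc vonMangoldt n ^ 2 * (1 / T / n) = 1 / T * (vonMangoldt n * (vonMangoldt n / n)) := by
                ring
            _ ≤ _ := by gcongr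
      _ ≤ _ := by
          rw [← Finset.mul_sum, ← Finset.mul_sum]
          have h3 := mertens_win hN1 hN12
          have h4 : ∑ n ∈ Finset.Ioc N₁ N₂, vonMangoldt n / (n : ℝ) ≤ δ * L + 10 := by linarith
          gcongr
  have hTL : 0 ≤ T / L ^ 2 := by positivity
  refine (mul_le_mul_of_nonneg_left h1 hTL).trans ?_
  have h3 : T / L ^ 2 * (8 * (∫ t in a..(L + 1), ∑ n ∈ Finset.Ioc N₁ N₂,
      vonMangoldt n ^ 2 * Gn T n t) + (δ * L + 1) * (6 / T)) ≤
      T / L ^ 2 * (8 * (1 / T * ((L + 2) * (δ * L + 10))) + (δ * L + 1) * (6 / T)) := by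
    gcongr
  refine h3.trans ?_
  have e1 : T / L ^ 2 * (8 * (1 / T * ((L + 2) * (δ * L + 10))) + (δ * L + 1) * (6 / T)) =
      8 * ((L + 2) * (δ * L + 10) / L ^ 2) + 6 * ((δ * L + 1) / L ^ 2) := by
    field_simp
  rw [e1]
  have b1 : (L + 2) * (δ * L + 10) / L ^ 2 ≤ δ + 30 / L := by
    have h2 : δ + 30 / L = (δ * L ^ 2 + 30 * L) / L ^ 2 := by field_simp
    rw [h2]
    apply div_le_div_of_nonneg_right _ (by positivity)
    nlinarith
  have b2 : (δ * L + 1) / L ^ 2 ≤ 2 / L := by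
    rw [div_le_div_iff₀ (by positivity) hL0]
    nlinarith
  have b3 : 252 / L ≤ ε / 2 := by
    rw [div_le_iff₀ hL0]
    have h7 : 1000 / ε ≤ L := by linarith
    rw [div_le_iff₀ hε] at h7
    linarith
  have b4 : 8 * (δ + 30 / L) + 6 * (2 / L) = 8 * δ + 252 / L := by ring
  linarith

end Pool.Agent.NH10.SV
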