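import Pool.Agent.NH10.SV.RHt

/-! # A bound for the variance of the primes in short intervals implies RH: the conclusion -/

set_option autoImplicit false
set_option maxHeartbeats 4000000

open MeasureTheory Filter Topology Set

namespace Pool.Agent.NH10.SV

lemma psi_int {s : ℂ} (hs : 1 < s.re) :
    IntegrableOn (fun x : ℝ => (Chebyshev.psi x : ℂ) * (x : ℂ) ^ (-(s + 1))) (Ioi 1) := by
  have h1 := (integrableOn_Ioi_rpow_of_lt (a := -s.re) (by linarith) one_pos).const_mul 6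
  refine h1.mono' ?_ ?_
  · exact ((Complex.measurable_ofReal.comp psi_meas).mul
      (Complex.measurable_ofReal.pow_const _)).aestronglyMeasurable
  · refine (ae_restrict_mem measurableSet_Ioi).mono fun x hx => ?_
    have hx0 : 0 < x := lt_trans one_pos hx
    rw [norm_mul, cpow_norm hx0, Complex.norm_real, Real.norm_of_nonneg (Chebyshev.psi_nonneg x),
      Real.rpow_sub hx0, Real.rpow_one]
    have h2 := psi_le6 hx0.le
    have h3 : 0 < x ^ (-s.re) := Real.rpow_pos_of_pos hx0 _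
    calc Chebyshev.psi x * (x ^ (-s.re) / x) ≤ (6 * x) * (x ^ (-s.re) / x) :=
          mul_le_mul_of_nonneg_right h2 (by positivity)
      _ = 6 * x ^ (-s.re) := by field_simp

lemma psi_mellin {s : ℂ} (hs : 1 < s.re) :
    s * ∫ x in Ioi (1 : ℝ), (Chebyshev.psi x : ℂ) * (x : ℂ) ^ (-(s + 1)) =
      -deriv riemannZeta s / riemannZeta s := by
  have hsum : ∀ x : ℝ, ∑ k ∈ Finset.Icc 1 ⌊x⌋₊, ArithmeticFunction.vonMangoldt k =
      Chebyshev.psi x := by
    intro x
    unfold Chebyshev.psi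
    refine Finset.sum_congr ?_ fun _ _ => rfl
    ext k
    simp only [Finset.mem_Icc, Finset.mem_Ioc]
    omega
  have hO : (fun n : ℕ => ∑ k ∈ Finset.Icc 1 n, ArithmeticFunction.vonMangoldt k) =O[atTop]
      fun n : ℕ => (n : ℝ) ^ (1 : ℝ) := by
    refine Asymptotics.IsBigO.of_bound 6 (Eventually.of_forall fun n => ?_)
    have h1 := hsum n
    rw [Nat.floor_natCast] at h1
    rw [h1, Real.rpow_one, Real.norm_of_nonneg (Chebyshev.psi_nonneg _), Real.norm_of_nonneg
      (Nat.cast_nonneg n)]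
    exact psi_le6 (Nat.cast_nonneg n)
  have h1 := LSeries_eq_mul_integral_of_nonneg (fun n => ArithmeticFunction.vonMangoldt n)
    zero_le_one (s := s) hs hO fun n => ArithmeticFunction.vonMangoldt_nonneg
  rw [ArithmeticFunction.LSeries_vonMangoldt_eq_deriv_riemannZeta_div hs] at h1
  rw [h1]
  congr 1
  refine integral_congr_ae (ae_of_all _ fun x => ?_)
  simp only
  rw [← hsum x]
  push_cast
  rfl

lemma psi2 {s : ℂ} (hs : 1 < s.re) :
    IntegrableOn (fun x : ℝ => (Chebyshev.psi (2 * x) : ℂ) * (x : ℂ) ^ (-(s + 1))) (Ioi 1) ∧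
    ∫ x in Ioi (1 : ℝ), (Chebyshev.psi (2 * x) : ℂ) * (x : ℂ) ^ (-(s + 1)) =
      (2 : ℂ) ^ s * ∫ x in Ioi (1 : ℝ), (Chebyshev.psi x : ℂ) * (x : ℂ) ^ (-(s + 1)) := by
  obtain ⟨g, hg⟩ : ∃ g : ℝ → ℂ, ∀ x, g x = (Chebyshev.psi x : ℂ) * (x : ℂ) ^ (-(s + 1)) :=
    ⟨_, fun x => rfl⟩
  have e1 : ∀ x ∈ Ioi (1 : ℝ), (Chebyshev.psi (2 * x) : ℂ) * (x : ℂ) ^ (-(s + 1)) =
      (2 : ℂ) ^ (s + 1) * g (2 * x) := by
    intro x hx
    have hx0 : 0 < x := lt_trans one_pos hx
    rw [hg]
    have h2 : ((2 * x : ℝ) : ℂ) ^ (-(s + 1)) = (2 : ℂ) ^ (-(s + 1)) * (x : ℂ) ^ (-(s + 1)) := by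
      rw [Complex.ofReal_mul, Complex.mul_cpow_ofReal_nonneg (by norm_num) hx0.le]
      norm_num
    rw [h2]
    have h3 : (2 : ℂ) ^ (s + 1) * (2 : ℂ) ^ (-(s + 1)) = 1 := by
      rw [← Complex.cpow_add _ _ two_ne_zero, add_neg_cancel, Complex.cpow_zero]
    linear_combination (-(Chebyshev.psi (2 * x) : ℂ) * (x : ℂ) ^ (-(s + 1))) * h3
  have hgi : IntegrableOn g (Ioi 1) := by
    refine (psi_int hs).congr_fun (fun x _ => ?_) measurableSet_Ioi
    exact (hg x).symm
  have hg2 : IntegrableOn (fun x => g (2 * x)) (Ioi 1) := by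
    rw [integrableOn_Ioi_comp_mul_left_iff _ _ two_pos]
    exact hgi.mono_set (Ioi_subset_Ioi (by norm_num))
  have hzero : ∫ x in Ioi (1 : ℝ), g x = ∫ x in Ioi (2 * 1 : ℝ), g x := by
    rw [← Ioc_union_Ioi_eq_Ioi (show (1 : ℝ) ≤ 2 * 1 by norm_num),
      setIntegral_union (Ioc_disjoint_Ioi le_rfl) measurableSet_Ioi
      (hgi.mono_set Ioc_subset_Ioi_self) (hgi.mono_set (Ioi_subset_Ioi (by norm_num)))]
    have : ∫ x in Ioc (1 : ℝ) (2 * 1), g x = 0 := by
      rw [← integral_Ico_eq_integral_Ioc]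
      refine setIntegral_eq_zero_of_forall_eq_zero fun x hx => ?_
      rw [hg, Chebyshev.psi_eq_zero_of_lt_two (by linarith [hx.2]), Complex.ofReal_zero, zero_mul]
    rw [this, zero_add]
  constructor
  · refine IntegrableOn.congr_fun (hg2.const_mul ((2 : ℂ) ^ (s + 1))) (fun x hx => ?_)
      measurableSet_Ioi
    exact (e1 x hx).symm
  · rw [setIntegral_congr_fun measurableSet_Ioi e1, integral_const_mul,
      integral_comp_mul_left_Ioi g 1 two_pos, ← hzero]
    simp_rw [← hg]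
    rw [Complex.cpow_add _ _ two_ne_zero, Complex.cpow_one, Complex.real_smul]
    push_cast
    ring

lemma FH_eq {s : ℂ} (hs : 1 < s.re) :
    s * FH s = ((2 : ℂ) ^ s - 1) * (-deriv riemannZeta s / riemannZeta s) - s / (s - 1) := by
  have hre : s - 1 ≠ 0 := by
    intro h
    have := congrArg Complex.re h
    simp at this
    linarith
  have hxi : IntegrableOn (fun x : ℝ => (x : ℂ) * (x : ℂ) ^ (-(s + 1))) (Ioi 1) ∧
      ∫ x in Ioi (1 : ℝ), (x : ℂ) * (x : ℂ) ^ (-(s + 1)) = 1 / (s - 1) := by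
    have e1 : ∀ x ∈ Ioi (1 : ℝ), (x : ℂ) * (x : ℂ) ^ (-(s + 1)) = (x : ℂ) ^ (-s) := by
      intro x hx
      have hx0 : (x : ℂ) ≠ 0 := by
        have : (0 : ℝ) < x := lt_trans one_pos hx
        exact_mod_cast this.ne'
      nth_rw 1 [← Complex.cpow_one (x : ℂ)]
      rw [← Complex.cpow_add _ _ hx0]
      congr 1
      ring
    constructor
    · refine (integrableOn_Ioi_cpow_of_lt (a := -s) (by simp; linarith) one_pos).congr_fun
        (fun x hx => (e1 x hx).symm) measurableSet_Ioi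
    · rw [setIntegral_congr_fun measurableSet_Ioi e1, integral_Ioi_cpow_of_lt (by simp; linarith)
        one_pos, Complex.ofReal_one, Complex.one_cpow, neg_div, ← div_neg]
      congr 1
      ring
  have h1 := psi_int hs
  obtain ⟨h2, h3⟩ := psi2 hs
  have e : FH s = (∫ x in Ioi (1 : ℝ), (Chebyshev.psi (2 * x) : ℂ) * (x : ℂ) ^ (-(s + 1))) -
      (∫ x in Ioi (1 : ℝ), (Chebyshev.psi x : ℂ) * (x : ℂ) ^ (-(s + 1))) -
      ∫ x in Ioi (1 : ℝ), (x : ℂ) * (x : ℂ) ^ (-(s + 1)) := by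
    rw [← integral_sub h2 h1]
    refine Eq.trans ?_ (integral_sub (h2.sub h1) hxi.1)
    unfold FH
    refine integral_congr_ae (ae_of_all _ fun x => ?_)
    unfold Hx
    simp only [Pi.sub_apply]
    push_cast
    ring
  rw [e, h3, hxi.2, mul_sub, mul_sub]
  have h4 := psi_mellin hs
  rw [← h4]
  ring

/-- **the growth condition implies the Riemann hypothesis** -/
theorem RH_of_growth (hg : Grow Hx) : RiemannHypothesis := by
  have hz1 : ∀ s : ℂ, s ≠ 1 → riemannZeta₁ s = (s - 1) * riemannZeta s := by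
    intro s hs
    have h : s - 1 ≠ 0 := sub_ne_zero.2 hs
    rw [riemannZeta_eq_inv_sub_mul hs, ← mul_assoc, mul_inv_cancel₀ h, one_mul]
  -- the regular factor
  obtain ⟨k, hk⟩ : ∃ k : ℂ → ℂ, k = dslope (fun s : ℂ => (2 : ℂ) ^ s - 1 - s) 1 := ⟨_, rfl⟩
  have hkd : Differentiable ℂ k := by
    rw [hk]
    have h1 : Differentiable ℂ fun s : ℂ => (2 : ℂ) ^ s - 1 - s := by
      intro s
      refine DifferentiableAt.sub (DifferentiableAt.sub ?_ (differentiableAt_const _))
        differentiableAt_id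
      exact differentiableAt_id.const_cpow (Or.inl two_ne_zero)
    rw [← differentiableOn_univ] at h1 ⊢
    exact (Complex.differentiableOn_dslope (by simp)).2 h1
  have hk1 : ∀ s : ℂ, s ≠ 1 → k s * (s - 1) = (2 : ℂ) ^ s - 1 - s := by
    intro s hs
    rw [hk, dslope_of_ne _ hs, slope_def_field]
    have h : s - 1 ≠ 0 := sub_ne_zero.2 hs
    rw [div_mul_cancel₀ _ h, Complex.cpow_one]
    ring
  obtain ⟨U, hU⟩ : ∃ U : Set ℂ, U = {s : ℂ | 1 / 2 < s.re} := ⟨_, rfl⟩
  have hUo : IsOpen U := by rw [hU]; exact isOpen_lt continuous_const Complex.continuous_re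
  have hUc : IsPreconnected U := by
    rw [hU]
    exact (convex_halfSpace_re_gt (1 / 2)).isPreconnected
  have hzd := differentiable_riemannZeta₁
  have hzdd : Differentiable ℂ (deriv riemannZeta₁) := fun s =>
    (hzd.differentiableOn.analyticAt (s := univ) univ_mem).deriv.differentiableAt
  have hcp : Differentiable ℂ fun s : ℂ => (2 : ℂ) ^ s - 1 := fun s =>
    DifferentiableAt.sub (differentiableAt_id.const_cpow (Or.inl two_ne_zero))
      (differentiableAt_const _)
  obtain ⟨A, hA⟩ : ∃ A : ℂ → ℂ, ∀ s, A s = s * FH s * riemannZeta₁ s := ⟨_, fun s => rfl⟩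
  obtain ⟨B, hB⟩ : ∃ B : ℂ → ℂ, ∀ s, B s = riemannZeta₁ s * k s -
    ((2 : ℂ) ^ s - 1) * deriv riemannZeta₁ s := ⟨_, fun s => rfl⟩
  have hAd : DifferentiableOn ℂ A U := by
    intro s hs
    rw [hU] at hs
    have h1 := FH_diff hg hs
    have : A = fun s => s * FH s * riemannZeta₁ s := funext hA
    rw [this]
    exact ((differentiableAt_id.mul h1).mul (hzd s)).differentiableWithinAt
  have hBd : DifferentiableOn ℂ B U := by
    intro s _
    have : B = fun s => riemannZeta₁ s * k s - ((2 : ℂ) ^ s - 1) * deriv riemannZeta₁ s := funext hB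
    rw [this]
    exact (((hzd s).mul (hkd s)).sub ((hcp s).mul (hzdd s))).differentiableWithinAt
  have hAB1 : ∀ s : ℂ, 1 < s.re → A s = B s := by
    intro s hs
    have hs1 : s ≠ 1 := by
      intro h
      rw [h] at hs
      simp at hs
    have hs0 : s - 1 ≠ 0 := sub_ne_zero.2 hs1
    have hζ : riemannZeta s ≠ 0 := riemannZeta_ne_zero_of_one_lt_re hs
    have hd : deriv riemannZeta₁ s = riemannZeta s + (s - 1) * deriv riemannZeta s := by
      have h1 : riemannZeta₁ =ᶠ[𝓝 s] fun s => (s - 1) * riemannZeta s := by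
        filter_upwards [isOpen_ne.mem_nhds hs1] with z hz
        exact hz1 z hz
      rw [h1.deriv_eq]
      have h2 : HasDerivAt (fun z : ℂ => (z - 1) * riemannZeta z)
          (1 * riemannZeta s + (s - 1) * deriv riemannZeta s) s :=
        ((hasDerivAt_id s).sub_const 1).fun_mul (differentiableAt_riemannZeta hs1).hasDerivAt
      rw [h2.deriv]
      ring
    rw [hA, hB, FH_eq hs, hd, hz1 s hs1]
    have h3 := hk1 s hs1
    have h4 : (s - 1) * riemannZeta s * k s = riemannZeta s * ((2 : ℂ) ^ s - 1 - s) := by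
      rw [← h3]
      ring
    rw [h4]
    field_simp
    ring
  have hAB : EqOn A B U := by
    have h2 : (2 : ℂ) ∈ U := by rw [hU]; norm_num
    refine (hAd.analyticOnNhd hUo).eqOn_of_preconnected_of_eventuallyEq
      (hBd.analyticOnNhd hUo) hUc h2 ?_
    have h3 : {s : ℂ | 1 < s.re} ∈ 𝓝 (2 : ℂ) :=
      (isOpen_lt continuous_const Complex.continuous_re).mem_nhds (by norm_num)
    filter_upwards [h3] with s hs
    exact hAB1 s hs
  refine RH_of fun ρ hρ hρ1 hζ => ?_
  have hζ1 : riemannZeta₁ ρ = 0 := by rw [hz1 ρ hρ1, hζ, mul_zero]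
  have hρU : ρ ∈ U := by rw [hU]; exact hρ
  have h2ρ : (2 : ℂ) ^ ρ - 1 ≠ 0 := by
    intro h
    have h1 : ‖(2 : ℂ) ^ ρ‖ = 1 := by
      rw [sub_eq_zero.1 h, norm_one]
    have h2 : ‖(2 : ℂ) ^ ρ‖ = (2 : ℝ) ^ ρ.re := by
      have := Complex.norm_cpow_eq_rpow_re_of_pos (x := 2) two_pos ρ
      norm_num at this
      exact this
    rw [h2] at h1
    have h3 : (1 : ℝ) < 2 ^ ρ.re := Real.one_lt_rpow (by norm_num) (by linarith)
    linarith
  -- the logarithmic derivative is regular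
  obtain ⟨G, hG⟩ : ∃ G : ℂ → ℂ, ∀ s, G s = (k s - s * FH s) / ((2 : ℂ) ^ s - 1) :=
    ⟨_, fun s => rfl⟩
  have hGa : AnalyticAt ℂ G ρ := by
    have hev : ∀ᶠ s in 𝓝 ρ, DifferentiableAt ℂ G s := by
      have h1 : ∀ᶠ s in 𝓝 ρ, (2 : ℂ) ^ s - 1 ≠ 0 :=
        (hcp ρ).continuousAt.eventually_ne h2ρ
      filter_upwards [h1, hUo.mem_nhds hρU] with s h2 h3
      rw [hU] at h3
      have : G = fun s => (k s - s * FH s) / ((2 : ℂ) ^ s - 1) := funext hG
      rw [this]
      exact ((hkd s).sub (differentiableAt_id.mul (FH_diff hg h3))).div (hcp s) h2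
    exact Complex.analyticAt_iff_eventually_differentiableAt.2 hev
  have hz1a : AnalyticAt ℂ riemannZeta₁ ρ :=
    hzd.differentiableOn.analyticAt (s := univ) univ_mem
  have hode : deriv riemannZeta₁ =ᶠ[𝓝 ρ] riemannZeta₁ * G := by
    have h1 : ∀ᶠ s in 𝓝 ρ, (2 : ℂ) ^ s - 1 ≠ 0 :=
      (hcp ρ).continuousAt.eventually_ne h2ρ
    filter_upwards [h1, hUo.mem_nhds hρU] with s h2 h3
    have h4 := hAB h3
    rw [hA, hB] at h4
    rw [Pi.mul_apply, hG]
    field_simp
    linear_combination h4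
  have hord := hz1a.analyticOrderAt_deriv_add_one
  have h0 : (fun z => riemannZeta₁ z - riemannZeta₁ ρ) = riemannZeta₁ := by
    funext z
    rw [hζ1, sub_zero]
  rw [h0, analyticOrderAt_congr hode, analyticOrderAt_mul hz1a hGa] at hord
  have htop : analyticOrderAt riemannZeta₁ ρ = ⊤ := by
    by_contra hne
    have h1 : analyticOrderAt riemannZeta₁ ρ + 1 ≤ analyticOrderAt riemannZeta₁ ρ := by
      nth_rw 2 [← hord]
      gcongr
      exact le_self_add
    have h2 := ENat.lt_add_one_iff hne |>.2 le_rfl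
    exact absurd h1 (not_le.2 h2)
  rw [analyticOrderAt_eq_top] at htop
  have h3 : EqOn riemannZeta₁ 0 univ := by
    refine (hzd.differentiableOn.analyticOnNhd isOpen_univ).eqOn_of_preconnected_of_eventuallyEq
      (analyticOnNhd_const) isPreconnected_univ (mem_univ ρ) ?_
    filter_upwards [htop] with z hz
    exact hz
  have h4 := h3 (mem_univ 1)
  rw [riemannZeta₁_one] at h4
  simp at h4

/-- **the variance implies the Riemann hypothesis** -/
theorem RH_of_var (h : ∀ B : ℝ, 1 < B → ∃ C T₀ : ℝ, ∀ T : ℝ, T₀ ≤ T → Js T 1 B ≤ C) :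
    RiemannHypothesis := RH_of_growth fun _ hε => growth h hε

end Pool.Agent.NH10.SV
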