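import Pool.Agent.NH10.SV.Pe
import Pool.Agent.Erdos456.Mertens

/-! # The range up to `T` -/

set_option autoImplicit false
set_option maxHeartbeats 4000000

open Filter Topology Set MeasureTheory ArithmeticFunction

namespace Pool.Agent.NH10.SV

open Pool.Agent.NH10.GM

/-- partial summation -/
lemma abel {a : ℕ → ℝ} {C : ℝ} (hC : 0 ≤ C)
    (h : ∀ N : ℕ, 1 ≤ N → |(∑ n ∈ Finset.Icc 1 N, a n) - Real.log N| ≤ C) {N : ℕ} (hN : 1 ≤ N) :
    |(∑ n ∈ Finset.Icc 1 N, a n * Real.log n) - Real.log N ^ 2 / 2| ≤ (2 * C + 1) * Real.log N := by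
  have key : ∀ N : ℕ, 1 ≤ N → |(∑ n ∈ Finset.Icc 1 N, a n) * Real.log N -
      (∑ n ∈ Finset.Icc 1 N, a n * Real.log n) - Real.log N ^ 2 / 2| ≤ (C + 1) * Real.log N := by
    intro N hN
    induction N, hN using Nat.le_induction with
    | base => simp
    | succ N hN ih =>
      have hA := h N hN
      rw [Finset.sum_Icc_succ_top (by omega), Finset.sum_Icc_succ_top (by omega)]
      obtain ⟨A, hAe⟩ : ∃ A : ℝ, A = ∑ n ∈ Finset.Icc 1 N, a n := ⟨_, rfl⟩
      obtain ⟨S, hSe⟩ : ∃ S : ℝ, S = ∑ n ∈ Finset.Icc 1 N, a n * Real.log n := ⟨_, rfl⟩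
      rw [← hAe] at hA ih ⊢
      rw [← hSe] at ih ⊢
      obtain ⟨x, hx⟩ : ∃ x : ℝ, x = Real.log N := ⟨_, rfl⟩
      obtain ⟨y, hy⟩ : ∃ y : ℝ, y = Real.log ((N + 1 : ℕ) : ℝ) := ⟨_, rfl⟩
      rw [← hx] at hA ih
      rw [← hy]
      have hN0 : (0 : ℝ) < N := by exact_mod_cast hN
      have hN1 : (1 : ℝ) ≤ N := by exact_mod_cast hN
      have hxy : x ≤ y := by
        rw [hx, hy]
        apply Real.log_le_log hN0
        push_cast
        linarith
      have hyx : y - x ≤ 1 := by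
        rw [hx, hy, ← Real.log_div (by positivity) hN0.ne']
        have h1 := Real.log_le_sub_one_of_pos (show 0 < ((N + 1 : ℕ) : ℝ) / N by positivity)
        have h2 : ((N + 1 : ℕ) : ℝ) / N ≤ 2 := by
          rw [div_le_iff₀ hN0]
          push_cast
          linarith
        linarith
      have e : (A + a (N + 1)) * y - (S + a (N + 1) * y) - y ^ 2 / 2 =
          (A * x - S - x ^ 2 / 2) + (y - x) * (A - x - (y - x) / 2) := by ring
      rw [e]
      refine (abs_add_le _ _).trans ?_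
      have h2 : |(y - x) * (A - x - (y - x) / 2)| ≤ (y - x) * (C + 1) := by
        rw [abs_mul, abs_of_nonneg (by linarith : 0 ≤ y - x)]
        refine mul_le_mul_of_nonneg_left ?_ (by linarith)
        have h3 := abs_sub (A - x) ((y - x) / 2)
        have h4 : |(y - x) / 2| ≤ 1 := by
          rw [abs_of_nonneg (by linarith)]
          linarith
        linarith
      linarith
  have h1 := key N hN
  have h2 := h N hN
  obtain ⟨A, hAe⟩ : ∃ A : ℝ, A = ∑ n ∈ Finset.Icc 1 N, a n := ⟨_, rfl⟩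
  obtain ⟨S, hSe⟩ : ∃ S : ℝ, S = ∑ n ∈ Finset.Icc 1 N, a n * Real.log n := ⟨_, rfl⟩
  rw [← hAe] at h1 h2
  rw [← hSe] at h1 ⊢
  have hx0 : 0 ≤ Real.log N := Real.log_natCast_nonneg N
  have e : S - Real.log N ^ 2 / 2 = (A - Real.log N) * Real.log N -
      (A * Real.log N - S - Real.log N ^ 2 / 2) := by ring
  rw [e]
  refine (abs_sub _ _).trans ?_
  rw [abs_mul, abs_of_nonneg hx0]
  have h3 := mul_le_mul_of_nonneg_right h2 hx0
  linarith

/-- the sum of the squares -/
theorem lam2 : ∃ C : ℝ, 0 ≤ C ∧ ∀ N : ℕ, 1 ≤ N →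
    |(∑ n ∈ Finset.Icc 1 N, vonMangoldt n ^ 2 / n) - Real.log N ^ 2 / 2| ≤ C * Real.log N := by
  obtain ⟨C, hC⟩ := Pool.Agent.Erdos456.Mert.mertens_log
  have hC0 : 0 ≤ C := (abs_nonneg _).trans (hC 1 le_rfl)
  have up : ∀ N : ℕ, 1 ≤ N → |(∑ n ∈ Finset.Icc 1 N, vonMangoldt n / n) - Real.log N| ≤ 6 := by
    intro N hN
    have h1 := H370.nt_mertens_lower N hN
    have h2 := H370.nt_mertens_upper N hN
    rw [abs_le]
    constructor <;> linarith
  have low : ∀ N : ℕ, 1 ≤ N → |(∑ n ∈ Finset.Icc 1 N,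
      (if Nat.Prime n then Real.log n / n else 0)) - Real.log N| ≤ C := by
    intro N hN
    rw [← Finset.sum_filter]
    exact hC N hN
  refine ⟨(2 * 6 + 1) + (2 * C + 1), by positivity, fun N hN => ?_⟩
  have h1 := abel (by norm_num) up hN
  have h2 := abel hC0 low hN
  have hx0 : 0 ≤ Real.log N := Real.log_natCast_nonneg N
  have h3 : (∑ n ∈ Finset.Icc 1 N, vonMangoldt n ^ 2 / n) ≤
      ∑ n ∈ Finset.Icc 1 N, vonMangoldt n / n * Real.log n := by
    refine Finset.sum_le_sum fun n hn => ?_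
    have hn0 : (0 : ℝ) < n := by exact_mod_cast (Finset.mem_Icc.1 hn).1
    have h4 := vonMangoldt_le_log (n := n)
    have h5 := vonMangoldt_nonneg (n := n)
    rw [sq, mul_div_right_comm]
    exact mul_le_mul_of_nonneg_left h4 (by positivity)
  have h4 : (∑ n ∈ Finset.Icc 1 N, (if Nat.Prime n then Real.log n / n else 0) * Real.log n) ≤
      ∑ n ∈ Finset.Icc 1 N, vonMangoldt n ^ 2 / n := by
    refine Finset.sum_le_sum fun n hn => ?_
    have hn0 : (0 : ℝ) < n := by exact_mod_cast (Finset.mem_Icc.1 hn).1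
    by_cases hp : Nat.Prime n
    · rw [if_pos hp, vonMangoldt_apply_prime hp, sq, mul_div_right_comm]
    · rw [if_neg hp, zero_mul]
      positivity
  rw [abs_le] at h1 h2 ⊢
  have h5 : 0 ≤ C * Real.log N := mul_nonneg hC0 hx0
  constructor <;> nlinarith [h1.1, h1.2, h2.1, h2.2]

lemma Gn_supp {T t : ℝ} (hT : 0 < T) {n : ℕ} (hn : 1 ≤ n) (h : Gn T n t ≠ 0) :
    Real.exp t < n ∧ (n : ℝ) ≤ Real.exp t * (1 + 1 / T) := by
  have hn0 : (0 : ℝ) < n := by exact_mod_cast hn
  unfold Gn at h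
  have h1 : t ∈ Ico (Real.log n - Real.log (1 + 1 / T)) (Real.log n) := by
    by_contra hcon
    exact h (indicator_of_notMem hcon _)
  constructor
  · rw [← Real.lt_log_iff_exp_lt hn0]
    exact h1.2
  · have h2 : Real.log n ≤ t + Real.log (1 + 1 / T) := by linarith [h1.1]
    rw [Real.log_le_iff_le_exp hn0, Real.exp_add, Real.exp_log (by positivity)] at h2
    exact h2

/-- the two pointwise bounds below `T` -/
lemma Qu_small {T L t : ℝ} (hT : 3 ≤ T) (hL : Real.exp L = T) (ht : t < L) {N : ℕ}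
    (hN : T < N) (hN' : (N : ℝ) ≤ T + 1) :
    Qu T t ≤ (∑ n ∈ Finset.Icc 1 N, vonMangoldt n ^ 2 * Gn T n t) + 1 / T ^ 2 * Real.exp t ∧
    (∑ n ∈ Finset.Icc 1 N, vonMangoldt n ^ 2 * Gn T n t) -
      2 / T * (∑ n ∈ Finset.Icc 1 N, vonMangoldt n * n * Gn T n t) ≤ Qu T t := by
  have hT0 : 0 < T := by linarith
  have hx := Real.exp_pos t
  have hxT : Real.exp t / T < 1 := by
    rw [div_lt_one hT0, ← hL]
    exact Real.exp_lt_exp.2 ht
  obtain ⟨B, hB⟩ : ∃ B : Finset ℕ, B = Finset.Ioc ⌊Real.exp t⌋₊ ⌊Real.exp t * (1 + 1 / T)⌋₊ :=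
    ⟨_, rfl⟩
  have hmB : ∀ n : ℕ, n ∈ B ↔ Real.exp t < n ∧ (n : ℝ) ≤ Real.exp t * (1 + 1 / T) := fun n => by
    rw [hB]; exact mem_near hT0
  have hone : ∀ n ∈ B, ∀ m ∈ B, n = m := by
    have h1 : ∀ n ∈ B, ∀ m ∈ B, n < m → False := by
      intro n hn m hm hnm
      rw [hmB] at hn hm
      have h2 : (n : ℝ) + 1 ≤ m := by exact_mod_cast hnm
      have h3 : Real.exp t * (1 + 1 / T) = Real.exp t + Real.exp t / T := by ring
      linarith [hn.1, hm.2]
    intro n hn m hm
    rcases lt_trichotomy n m with h | h | h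
    · exact (h1 n hn m hm h).elim
    · exact h
    · exact (h1 m hm n hn h).elim
  have hsq : (∑ n ∈ B, vonMangoldt n) ^ 2 = ∑ n ∈ B, vonMangoldt n ^ 2 := by
    rcases B.eq_empty_or_nonempty with h | ⟨n, hn⟩
    · rw [h]; simp
    · have hBs : B = {n} := by
        ext m
        rw [Finset.mem_singleton]
        exact ⟨fun hm => hone m hm n hn, fun hm => by rw [hm]; exact hn⟩
      rw [hBs]; simp
  have hsub : B ⊆ Finset.Icc 1 N := by
    intro n hn
    rw [hmB] at hn
    rw [Finset.mem_Icc]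
    have h1 : Real.exp t < T := by
      rw [← hL]; exact Real.exp_lt_exp.2 ht
    constructor
    · have h2 : (0 : ℝ) < n := hx.trans hn.1
      exact_mod_cast h2
    · have h2 : (n : ℝ) < T + 1 := by
        have h3 : Real.exp t * (1 + 1 / T) = Real.exp t + Real.exp t / T := by ring
        linarith [hn.2]
      have h3 : (n : ℝ) < (N : ℝ) + 1 := by linarith
      have h4 : n < N + 1 := by exact_mod_cast h3
      omega
  have hcut : ∀ f : ℕ → ℝ, ∑ n ∈ Finset.Icc 1 N, f n * Gn T n t =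
      ∑ n ∈ B, f n * Real.exp (-t) := by
    intro f
    rw [← Finset.sum_subset hsub]
    · refine Finset.sum_congr rfl fun n hn => ?_
      rw [Gn_val hT0 ((hmB n).1 hn)]
    · intro n hn1 hn2
      have : Gn T n t = 0 := by
        by_contra hcon
        exact hn2 ((hmB n).2 (Gn_supp hT0 (Finset.mem_Icc.1 hn1).1 hcon))
      rw [this, mul_zero]
  have h3 : Su T t = (∑ n ∈ B, vonMangoldt n) - Real.exp t / T := by
    rw [Su_In hT0, ← In_tsum hT0, hB]
  obtain ⟨S, hS⟩ : ∃ S : ℝ, S = ∑ n ∈ B, vonMangoldt n := ⟨_, rfl⟩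
  have hS0 : 0 ≤ S := by rw [hS]; exact Finset.sum_nonneg fun n _ => vonMangoldt_nonneg
  have e1 : ∑ n ∈ Finset.Icc 1 N, vonMangoldt n ^ 2 * Gn T n t = Real.exp (-t) * S ^ 2 := by
    rw [hcut, hS, hsq, Finset.mul_sum]
    exact Finset.sum_congr rfl fun n _ => by ring
  have hQ : Qu T t = Real.exp (-t) * S ^ 2 - 2 / T * S + 1 / T ^ 2 * Real.exp t := by
    unfold Qu
    rw [h3, ← hS]
    have e2 : Real.exp (-t) * (S - Real.exp t / T) ^ 2 = Real.exp (-t) * S ^ 2 -
        2 / T * S * (Real.exp (-t) * Real.exp t) + 1 / T ^ 2 * Real.exp t *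
          (Real.exp (-t) * Real.exp t) := by ring
    rw [e2, ← Real.exp_add, neg_add_cancel, Real.exp_zero]
    ring
  rw [e1, hQ]
  constructor
  · have : 0 ≤ 2 / T * S := by positivity
    linarith
  · have h4 : S ≤ ∑ n ∈ Finset.Icc 1 N, vonMangoldt n * n * Gn T n t := by
      rw [hcut, hS]
      refine Finset.sum_le_sum fun n hn => ?_
      have h5 := ((hmB n).1 hn).1
      have h6 : 1 ≤ (n : ℝ) * Real.exp (-t) := by
        have h7 : Real.exp t * Real.exp (-t) = 1 := by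
          rw [← Real.exp_add, add_neg_cancel, Real.exp_zero]
        have := Real.exp_pos (-t)
        nlinarith
      have h7 := vonMangoldt_nonneg (n := n)
      calc vonMangoldt n = vonMangoldt n * 1 := (mul_one _).symm
        _ ≤ vonMangoldt n * ((n : ℝ) * Real.exp (-t)) := mul_le_mul_of_nonneg_left h6 h7
        _ = _ := by ring
    have h5 := mul_le_mul_of_nonneg_left h4 (show 0 ≤ 2 / T by positivity)
    have h6 : 0 ≤ 1 / T ^ 2 * Real.exp t := by positivity
    linarith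

end Pool.Agent.NH10.SV
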