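import Pool.Agent.NH10.SV.Om

/-! # The Gaussian as a mixture of squares of cardinal sines -/

set_option autoImplicit false
set_option maxHeartbeats 4000000

open MeasureTheory Set Filter Topology

namespace Pool.Agent.NH10.SV

lemma pint (k : ℕ) : Integrable fun x : ℝ => x ^ k * Real.exp (-(x ^ 2 / 4)) := by
  have h1 := integrable_rpow_mul_exp_neg_mul_sq (b := 1 / 4) (by norm_num) (s := (k : ℝ)) (by
    have : (0 : ℝ) ≤ (k : ℝ) := Nat.cast_nonneg k
    linarith)
  refine h1.congr (ae_of_all _ fun x => ?_)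
  show x ^ (k : ℝ) * Real.exp (-(1 / 4) * x ^ 2) = _
  rw [Real.rpow_natCast]
  congr 2
  ring

lemma g_cos (c : ℝ) : ∫ x : ℝ, Real.exp (-(x ^ 2 / 4)) * Real.cos (c * x) =
    2 * Real.sqrt Real.pi * Real.exp (-c ^ 2) := by
  have h := fourierIntegral_gaussian (b := 1 / 4) (by norm_num) (c : ℂ)
  have h1 := congrArg Complex.re h
  have e1 : (∫ x : ℝ, Complex.exp (Complex.I * (c : ℂ) * (x : ℂ)) *
      Complex.exp (-(1 / 4 : ℂ) * (x : ℂ) ^ 2)).re =
      ∫ x : ℝ, Real.exp (-(x ^ 2 / 4)) * Real.cos (c * x) := by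
    have hi : Integrable fun x : ℝ => Complex.exp (Complex.I * (c : ℂ) * (x : ℂ)) *
        Complex.exp (-(1 / 4 : ℂ) * (x : ℂ) ^ 2) := by
      have h2 := integrable_cexp_neg_mul_sq (b := (1 / 4 : ℂ)) (by norm_num)
      refine h2.bdd_mul (c := 1) (by fun_prop) (ae_of_all _ fun x => ?_)
      rw [Complex.norm_exp]
      simp
    have h3 := integral_re hi
    simp only [RCLike.re_eq_complex_re] at h3
    rw [← h3]
    refine integral_congr_ae (ae_of_all _ fun x => ?_)
    simp only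
    have e2 : Complex.exp (-(1 / 4 : ℂ) * (x : ℂ) ^ 2) = ((Real.exp (-(x ^ 2 / 4)) : ℝ) : ℂ) := by
      push_cast
      congr 1
      ring
    have e3 : Complex.I * (c : ℂ) * (x : ℂ) = ((c * x : ℝ) : ℂ) * Complex.I := by
      push_cast
      ring
    rw [e2, e3, Complex.re_mul_ofReal, Complex.exp_ofReal_mul_I_re]
    ring
  rw [e1] at h1
  rw [h1]
  have e4 : (Real.pi : ℂ) / (1 / 4) = ((4 * Real.pi : ℝ) : ℂ) := by
    push_cast
    ring
  have e5 : ((4 * Real.pi : ℝ) : ℂ) ^ (1 / 2 : ℂ) = ((2 * Real.sqrt Real.pi : ℝ) : ℂ) := by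
    have hp := Real.pi_pos
    have : (1 / 2 : ℂ) = ((1 / 2 : ℝ) : ℂ) := by push_cast; ring
    rw [this, ← Complex.ofReal_cpow (by positivity), ← Real.sqrt_eq_rpow]
    congr 1
    rw [Real.sqrt_mul (by norm_num)]
    congr 1
    rw [show (4 : ℝ) = 2 ^ 2 by norm_num]
    exact Real.sqrt_sq (by norm_num)
  have e6 : Complex.exp (-(c : ℂ) ^ 2 / (4 * (1 / 4))) = ((Real.exp (-c ^ 2) : ℝ) : ℂ) := by
    push_cast
    congr 1
    ring
  rw [e4, e5, e6, ← Complex.ofReal_mul, Complex.ofReal_re]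

/-- the second derivative of the Gaussian -/
noncomputable def f2 (x : ℝ) : ℝ := (x ^ 2 / 4 - 1 / 2) * Real.exp (-(x ^ 2 / 4))

lemma pint' (k : ℕ) {g : ℝ → ℝ} (hg : Continuous g) {B : ℝ} (hB : ∀ x, |g x| ≤ B) :
    Integrable fun x : ℝ => x ^ k * Real.exp (-(x ^ 2 / 4)) * g x :=
  (pint k).mul_bdd (c := B) hg.aestronglyMeasurable (ae_of_all _ fun x => by
    rw [Real.norm_eq_abs]; exact hB x)

lemma g_deriv (x : ℝ) : HasDerivAt (fun x : ℝ => Real.exp (-(x ^ 2 / 4)))
    (-(x / 2) * Real.exp (-(x ^ 2 / 4))) x := by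
  have h1 : HasDerivAt (fun x : ℝ => -(x ^ 2 / 4)) (-(x / 2)) x := by
    have h0 := ((hasDerivAt_pow 2 x).div_const 4).fun_neg
    refine h0.congr_deriv ?_
    push_cast
    ring
  refine h1.exp.congr_deriv ?_
  ring

lemma g_deriv2 (x : ℝ) : HasDerivAt (fun x : ℝ => -(x / 2) * Real.exp (-(x ^ 2 / 4)))
    (f2 x) x := by
  have h1 : HasDerivAt (fun x : ℝ => -(x / 2)) (-(1 / 2)) x :=
    ((hasDerivAt_id x).div_const 2).fun_neg
  refine (h1.fun_mul (g_deriv x)).congr_deriv ?_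
  unfold f2
  ring

lemma f2_cos (c : ℝ) : ∫ x, f2 x * Real.cos (c * x) =
    -(c ^ 2 * (2 * Real.sqrt Real.pi * Real.exp (-c ^ 2))) := by
  have hcos : ∀ x : ℝ, HasDerivAt (fun x => Real.cos (c * x)) (-(c * Real.sin (c * x))) x := by
    intro x
    have h1 : HasDerivAt (fun x : ℝ => c * x) c x := by
      simpa using (hasDerivAt_id x).const_mul c
    refine h1.cos.congr_deriv ?_
    ring
  have hsin : ∀ x : ℝ, HasDerivAt (fun x => Real.sin (c * x)) (c * Real.cos (c * x)) x := by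
    intro x
    have h1 : HasDerivAt (fun x : ℝ => c * x) c x := by
      simpa using (hasDerivAt_id x).const_mul c
    refine h1.sin.congr_deriv ?_
    ring
  have b1 : ∀ x : ℝ, |Real.cos (c * x)| ≤ 1 := fun x => Real.abs_cos_le_one _
  have b2 : ∀ x : ℝ, |Real.sin (c * x)| ≤ 1 := fun x => Real.abs_sin_le_one _
  have i0 := pint' 0 (g := fun x => Real.cos (c * x)) (by fun_prop) b1
  have i0s := pint' 0 (g := fun x => Real.sin (c * x)) (by fun_prop) b2
  have i1 := pint' 1 (g := fun x => Real.cos (c * x)) (by fun_prop) b1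
  have i1s := pint' 1 (g := fun x => Real.sin (c * x)) (by fun_prop) b2
  have i2 := pint' 2 (g := fun x => Real.cos (c * x)) (by fun_prop) b1
  have p1 := integral_mul_deriv_eq_deriv_mul_of_integrable
    (u := fun x : ℝ => Real.cos (c * x)) (u' := fun x => -(c * Real.sin (c * x)))
    (v := fun x : ℝ => -(x / 2) * Real.exp (-(x ^ 2 / 4))) (v' := f2)
    (fun x _ => hcos x) (fun x _ => g_deriv2 x)
    (by
      refine ((i2.const_mul (1 / 4)).sub (i0.const_mul (1 / 2))).congr (ae_of_all _ fun x => ?_)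
      simp only [Pi.sub_apply, Pi.mul_apply]
      unfold f2
      ring)
    (by
      refine (i1s.const_mul (c / 2)).congr (ae_of_all _ fun x => ?_)
      simp only [Pi.mul_apply]
      ring)
    (by
      refine (i1.const_mul (-1 / 2)).congr (ae_of_all _ fun x => ?_)
      simp only [Pi.mul_apply]
      ring)
  have p2 := integral_mul_deriv_eq_deriv_mul_of_integrable
    (u := fun x : ℝ => Real.sin (c * x)) (u' := fun x => c * Real.cos (c * x))
    (v := fun x : ℝ => Real.exp (-(x ^ 2 / 4)))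
    (v' := fun x : ℝ => -(x / 2) * Real.exp (-(x ^ 2 / 4)))
    (fun x _ => hsin x) (fun x _ => g_deriv x)
    (by
      refine (i1s.const_mul (-1 / 2)).congr (ae_of_all _ fun x => ?_)
      simp only [Pi.mul_apply]
      ring)
    (by
      refine (i0.const_mul c).congr (ae_of_all _ fun x => ?_)
      simp only [Pi.mul_apply]
      ring)
    (by
      refine (i0s.const_mul 1).congr (ae_of_all _ fun x => ?_)
      simp only [Pi.mul_apply]
      ring)
  have q1 : ∫ x, f2 x * Real.cos (c * x) =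
      c * ∫ x : ℝ, Real.sin (c * x) * (-(x / 2) * Real.exp (-(x ^ 2 / 4))) := by
    have r1 : ∫ x, f2 x * Real.cos (c * x) = ∫ x, Real.cos (c * x) * f2 x := by
      refine integral_congr_ae (ae_of_all _ fun x => ?_)
      simp only
      ring
    rw [r1, p1, ← integral_const_mul, ← integral_neg]
    refine integral_congr_ae (ae_of_all _ fun x => ?_)
    simp only
    ring
  have q2 : ∫ x : ℝ, c * Real.cos (c * x) * Real.exp (-(x ^ 2 / 4)) =
      c * (2 * Real.sqrt Real.pi * Real.exp (-c ^ 2)) := by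
    rw [← g_cos, ← integral_const_mul]
    refine integral_congr_ae (ae_of_all _ fun x => ?_)
    simp only
    ring
  rw [q1, p2, q2]
  ring

lemma half_line {f : ℝ → ℝ} (hf : ∀ x, f |x| = f x) :
    ∫ x in Ioi (0 : ℝ), f x = (∫ x, f x) / 2 := by
  have h := integral_comp_abs (f := f)
  simp_rw [hf] at h
  linarith

/-- the mixing density -/
noncomputable def kk (s : ℝ) : ℝ :=
  (s ^ 4 / 8 - s ^ 2 / 4) * Real.exp (-(s ^ 2 / 4)) / Real.sqrt Real.pi

lemma kk_cont : Continuous kk := by unfold kk; fun_prop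

lemma kk_om {c : ℝ} (hc : 0 < c) : ∫ s in Ioi (0 : ℝ), kk s * om (s * c) = Real.exp (-c ^ 2) := by
  have hpi := Real.pi_pos
  have hsp := Real.sqrt_pos.2 hpi
  have e1 : ∫ s in Ioi (0 : ℝ), kk s * om (s * c) =
      ∫ s in Ioi (0 : ℝ), 1 / (Real.sqrt Real.pi * c ^ 2) * (f2 s - f2 s * Real.cos (c * s)) := by
    refine setIntegral_congr_fun measurableSet_Ioi fun s hs => ?_
    have hs0 : (0 : ℝ) < s := hs
    show kk s * om (s * c) = 1 / (Real.sqrt Real.pi * c ^ 2) * (f2 s - f2 s * Real.cos (c * s))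
    rw [om_eq (by positivity), mul_comm c s]
    unfold kk f2
    field_simp
    ring
  have i1 : Integrable f2 := by
    have := ((pint 2).const_mul (1 / 4)).sub ((pint 0).const_mul (1 / 2))
    refine this.congr (ae_of_all _ fun x => ?_)
    simp only [Pi.sub_apply]
    unfold f2
    ring
  have i2 : Integrable fun s => f2 s * Real.cos (c * s) :=
    i1.mul_bdd (c := 1) (by fun_prop) (ae_of_all _ fun x => by
      rw [Real.norm_eq_abs]; exact Real.abs_cos_le_one _)
  have hf2 : ∀ x, f2 |x| = f2 x := by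
    intro x
    unfold f2
    rw [sq_abs]
  have hfc : ∀ x, f2 |x| * Real.cos (c * |x|) = f2 x * Real.cos (c * x) := by
    intro x
    rw [hf2]
    congr 1
    rcases abs_choice x with h | h
    · rw [h]
    · rw [h, mul_neg, Real.cos_neg]
  rw [e1, integral_const_mul, integral_sub i1.integrableOn i2.integrableOn, half_line hf2,
    half_line (f := fun s => f2 s * Real.cos (c * s)) hfc]
  have h0 := f2_cos 0
  simp only [zero_mul, Real.cos_zero, mul_one] at h0
  rw [h0, f2_cos]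
  field_simp
  ring

lemma kk_div {s : ℝ} (hs : 0 < s) : kk s / s =
    (s ^ 3 / 8 - s / 4) * Real.exp (-(s ^ 2 / 4)) / Real.sqrt Real.pi := by
  unfold kk
  field_simp

lemma kk_div2 {s : ℝ} (hs : 0 < s) : kk s / s ^ 2 =
    (s ^ 2 / 8 - 1 / 4) * Real.exp (-(s ^ 2 / 4)) / Real.sqrt Real.pi := by
  unfold kk
  field_simp

lemma kk_int : IntegrableOn kk (Ioi 0) := by
  have := ((((pint 4).const_mul (1 / 8)).sub ((pint 2).const_mul (1 / 4))).div_const
    (Real.sqrt Real.pi)).integrableOn (s := Ioi (0 : ℝ))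
  refine this.congr_fun (fun s _ => ?_) measurableSet_Ioi
  simp only [Pi.sub_apply]
  unfold kk
  ring

lemma kk_int1 : IntegrableOn (fun s => kk s / s) (Ioi 0) := by
  have := ((((pint 3).const_mul (1 / 8)).sub ((pint 1).const_mul (1 / 4))).div_const
    (Real.sqrt Real.pi)).integrableOn (s := Ioi (0 : ℝ))
  refine this.congr_fun (fun s hs => ?_) measurableSet_Ioi
  simp only [Pi.sub_apply]
  rw [kk_div hs]
  ring

lemma kk_int2 : IntegrableOn (fun s => kk s / s ^ 2) (Ioi 0) := by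
  have := ((((pint 2).const_mul (1 / 8)).sub ((pint 0).const_mul (1 / 4))).div_const
    (Real.sqrt Real.pi)).integrableOn (s := Ioi (0 : ℝ))
  refine this.congr_fun (fun s hs => ?_) measurableSet_Ioi
  simp only [Pi.sub_apply]
  rw [kk_div2 hs]
  ring

lemma odd_mom (k : ℕ) : ∫ s in Ioi (0 : ℝ), s ^ (2 * k + 1) * Real.exp (-(s ^ 2 / 4)) =
    4 ^ (k + 1) / 2 * (Nat.factorial k : ℝ) := by
  have h1 := integral_rpow_mul_exp_neg_mul_rpow (p := 2) (q := ((2 * k + 1 : ℕ) : ℝ)) (b := 1 / 4)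
    (by norm_num) (by
      have : (0 : ℝ) ≤ ((2 * k + 1 : ℕ) : ℝ) := by positivity
      linarith) (by norm_num)
  have e1 : ∫ s in Ioi (0 : ℝ), s ^ (2 * k + 1) * Real.exp (-(s ^ 2 / 4)) =
      ∫ x in Ioi (0 : ℝ), x ^ ((2 * k + 1 : ℕ) : ℝ) * Real.exp (-(1 / 4) * x ^ (2 : ℝ)) := by
    refine setIntegral_congr_fun measurableSet_Ioi fun s _ => ?_
    show s ^ (2 * k + 1) * Real.exp (-(s ^ 2 / 4)) =
      s ^ ((2 * k + 1 : ℕ) : ℝ) * Real.exp (-(1 / 4) * s ^ (2 : ℝ))
    rw [Real.rpow_natCast, Real.rpow_two]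
    congr 2
    ring
  rw [e1, h1]
  have e2 : (((2 * k + 1 : ℕ) : ℝ) + 1) / 2 = (k : ℝ) + 1 := by
    push_cast
    ring
  have e3 : -(((2 * k + 1 : ℕ) : ℝ) + 1) / 2 = -((k + 1 : ℕ) : ℝ) := by
    push_cast
    ring
  rw [e2, e3, Real.Gamma_nat_eq_factorial, Real.rpow_neg (by norm_num), Real.rpow_natCast]
  have e4 : ((1 / 4 : ℝ) ^ (k + 1))⁻¹ = 4 ^ (k + 1) := by
    rw [← inv_pow]
    norm_num
  rw [e4]
  ring

lemma kk_mom : ∫ s in Ioi (0 : ℝ), kk s / s = 1 / (2 * Real.sqrt Real.pi) := by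
  have hpi := Real.pi_pos
  have hsp := Real.sqrt_pos.2 hpi
  have e1 : ∫ s in Ioi (0 : ℝ), kk s / s = ∫ s in Ioi (0 : ℝ),
      (1 / Real.sqrt Real.pi) * (1 / 8 * (s ^ (2 * 1 + 1) * Real.exp (-(s ^ 2 / 4))) -
        1 / 4 * (s ^ (2 * 0 + 1) * Real.exp (-(s ^ 2 / 4)))) := by
    refine setIntegral_congr_fun measurableSet_Ioi fun s hs => ?_
    show kk s / s = _
    rw [kk_div hs]
    ring
  have i3 : IntegrableOn (fun s : ℝ => 1 / 8 * (s ^ (2 * 1 + 1) * Real.exp (-(s ^ 2 / 4))))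
    (Ioi 0) := ((pint 3).const_mul _).integrableOn
  have i4 : IntegrableOn (fun s : ℝ => 1 / 4 * (s ^ (2 * 0 + 1) * Real.exp (-(s ^ 2 / 4))))
    (Ioi 0) := ((pint 1).const_mul _).integrableOn
  rw [e1, integral_const_mul, integral_sub i3 i4, integral_const_mul, integral_const_mul, odd_mom,
    odd_mom]
  norm_num

end Pool.Agent.NH10.SV
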