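import Pool.Agent.NH10.SV.ZC
import Pool.Agent.NH10.SV.Gk
import Pool.Agent.NH10.GM.Demix

/-! # From the mean squares for sharp windows back to the pair sums -/

set_option autoImplicit false
set_option maxHeartbeats 4000000

open MeasureTheory Set Filter Topology

namespace Pool.Agent.NH10.SV

open Pool.Agent.Y749.Rig hiding PT
open Pool.Agent.NH10.GM

/-- the weight of a pair -/
noncomputable def wt (T h : ℝ) (p : ℂ × ℂ) : ℝ := 4 * Real.pi / (T * Real.log T) *
  (mm p.1 * mm p.2 * Kt h ((p.1.im - p.2.im) * Real.log T / (2 * Real.pi)))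

/-- the height of a pair -/
noncomputable def hp (p : ℂ × ℂ) : ℝ := max p.1.im p.2.im

/-- the pairs -/
noncomputable def PP (y : ℝ) : Finset (ℂ × ℂ) := ZZ y ×ˢ ZZ y

/-- the sums over the pairs -/
noncomputable def SR (T h R s : ℝ) : ℝ := ∑ p ∈ PP (R * T), wt T h p * om (s * (hp p / T))

lemma wt_nonneg {T : ℝ} (hT : 1 < T) {h : ℝ} (hh : 0 < h) (p : ℂ × ℂ) : 0 ≤ wt T h p := by
  have := Real.log_pos hT
  have := Real.pi_pos
  unfold wt
  exact mul_nonneg (by positivity) (mul_nonneg (mul_nonneg (mm_nonneg _) (mm_nonneg _))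
    (Kt_nonneg hh _))

lemma hp_pos {y : ℝ} {p : ℂ × ℂ} (h : p ∈ PP y) : 0 < hp p := by
  unfold PP at h
  rw [Finset.mem_product, mem_ZZ] at h
  exact (zs_im_pos h.1).trans_le (le_max_left _ _)

lemma hp_le {y : ℝ} {p : ℂ × ℂ} (h : p ∈ PP y) : hp p ≤ y := by
  unfold PP at h
  rw [Finset.mem_product, mem_ZZ, mem_ZZ] at h
  exact max_le h.1.2.2.2.2 h.2.2.2.2.2

lemma PP_mono {x y : ℝ} (h : x ≤ y) : PP x ⊆ PP y := Finset.product_subset_product (ZZ_mono h)
  (ZZ_mono h)

lemma mem_PP_of {x y : ℝ} {p : ℂ × ℂ} (h : p ∈ PP y) (hx : hp p ≤ x) : p ∈ PP x := by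
  unfold PP at h ⊢
  rw [Finset.mem_product, mem_ZZ, mem_ZZ] at h ⊢
  exact ⟨⟨h.1.1, h.1.2.1, h.1.2.2.1, h.1.2.2.2.1, (le_max_left _ _).trans hx⟩,
    ⟨h.2.1, h.2.2.1, h.2.2.2.1, h.2.2.2.2.1, (le_max_right _ _).trans hx⟩⟩

lemma MT_PP (T Y h c : ℝ) : MT T Y h c = ∑ p ∈ PP Y, (if hp p ≤ c * T then wt T h p else 0) := by
  unfold MT
  rw [SPair_prod, Finset.mul_sum]
  refine Finset.sum_congr rfl fun p _ => ?_
  unfold hp wt
  split_ifs
  · ring
  · rw [mul_zero]

lemma VF_eq {T h R : ℝ} (hT : 1 < T) (hR : 0 < R) : VF (MTf T h) R = SR T h R 1 := by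
  have hT0 : 0 < T := by linarith
  have h1 := lay (PP (R * T)) (wt T h) hp (fun p hp => hp_pos hp) hT0 hR
  have e1 : VF (MTf T h) R = ∑ p ∈ PP (R * T),
      (if hp p ≤ R * T then wt T h p * om (hp p / T) else 0) := by
    rw [h1]
    unfold VF
    rw [← MT_PP, MT_eq h le_rfl]
    congr 1
    refine intervalIntegral.integral_congr fun c hc => ?_
    rw [uIcc_of_le hR.le] at hc
    have h1 : c * T ≤ R * T := mul_le_mul_of_nonneg_right hc.2 hT0.le
    show omd c * MTf T h c = omd c * ∑ p ∈ PP (R * T), (if hp p ≤ c * T then wt T h p else 0)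
    rw [← MT_PP, MT_eq h h1]
  rw [e1]
  unfold SR
  refine Finset.sum_congr rfl fun p hpp => ?_
  rw [if_pos (hp_le hpp), one_mul]

lemma wt_scale {T s : ℝ} (hT : 1 < T) (hs : 0 < s) (hT' : 1 < T / s) {h : ℝ} (hh : 0 < h)
    (p : ℂ × ℂ) : wt (T / s) (h / (Real.log (T / s) / Real.log T)) p =
      s / (Real.log (T / s) / Real.log T) ^ 3 * wt T h p := by
  have hL := Real.log_pos hT
  have hL' := Real.log_pos hT'
  have hpi := Real.pi_pos
  have hT0 : 0 < T := by linarith
  obtain ⟨μ, hμ⟩ : ∃ μ : ℝ, μ = Real.log (T / s) / Real.log T := ⟨_, rfl⟩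
  have hμ0 : 0 < μ := by rw [hμ]; positivity
  have e6 : Real.log (T / s) = μ * Real.log T := by
    rw [hμ]
    field_simp
  rw [← hμ]
  unfold wt
  have e2 : (p.1.im - p.2.im) * Real.log (T / s) / (2 * Real.pi) =
      μ * ((p.1.im - p.2.im) * Real.log T / (2 * Real.pi)) := by
    rw [e6]
    ring
  have e3 : μ * (h / μ) = h := by field_simp
  rw [e2, Kt_scale (by positivity) hμ0, e3, e6]
  field_simp

lemma SR_scale {T s : ℝ} (hT : 1 < T) (hs : 0 < s) (hT' : 1 < T / s) {h R : ℝ} (hh : 0 < h)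
    (hR : 0 < R) : VF (MTf (T / s) (h / (Real.log (T / s) / Real.log T))) (s * R) =
      s / (Real.log (T / s) / Real.log T) ^ 3 * SR T h R s := by
  rw [VF_eq hT' (by positivity)]
  unfold SR
  have e : s * R * (T / s) = R * T := by field_simp
  rw [e, Finset.mul_sum]
  refine Finset.sum_congr rfl fun p _ => ?_
  rw [wt_scale hT hs hT' hh]
  have e2 : 1 * (hp p / (T / s)) = s * (hp p / T) := by field_simp
  rw [e2]
  ring

lemma MTf_PP {T h R : ℝ} : MTf T h R = ∑ p ∈ PP (R * T), wt T h p := by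
  rw [← MT_eq h (le_refl (R * T)), MT_PP]
  exact Finset.sum_congr rfl fun p hpp => if_pos (hp_le hpp)

lemma SR_nonneg {T : ℝ} (hT : 1 < T) {h : ℝ} (hh : 0 < h) (R s : ℝ) : 0 ≤ SR T h R s :=
  Finset.sum_nonneg fun p _ => mul_nonneg (wt_nonneg hT hh p) (om_nonneg _)

lemma SR_le {T : ℝ} (hT : 1 < T) {h : ℝ} (hh : 0 < h) (R s : ℝ) : SR T h R s ≤ MTf T h R := by
  rw [MTf_PP]
  refine Finset.sum_le_sum fun p _ => ?_
  exact mul_le_of_le_one_right (wt_nonneg hT hh p) (om_le_one _)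

lemma SR_cont (T h R : ℝ) : Continuous (SR T h R) := by
  unfold SR
  refine continuous_finsetSum _ fun p _ => continuous_const.mul (om_cont.comp (by fun_prop))

lemma SR_tail {T : ℝ} (hT : 1 < T) {h : ℝ} (hh : 0 < h) {R R₂ s C : ℝ} (hR : 0 < R)
    (hRR : R ≤ R₂) (hs : 0 < s) (hC : ∀ c : ℝ, R < c → MTf T h c ≤ C * (c * Real.sqrt c)) :
    |SR T h R₂ s - SR T h R s| ≤ 16 * C / (s ^ 2 * Real.sqrt R) := by
  classical
  have hT0 : 0 < T := by linarith
  have hsR := Real.sqrt_pos.2 hR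
  have h1 : SR T h R s = ∑ p ∈ PP (R₂ * T),
      (if hp p ≤ R * T then wt T h p * om (s * (hp p / T)) else 0) := by
    unfold SR
    have e : PP (R * T) = (PP (R₂ * T)).filter fun p => hp p ≤ R * T := by
      ext p
      rw [Finset.mem_filter]
      constructor
      · intro h
        exact ⟨PP_mono (mul_le_mul_of_nonneg_right hRR hT0.le) h, hp_le h⟩
      · rintro ⟨h1, h2⟩
        exact mem_PP_of h1 h2
    rw [e, Finset.sum_filter]
  obtain ⟨t1, t2⟩ := lay_tail (PP (R₂ * T)) (wt T h) hp (fun p _ => wt_nonneg hT hh p) hT0 hR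
  have t3 : ∫ c in Ioi R, 2 / c ^ 3 * ∑ i ∈ PP (R₂ * T), (if hp i ≤ c * T then wt T h i else 0) ≤
      ∫ c in Ioi R, 2 / c ^ 3 * (C * (c * Real.sqrt c)) := by
    refine setIntegral_mono_on t1 (tail_int hR).1 measurableSet_Ioi fun c hc => ?_
    have hc0 : 0 < c := hR.trans hc
    rw [← MT_PP]
    exact mul_le_mul_of_nonneg_left ((MT_le hT _ hh c).trans (hC c hc)) (by positivity)
  rw [(tail_int hR).2] at t3
  have e2 : SR T h R₂ s - SR T h R s = ∑ p ∈ PP (R₂ * T),
      (if R * T < hp p then wt T h p * om (s * (hp p / T)) else 0) := by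
    rw [h1]
    unfold SR
    rw [← Finset.sum_sub_distrib]
    refine Finset.sum_congr rfl fun p _ => ?_
    by_cases h : hp p ≤ R * T
    · rw [if_pos h, if_neg (not_lt.2 h), sub_self]
    · rw [if_neg h, if_pos (not_le.1 h), sub_zero]
  rw [e2, abs_of_nonneg]
  · have h3 : ∑ p ∈ PP (R₂ * T), (if R * T < hp p then wt T h p * om (s * (hp p / T)) else 0) ≤
        4 / s ^ 2 * ∑ p ∈ PP (R₂ * T), (if R * T < hp p then wt T h p * (T / hp p) ^ 2 else 0) := by
      rw [Finset.mul_sum]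
      refine Finset.sum_le_sum fun p hpp => ?_
      have hm := hp_pos hpp
      split_ifs
      · have h4 := om_le (show s * (hp p / T) ≠ 0 by positivity)
        have e5 : 4 / (s * (hp p / T)) ^ 2 = 4 / s ^ 2 * (T / hp p) ^ 2 := by
          field_simp
        rw [e5] at h4
        calc _ ≤ wt T h p * (4 / s ^ 2 * (T / hp p) ^ 2) :=
              mul_le_mul_of_nonneg_left h4 (wt_nonneg hT hh p)
          _ = _ := by ring
      · rw [mul_zero]
    refine h3.trans ((mul_le_mul_of_nonneg_left (t2.trans t3) (by positivity)).trans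
      (le_of_eq ?_))
    field_simp
    ring
  · refine Finset.sum_nonneg fun p _ => ?_
    split_ifs
    · exact mul_nonneg (wt_nonneg hT hh p) (om_nonneg _)
    · exact le_rfl

lemma kk_term {T : ℝ} (hT : 0 < T) {y : ℝ} {p : ℂ × ℂ} (hpp : p ∈ PP y) (w : ℝ) :
    IntegrableOn (fun s => kk s * (w * om (s * (hp p / T)))) (Ioi 0) ∧
    ∫ s in Ioi (0 : ℝ), kk s * (w * om (s * (hp p / T))) = w * Real.exp (-(hp p / T) ^ 2) := by
  have hm : 0 < hp p / T := div_pos (hp_pos hpp) hT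
  constructor
  · refine Integrable.mul_bdd (c := |w|) kk_int ?_ (ae_of_all _ fun s => ?_)
    · exact (continuous_const.mul (om_cont.comp (by fun_prop))).aestronglyMeasurable
    · rw [Real.norm_eq_abs, abs_mul, abs_of_nonneg (om_nonneg _)]
      exact mul_le_of_le_one_right (abs_nonneg _) (om_le_one _)
  · have e : ∀ s : ℝ, kk s * (w * om (s * (hp p / T))) = w * (kk s * om (s * (hp p / T))) :=
      fun s => by ring
    simp_rw [e]
    rw [integral_const_mul, kk_om hm]

lemma SR_int {T : ℝ} (hT : 0 < T) (h R : ℝ) :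
    ∫ s in Ioi (0 : ℝ), kk s * SR T h R s = ∫ c in Ioi (0 : ℝ), gd c * MT T (R * T) h c := by
  have e1 : ∫ s in Ioi (0 : ℝ), kk s * SR T h R s =
      ∑ p ∈ PP (R * T), wt T h p * Real.exp (-(hp p / T) ^ 2) := by
    have : ∀ s : ℝ, kk s * SR T h R s =
        ∑ p ∈ PP (R * T), kk s * (wt T h p * om (s * (hp p / T))) := fun s => by
      unfold SR
      rw [Finset.mul_sum]
    simp_rw [this]
    rw [integral_finsetSum _ fun p hpp => (kk_term hT hpp _).1]
    exact Finset.sum_congr rfl fun p hpp => (kk_term hT hpp _).2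
  have e2 : ∫ c in Ioi (0 : ℝ), gd c * MT T (R * T) h c =
      ∑ p ∈ PP (R * T), wt T h p * Real.exp (-(hp p / T) ^ 2) := by
    simp_rw [MT_PP, Finset.mul_sum]
    rw [integral_finsetSum _ fun p hpp => (gd_ind (hp_pos hpp).le hT _).1]
    exact Finset.sum_congr rfl fun p hpp => (gd_ind (hp_pos hpp).le hT _).2
  rw [e1, e2]

variable {P Y : ℝ → ℝ}

/-- comparison with the functional, uniformly in the width -/
lemma mix_unif (hpar : Par P Y) {h₀ : ℝ} (hh₀ : 0 < h₀) {ε : ℝ} (hε : 0 < ε) :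
    ∃ R₀ : ℝ, 1 ≤ R₀ ∧ ∀ R : ℝ, R₀ ≤ R → ∀ᶠ T in atTop, ∀ h : ℝ, 0 < h → h ≤ h₀ →
      |2 * Real.pi * Jt (Ds T (P T) (Y T)) h - VF (MTf T h) R| ≤ ε := by
  have hpi := Real.pi_pos
  obtain ⟨C, hC, hdom⟩ := MTf_dom2 hh₀
  obtain ⟨C', hC', hJ⟩ := Jt_mixS
  obtain ⟨R₀, hR₀⟩ : ∃ R₀ : ℝ, R₀ = 1 + (48 * C / ε) ^ 2 := ⟨_, rfl⟩
  refine ⟨R₀, by rw [hR₀]; nlinarith [sq_nonneg (48 * C / ε)], fun R hR => ?_⟩
  have hR1 : 1 ≤ R := by rw [hR₀] at hR; nlinarith [sq_nonneg (48 * C / ε)]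
  have hR0 : 0 < R := by linarith
  have hs : 16 * C / Real.sqrt R ≤ ε / 3 := by
    have h1 : 48 * C / ε ≤ Real.sqrt R := by
      apply Real.le_sqrt_of_sq_le
      rw [hR₀] at hR
      linarith
    rw [div_le_iff₀ (Real.sqrt_pos.2 hR0)]
    rw [div_le_iff₀ hε] at h1
    nlinarith
  have h1 : Tendsto (fun T => (R * T / P T) ^ 2) atTop (𝓝 0) := by
    have h2 := ((hpar.big.inv_tendsto_atTop).const_mul R).pow 2
    rw [mul_zero, zero_pow two_ne_zero] at h2
    refine h2.congr fun T => ?_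
    simp only [Pi.inv_apply, inv_div]
    ring
  have h3 := h1.mul_const (C * (R * Real.sqrt R))
  rw [zero_mul] at h3
  have h4 := hpar.small.const_mul (2 * Real.pi * C')
  rw [mul_zero] at h4
  filter_upwards [h3.eventually (gt_mem_nhds (show (0 : ℝ) < ε / 3 by linarith)),
    h4.eventually (gt_mem_nhds (show (0 : ℝ) < ε / 3 by linarith)), hdom, hpar.Y, hpar.one,
    eventually_ge_atTop (max R 10), log_le_self hh₀] with T h3 h4 hd hY h1 hT hlT h hh hhh
  have hTR : R ≤ T := (le_max_left _ _).trans hT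
  have hT10 : 10 ≤ T := (le_max_right _ _).trans hT
  have hT1 : 1 < T := by linarith
  have hLT := Real.log_pos hT1
  have hd' : ∀ c : ℝ, 1 ≤ c → MTf T h c ≤ C * (c * Real.sqrt c) := fun c hc =>
    (MTf_mono_h hT1 hh hhh c).trans (hd c hc)
  have h5 := Mn_VF (P := P T) (Y := Y T) (C := C) hT1
    (show 0 < P T by linarith) hh hR0 (by nlinarith) fun c hc => hd' c (by linarith)
  have h6 : (R * T / P T) ^ 2 * MTf T h R ≤ ε / 3 :=
    (mul_le_mul_of_nonneg_left (hd' R hR1) (sq_nonneg _)).trans h3.le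
  have h7 := hJ T (P T) hT10 h1 (Y T) h hh (by nlinarith)
  have h8 : 2 * Real.pi * |Jt (Ds T (P T) (Y T)) h - Mn T (P T) (Y T) h| ≤ ε / 3 := by
    refine (mul_le_mul_of_nonneg_left h7 (by positivity)).trans (le_trans (le_of_eq ?_) h4.le)
    ring
  have e : 2 * Real.pi * Jt (Ds T (P T) (Y T)) h - VF (MTf T h) R =
      2 * Real.pi * (Jt (Ds T (P T) (Y T)) h - Mn T (P T) (Y T) h) +
      (2 * Real.pi * Mn T (P T) (Y T) h - VF (MTf T h) R) := by ring
  rw [e]
  refine (abs_add_le _ _).trans ?_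
  rw [abs_mul, abs_of_pos (show 0 < 2 * Real.pi by positivity)]
  linarith

/-- the limit of the sums over pairs -/
lemma SR_lim (hpar : Par P Y) (hJ : ∀ h : ℝ, 0 < h →
      Tendsto (fun T => Jt (Ds T (P T) (Y T)) h) atTop (𝓝 (PG h))) {h : ℝ} (hh : 0 < h) {C : ℝ}
    (hC : ∀ᶠ T in atTop, ∀ c : ℝ, 1 ≤ c → MTf T h c ≤ C * (c * Real.sqrt c)) {R s : ℝ}
    (hR : 1 ≤ R) (hs : 0 < s) {ε : ℝ} (hε : 0 < ε) :
    ∀ᶠ T in atTop, |SR T h R s - 2 * Real.pi * PG h / s| ≤ ε + 16 * C / (s ^ 2 * Real.sqrt R) := by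
  have hpi := Real.pi_pos
  have hPG := PG_pos hh
  obtain ⟨R₀, hR₀, hmix⟩ := mix_unif hpar (show 0 < 2 * h by linarith)
    (show 0 < ε * s / 8 by positivity)
  obtain ⟨R₂, hR₂⟩ : ∃ R₂ : ℝ, R₂ = max R (R₀ / s) := ⟨_, rfl⟩
  have hR2R : R ≤ R₂ := by rw [hR₂]; exact le_max_left _ _
  have hR20 : 0 < R₂ := by linarith
  have hR2s : R₀ ≤ s * R₂ := by
    have : R₀ / s ≤ R₂ := by rw [hR₂]; exact le_max_right _ _
    rw [div_le_iff₀ hs] at this
    linarith
  have t1 : Tendsto (fun T : ℝ => T / s) atTop atTop := tendsto_id.atTop_div_const hs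
  have t2 : Tendsto (fun T : ℝ => Real.log (T / s) / Real.log T) atTop (𝓝 1) := by
    refine (ratio_lim (c := 1 / s) (by positivity)).congr fun T => ?_
    rw [one_div_mul_eq_div]
  have t3 : Tendsto (fun T : ℝ => h / (Real.log (T / s) / Real.log T)) atTop (𝓝 h) := by
    have := (tendsto_const_nhds (x := h)).div t2 one_ne_zero
    rwa [div_one] at this
  have t4 : Tendsto (fun T => Jt (Ds (T / s) (P (T / s)) (Y (T / s)))
      (h / (Real.log (T / s) / Real.log T))) atTop (𝓝 (PG h)) := by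
    refine mono_near (f := fun T h => Jt (Ds T (P T) (Y T)) h) (G := fun h => PG h) hh
      ((eventually_ge_atTop 10).mono fun T hT x y hx hxy => Jt_mono (Ds_cont _ _ _)
        (Ds_nonneg (by linarith) _ _) hx.le hxy) ?_ PG_cont.continuousAt t1 t3
    filter_upwards [lt_mem_nhds hh] with y hy
    exact hJ y hy
  have t5 : Tendsto (fun T => (Real.log (T / s) / Real.log T) ^ 3 / s * (2 * Real.pi *
      Jt (Ds (T / s) (P (T / s)) (Y (T / s))) (h / (Real.log (T / s) / Real.log T)))) atTop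
      (𝓝 (2 * Real.pi * PG h / s)) := by
    have h5 := ((t2.pow 3).div_const s).mul (t4.const_mul (2 * Real.pi))
    rw [one_pow] at h5
    have e : 1 / s * (2 * Real.pi * PG h) = 2 * Real.pi * PG h / s := by ring
    rwa [e] at h5
  have t6 := t2.pow 3
  rw [one_pow] at t6
  filter_upwards [(Metric.tendsto_nhds.1 t5) (ε / 2) (by linarith),
    t1.eventually (hmix (s * R₂) hR2s), eventually_gt_atTop 1, t1.eventually_gt_atTop 1, hC,
    t3.eventually (gt_mem_nhds (show h < 2 * h by linarith)),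
    t3.eventually (lt_mem_nhds (show 0 < h by linarith)),
    t6.eventually (gt_mem_nhds (show (1 : ℝ) < 2 by norm_num)),
    t6.eventually (lt_mem_nhds (show (0 : ℝ) < 1 by norm_num))] with T u1 u2 u3 u4 u5 u6 u7 u8 u9
  have v1 := u2 (h / (Real.log (T / s) / Real.log T)) u7 u6.le
  rw [SR_scale u3 hs u4 hh hR20] at v1
  have v2 := SR_tail u3 hh (show 0 < R by linarith) hR2R hs fun c hc => u5 c (by linarith)
  obtain ⟨μ, hμ⟩ : ∃ μ : ℝ, μ = (Real.log (T / s) / Real.log T) ^ 3 := ⟨_, rfl⟩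
  obtain ⟨J, hJe⟩ : ∃ J : ℝ, J = 2 * Real.pi * Jt (Ds (T / s) (P (T / s)) (Y (T / s)))
    (h / (Real.log (T / s) / Real.log T)) := ⟨_, rfl⟩
  rw [← hJe, ← hμ] at v1 u1
  rw [← hμ] at u8 u9
  rw [Real.dist_eq] at u1
  have v3 : |μ / s * J - SR T h R₂ s| ≤ ε / 4 := by
    have e : μ / s * J - SR T h R₂ s = μ / s * (J - s / μ * SR T h R₂ s) := by
      field_simp
    rw [e, abs_mul, abs_of_pos (show 0 < μ / s by positivity)]
    calc μ / s * |J - s / μ * SR T h R₂ s| ≤ μ / s * (ε * s / 8) :=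
          mul_le_mul_of_nonneg_left v1 (by positivity)
      _ = μ * ε / 8 := by field_simp
      _ ≤ ε / 4 := by nlinarith
  have e2 : SR T h R s - 2 * Real.pi * PG h / s = -(SR T h R₂ s - SR T h R s) +
      -(μ / s * J - SR T h R₂ s) + (μ / s * J - 2 * Real.pi * PG h / s) := by ring
  rw [e2]
  refine ((abs_add_le _ _).trans (add_le_add (abs_add_le _ _) le_rfl)).trans ?_
  rw [abs_neg, abs_neg]
  linarith

/-- the mixture with the Gaussian -/
lemma I1_of (hpar : Par P Y) (hJ : ∀ h : ℝ, 0 < h →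
      Tendsto (fun T => Jt (Ds T (P T) (Y T)) h) atTop (𝓝 (PG h))) {h : ℝ} (hh : 0 < h) :
    Tendsto (fun T => I1 T h) atTop (𝓝 (Real.sqrt Real.pi * PG h)) := by
  have hpi := Real.pi_pos
  have hsp := Real.sqrt_pos.2 hpi
  have hPG := PG_pos hh
  obtain ⟨C, hC, hdom⟩ := MTf_dom2 hh
  obtain ⟨C4, hC4, hdom4⟩ := MTf_dom hh
  obtain ⟨K5, hK5⟩ : ∃ K5 : ℝ, K5 = ∫ c in Ioi (0 : ℝ), gd c * (1 + 2 * c) ^ 5 := ⟨_, rfl⟩
  have hK50 : 0 ≤ K5 := by
    rw [hK5]
    exact setIntegral_nonneg measurableSet_Ioi fun c hc => mul_nonneg (gd_nonneg (le_of_lt hc))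
      (by have : (0 : ℝ) < c := hc
          positivity)
  obtain ⟨K2, hK2⟩ : ∃ K2 : ℝ, K2 = ∫ s in Ioi (0 : ℝ), |kk s / s ^ 2| := ⟨_, rfl⟩
  have hK20 : 0 ≤ K2 := by rw [hK2]; exact integral_nonneg fun s => abs_nonneg _
  rw [Metric.tendsto_nhds]
  intro ε hε
  obtain ⟨R, hRe⟩ : ∃ R : ℝ, R = 1 + 4 * (C4 * K5) / ε + (64 * C * K2 / ε) ^ 2 := ⟨_, rfl⟩
  have hq1 : 0 ≤ 4 * (C4 * K5) / ε := by positivity
  have hq2 := sq_nonneg (64 * C * K2 / ε)
  have hR1 : 1 ≤ R := by rw [hRe]; linarith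
  have hR0 : 0 < R := by linarith
  have hsR := Real.sqrt_pos.2 hR0
  have hb1 : C4 * K5 / R ≤ ε / 4 := by
    rw [div_le_iff₀ hR0]
    have : 4 * (C4 * K5) / ε ≤ R := by rw [hRe]; linarith
    rw [div_le_iff₀ hε] at this
    linarith
  have hb2 : 16 * C * K2 / Real.sqrt R ≤ ε / 4 := by
    have h1 : 64 * C * K2 / ε ≤ Real.sqrt R := by
      apply Real.le_sqrt_of_sq_le
      rw [hRe]
      linarith
    rw [div_le_iff₀ hsR]
    rw [div_le_iff₀ hε] at h1
    linarith
  -- the pointwise errors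
  obtain ⟨er, her⟩ : ∃ er : ℝ → ℝ → ℝ, er = fun T s =>
    max 0 (|SR T h R s - 2 * Real.pi * PG h / s| - 16 * C / (s ^ 2 * Real.sqrt R)) := ⟨_, rfl⟩
  have er0 : ∀ T s, 0 ≤ er T s := by intro T s; rw [her]; exact le_max_left _ _
  have erm : ∀ T, Measurable (er T) := by
    intro T
    rw [her]
    have := (SR_cont T h R).measurable
    refine measurable_const.max (Measurable.sub (Measurable.comp measurable_abs
      (this.sub (measurable_const.div measurable_id))) ?_)
    exact measurable_const.div ((measurable_id.pow_const 2).mul_const _)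
  have erle : ∀ T, 1 < T → MTf T h R ≤ C * (R * Real.sqrt R) → ∀ s, 0 < s →
      er T s ≤ C * (R * Real.sqrt R) + 2 * Real.pi * PG h / s := by
    intro T hT hTR s hs
    rw [her]
    refine max_le (by positivity) ?_
    have h1 := SR_nonneg hT hh R s
    have h2 := (SR_le hT hh R s).trans hTR
    have h3 : 0 ≤ 2 * Real.pi * PG h / s := by positivity
    have h4 : 0 ≤ 16 * C / (s ^ 2 * Real.sqrt R) := by positivity
    have h5 : |SR T h R s - 2 * Real.pi * PG h / s| ≤
        C * (R * Real.sqrt R) + 2 * Real.pi * PG h / s := by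
      rw [abs_le]
      constructor <;> linarith
    linarith
  have domi : IntegrableOn (fun s => C * (R * Real.sqrt R) * |kk s| +
      2 * Real.pi * PG h * |kk s / s|) (Ioi 0) :=
    (kk_int.abs.const_mul _).add (kk_int1.abs.const_mul _)
  have hlim : Tendsto (fun T => ∫ s in Ioi (0 : ℝ), |kk s| * er T s) atTop
      (𝓝 (∫ s in Ioi (0 : ℝ), |kk s| * 0)) := by
    refine tendsto_integral_filter_of_dominated_convergence (fun s => C * (R * Real.sqrt R) *
      |kk s| + 2 * Real.pi * PG h * |kk s / s|) ?_ ?_ domi ?_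
    · exact Eventually.of_forall fun T =>
        (kk_cont.abs.measurable.mul (erm T)).aestronglyMeasurable
    · filter_upwards [hdom, eventually_gt_atTop 1] with T hd hT
      refine (ae_restrict_mem measurableSet_Ioi).mono fun s hs => ?_
      have hs0 : (0 : ℝ) < s := hs
      rw [Real.norm_of_nonneg (mul_nonneg (abs_nonneg _) (er0 T s))]
      refine (mul_le_mul_of_nonneg_left (erle T hT (hd R hR1) s hs0) (abs_nonneg _)).trans
        (le_of_eq ?_)
      rw [abs_div, abs_of_pos hs0]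
      ring
    · refine (ae_restrict_mem measurableSet_Ioi).mono fun s hs => ?_
      have hs0 : (0 : ℝ) < s := hs
      refine Tendsto.const_mul _ ?_
      rw [Metric.tendsto_nhds]
      intro η hη
      filter_upwards [SR_lim hpar hJ hh hdom hR1 hs0 (show 0 < η / 2 by linarith)] with T hT
      rw [Real.dist_eq, sub_zero, abs_of_nonneg (er0 T s), her]
      refine max_lt hη ?_
      linarith
  simp only [mul_zero, integral_zero] at hlim
  filter_upwards [hlim.eventually (gt_mem_nhds (show (0 : ℝ) < ε / 4 by linarith)), hdom, hdom4,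
    eventually_ge_atTop 10] with T u1 hd hd4 hT
  have hT1 : 1 < T := by linarith
  have hT0 : 0 < T := by linarith
  -- truncation
  have a1 : |I1 T h - ∫ c in Ioi (0 : ℝ), gd c * MT T (R * T) h c| ≤ ε / 4 := by
    unfold I1
    rw [← integral_sub (MTf_intg hT hh) (MT_int hT0 _ h)]
    have i1 : IntegrableOn (fun c => C4 / R * (gd c * (1 + 2 * c) ^ 5)) (Ioi 0) :=
      (gd_poly_int 5).const_mul _
    have h1 : ‖∫ c in Ioi (0 : ℝ), (gd c * MTf T h c - gd c * MT T (R * T) h c)‖ ≤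
        ∫ c in Ioi (0 : ℝ), C4 / R * (gd c * (1 + 2 * c) ^ 5) := by
      refine norm_integral_le_of_norm_le i1 ((ae_restrict_mem measurableSet_Ioi).mono
        fun c hc => ?_)
      have hc0 : (0 : ℝ) < c := hc
      have hg := gd_nonneg hc0.le
      rcases le_or_gt c R with hcR | hcR
      · rw [MT_eq h (mul_le_mul_of_nonneg_right hcR hT0.le), sub_self, norm_zero]
        positivity
      · have h2 := MT_nonneg hT1 (R * T) hh c
        have h3 := MT_le hT1 (R * T) hh c
        have h4 := hd4 c hc0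
        rw [← mul_sub, Real.norm_of_nonneg (mul_nonneg hg (by linarith))]
        have h5 : C4 * (1 + 2 * c) ^ 4 ≤ C4 / R * (1 + 2 * c) ^ 5 := by
          rw [div_mul_eq_mul_div, le_div_iff₀ hR0]
          have : R ≤ 1 + 2 * c := by linarith
          calc C4 * (1 + 2 * c) ^ 4 * R ≤ C4 * (1 + 2 * c) ^ 4 * (1 + 2 * c) := by gcongr
            _ = _ := by ring
        calc gd c * (MTf T h c - MT T (R * T) h c) ≤ gd c * (C4 / R * (1 + 2 * c) ^ 5) :=
              mul_le_mul_of_nonneg_left (by linarith) hg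
          _ = _ := by ring
    rw [integral_const_mul, ← hK5, Real.norm_eq_abs] at h1
    refine h1.trans (le_trans (le_of_eq ?_) hb1)
    ring
  -- the main part
  have i2 : IntegrableOn (fun s => kk s * SR T h R s) (Ioi 0) := by
    refine Integrable.mul_bdd (c := MTf T h R) kk_int (SR_cont T h R).aestronglyMeasurable
      (ae_of_all _ fun s => ?_)
    rw [Real.norm_of_nonneg (SR_nonneg hT1 hh R s)]
    exact SR_le hT1 hh R s
  have i3 : IntegrableOn (fun s => 2 * Real.pi * PG h * (kk s / s)) (Ioi 0) :=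
    kk_int1.const_mul _
  have i4 : IntegrableOn (fun s => |kk s| * er T s) (Ioi 0) := by
    refine domi.mono' (kk_cont.abs.measurable.mul (erm T)).aestronglyMeasurable
      ((ae_restrict_mem measurableSet_Ioi).mono fun s hs => ?_)
    have hs0 : (0 : ℝ) < s := hs
    rw [Real.norm_of_nonneg (mul_nonneg (abs_nonneg _) (er0 T s))]
    refine (mul_le_mul_of_nonneg_left (erle T hT1 (hd R hR1) s hs0) (abs_nonneg _)).trans
      (le_of_eq ?_)
    rw [abs_div, abs_of_pos hs0]
    ring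
  have a2 : |(∫ c in Ioi (0 : ℝ), gd c * MT T (R * T) h c) - Real.sqrt Real.pi * PG h| ≤
      ε / 2 := by
    have e1 : Real.sqrt Real.pi * PG h = ∫ s in Ioi (0 : ℝ), 2 * Real.pi * PG h * (kk s / s) := by
      rw [integral_const_mul, kk_mom]
      have : Real.sqrt Real.pi * Real.sqrt Real.pi = Real.pi := Real.mul_self_sqrt hpi.le
      field_simp
      nlinarith
    rw [← SR_int hT0, e1, ← integral_sub i2 i3]
    have i5 : IntegrableOn (fun s => |kk s| * er T s +
        16 * C / Real.sqrt R * |kk s / s ^ 2|) (Ioi 0) := i4.add (kk_int2.abs.const_mul _)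
    have h1 : ‖∫ s in Ioi (0 : ℝ), (kk s * SR T h R s - 2 * Real.pi * PG h * (kk s / s))‖ ≤
        ∫ s in Ioi (0 : ℝ), (|kk s| * er T s + 16 * C / Real.sqrt R * |kk s / s ^ 2|) := by
      refine norm_integral_le_of_norm_le i5 ((ae_restrict_mem measurableSet_Ioi).mono
        fun s hs => ?_)
      have hs0 : (0 : ℝ) < s := hs
      have e2 : kk s * SR T h R s - 2 * Real.pi * PG h * (kk s / s) =
          kk s * (SR T h R s - 2 * Real.pi * PG h / s) := by ring
      rw [e2, Real.norm_eq_abs, abs_mul]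
      have h2 : |SR T h R s - 2 * Real.pi * PG h / s| ≤
          er T s + 16 * C / (s ^ 2 * Real.sqrt R) := by
        rw [her]
        have := le_max_right 0 (|SR T h R s - 2 * Real.pi * PG h / s| -
          16 * C / (s ^ 2 * Real.sqrt R))
        linarith
      refine (mul_le_mul_of_nonneg_left h2 (abs_nonneg _)).trans (le_of_eq ?_)
      rw [abs_div, abs_of_pos (show 0 < s ^ 2 by positivity)]
      field_simp
    rw [integral_add i4 (kk_int2.abs.const_mul _), integral_const_mul, Real.norm_eq_abs] at h1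
    have e3 : ∫ s in Ioi (0 : ℝ), |kk s / s ^ 2| = K2 := hK2.symm
    rw [e3] at h1
    refine h1.trans ?_
    have e4 : 16 * C / Real.sqrt R * K2 = 16 * C * K2 / Real.sqrt R := by ring
    rw [e4]
    linarith
  rw [Real.dist_eq]
  have e5 : I1 T h - Real.sqrt Real.pi * PG h =
      (I1 T h - ∫ c in Ioi (0 : ℝ), gd c * MT T (R * T) h c) +
      ((∫ c in Ioi (0 : ℝ), gd c * MT T (R * T) h c) - Real.sqrt Real.pi * PG h) := by ring
  rw [e5]
  refine lt_of_le_of_lt (abs_add_le _ _) ?_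
  linarith

/-- **back to the pair sums** -/
theorem demixS (hpar : Par P Y) (hJ : ∀ h : ℝ, 0 < h →
      Tendsto (fun T => Jt (Ds T (P T) (Y T)) h) atTop (𝓝 (PG h))) {h : ℝ} (hh : 0 < h) :
    Tendsto (fun T => Pool.Agent.NH10.GM.PT T h) atTop (𝓝 (PG h)) := by
  refine demix (Y := fun T => T ^ 2) (Eventually.of_forall fun T => le_rfl) (fun h hh => ?_) hh
  have h1 := (mix_to hh (Y := fun T => T ^ 2) (Eventually.of_forall fun T => le_rfl)).add
    (I1_of hpar hJ hh)
  rw [zero_add] at h1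
  refine h1.congr fun T => ?_
  unfold I1
  ring

end Pool.Agent.NH10.SV
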