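import Pool.Agent.NH10.SV.Pd
import Pool.Agent.NH10.SV.Pe
import Pool.Agent.NH10.SV.ZD
import Pool.Agent.NH10.GM.Main

/-! # From the sharp windows to the zeros -/

set_option autoImplicit false
set_option maxHeartbeats 4000000

open Filter Topology Set MeasureTheory ArithmeticFunction

namespace Pool.Agent.NH10.SV

open Pool.Agent.Y749.Rig hiding PT
open Pool.Agent.NH10.GM

/-- the width of the smoothing -/
noncomputable def Pf (T : ℝ) : ℝ := T * Real.sqrt (Real.log T)

lemma Pf_facts {T : ℝ} (hT : 10 ≤ T) : T ≤ Pf T ∧ Real.log (Pf T) ≤ 2 * Real.log T ∧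
    Pf T ≤ T * Real.log T := by
  have hL := one_lt_log (show 3 ≤ T by linarith)
  have hT0 : 0 < T := by linarith
  have h1 : 1 ≤ Real.sqrt (Real.log T) := by
    rw [Real.one_le_sqrt]
    exact hL.le
  have h2 : Real.sqrt (Real.log T) ≤ Real.log T := by
    rw [Real.sqrt_le_left (by linarith)]
    nlinarith
  have h3 : Real.log T ≤ T := by
    have := Real.log_le_sub_one_of_pos hT0
    linarith
  unfold Pf
  refine ⟨by nlinarith, ?_, by nlinarith⟩
  have h4 : Real.log (T * Real.sqrt (Real.log T)) ≤ Real.log (T * T) := by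
    apply Real.log_le_log (by positivity)
    nlinarith
  rw [Real.log_mul hT0.ne' hT0.ne'] at h4
  linarith

lemma Pf_par {Yf : ℝ → ℝ} (hY : ∀ T : ℝ, 10 ≤ T → T ^ 2 ≤ Yf T) :
    Par Pf (fun T => Yf (Pf T)) := by
  have hlog : Tendsto (fun T : ℝ => Real.sqrt (Real.log T)) atTop atTop :=
    Real.tendsto_sqrt_atTop.comp Real.tendsto_log_atTop
  refine ⟨?_, ?_, ?_, ?_⟩
  · filter_upwards [eventually_ge_atTop 10] with T hT
    exact (Pf_facts hT).1
  · refine hlog.congr' ?_
    filter_upwards [eventually_ge_atTop 10] with T hT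
    have hT0 : 0 < T := by linarith
    unfold Pf
    field_simp
  · have h1 : Tendsto (fun T : ℝ => 4 / Real.sqrt (Real.log T)) atTop (𝓝 0) :=
      Tendsto.div_atTop tendsto_const_nhds hlog
    refine squeeze_zero_norm' ?_ h1
    filter_upwards [eventually_ge_atTop 10] with T hT
    have hT0 : 0 < T := by linarith
    have hL := one_lt_log (show 3 ≤ T by linarith)
    obtain ⟨h2, h3, _⟩ := Pf_facts hT
    have hLP := one_lt_log (show 3 ≤ Pf T by linarith)
    have hP0 : 0 < Pf T := by linarith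
    obtain ⟨q, hq⟩ : ∃ q : ℝ, q = Real.sqrt (Real.log T) := ⟨_, rfl⟩
    have hqq : q * q = Real.log T := by rw [hq]; exact Real.mul_self_sqrt (by linarith)
    have hq0 : 0 < q := by rw [hq]; exact Real.sqrt_pos.2 (by linarith)
    have e : Pf T / T = q := by
      unfold Pf
      rw [← hq]
      field_simp
    rw [Real.norm_of_nonneg (by positivity), e, ← hq]
    have h4 : Real.log (Pf T) ^ 2 ≤ (2 * Real.log T) ^ 2 :=
      pow_le_pow_left₀ (by linarith) h3 2
    calc q * Real.log (Pf T) ^ 2 / Real.log T ^ 3 ≤ q * (2 * Real.log T) ^ 2 / Real.log T ^ 3 := by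
          gcongr
      _ = 4 * q / Real.log T := by field_simp; norm_num
      _ = 4 / q := by rw [← hqq]; field_simp
  · filter_upwards [eventually_ge_atTop 10] with T hT
    obtain ⟨h2, _, _⟩ := Pf_facts hT
    exact (pow_le_pow_left₀ (by linarith) h2 2).trans (hY _ (by linarith))

/-- the normalised square of the smoothed window -/
noncomputable def Wn (T P α : ℝ) : ℝ :=
  T / Real.log T * (Real.exp (-(α * Real.log T)) * SG T P (α * Real.log T) ^ 2)

lemma Wn_cont {T P : ℝ} (hT : 1 ≤ T) (hP : 0 < P) : Continuous (Wn T P) := by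
  unfold Wn
  have h := SG_cont hT hP
  fun_prop

lemma Wn_nonneg {T : ℝ} (hT : 1 ≤ T) (P α : ℝ) : 0 ≤ Wn T P α := by
  unfold Wn
  have := Real.log_nonneg hT
  positivity

lemma Wn_int {T : ℝ} (hT : 1 < T) (P a b : ℝ) : ∫ α in a..b, Wn T P α =
    T / Real.log T ^ 2 * ∫ u in (a * Real.log T)..(b * Real.log T),
      Real.exp (-u) * SG T P u ^ 2 := by
  have hL := Real.log_pos hT
  unfold Wn
  rw [intervalIntegral.integral_const_mul,
    intervalIntegral.integral_comp_mul_right (fun u => Real.exp (-u) * SG T P u ^ 2) hL.ne',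
    smul_eq_mul]
  field_simp

/-- the shift -/
noncomputable def th (T : ℝ) : ℝ := (1 / (2 * Pf T ^ 2) + 1 / (2 * T)) / Real.log T

lemma th_small {δ : ℝ} (hδ : 0 < δ) : ∀ᶠ T : ℝ in atTop, 0 ≤ th T ∧ th T ≤ δ := by
  filter_upwards [eventually_ge_atTop 10, eventually_ge_atTop (1 / δ)] with T hT hTd
  have hT0 : 0 < T := by linarith
  have hL := one_lt_log (show 3 ≤ T by linarith)
  obtain ⟨h2, _, _⟩ := Pf_facts hT
  have hP0 : 0 < Pf T := by linarith
  have h3 : 1 / (2 * Pf T ^ 2) ≤ 1 / (2 * T) := by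
    apply one_div_le_one_div_of_le (by positivity)
    nlinarith
  have h4 : 1 / (2 * T) + 1 / (2 * T) = 1 / T := by field_simp; norm_num
  have h5 : 1 / T ≤ δ := by
    rw [div_le_iff₀ hδ] at hTd
    rw [div_le_iff₀ hT0]
    linarith
  unfold th
  refine ⟨by positivity, ?_⟩
  rw [div_le_iff₀ (by linarith)]
  nlinarith

variable {Yf : ℝ → ℝ}

lemma compareS (hE : EFp Yf) {b : ℝ} (hb : 0 ≤ b) {η ε : ℝ} (hη : 0 < η) (hε : 0 < ε) :
    ∀ᶠ T in atTop, ∀ α ∈ Icc (3 / 4 : ℝ) b,
      Ds T (Pf T) (Yf (Pf T)) (α + th T) ≤ (1 + η) * Wn T (Pf T) α + ε ∧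
      Wn T (Pf T) α ≤ (1 + η) * Ds T (Pf T) (Yf (Pf T)) (α + th T) + ε := by
  obtain ⟨C, T₀, hC, hT₀, hEF⟩ := EFs hE hb
  obtain ⟨K, hK⟩ : ∃ K : ℝ, K = (1 + 1 / η) * (25 * C ^ 2 * 384) := ⟨_, rfl⟩
  have hK0 : 0 < K := by rw [hK]; positivity
  filter_upwards [eventually_ge_atTop T₀,
    Real.tendsto_log_atTop.eventually_ge_atTop (4 + K / ε)] with T hT hLL α hα
  have hT10 : 10 ≤ T := hT₀.trans hT
  have hT0 : 0 < T := by linarith
  obtain ⟨p1, p2, p3⟩ := Pf_facts hT10
  obtain ⟨P, hP⟩ : ∃ P : ℝ, P = Pf T := ⟨_, rfl⟩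
  obtain ⟨L, hLe⟩ : ∃ L : ℝ, L = Real.log T := ⟨_, rfl⟩
  rw [← hLe] at hLL p2 p3
  rw [← hP] at p1 p2 p3 ⊢
  have hq : 0 ≤ K / ε := by positivity
  have hL4 : 4 ≤ L := by linarith
  have hL0 : 0 < L := by linarith
  have hP0 : 0 < P := by linarith
  have hexpL : Real.exp L = T := by rw [hLe]; exact Real.exp_log hT0
  have hu0 : 0 ≤ α * L := mul_nonneg (by linarith [hα.1]) hL0.le
  have hub : α * L ≤ b * L := mul_le_mul_of_nonneg_right hα.2 hL0.le
  have h1 := hEF T P hT p1 (α * L) hu0 (by rw [← hLe]; exact hub)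
  obtain ⟨e, he⟩ : ∃ e : ℝ, e = T * (Real.exp (-(α * L / 2)) * SG T P (α * L)) +
    Zs T P (Yf P) (α * L + 1 / (2 * P ^ 2) + 1 / (2 * T)) := ⟨_, rfl⟩
  rw [← he] at h1
  obtain ⟨k1, k2⟩ := sq_cmp hη he.symm
  -- the size of the error
  have hPL : P * Real.log P ≤ 2 * T * L ^ 2 := by
    have h2 : 0 ≤ Real.log P := Real.log_nonneg (by linarith)
    calc P * Real.log P ≤ (T * L) * (2 * L) := by gcongr
      _ = _ := by ring
  have hPL0 : 0 ≤ P * Real.log P := mul_nonneg hP0.le (Real.log_nonneg (by linarith))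
  have h4 : 1 ≤ Real.exp (L / 4) := Real.one_le_exp (by linarith)
  have h2 : Real.exp (-(α * L)) * (P * Real.log P) + 1 + P * Real.log P / T ≤
      5 * (Real.exp (L / 4) * L ^ 2) := by
    have h3 : Real.exp (-(α * L)) * T ≤ Real.exp (L / 4) := by
      have h3' : Real.exp (-(α * L)) * T = Real.exp (-(α * L)) * Real.exp L := by rw [hexpL]
      rw [h3', ← Real.exp_add]
      apply Real.exp_le_exp.2
      have := mul_le_mul_of_nonneg_right hα.1 hL0.le
      linarith
    have h5 : Real.exp (-(α * L)) * (P * Real.log P) ≤ 2 * (Real.exp (L / 4) * L ^ 2) := by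
      calc Real.exp (-(α * L)) * (P * Real.log P) ≤ Real.exp (-(α * L)) * (2 * T * L ^ 2) :=
            mul_le_mul_of_nonneg_left hPL (Real.exp_pos _).le
        _ = 2 * ((Real.exp (-(α * L)) * T) * L ^ 2) := by ring
        _ ≤ _ := by gcongr
    have h6 : P * Real.log P / T ≤ 2 * L ^ 2 := by
      rw [div_le_iff₀ hT0]
      linarith
    have h7 : L ^ 2 ≤ Real.exp (L / 4) * L ^ 2 := by nlinarith [sq_nonneg L]
    have h8 : 1 ≤ L ^ 2 := by nlinarith
    linarith
  have h6 : e ^ 2 ≤ 25 * C ^ 2 * (Real.exp (L / 2) * L ^ 4) := by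
    have h7 : |e| ≤ C * (5 * (Real.exp (L / 4) * L ^ 2)) :=
      h1.trans (mul_le_mul_of_nonneg_left h2 hC.le)
    have h8 : e ^ 2 ≤ (C * (5 * (Real.exp (L / 4) * L ^ 2))) ^ 2 := by
      rw [← sq_abs]
      exact pow_le_pow_left₀ (abs_nonneg e) h7 2
    have h9 : Real.exp (L / 2) = Real.exp (L / 4) ^ 2 := by
      rw [← Real.exp_nat_mul]; congr 1; push_cast; ring
    rw [h9]
    refine h8.trans (le_of_eq ?_)
    ring
  have h10 : 1 / (T * L) * ((1 + 1 / η) * e ^ 2) ≤ ε := by
    have hexp2 : Real.exp (L / 2) * Real.exp (L / 2) = T := by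
      rw [← Real.exp_add, ← hexpL]; congr 1; ring
    have h11 : L ^ 4 / 384 ≤ Real.exp (L / 2) := by
      have h12 := Real.pow_div_factorial_le_exp (L / 2) (by linarith) 4
      have e4 : (Nat.factorial 4 : ℝ) = 24 := by norm_num [Nat.factorial]
      rw [e4] at h12
      have : (L / 2) ^ 4 / 24 = L ^ 4 / 384 := by ring
      linarith
    have hE0 := Real.exp_pos (L / 2)
    calc 1 / (T * L) * ((1 + 1 / η) * e ^ 2) ≤
          1 / (T * L) * ((1 + 1 / η) * (25 * C ^ 2 * (Real.exp (L / 2) * L ^ 4))) := by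
          gcongr
      _ = (1 + 1 / η) * (25 * C ^ 2) * (L ^ 3 / Real.exp (L / 2)) := by
          rw [← hexp2]
          field_simp
      _ ≤ (1 + 1 / η) * (25 * C ^ 2) * (384 / L) := by
          have : L ^ 3 / Real.exp (L / 2) ≤ 384 / L := by
            rw [div_le_div_iff₀ hE0 hL0]
            nlinarith
          gcongr
      _ = K / L := by rw [hK]; ring
      _ ≤ ε := by
          rw [div_le_iff₀ hL0]
          have h12 : K / ε ≤ L := by linarith
          rw [div_le_iff₀ hε] at h12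
          linarith
  have hκ : 0 ≤ 1 / (T * L) := by positivity
  have eD : Ds T P (Yf P) (α + th T) = 1 / (T * L) *
      Zs T P (Yf P) (α * L + 1 / (2 * P ^ 2) + 1 / (2 * T)) ^ 2 := by
    unfold Ds th
    rw [← hLe, ← hP]
    congr 3
    field_simp
    ring
  have eW : Wn T P α = 1 / (T * L) * (T * (Real.exp (-(α * L / 2)) * SG T P (α * L))) ^ 2 := by
    unfold Wn
    rw [← hLe]
    have h5 : Real.exp (-(α * L)) = Real.exp (-(α * L / 2)) ^ 2 := by
      rw [← Real.exp_nat_mul]; congr 1; push_cast; ring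
    rw [h5]
    field_simp
  rw [eD, eW]
  constructor
  · have := mul_le_mul_of_nonneg_left k2 hκ
    linarith
  · have := mul_le_mul_of_nonneg_left k1 hκ
    linarith

lemma compare_intS (hE : EFp Yf) {a b : ℝ} (ha : 3 / 4 ≤ a) (hab : a ≤ b) {η ε : ℝ} (hη : 0 < η)
    (hε : 0 < ε) : ∀ᶠ T in atTop,
      (∫ α in (a + th T)..(b + th T), Ds T (Pf T) (Yf (Pf T)) α) ≤
        (1 + η) * (∫ α in a..b, Wn T (Pf T) α) + ε ∧
      (∫ α in a..b, Wn T (Pf T) α) ≤
        (1 + η) * (∫ α in (a + th T)..(b + th T), Ds T (Pf T) (Yf (Pf T)) α) + ε := by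
  filter_upwards [compareS hE (show 0 ≤ b by linarith) hη
    (show 0 < ε / (b - a + 1) by
      have : 0 < b - a + 1 := by linarith
      positivity), eventually_ge_atTop 10] with T h hT
  have hT0 : 0 < T := by linarith
  obtain ⟨p1, p2, p3⟩ := Pf_facts hT
  have c1 : Continuous fun α => Ds T (Pf T) (Yf (Pf T)) (α + th T) :=
    (Ds_cont T (Pf T) (Yf (Pf T))).comp (continuous_add_const _)
  have c2 := Wn_cont (show 1 ≤ T by linarith) (show 0 < Pf T by linarith)
  have hsm : (b - a) * (ε / (b - a + 1)) ≤ ε := by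
    rw [← mul_div_assoc, div_le_iff₀ (by linarith)]
    nlinarith
  have key : ∀ f g : ℝ → ℝ, Continuous f → Continuous g →
      (∀ α ∈ Icc a b, f α ≤ (1 + η) * g α + ε / (b - a + 1)) →
      (∫ α in a..b, f α) ≤ (1 + η) * (∫ α in a..b, g α) + ε := by
    intro f g hf hg hfg
    have h1 : ∫ α in a..b, f α ≤ ∫ α in a..b, ((1 + η) * g α + ε / (b - a + 1)) :=
      intervalIntegral.integral_mono_on hab (hf.intervalIntegrable _ _)
        (((continuous_const.mul hg).add continuous_const).intervalIntegrable _ _) hfg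
    have i1 : IntervalIntegrable (fun α => (1 + η) * g α) volume a b :=
      (continuous_const.mul hg).intervalIntegrable _ _
    rw [intervalIntegral.integral_add i1 (by simp), intervalIntegral.integral_const_mul,
      intervalIntegral.integral_const, smul_eq_mul] at h1
    linarith
  have e1 : ∫ α in (a + th T)..(b + th T), Ds T (Pf T) (Yf (Pf T)) α =
      ∫ α in a..b, Ds T (Pf T) (Yf (Pf T)) (α + th T) :=
    (intervalIntegral.integral_comp_add_right _ _).symm
  rw [e1]
  exact ⟨key _ _ c1 c2 fun α hα => (h α ⟨ha.trans hα.1, hα.2⟩).1,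
    key _ _ c2 c1 fun α hα => (h α ⟨ha.trans hα.1, hα.2⟩).2⟩

/-- the windows of the zeros are at most those of the smoothed primes -/
lemma Ds_le_Wn (hE : EFp Yf) {a b δ : ℝ} (hδ : 0 < δ) (ha : 3 / 4 ≤ a - δ) (hab : a ≤ b)
    {η ε : ℝ} (hη : 0 < η) (hε : 0 < ε) : ∀ᶠ T in atTop,
      (∫ α in a..b, Ds T (Pf T) (Yf (Pf T)) α) ≤
        (1 + η) * (∫ α in (a - δ)..b, Wn T (Pf T) α) + ε := by
  filter_upwards [compare_intS hE ha (show a - δ ≤ b by linarith) hη hε, th_small hδ,
    eventually_ge_atTop 10] with T h1 h2 hT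
  refine le_trans ?_ h1.1
  exact intervalIntegral.integral_mono_interval (by linarith) hab (by linarith)
    (ae_of_all _ fun α => Ds_nonneg (by linarith) _ _ α)
    ((Ds_cont _ _ _).intervalIntegrable _ _)

/-- the normalised mean square -/
noncomputable def JQ (T a b : ℝ) : ℝ := T / Real.log T ^ 2 * ∫ u in a..b, Qu T u

lemma Js_JQ {T a b : ℝ} (hT : 1 < T) (hab : a ≤ b) :
    Js T a b = JQ T (a * Real.log T) (b * Real.log T) := Js_eq hT hab

lemma JQ_mono {T : ℝ} (hT : 1 < T) {a b a' b' : ℝ} (h1 : a' ≤ a) (h2 : a ≤ b) (h3 : b ≤ b') :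
    JQ T a b ≤ JQ T a' b' := by
  unfold JQ
  have := Real.log_pos hT
  refine mul_le_mul_of_nonneg_left ?_ (by positivity)
  exact intervalIntegral.integral_mono_interval h1 h2 h3 (ae_of_all _ fun α => Qu_nonneg _ _)
    (Qu_ii hT.le _ _)

lemma JQ_add {T : ℝ} (hT : 1 < T) (a b c : ℝ) : JQ T a c = JQ T a b + JQ T b c := by
  unfold JQ
  rw [← mul_add, intervalIntegral.integral_add_adjacent_intervals (Qu_ii hT.le _ _)
    (Qu_ii hT.le _ _)]

lemma JQ_nonneg {T : ℝ} (hT : 1 < T) {a b : ℝ} (hab : a ≤ b) : 0 ≤ JQ T a b := by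
  unfold JQ
  have := Real.log_pos hT
  exact mul_nonneg (by positivity) (intervalIntegral.integral_nonneg hab fun t _ => Qu_nonneg _ _)

/-- the smoothed windows are at most the sharp ones -/
lemma Wn_le_JQ {a b : ℝ} (hab : a ≤ b) {η : ℝ} (hη : 0 < η) : ∀ᶠ T in atTop,
    (∫ α in a..b, Wn T (Pf T) α) ≤ (1 + η) * JQ T (a * Real.log T - 1 / Real.sqrt T)
      (b * Real.log T + 1 / Real.sqrt T) + η := by
  have t1 : Tendsto (fun T : ℝ => Real.exp (1 / Real.sqrt T)) atTop (𝓝 1) := by
    have h1 : Tendsto (fun T : ℝ => 1 / Real.sqrt T) atTop (𝓝 0) :=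
      Tendsto.div_atTop tendsto_const_nhds Real.tendsto_sqrt_atTop
    have h2 := (Real.continuous_exp.tendsto 0).comp h1
    rwa [Real.exp_zero] at h2
  have t2 : Tendsto (fun T : ℝ => T * T ^ b * Real.exp (-(T / 4))) atTop (𝓝 0) := by
    have h1 := tendsto_rpow_mul_exp_neg_mul_atTop_nhds_zero (b + 1) (1 / 4) (by norm_num)
    refine h1.congr' ?_
    filter_upwards [eventually_gt_atTop 0] with T hT
    have : T ^ (b + 1) = T * T ^ b := by
      rw [Real.rpow_add hT, Real.rpow_one, mul_comm]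
    rw [this]
    congr 2
    ring
  have t3 := t2.const_mul (2400 * (b - a))
  rw [mul_zero] at t3
  filter_upwards [t1.eventually (gt_mem_nhds (show (1 : ℝ) < 1 + η by linarith)),
    t3.eventually (gt_mem_nhds hη), eventually_ge_atTop 10] with T h1 h2 hT
  have hT0 : 0 < T := by linarith
  have hT1 : 1 < T := by linarith
  have hL := one_lt_log (show 3 ≤ T by linarith)
  have hL0 : 0 < Real.log T := by linarith
  obtain ⟨p1, p2, p3⟩ := Pf_facts hT
  have hP0 : 0 < Pf T := by linarith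
  have hsT : 0 < Real.sqrt T := Real.sqrt_pos.2 hT0
  rw [Wn_int hT1]
  have h3 := win_SG (T := T) (P := Pf T) (ω := 1 / Real.sqrt T) (α := a * Real.log T)
    (β := b * Real.log T) hT1.le hP0 (by positivity)
    (mul_le_mul_of_nonneg_right hab hL0.le)
  have hTL : 0 ≤ T / Real.log T ^ 2 := by positivity
  have h4 := mul_le_mul_of_nonneg_left h3 hTL
  refine h4.trans ?_
  rw [mul_add]
  have h5 : T / Real.log T ^ 2 * (Real.exp (1 / Real.sqrt T) *
      ∫ t in (a * Real.log T - 1 / Real.sqrt T)..(b * Real.log T + 1 / Real.sqrt T), Qu T t) ≤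
      (1 + η) * JQ T (a * Real.log T - 1 / Real.sqrt T) (b * Real.log T + 1 / Real.sqrt T) := by
    have h6 := JQ_nonneg hT1 (show a * Real.log T - 1 / Real.sqrt T ≤
      b * Real.log T + 1 / Real.sqrt T by
        have h7 := mul_le_mul_of_nonneg_right hab hL0.le
        have h8 : 0 ≤ 1 / Real.sqrt T := by positivity
        linarith)
    have h7 := mul_le_mul_of_nonneg_right h1.le h6
    unfold JQ at h7 ⊢
    linarith
  have h6 : T / Real.log T ^ 2 * ((b * Real.log T - a * Real.log T) *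
      (800 * Real.exp (b * Real.log T) * Real.exp (-(Pf T ^ 2 * (1 / Real.sqrt T) ^ 2 / 4)) *
      Real.exp (4 / Pf T ^ 2))) ≤ 2400 * (b - a) * (T * T ^ b * Real.exp (-(T / 4))) := by
    have e1 : Real.exp (b * Real.log T) = T ^ b := by
      rw [Real.rpow_def_of_pos hT0, mul_comm]
    have e2 : Real.exp (-(Pf T ^ 2 * (1 / Real.sqrt T) ^ 2 / 4)) ≤ Real.exp (-(T / 4)) := by
      apply Real.exp_le_exp.2
      have h7 : T ≤ Pf T ^ 2 * (1 / Real.sqrt T) ^ 2 := by
        rw [div_pow, Real.sq_sqrt hT0.le, one_pow, mul_one_div, le_div_iff₀ hT0]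
        nlinarith
      linarith
    have e3 : Real.exp (4 / Pf T ^ 2) ≤ 3 := by
      have h7 : 4 / Pf T ^ 2 ≤ 1 := by
        rw [div_le_one (by positivity)]
        nlinarith
      have := Real.exp_one_lt_d9
      exact (Real.exp_le_exp.2 h7).trans (by linarith)
    have e4 : T / Real.log T ^ 2 * (b * Real.log T - a * Real.log T) ≤ T * (b - a) := by
      have : T / Real.log T ^ 2 * (b * Real.log T - a * Real.log T) =
          T * (b - a) / Real.log T := by field_simp
      rw [this, div_le_iff₀ hL0]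
      have : 0 ≤ T * (b - a) := mul_nonneg hT0.le (by linarith)
      nlinarith
    have hTb : 0 < T ^ b := Real.rpow_pos_of_pos hT0 b
    have hba : 0 ≤ T * (b - a) := mul_nonneg hT0.le (by linarith)
    rw [e1]
    calc T / Real.log T ^ 2 * ((b * Real.log T - a * Real.log T) *
        (800 * T ^ b * Real.exp (-(Pf T ^ 2 * (1 / Real.sqrt T) ^ 2 / 4)) *
        Real.exp (4 / Pf T ^ 2))) = (T / Real.log T ^ 2 * (b * Real.log T - a * Real.log T)) *
        (800 * T ^ b * Real.exp (-(Pf T ^ 2 * (1 / Real.sqrt T) ^ 2 / 4)) *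
        Real.exp (4 / Pf T ^ 2)) := by ring
      _ ≤ (T * (b - a)) * (800 * T ^ b * Real.exp (-(T / 4)) * 3) := by gcongr
      _ = _ := by ring
  linarith

/-- **from the sharp windows to the pair sums** -/
theorem PT_of_Js (RH : RiemannHypothesis)
    (H : ∀ a b : ℝ, 1 ≤ a → a < b → ∀ ε : ℝ, 0 < ε → ∀ᶠ T in atTop, Js T a b ≤ b - a + ε)
    {h : ℝ} (hh : 0 < h) : Tendsto (fun T => Pool.Agent.NH10.GM.PT T h) atTop (𝓝 (PG h)) := by
  obtain ⟨Yf, hY, hE⟩ := EFf RH
  have hE' : EFp Yf := hE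
  have hpar := Pf_par hY
  -- the sharp windows, slightly enlarged
  have U : ∀ a b : ℝ, 1 ≤ a → a < b → ∀ ε : ℝ, 0 < ε → ∃ δ : ℝ, 0 < δ ∧ δ ≤ 1 / 8 ∧
      ∀ᶠ T in atTop, JQ T ((a - δ) * Real.log T) ((b + δ) * Real.log T) ≤ b - a + ε := by
    intro a b ha hab ε hε
    rcases eq_or_lt_of_le ha with h1 | h1
    · rw [← h1] at hab ⊢
      obtain ⟨δ, hδ0, hδ1, hδ⟩ := near_sharp (show 0 < ε / 4 by linarith)
      obtain ⟨d, hd⟩ : ∃ d : ℝ, d = min δ (ε / 4) := ⟨_, rfl⟩
      have hd0 : 0 < d := by rw [hd]; exact lt_min hδ0 (by linarith)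
      have hd1 : d ≤ δ := by rw [hd]; exact min_le_left _ _
      have hd2 : d ≤ ε / 4 := by rw [hd]; exact min_le_right _ _
      refine ⟨d, hd0, by linarith, ?_⟩
      filter_upwards [hδ, H 1 (b + d) le_rfl (by linarith) (ε / 4) (by linarith),
        eventually_ge_atTop 10] with T t1 t2 hT
      have hT1 : 1 < T := by linarith
      have hL := one_lt_log (show 3 ≤ T by linarith)
      rw [Js_JQ hT1 (by linarith)] at t2
      have e1 := JQ_add hT1 ((1 - d) * Real.log T) (1 * Real.log T) ((b + d) * Real.log T)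
      have e2 : JQ T ((1 - d) * Real.log T) (1 * Real.log T) ≤ ε / 4 := by
        refine (JQ_mono hT1 (a' := (1 - δ) * Real.log T) (b' := Real.log T + 1) ?_ ?_ ?_).trans t1
        · nlinarith
        · nlinarith
        · linarith
      rw [e1]
      linarith
    · obtain ⟨d, hd⟩ : ∃ d : ℝ, d = min (1 / 8) (min (a - 1) (ε / 4)) := ⟨_, rfl⟩
      have hd0 : 0 < d := by
        rw [hd]; exact lt_min (by norm_num) (lt_min (by linarith) (by linarith))
      have hd1 : d ≤ 1 / 8 := by rw [hd]; exact min_le_left _ _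
      have hd2 : d ≤ a - 1 := by rw [hd]; exact (min_le_right _ _).trans (min_le_left _ _)
      have hd3 : d ≤ ε / 4 := by rw [hd]; exact (min_le_right _ _).trans (min_le_right _ _)
      refine ⟨d, hd0, hd1, ?_⟩
      filter_upwards [H (a - d) (b + d) (by linarith) (by linarith) (ε / 4) (by linarith),
        eventually_ge_atTop 10] with T t2 hT
      rw [Js_JQ (by linarith) (by linarith)] at t2
      linarith
  -- the smoothed windows
  have hsqrt : ∀ δ : ℝ, 0 < δ → ∀ᶠ T : ℝ in atTop, 1 / Real.sqrt T ≤ δ * Real.log T := by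
    intro δ hδ
    filter_upwards [eventually_ge_atTop 10,
      Real.tendsto_log_atTop.eventually_ge_atTop (1 / δ)] with T hT h1
    have hT0 : 0 < T := by linarith
    have h2 : 1 ≤ Real.sqrt T := by rw [Real.one_le_sqrt]; linarith
    have h3 : 1 / Real.sqrt T ≤ 1 := by rw [div_le_one (by linarith)]; exact h2
    rw [div_le_iff₀ hδ] at h1
    linarith
  have hmid : ∀ a b δ : ℝ, 0 < δ → a ≤ b → ∀ η : ℝ, 0 < η → ∀ ε : ℝ, 0 < ε → ∀ᶠ T in atTop,
      (∫ α in a..b, Wn T (Pf T) α) ≤
        (1 + η) * JQ T ((a - δ) * Real.log T) ((b + δ) * Real.log T) + ε := by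
    intro a b δ hδ hab η hη ε hε
    filter_upwards [Wn_le_JQ hab (show 0 < min η ε from lt_min hη hε), hsqrt δ hδ,
      eventually_ge_atTop 10] with T t1 t2 hT
    have hT1 : 1 < T := by linarith
    have hL := one_lt_log (show 3 ≤ T by linarith)
    have hs : 0 < 1 / Real.sqrt T := by
      have := Real.sqrt_pos.2 (show 0 < T by linarith)
      positivity
    have hab' := mul_le_mul_of_nonneg_right hab (show 0 ≤ Real.log T by linarith)
    have h3 := JQ_mono hT1 (a := a * Real.log T - 1 / Real.sqrt T)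
      (b := b * Real.log T + 1 / Real.sqrt T) (a' := (a - δ) * Real.log T)
      (b' := (b + δ) * Real.log T) (by linarith) (by linarith) (by linarith)
    have h4 := JQ_nonneg hT1 (a := a * Real.log T - 1 / Real.sqrt T)
      (b := b * Real.log T + 1 / Real.sqrt T) (by linarith)
    have h5 : (1 + min η ε) * JQ T (a * Real.log T - 1 / Real.sqrt T)
        (b * Real.log T + 1 / Real.sqrt T) ≤
        (1 + η) * JQ T ((a - δ) * Real.log T) ((b + δ) * Real.log T) :=
      mul_le_mul (by linarith [min_le_left η ε]) h3 h4 (by linarith)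
    linarith [min_le_right η ε]
  have hJ : ∀ h : ℝ, 0 < h → Tendsto (fun T => Jt (Ds T (Pf T) (Yf (Pf T))) h) atTop
      (𝓝 (PG h)) := by
    intro h hh
    have key := rigid (D := fun T => Ds T (Pf T) (Yf (Pf T))) (c := 1) one_pos
      (Eventually.of_forall fun T => Ds_cont T _ _)
      ((eventually_ge_atTop 1).mono fun T hT α => Ds_nonneg hT _ _ α) ?_ ?_ ?_ ?_ hh
    · rwa [one_mul] at key
    · intro h hh h1
      rw [one_mul]
      refine mix_limS hpar hh ?_
      filter_upwards [lt_mem_nhds hh, gt_mem_nhds h1] with y hy hy1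
      exact PT_mont RH hy hy1
    · intro h hh ε hε
      rw [one_mul]
      exact mix_lowS hpar hh hε
    · intro a b ha hab ε hε
      rw [one_mul]
      obtain ⟨δ, hδ0, hδ1, hδ⟩ := U a b ha hab (ε / 4) (by linarith)
      have hc : 0 ≤ b - a + ε / 4 := by linarith
      have s1 : ∀ ε' : ℝ, 0 < ε' → ∀ᶠ T in atTop,
          (∫ α in (a - δ / 2)..b, Wn T (Pf T) α) ≤ b - a + ε / 4 + ε' := by
        intro ε' hε'
        refine ub_trans (g := fun T => JQ T ((a - δ) * Real.log T) ((b + δ) * Real.log T)) hc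
          (fun η hη ε₁ hε₁ => ?_) (fun ε₁ hε₁ => hδ.mono fun T hT => by linarith) hε'
        filter_upwards [hmid (a - δ / 2) b (δ / 2) (by linarith) (by linarith) η hη ε₁ hε₁,
          eventually_ge_atTop 10] with T t1 hT
        have hT1 : 1 < T := by linarith
        have hL := one_lt_log (show 3 ≤ T by linarith)
        have e1 : a - δ / 2 - δ / 2 = a - δ := by ring
        rw [e1] at t1
        have h3 := JQ_mono hT1 (a := (a - δ) * Real.log T) (b := (b + δ / 2) * Real.log T)
          (a' := (a - δ) * Real.log T) (b' := (b + δ) * Real.log T) le_rfl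
          (by nlinarith) (by nlinarith)
        have h4 := mul_le_mul_of_nonneg_left h3 (show 0 ≤ 1 + η by linarith)
        linarith
      have s2 := ub_trans (f := fun T => ∫ α in a..b, Ds T (Pf T) (Yf (Pf T)) α)
        (g := fun T => ∫ α in (a - δ / 2)..b, Wn T (Pf T) α) hc
        (fun η hη ε₁ hε₁ => Ds_le_Wn hE' (by linarith) (by linarith) hab.le hη hε₁) s1
        (show 0 < ε / 4 by linarith)
      filter_upwards [s2] with T hT
      linarith
    · intro ε hε
      obtain ⟨δ, hδ0, hδ1, hδ⟩ := near_sharp (show 0 < ε / 8 by linarith)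
      refine ⟨δ / 3, by linarith, by linarith, ?_⟩
      filter_upwards [hδ, Ds_le_Wn (a := 1 - δ / 3) (b := 1) (δ := δ / 3) hE' (by linarith)
        (by linarith) (by linarith) one_pos (show 0 < ε / 4 by linarith),
        Wn_le_JQ (a := 1 - δ / 3 - δ / 3) (b := 1) (by linarith)
        (show 0 < min 1 (ε / 8) from lt_min one_pos (by linarith)),
        hsqrt (δ / 3) (by linarith), eventually_ge_atTop 10] with T t1 t2 t3 t4 hT
      have hT1 : 1 < T := by linarith
      have hL := one_lt_log (show 3 ≤ T by linarith)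
      have hs2 : 1 ≤ Real.sqrt T := by rw [Real.one_le_sqrt]; linarith
      have hs3 : 1 / Real.sqrt T ≤ 1 := by rw [div_le_one (by linarith)]; exact hs2
      have hs4 : 0 < 1 / Real.sqrt T := by positivity
      have h3 := JQ_mono hT1 (a := (1 - δ / 3 - δ / 3) * Real.log T - 1 / Real.sqrt T)
        (b := 1 * Real.log T + 1 / Real.sqrt T) (a' := (1 - δ) * Real.log T)
        (b' := Real.log T + 1) (by linarith) (by nlinarith) (by linarith)
      have h4 := JQ_nonneg hT1 (a := (1 - δ / 3 - δ / 3) * Real.log T - 1 / Real.sqrt T)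
        (b := 1 * Real.log T + 1 / Real.sqrt T) (by nlinarith)
      have h5 : JQ T ((1 - δ) * Real.log T) (Real.log T + 1) ≤ ε / 8 := t1
      have h6 := min_le_left 1 (ε / 8)
      have h7 := min_le_right 1 (ε / 8)
      have h8 : (1 + min 1 (ε / 8)) * JQ T ((1 - δ / 3 - δ / 3) * Real.log T - 1 / Real.sqrt T)
          (1 * Real.log T + 1 / Real.sqrt T) ≤ (1 + 1) * (ε / 8) :=
        mul_le_mul (by linarith) (h3.trans h5) h4 (by norm_num)
      linarith
  exact demixS hpar hJ hh

end Pool.Agent.NH10.SV
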