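import Pool.Agent.NH10.SV.Fa
import Pool.Agent.NH10.SV.Pf

/-! # The asymptotic formula up to `T` -/

set_option autoImplicit false
set_option maxHeartbeats 4000000

open Filter Topology Set MeasureTheory ArithmeticFunction

namespace Pool.Agent.NH10.SV

open Pool.Agent.NH10.GM

lemma Gn_ii {T : ℝ} (hT : 0 < T) {n : ℕ} (hn : 1 ≤ n) (a b : ℝ) :
    IntervalIntegrable (Gn T n) volume a b := (Gn_int hT hn).1.intervalIntegrable

lemma Gn_le {T L : ℝ} (hT : 0 < T) (hL : 0 ≤ L) {n : ℕ} (hn : 1 ≤ n) :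
    ∫ t in (0 : ℝ)..L, Gn T n t ≤ 1 / T / n := by
  rw [← (Gn_int hT hn).2, intervalIntegral.integral_of_le hL]
  exact setIntegral_le_integral (Gn_int hT hn).1 (ae_of_all _ fun t => Gn_nonneg T n t)

lemma Gn_full {T L : ℝ} (hT : 3 ≤ T) (hL : Real.exp L = T) {n : ℕ} (hn : 2 ≤ n)
    (hnT : (n : ℝ) ≤ T) : ∫ t in (0 : ℝ)..L, Gn T n t = 1 / T / n := by
  have hT0 : 0 < T := by linarith
  have hL0 : 0 ≤ L := by
    have h1 : Real.exp 0 ≤ Real.exp L := by rw [hL, Real.exp_zero]; linarith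
    exact Real.exp_le_exp.1 h1
  have hn0 : (0 : ℝ) < n := by
    have : 0 < n := by omega
    exact_mod_cast this
  have hn2 : (2 : ℝ) ≤ n := by exact_mod_cast hn
  rw [← (Gn_int hT0 (show 1 ≤ n by omega)).2, intervalIntegral.integral_of_le hL0]
  refine setIntegral_eq_integral_of_forall_compl_eq_zero fun t ht => ?_
  by_contra hcon
  obtain ⟨h1, h2⟩ := Gn_supp hT0 (show 1 ≤ n by omega) hcon
  apply ht
  constructor
  · by_contra h3
    push Not at h3
    have h4 : Real.exp t ≤ 1 := Real.exp_le_one_iff.2 h3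
    have h5 : 1 / T ≤ 1 / 3 := one_div_le_one_div_of_le (by norm_num) hT
    have h6 : 0 < 1 / T := by positivity
    have h7 : Real.exp t * (1 + 1 / T) ≤ 1 * (1 + 1 / 3) :=
      mul_le_mul h4 (by linarith) (by positivity) (by norm_num)
    linarith
  · have h3 : Real.exp t < Real.exp L := by rw [hL]; linarith
    exact (Real.exp_lt_exp.1 h3).le

lemma sumG_ii {T : ℝ} (hT : 0 < T) (N : ℕ) (f : ℕ → ℝ) (a b : ℝ) :
    IntervalIntegrable (fun t => ∑ n ∈ Finset.Icc 1 N, f n * Gn T n t) volume a b := by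
  have e : (fun t => ∑ n ∈ Finset.Icc 1 N, f n * Gn T n t) =
      ∑ n ∈ Finset.Icc 1 N, fun t => f n * Gn T n t := by
    funext t
    rw [Finset.sum_apply]
  rw [e]
  exact IntervalIntegrable.sum _ fun n hn =>
      (Gn_ii hT (Finset.mem_Icc.1 hn).1 a b).const_mul (f n)

lemma sumG_int {T : ℝ} (hT : 0 < T) (N : ℕ) (f : ℕ → ℝ) (a b : ℝ) :
    ∫ t in a..b, ∑ n ∈ Finset.Icc 1 N, f n * Gn T n t =
      ∑ n ∈ Finset.Icc 1 N, f n * ∫ t in a..b, Gn T n t := by
  rw [intervalIntegral.integral_finsetSum fun n hn =>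
    (Gn_ii hT (Finset.mem_Icc.1 hn).1 a b).const_mul (f n)]
  exact Finset.sum_congr rfl fun n _ => intervalIntegral.integral_const_mul _ _

lemma psi_six (N : ℕ) : ∑ n ∈ Finset.Icc 1 N, vonMangoldt n ≤ 6 * N := by
  have h := Chebyshev.psi_le_const_mul_self (x := (N : ℝ)) (Nat.cast_nonneg N)
  rw [Chebyshev.psi, Nat.floor_natCast] at h
  have h3 : Real.log 4 ≤ 2 := by
    have : Real.log 4 = 2 * Real.log 2 := by
      rw [show (4 : ℝ) = 2 ^ 2 by norm_num, Real.log_pow]; norm_num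
    have := Real.log_two_lt_d9
    linarith
  have h4 : (Real.log 4 + 4) * N ≤ 6 * N :=
    mul_le_mul_of_nonneg_right (by linarith) (Nat.cast_nonneg N)
  exact le_trans (le_of_eq rfl) (h.trans h4)

/-- the asymptotic formula up to `T` -/
theorem JQ_zero : Tendsto (fun T => JQ T 0 (Real.log T)) atTop (𝓝 (1 / 2)) := by
  obtain ⟨C, hC, h2⟩ := lam2
  have t1 : Tendsto (fun T : ℝ => (2 * C + 30) / Real.log T) atTop (𝓝 0) :=
    Tendsto.div_atTop tendsto_const_nhds Real.tendsto_log_atTop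
  rw [tendsto_iff_dist_tendsto_zero]
  refine squeeze_zero' (Eventually.of_forall fun T => dist_nonneg) ?_ t1
  filter_upwards [eventually_ge_atTop 10, Real.tendsto_log_atTop.eventually_ge_atTop 2]
    with T hT hLL
  have hT0 : 0 < T := by linarith
  obtain ⟨L, hLe⟩ : ∃ L : ℝ, L = Real.log T := ⟨_, rfl⟩
  rw [← hLe] at hLL ⊢
  have hL0 : 0 < L := by linarith
  have hexpL : Real.exp L = T := by rw [hLe]; exact Real.exp_log hT0
  obtain ⟨M, hM⟩ : ∃ M : ℕ, M = ⌊T⌋₊ := ⟨_, rfl⟩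
  have hM1 : 1 ≤ M := by
    rw [hM]
    exact Nat.le_floor (by
      rw [Nat.cast_one]
      linarith)
  have hMT : (M : ℝ) ≤ T := by rw [hM]; exact Nat.floor_le hT0.le
  have hTM : T < (M : ℝ) + 1 := by rw [hM]; exact Nat.lt_floor_add_one T
  have hM0 : (0 : ℝ) < M := by exact_mod_cast hM1
  have hN : T < ((M + 1 : ℕ) : ℝ) := by push_cast; exact hTM
  have hN' : ((M + 1 : ℕ) : ℝ) ≤ T + 1 := by push_cast; linarith
  have hlogM : Real.log M ≤ L := by rw [hLe]; exact Real.log_le_log hM0 hMT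
  have hlogM' : L - 1 ≤ Real.log M := by
    have h3 : T ≤ Real.exp 1 * M := by
      have := Real.exp_one_gt_d9
      have h4 : (1 : ℝ) ≤ M := by exact_mod_cast hM1
      nlinarith
    have h4 := Real.log_le_log hT0 h3
    rw [Real.log_mul (Real.exp_pos 1).ne' hM0.ne', Real.log_exp, ← hLe] at h4
    linarith
  have hlogM0 : 0 ≤ Real.log M := Real.log_natCast_nonneg M
  have hlogN : Real.log ((M + 1 : ℕ) : ℝ) ≤ L + 1 := by
    have h3 : ((M + 1 : ℕ) : ℝ) ≤ Real.exp 1 * T := by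
      have := Real.exp_one_gt_d9
      nlinarith
    have h4 := Real.log_le_log (by positivity) h3
    rw [Real.log_mul (Real.exp_pos 1).ne' hT0.ne', Real.log_exp, ← hLe] at h4
    linarith
  have hlogN0 : 0 ≤ Real.log ((M + 1 : ℕ) : ℝ) := Real.log_natCast_nonneg _
  have s1 := (abs_le.1 (h2 (M + 1) (by omega))).2
  have s2 := (abs_le.1 (h2 M hM1)).1
  obtain ⟨I, hI⟩ : ∃ I : ℝ, I = ∫ t in (0 : ℝ)..L, Qu T t := ⟨_, rfl⟩
  have hiQ : IntervalIntegrable (Qu T) volume 0 L := Qu_ii (by linarith) _ _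
  have hpt : ∀ t ∈ Ioo (0 : ℝ) L,
      Qu T t ≤ (∑ n ∈ Finset.Icc 1 (M + 1), vonMangoldt n ^ 2 * Gn T n t) +
        1 / T ^ 2 * Real.exp t ∧
      (∑ n ∈ Finset.Icc 1 (M + 1), vonMangoldt n ^ 2 * Gn T n t) -
        2 / T * (∑ n ∈ Finset.Icc 1 (M + 1), vonMangoldt n * n * Gn T n t) ≤ Qu T t :=
    fun t ht => Qu_small (by linarith) hexpL ht.2 hN hN'
  -- upper bound
  have hup : I ≤ 1 / T * ((L + 1) ^ 2 / 2 + C * (L + 1) + 1) := by
    have h3 : I ≤ ∫ t in (0 : ℝ)..L, ((∑ n ∈ Finset.Icc 1 (M + 1),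
        vonMangoldt n ^ 2 * Gn T n t) + 1 / T ^ 2 * Real.exp t) := by
      rw [hI]
      refine intervalIntegral.integral_mono_on_of_le_Ioo hL0.le hiQ
        ((sumG_ii hT0 _ _ _ _).add (Continuous.intervalIntegrable (by fun_prop) _ _))
        fun t ht => (hpt t ht).1
    rw [intervalIntegral.integral_add (sumG_ii hT0 _ _ _ _)
      (Continuous.intervalIntegrable (by fun_prop) _ _), sumG_int hT0,
      intervalIntegral.integral_const_mul, integral_exp, hexpL, Real.exp_zero] at h3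
    have h4 : ∑ n ∈ Finset.Icc 1 (M + 1), vonMangoldt n ^ 2 * (∫ t in (0 : ℝ)..L, Gn T n t) ≤
        1 / T * ∑ n ∈ Finset.Icc 1 (M + 1), vonMangoldt n ^ 2 / n := by
      rw [Finset.mul_sum]
      refine Finset.sum_le_sum fun n hn => ?_
      have h5 := Gn_le hT0 hL0.le (Finset.mem_Icc.1 hn).1
      refine (mul_le_mul_of_nonneg_left h5 (sq_nonneg _)).trans (le_of_eq ?_)
      ring
    have h5 : 1 / T ^ 2 * (T - 1) ≤ 1 / T := by
      have : 1 / T ^ 2 * (T - 1) = 1 / T - 1 / T ^ 2 := by field_simp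
      rw [this]
      have : 0 < 1 / T ^ 2 := by positivity
      linarith
    have h6 : ∑ n ∈ Finset.Icc 1 (M + 1), vonMangoldt n ^ 2 / n ≤
        (L + 1) ^ 2 / 2 + C * (L + 1) := by
      have h7 : Real.log ((M + 1 : ℕ) : ℝ) ^ 2 ≤ (L + 1) ^ 2 := pow_le_pow_left₀ hlogN0 hlogN 2
      have h8 := mul_le_mul_of_nonneg_left hlogN hC
      linarith
    have h7 := mul_le_mul_of_nonneg_left h6 (show 0 ≤ 1 / T by positivity)
    linarith
  -- lower bound
  have hlow : 1 / T * ((L - 1) ^ 2 / 2 - C * L - 24) ≤ I := by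
    have i1 : IntervalIntegrable (fun t => 2 / T * (∑ n ∈ Finset.Icc 1 (M + 1),
        vonMangoldt n * n * Gn T n t)) volume 0 L := (sumG_ii hT0 _ _ _ _).const_mul _
    have h3 : ∫ t in (0 : ℝ)..L, ((∑ n ∈ Finset.Icc 1 (M + 1),
        vonMangoldt n ^ 2 * Gn T n t) - 2 / T * (∑ n ∈ Finset.Icc 1 (M + 1),
        vonMangoldt n * n * Gn T n t)) ≤ I := by
      rw [hI]
      exact intervalIntegral.integral_mono_on_of_le_Ioo hL0.le
        ((sumG_ii hT0 _ _ _ _).sub i1) hiQ fun t ht => (hpt t ht).2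
    rw [intervalIntegral.integral_sub (sumG_ii hT0 _ _ _ _) i1, sumG_int hT0,
      intervalIntegral.integral_const_mul, sumG_int hT0] at h3
    have h4 : 1 / T * (∑ n ∈ Finset.Icc 1 M, vonMangoldt n ^ 2 / n) ≤
        ∑ n ∈ Finset.Icc 1 (M + 1), vonMangoldt n ^ 2 * (∫ t in (0 : ℝ)..L, Gn T n t) := by
      have h5 : 1 / T * (∑ n ∈ Finset.Icc 1 M, vonMangoldt n ^ 2 / n) =
          ∑ n ∈ Finset.Icc 1 M, vonMangoldt n ^ 2 * (∫ t in (0 : ℝ)..L, Gn T n t) := by
        rw [Finset.mul_sum]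
        refine Finset.sum_congr rfl fun n hn => ?_
        obtain ⟨g1, g2⟩ := Finset.mem_Icc.1 hn
        rcases Nat.lt_or_ge n 2 with g3 | g3
        · have g4 : n = 1 := by omega
          rw [g4, vonMangoldt_apply_one]
          ring
        · rw [Gn_full (by linarith) hexpL g3 (le_trans (by exact_mod_cast g2) hMT)]
          ring
      rw [h5]
      refine Finset.sum_le_sum_of_subset_of_nonneg
        (Finset.Icc_subset_Icc le_rfl (Nat.le_succ M)) fun n hn _ => ?_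
      exact mul_nonneg (sq_nonneg _) (intervalIntegral.integral_nonneg hL0.le
        fun t _ => Gn_nonneg _ _ _)
    have h5 : 2 / T * (∑ n ∈ Finset.Icc 1 (M + 1), vonMangoldt n * n *
        (∫ t in (0 : ℝ)..L, Gn T n t)) ≤ 1 / T * 24 := by
      have h6 : ∑ n ∈ Finset.Icc 1 (M + 1), vonMangoldt n * n *
          (∫ t in (0 : ℝ)..L, Gn T n t) ≤ 1 / T * ∑ n ∈ Finset.Icc 1 (M + 1), vonMangoldt n := by
        rw [Finset.mul_sum]
        refine Finset.sum_le_sum fun n hn => ?_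
        have hn0 : (0 : ℝ) < n := by exact_mod_cast (Finset.mem_Icc.1 hn).1
        have h5 := Gn_le hT0 hL0.le (Finset.mem_Icc.1 hn).1
        have hv := vonMangoldt_nonneg (n := n)
        refine (mul_le_mul_of_nonneg_left h5 (by positivity)).trans (le_of_eq ?_)
        field_simp
      have h7 := psi_six (M + 1)
      have h8 : 1 / T * (∑ n ∈ Finset.Icc 1 (M + 1), vonMangoldt n) ≤ 12 := by
        have h9 : 1 / T * (∑ n ∈ Finset.Icc 1 (M + 1), vonMangoldt n) ≤
            1 / T * (6 * (T + 1)) :=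
          mul_le_mul_of_nonneg_left (by linarith) (by positivity)
        have h10 : 1 / T * (6 * (T + 1)) = 6 + 6 / T := by field_simp
        have h11 : 6 / T ≤ 6 := by
          rw [div_le_iff₀ hT0]
          linarith
        linarith
      have h9 := mul_le_mul_of_nonneg_left (h6.trans h8) (show 0 ≤ 2 / T by positivity)
      refine h9.trans (le_of_eq ?_)
      ring
    have h6 : (L - 1) ^ 2 / 2 - C * L ≤ ∑ n ∈ Finset.Icc 1 M, vonMangoldt n ^ 2 / n := by
      have h7 : (L - 1) ^ 2 ≤ Real.log M ^ 2 := pow_le_pow_left₀ (by linarith) hlogM' 2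
      have h8 := mul_le_mul_of_nonneg_left hlogM hC
      linarith
    have h7 := mul_le_mul_of_nonneg_left h6 (show 0 ≤ 1 / T by positivity)
    linarith
  have hJ : JQ T 0 L = T / L ^ 2 * I := by
    unfold JQ
    rw [← hLe, ← hI]
  have hTL : 0 ≤ T / L ^ 2 := by positivity
  rw [Real.dist_eq, hJ, abs_le]
  have u1 := mul_le_mul_of_nonneg_left hup hTL
  have u2 := mul_le_mul_of_nonneg_left hlow hTL
  have e1 : T / L ^ 2 * (1 / T * ((L + 1) ^ 2 / 2 + C * (L + 1) + 1)) =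
      1 / 2 + ((1 + C) * L + C + 3 / 2) / L ^ 2 := by
    field_simp
    ring
  have e2 : T / L ^ 2 * (1 / T * ((L - 1) ^ 2 / 2 - C * L - 24)) =
      1 / 2 - ((1 + C) * L + 47 / 2) / L ^ 2 := by
    field_simp
    ring
  rw [e1] at u1
  rw [e2] at u2
  have e3 : ((1 + C) * L + C + 3 / 2) / L ^ 2 ≤ (2 * C + 30) / L := by
    rw [div_le_div_iff₀ (by positivity) hL0]
    nlinarith [mul_nonneg hC hL0.le, mul_nonneg hC (sq_nonneg L)]
  have e4 : ((1 + C) * L + 47 / 2) / L ^ 2 ≤ (2 * C + 30) / L := by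
    rw [div_le_div_iff₀ (by positivity) hL0]
    nlinarith [mul_nonneg hC hL0.le, mul_nonneg hC (sq_nonneg L)]
  constructor <;> linarith

end Pool.Agent.NH10.SV
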