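import Pool.Agent.NH10.SV.He
import Pool.Agent.NH10.SV.RHu
import Pool.Agent.NH11.PV.Count
import Pool.Agent.Y744.PCR.Glue

/-! # The equivalence -/

set_option autoImplicit false
set_option maxHeartbeats 4000000

open Filter Topology Set MeasureTheory

namespace Pool.Agent.NH10.SV

open Pool.Agent.Y744 (PC Nr pr gp Xf Xf_pos dd gp_zero PC_union PC_mono)

lemma Nstar_PC (y : ℝ) : ∀ᶠ T in atTop,
    (Pool.Agent.NH11.PV.Nstar T y : ℝ) = PC T (Ioc 0 y) := by
  classical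
  obtain ⟨δ, hδ0, hδ⟩ := Pool.Agent.NH11.PV.gap
  have hpi := Real.pi_pos
  have ev : ∀ᶠ T : ℝ in atTop, 2 * Real.pi * y / Real.log T < δ := by
    have h1 : Tendsto (fun T : ℝ => 2 * Real.pi * y / Real.log T) atTop (𝓝 0) :=
      Real.tendsto_log_atTop.const_div_atTop _
    exact h1.eventually (gt_mem_nhds hδ0)
  filter_upwards [ev, eventually_gt_atTop 1] with T hT hT1
  have hL0 := Real.log_pos hT1
  rw [Pool.Agent.NH11.PV.Nstar_eq hδ hT]
  unfold PC
  refine Finset.sum_congr rfl fun s _ => Finset.sum_congr rfl fun s' _ => ?_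
  congr 1
  have e : (0 < s.im - s'.im ∧ s.im - s'.im ≤ 2 * Real.pi * y / Real.log T) ↔
      dd T s s' ∈ Ioc 0 y := by
    unfold Pool.Agent.Y744.dd
    rw [mem_Ioc, div_le_iff₀ (by positivity), le_div_iff₀ hL0]
    constructor
    · rintro ⟨h1, h2⟩
      exact ⟨by positivity, by linarith⟩
    · rintro ⟨h1, h2⟩
      refine ⟨?_, by linarith⟩
      by_contra hcon
      push Not at hcon
      have h3 : (s.im - s'.im) * Real.log T / (2 * Real.pi) ≤ 0 :=
        div_nonpos_of_nonpos_of_nonneg (mul_nonpos_of_nonpos_of_nonneg hcon hL0.le)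
          (by positivity)
      linarith
  by_cases h : dd T s s' ∈ Ioc 0 y
  · rw [if_pos (e.2 h), indicator_of_mem h]
  · rw [if_neg fun h' => h (e.1 h'), indicator_of_notMem h]

lemma gp_neg (y : ℝ) : gp (-y) = -gp y := by
  unfold Pool.Agent.Y744.gp
  have h1 := intervalIntegral.integral_comp_neg (a := (0 : ℝ)) (b := y) Pool.Agent.Y744.gd
  rw [neg_zero] at h1
  have h2 : ∀ u : ℝ, Pool.Agent.Y744.gd (-u) = Pool.Agent.Y744.gd u := by
    intro u
    unfold Pool.Agent.Y744.gd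
    rw [mul_neg, Real.sinc_neg]
  simp_rw [h2] at h1
  rw [h1, intervalIntegral.integral_symm]

lemma Nstar_of_Mont (h : Pool.Agent.Y744.G.Montgomery atTop) {y : ℝ} (hy : 0 < y) :
    Tendsto (fun T => (Pool.Agent.NH11.PV.Nstar T y : ℝ) / Xf T) atTop (𝓝 (gp y)) := by
  rw [Pool.Agent.Y744.G.Mont_iff le_rfl] at h
  have h1 := (h (-y) y (by linarith)).sub (h (-y) 0 (by linarith))
  have e1 : pr (-y) y - pr (-y) 0 = gp y := by
    unfold Pool.Agent.Y744.pr
    rw [indicator_of_mem (show (0 : ℝ) ∈ Icc (-y) y from ⟨by linarith, hy.le⟩),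
      indicator_of_mem (show (0 : ℝ) ∈ Icc (-y) 0 from ⟨by linarith, le_rfl⟩), gp_zero]
    ring
  rw [e1] at h1
  refine h1.congr' ?_
  filter_upwards [Nstar_PC y, eventually_gt_atTop 1] with T hT hT1
  rw [hT]
  unfold Pool.Agent.Y744.Nr
  have e2 : Icc (-y) y = Icc (-y) 0 ∪ Ioc 0 y := (Icc_union_Ioc_eq_Icc (by linarith) hy.le).symm
  have e3 : Disjoint (Icc (-y) 0) (Ioc 0 y) := by
    rw [Set.disjoint_left]
    intro x h1 h2
    linarith [h1.2, h2.1]
  rw [e2, PC_union T e3]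
  ring

lemma One_of_Nstar (h : ∀ y : ℝ, 0 < y →
    Tendsto (fun T => (Pool.Agent.NH11.PV.Nstar T y : ℝ) / Xf T) atTop (𝓝 (gp y)))
    {ℓ : ℝ} (hℓ : 0 < ℓ) : Pool.Agent.Y744.G.OneSided atTop ℓ (-1) := by
  refine ⟨1, 1, 1, one_pos, one_pos, one_pos, fun a ha ε hε => ?_⟩
  have ha0 : 0 < a := by linarith
  have h1 := (h (a + ℓ) (by linarith)).sub (h a ha0)
  filter_upwards [h1.eventually (lt_mem_nhds (show gp (a + ℓ) - gp a - ε < gp (a + ℓ) - gp a by
    linarith)), Nstar_PC (a + ℓ), Nstar_PC a, eventually_gt_atTop 1] with T g1 g2 g3 hT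
  have hX := Xf_pos hT
  rw [Pool.Agent.Y744.G.D_eq hT]
  have e1 : pr a (a + ℓ) = gp (a + ℓ) - gp a := by
    unfold Pool.Agent.Y744.pr
    rw [indicator_of_notMem (by
      rintro ⟨h2, h3⟩
      linarith)]
    ring
  have e2 : Ioc 0 (a + ℓ) = Ioc 0 a ∪ Ioc a (a + ℓ) :=
    (Ioc_union_Ioc_eq_Ioc ha0.le (by linarith)).symm
  have e3 : Disjoint (Ioc 0 a) (Ioc a (a + ℓ)) := by
    rw [Set.disjoint_left]
    intro x h1 h2
    linarith [h1.2, h2.1]
  have e4 := PC_mono T (show Ioc a (a + ℓ) ⊆ Icc a (a + ℓ) from Ioc_subset_Icc_self)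
  rw [g2, g3, e2, PC_union T e3, ← sub_div, add_sub_cancel_left] at g1
  have e5 : PC T (Ioc a (a + ℓ)) / Xf T ≤ Nr T a (a + ℓ) := by
    unfold Pool.Agent.Y744.Nr
    exact div_le_div_of_nonneg_right e4 hX.le
  have e6 := Real.exp_pos (-(1 * a))
  rw [e1]
  linarith

lemma Mont_of_Nstar (RH : RiemannHypothesis) (h : ∀ y : ℝ, 0 < y →
    Tendsto (fun T => (Pool.Agent.NH11.PV.Nstar T y : ℝ) / Xf T) atTop (𝓝 (gp y))) :
    Pool.Agent.Y744.G.Montgomery atTop := by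
  have hs : 0 < Real.sqrt 2 := Real.sqrt_pos.2 (by norm_num)
  refine ((Pool.Agent.Y744.G.main RH atTop le_rfl).1 (Real.sqrt 2) 1 (-1) (-1) hs one_pos ?_
    (Or.inr rfl) (Or.inr rfl)).2 ⟨One_of_Nstar h hs, One_of_Nstar h one_pos⟩
  rw [div_one]
  exact irrational_sqrt_two

open Pool.Agent.Y749.Rig Pool.Agent.NH10.GM in
/-- **the equivalence** -/
theorem equiv : List.TFAE [
    RiemannHypothesis ∧ ∀ y : ℝ, 0 < y →
      Tendsto (fun T => (Pool.Agent.NH11.PV.Nstar T y : ℝ) / Xf T) atTop (𝓝 (gp y)),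
    ∀ a b : ℝ, 1 ≤ a → a < b → Tendsto (fun T => Js T a b) atTop (𝓝 (b - a)),
    ∀ a b : ℝ, 1 ≤ a → a < b → ∀ ε : ℝ, 0 < ε → ∀ᶠ T in atTop, Js T a b ≤ b - a + ε] := by
  tfae_have 1 → 2 := by
    rintro ⟨RH, h⟩ a b ha hab
    have hmain := (P.main RH atTop le_rfl).1
    have h0 := hmain.1 (Mont_of_Nstar RH h)
    have hm : MeanLim atTop := mean_lim RH le_rfl fun R => (P.up_iff le_rfl R).1 (h0 R)
    exact Js_lim RH (fun h hh => PT_weak (weak_mean RH le_rfl hm) hh) ha hab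
  tfae_have 2 → 3 := by
    intro h a b ha hab ε hε
    exact (h a b ha hab).eventually (ge_mem_nhds (by linarith))
  tfae_have 3 → 1 := by
    intro h
    have RH : RiemannHypothesis := RH_of_var fun B hB => by
      have h1 := h 1 B le_rfl hB 1 one_pos
      rw [eventually_atTop] at h1
      obtain ⟨T₀, h1⟩ := h1
      exact ⟨B - 1 + 1, T₀, h1⟩
    refine ⟨RH, fun y hy => Nstar_of_Mont ?_ hy⟩
    rw [(P.main RH atTop le_rfl).1]
    intro R
    rw [P.up_iff le_rfl]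
    exact mean_of_PT le_rfl (fun y hy => PT_of_Js RH h hy) R
  tfae_finish

end Pool.Agent.NH10.SV
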