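import Pool.Agent.NH10.SV.Fb
import Pool.Agent.NH10.SV.Fin

/-! # The formula of Gallagher and Mueller -/

set_option autoImplicit false
set_option maxHeartbeats 4000000

open Filter Topology Set MeasureTheory

namespace Pool.Agent.NH10.SV

/-- the mean square of the problem -/
noncomputable def Vd (X δ : ℝ) : ℝ :=
  ∫ x in (1 : ℝ)..X, (Chebyshev.psi ((1 + δ) * x) - Chebyshev.psi x - δ * x) ^ 2 / x ^ 2

/-- the asymptotic formula -/
def GMf : Prop := ∀ ε : ℝ, 0 < ε → ε ≤ 1 → ∀ η : ℝ, 0 < η → ∃ X₀ : ℝ, ∀ X : ℝ, X₀ ≤ X →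
  ∀ δ : ℝ, X ^ (-1 : ℝ) ≤ δ → δ ≤ X ^ (-ε) →
    |Vd X δ - δ * Real.log (1 / δ) * Real.log (X * Real.sqrt δ)| ≤
      η * (δ * Real.log (1 / δ) * Real.log (X * Real.sqrt δ))

lemma Js_mono {T : ℝ} (hT : 1 < T) {a b : ℝ} (ha : 0 ≤ a) (hab : a ≤ b) :
    Js T 0 a ≤ Js T 0 b := by
  have hL := Real.log_pos hT
  rw [Js_JQ hT ha, Js_JQ hT (ha.trans hab)]
  exact JQ_mono hT le_rfl (mul_le_mul_of_nonneg_right ha hL.le)
    (mul_le_mul_of_nonneg_right hab hL.le)

lemma Js_sub {T : ℝ} (hT : 1 < T) {a b : ℝ} (ha : 0 ≤ a) (hab : a ≤ b) :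
    Js T a b = Js T 0 b - Js T 0 a := by
  rw [Js_JQ hT hab, Js_JQ hT ha, Js_JQ hT (ha.trans hab),
    JQ_add hT (0 * Real.log T) (a * Real.log T) (b * Real.log T)]
  ring

/-- uniformity -/
lemma unif (h : ∀ b : ℝ, 1 ≤ b → Tendsto (fun T => Js T 0 b) atTop (𝓝 (b - 1 / 2)))
    {B η : ℝ} (hη : 0 < η) : ∀ᶠ T in atTop, ∀ b ∈ Icc (1 : ℝ) B,
      |Js T 0 b - (b - 1 / 2)| ≤ η := by
  obtain ⟨s, hs⟩ : ∃ s : ℝ, s = η / 2 := ⟨_, rfl⟩
  have hs0 : 0 < s := by rw [hs]; linarith
  obtain ⟨K, hK⟩ := exists_nat_ge ((B - 1) / s + 1)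
  have hgrid : ∀ᶠ T in atTop, ∀ k ∈ Finset.range (K + 1),
      |Js T 0 (1 + k * s) - (1 + k * s - 1 / 2)| ≤ s := by
    rw [Filter.eventually_all_finset]
    intro k _
    have h1 := (Metric.tendsto_nhds.1 (h (1 + k * s) (by
      have : (0 : ℝ) ≤ k * s := by positivity
      linarith))) s hs0
    filter_upwards [h1] with T hT
    rw [Real.dist_eq] at hT
    exact hT.le
  filter_upwards [hgrid, eventually_gt_atTop 1] with T hg hT b hb
  obtain ⟨k, hk⟩ : ∃ k : ℕ, k = ⌊(b - 1) / s⌋₊ := ⟨_, rfl⟩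
  have hb1 : 0 ≤ (b - 1) / s := div_nonneg (by linarith [hb.1]) hs0.le
  have f1 : (k : ℝ) ≤ (b - 1) / s := by rw [hk]; exact Nat.floor_le hb1
  have f2 : (b - 1) / s < (k : ℝ) + 1 := by rw [hk]; exact Nat.lt_floor_add_one _
  have f3 : (b - 1) / s ≤ (B - 1) / s := div_le_div_of_nonneg_right (by linarith [hb.2]) hs0.le
  rw [le_div_iff₀ hs0] at f1
  rw [div_lt_iff₀ hs0] at f2
  have hkK : (k : ℝ) + 1 ≤ K := by
    have : (k : ℝ) ≤ (B - 1) / s := by
      rw [← le_div_iff₀ hs0] at f1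
      linarith
    linarith
  have hkK' : k + 1 ≤ K := by exact_mod_cast hkK
  have g1 := abs_le.1 (hg k (Finset.mem_range.2 (by omega)))
  have g2 := abs_le.1 (hg (k + 1) (Finset.mem_range.2 (by omega)))
  have hk0 : (0 : ℝ) ≤ k * s := by positivity
  have m1 := Js_mono hT (show 0 ≤ 1 + k * s by linarith) (show 1 + k * s ≤ b by linarith)
  have m2 := Js_mono hT (show 0 ≤ b by linarith [hb.1])
    (show b ≤ 1 + ((k + 1 : ℕ) : ℝ) * s by push_cast; linarith)
  have e : ((k + 1 : ℕ) : ℝ) * s = k * s + s := by push_cast; ring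
  rw [e] at g2 m2
  rw [abs_le]
  constructor
  · linarith [g1.1]
  · linarith [g2.2]

/-- the two normalisations -/
lemma Vd_Js {T b : ℝ} (hT : 1 < T) : Vd (T ^ b) (1 / T) = Real.log T ^ 2 / T * Js T 0 b ∧
    (1 / T) * Real.log (1 / (1 / T)) * Real.log (T ^ b * Real.sqrt (1 / T)) =
      Real.log T ^ 2 / T * (b - 1 / 2) := by
  have hT0 : 0 < T := by linarith
  have hL := Real.log_pos hT
  constructor
  · unfold Vd Js
    rw [Real.rpow_zero, ← mul_assoc]
    have e : Real.log T ^ 2 / T * (T / Real.log T ^ 2) = 1 := by field_simp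
    rw [e, one_mul]
    refine intervalIntegral.integral_congr fun x _ => ?_
    show (Chebyshev.psi ((1 + 1 / T) * x) - Chebyshev.psi x - 1 / T * x) ^ 2 / x ^ 2 =
      Sx T x ^ 2 / x ^ 2
    unfold Sx
    have e1 : (1 + 1 / T) * x = x + x / T := by ring
    have e2 : 1 / T * x = x / T := by ring
    rw [e1, e2]
  · rw [one_div_one_div, Real.sqrt_eq_rpow, one_div, Real.inv_rpow hT0.le,
      ← Real.rpow_neg hT0.le, ← Real.rpow_add hT0, Real.log_rpow hT0]
    field_simp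
    ring

/-- **the two forms of the asymptotic formula** -/
theorem GM_iff : GMf ↔ ∀ b : ℝ, 1 ≤ b → Tendsto (fun T => Js T 0 b) atTop (𝓝 (b - 1 / 2)) := by
  constructor
  · intro h b hb
    rw [Metric.tendsto_nhds]
    intro ε hε
    have hb0 : 0 < b := by linarith
    obtain ⟨X₀, hX₀⟩ := h (1 / b) (by positivity) (by rw [div_le_one hb0]; exact hb)
      (ε / (2 * b)) (by positivity)
    have hpow : Tendsto (fun T : ℝ => T ^ b) atTop atTop := tendsto_rpow_atTop hb0
    filter_upwards [hpow.eventually_ge_atTop X₀, eventually_gt_atTop 1] with T hTX hT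
    have hT0 : 0 < T := by linarith
    have hL := Real.log_pos hT
    obtain ⟨v1, v2⟩ := Vd_Js (b := b) hT
    have h1 := hX₀ (T ^ b) hTX (1 / T) (by
      rw [← Real.rpow_mul hT0.le, one_div, ← Real.rpow_neg_one T]
      exact Real.rpow_le_rpow_of_exponent_le hT.le (by linarith)) (by
      rw [← Real.rpow_mul hT0.le, one_div, ← Real.rpow_neg_one T]
      have : b * -(1 / b) = -1 := by field_simp
      rw [this])
    rw [v1, v2, ← mul_sub, abs_mul, abs_of_pos (by positivity : 0 < Real.log T ^ 2 / T)] at h1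
    have h2 : ε / (2 * b) * (Real.log T ^ 2 / T * (b - 1 / 2)) =
        Real.log T ^ 2 / T * (ε / (2 * b) * (b - 1 / 2)) := by ring
    rw [h2] at h1
    have h3 := le_of_mul_le_mul_left h1 (by positivity)
    have h4 : ε / (2 * b) * (b - 1 / 2) < ε := by
      have h5 : ε / (2 * b) * (b - 1 / 2) = ε / 2 - ε / (4 * b) := by
        field_simp
        ring
      rw [h5]
      have : 0 < ε / (4 * b) := by positivity
      linarith
    rw [Real.dist_eq]
    linarith
  · intro h ε hε hε1 η hη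
    have hu := unif h (B := 1 / ε) (show 0 < η / 2 by linarith)
    rw [eventually_atTop] at hu
    obtain ⟨T₀, hT₀⟩ := hu
    have hpow : Tendsto (fun X : ℝ => X ^ ε) atTop atTop := tendsto_rpow_atTop hε
    obtain ⟨X₀, hX₀⟩ := eventually_atTop.1 (hpow.eventually_ge_atTop (max T₀ 2))
    refine ⟨max X₀ 2, fun X hX δ hδ1 hδ2 => ?_⟩
    have hX2 : 2 ≤ X := (le_max_right _ _).trans hX
    have hX0 : 0 < X := by linarith
    have hX1 : 1 < X := by linarith
    have hXe := hX₀ X ((le_max_left _ _).trans hX)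
    have hδ0 : 0 < δ := lt_of_lt_of_le (Real.rpow_pos_of_pos hX0 _) hδ1
    obtain ⟨T, hTe⟩ : ∃ T : ℝ, T = 1 / δ := ⟨_, rfl⟩
    have hT0 : 0 < T := by rw [hTe]; positivity
    have hδT : δ = 1 / T := by rw [hTe, one_div_one_div]
    have hTX : X ^ ε ≤ T := by
      rw [hTe, le_div_iff₀ hδ0]
      calc X ^ ε * δ ≤ X ^ ε * X ^ (-ε) :=
            mul_le_mul_of_nonneg_left hδ2 (Real.rpow_nonneg hX0.le _)
        _ = 1 := by rw [← Real.rpow_add hX0]; simp
    have hTX' : T ≤ X := by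
      rw [hTe, div_le_iff₀ hδ0]
      calc (1 : ℝ) = X * X ^ (-1 : ℝ) := by rw [Real.rpow_neg_one]; field_simp
        _ ≤ X * δ := mul_le_mul_of_nonneg_left hδ1 hX0.le
    have hTT : T₀ ≤ T := ((le_max_left _ _).trans hXe).trans hTX
    have hT2 : 2 ≤ T := ((le_max_right _ _).trans hXe).trans hTX
    have hT1 : 1 < T := by linarith
    have hL := Real.log_pos hT1
    obtain ⟨b, hb⟩ : ∃ b : ℝ, b = Real.log X / Real.log T := ⟨_, rfl⟩
    have hXb : X = T ^ b := by
      rw [Real.rpow_def_of_pos hT0, hb, mul_div_cancel₀ _ hL.ne', Real.exp_log hX0]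
    have hb1 : 1 ≤ b := by
      rw [hb, one_le_div hL]
      exact Real.log_le_log hT0 hTX'
    have hbB : b ≤ 1 / ε := by
      rw [hb, div_le_div_iff₀ hL hε]
      have h1 := Real.log_le_log (Real.rpow_pos_of_pos hX0 _) hTX
      rw [Real.log_rpow hX0] at h1
      linarith
    obtain ⟨v1, v2⟩ := Vd_Js (b := b) hT1
    have h1 := hT₀ T hTT b ⟨hb1, hbB⟩
    rw [hδT, hXb, v1, v2, ← mul_sub, abs_mul, abs_of_pos (by positivity : 0 < Real.log T ^ 2 / T)]
    have h2 : η * (Real.log T ^ 2 / T * (b - 1 / 2)) =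
        Real.log T ^ 2 / T * (η * (b - 1 / 2)) := by ring
    rw [h2]
    refine mul_le_mul_of_nonneg_left (h1.trans ?_) (by positivity)
    nlinarith

/-- **the final equivalence** -/
theorem final : List.TFAE [
    RiemannHypothesis ∧ ∀ y : ℝ, 0 < y →
      Tendsto (fun T => (Pool.Agent.NH11.PV.Nstar T y : ℝ) / Pool.Agent.Y744.Xf T) atTop
        (𝓝 (Pool.Agent.Y744.gp y)),
    GMf,
    ∀ a b : ℝ, 1 ≤ a → a < b → ∀ ε : ℝ, 0 < ε → ∀ᶠ T in atTop, Js T a b ≤ b - a + ε] := by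
  have hE := equiv
  have h12 := hE.out 0 1
  have h13 := hE.out 0 2
  tfae_have 1 ↔ 3 := h13
  tfae_have 1 → 2 := by
    intro h
    rw [GM_iff]
    intro b hb
    have h1 := h12.1 h
    rcases hb.eq_or_lt with hb1 | hb1
    · rw [← hb1]
      have h2 := JQ_zero
      norm_num at h2 ⊢
      refine h2.congr' ?_
      filter_upwards [eventually_gt_atTop 1] with T hT
      rw [Js_JQ hT (by norm_num)]
      simp
    · have h3 := (h1 1 b le_rfl hb1).add JQ_zero
      have e : b - 1 + 1 / 2 = b - 1 / 2 := by ring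
      rw [e] at h3
      refine h3.congr' ?_
      filter_upwards [eventually_gt_atTop 1] with T hT
      rw [Js_sub hT zero_le_one hb1.le, Js_JQ hT (zero_le_one : (0 : ℝ) ≤ 1)]
      simp
  tfae_have 2 → 3 := by
    intro h a b ha hab ε hε
    rw [GM_iff] at h
    have h1 := (h b (by linarith)).sub (h a ha)
    have e : b - 1 / 2 - (a - 1 / 2) = b - a := by ring
    rw [e] at h1
    filter_upwards [h1.eventually (ge_mem_nhds (show b - a < b - a + ε by linarith)),
      eventually_gt_atTop 1] with T hT hT1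
    rw [Js_sub hT1 (by linarith) hab.le]
    exact hT
  tfae_finish

end Pool.Agent.NH10.SV
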