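import Pool.Agent.NH10.GM.Main

/-! # A uniform bound for the Gaussian windows -/

set_option autoImplicit false
set_option maxHeartbeats 4000000

open Filter Topology Set MeasureTheory ArithmeticFunction

namespace Pool.Agent.NH10.SV

open Pool.Agent.Y749.Rig hiding PT
open Pool.Agent.NH10.GM

lemma Dz_bdd {Y : ℝ → ℝ} (hY : ∀ᶠ T in atTop, T ^ 2 ≤ Y T) {h : ℝ} (hh : 0 < h) :
    ∃ K : ℝ, 0 < K ∧ ∀ᶠ T in atTop, Jt (Dz T (Y T)) h ≤ K := by
  obtain ⟨C, hC, hdom⟩ := MTf_dom hh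
  obtain ⟨I, hI⟩ : ∃ I : ℝ, I = ∫ c in Ioi (0 : ℝ), gd c * (1 + 2 * c) ^ 4 := ⟨_, rfl⟩
  have hI0 : 0 ≤ I := by
    rw [hI]
    exact setIntegral_nonneg measurableSet_Ioi fun c hc => mul_nonneg (gd_nonneg (le_of_lt hc))
      (by have : (0 : ℝ) < c := hc
          positivity)
  refine ⟨C * I + 1, by positivity, ?_⟩
  filter_upwards [hdom, (mix_to hh hY).eventually (gt_mem_nhds (show (0 : ℝ) < 1 by norm_num)),
    eventually_ge_atTop 10] with T h1 h2 hT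
  have h3 : ∫ c in Ioi (0 : ℝ), gd c * MTf T h c ≤ C * I := by
    rw [hI, ← integral_const_mul]
    refine setIntegral_mono_on (MTf_int (by linarith) hh h1) ((gd_poly_int 4).const_mul C)
      measurableSet_Ioi fun c hc => ?_
    calc gd c * MTf T h c ≤ gd c * (C * (1 + 2 * c) ^ 4) :=
          mul_le_mul_of_nonneg_left (h1 c hc) (gd_nonneg (le_of_lt hc))
      _ = _ := by ring
  linarith

lemma Vn_bdd (RH : RiemannHypothesis) {B : ℝ} (hB : 1 ≤ B) :
    ∃ K : ℝ, 0 < K ∧ ∀ᶠ T in atTop, ∫ α in (3 / 4 : ℝ)..B, Vn T α ≤ K := by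
  obtain ⟨Y, hY, hE⟩ := EFf RH
  have hE' : EFp Y := hE
  have hY' : ∀ᶠ T in atTop, T ^ 2 ≤ Y T := (eventually_ge_atTop 10).mono hY
  obtain ⟨K, hK, hJ⟩ := Dz_bdd hY' (show 0 < B + 1 by linarith)
  refine ⟨2 * K + 1, by positivity, ?_⟩
  filter_upwards [hJ, compare_int hE' (show (3 : ℝ) / 4 ≤ 3 / 4 from le_rfl)
    (show 3 / 4 ≤ B by linarith) one_pos one_pos, eventually_ge_atTop 10] with T h1 h2 hT
  have c := Dz_cont T (Y T)
  have h0 : ∀ α, 0 ≤ Dz T (Y T) α := Dz_nonneg (by linarith) (Y T)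
  have h3 := (jt_diff c h0 (show 0 ≤ B by linarith) (show B ≤ B + 1 by linarith)).1
  have h4 : 0 ≤ Jt (Dz T (Y T)) B := by
    unfold Jt
    refine mul_nonneg (by norm_num) (intervalIntegral.integral_nonneg (by linarith)
      fun α hα => mul_nonneg (by linarith [hα.2]) (h0 α))
  have h5 : ∫ α in (3 / 4 : ℝ)..B, Dz T (Y T) α ≤ ∫ α in (0 : ℝ)..B, Dz T (Y T) α :=
    intervalIntegral.integral_mono_interval (by norm_num) (by linarith) le_rfl
      (ae_of_all _ h0) (c.intervalIntegrable _ _)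
  have h6 : 2 * (B + 1 - B) * (∫ α in (0 : ℝ)..B, Dz T (Y T) α) =
      2 * ∫ α in (0 : ℝ)..B, Dz T (Y T) α := by ring
  rw [h6] at h3
  have h7 := h2.2
  linarith

/-- the bound on the prime side -/
lemma near_all : ∃ K : ℝ, 0 < K ∧ ∀ᶠ T in atTop,
    T / Real.log T ^ 2 * ∫ u in (2 : ℝ)..(Real.log T + 1), Vs T u ^ 2 ≤ K := by
  have hW := WZ_nonneg
  have hsq : 0 < Real.sqrt (2 * Real.pi) := Real.sqrt_pos.2 (by positivity)
  obtain ⟨D, hD⟩ : ∃ D : ℝ, D = ∑' n, lm n := ⟨_, rfl⟩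
  have hD0 : 0 ≤ D := by rw [hD]; exact tsum_nonneg lm_nonneg
  obtain ⟨K, hK⟩ : ∃ K : ℝ, K = 4 * (384 * WZ * Real.sqrt (2 * Real.pi)) := ⟨_, rfl⟩
  have hK0 : 0 ≤ K := by rw [hK]; positivity
  obtain ⟨E1, hE1⟩ : ∃ E1 : ℝ, E1 = Real.exp 4 * D := ⟨_, rfl⟩
  have hE10 : 0 ≤ E1 := by rw [hE1]; positivity
  refine ⟨3 * K + (4 * E1 ^ 2 + 2 * (2 * Real.pi * 8)) + 1, by positivity, ?_⟩
  filter_upwards [eventually_ge_atTop (4 * (2 + 3) + 10 : ℝ),
    Real.tendsto_log_atTop.eventually_ge_atTop 10] with T hT hLL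
  have hT0 : 0 < T := by linarith
  obtain ⟨L, hLe⟩ : ∃ L : ℝ, L = Real.log T := ⟨_, rfl⟩
  rw [← hLe] at hLL ⊢
  have hL0 : 0 < L := by linarith
  have hexpL : Real.exp L = T := by rw [hLe]; exact Real.exp_log hT0
  obtain ⟨N₂, hN₂⟩ : ∃ N₂ : ℕ, N₂ = ⌊Real.exp (L + 2)⌋₊ := ⟨_, rfl⟩
  have hN1 : ⌊Real.exp ((2 : ℝ) - 2)⌋₊ = 1 := by
    rw [sub_self, Real.exp_zero]
    norm_num
  have hN12 : 1 ≤ N₂ := by
    rw [hN₂]
    exact Nat.le_floor (by
      rw [Nat.cast_one]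
      exact Real.one_le_exp (by linarith))
  have hN2T : (N₂ : ℝ) ≤ 8 * T := by
    rw [hN₂]
    refine (Nat.floor_le (Real.exp_pos _).le).trans ?_
    rw [Real.exp_add, hexpL, mul_comm]
    exact mul_le_mul_of_nonneg_right exp_two hT0.le
  have hN2' : (0 : ℝ) < N₂ := by exact_mod_cast hN12
  have hlogN2 : Real.log N₂ ≤ L + 2 := by
    rw [Real.log_le_iff_le_exp hN2', hN₂]
    exact Nat.floor_le (Real.exp_pos _).le
  have hAmem : ∀ n ∈ Finset.Ioc 1 N₂, 1 ≤ n ∧ (n : ℝ) ≤ 8 * T := by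
    intro n hn
    rw [Finset.mem_Ioc] at hn
    refine ⟨by omega, le_trans ?_ hN2T⟩
    exact_mod_cast hn.2
  have hal2 : ∑ n ∈ Finset.Ioc 1 N₂, al n ^ 2 ≤ (L + 2) * (L + 9) := by
    have h1 : ∑ n ∈ Finset.Ioc 1 N₂, al n ^ 2 ≤
        ∑ n ∈ Finset.Ioc 1 N₂, (L + 2) * (vonMangoldt n / n) := by
      refine Finset.sum_le_sum fun n hn => ?_
      have hn1 := (hAmem n hn).1
      have hn0 : (0 : ℝ) < n := by exact_mod_cast hn1
      refine (al_sq hn1).trans (mul_le_mul_of_nonneg_right ?_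
        (div_nonneg vonMangoldt_nonneg hn0.le))
      refine le_trans (Real.log_le_log hn0 ?_) hlogN2
      rw [Finset.mem_Ioc] at hn
      exact_mod_cast hn.2
    rw [← Finset.mul_sum] at h1
    refine h1.trans (mul_le_mul_of_nonneg_left ?_ (by linarith))
    have h2 := mertens_win (le_refl 1) hN12
    rw [Nat.cast_one, Real.log_one] at h2
    linarith
  -- the small term
  obtain ⟨E, hE⟩ : ∃ E : ℝ, E = Real.exp (-(T ^ 2 / 4)) *
    Real.exp (3 * (L + 1) + 9 / T ^ 2) * ∑' n, lm n := ⟨_, rfl⟩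
  have hE0 : 0 ≤ E := by
    rw [hE, ← hD]
    positivity
  have hET : E * T ≤ E1 := by
    have h1 := small_T (B := 2) (T := T) (u := 2 * L) (by norm_num) hT (by rw [hLe])
    have h2 : Real.exp (3 * (L + 1) + 9 / T ^ 2) ≤ Real.exp 4 * Real.exp (3 * L) := by
      rw [← Real.exp_add]
      apply Real.exp_le_exp.2
      have : 9 / T ^ 2 ≤ 1 := by
        rw [div_le_one (by positivity)]
        nlinarith
      linarith
    have h3 : Real.exp (3 * L) = Real.exp (2 * L) * T := by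
      rw [← hexpL, ← Real.exp_add]; congr 1; ring
    have h4 : -T ^ 2 / 4 = -(T ^ 2 / 4) := by ring
    rw [h4] at h1
    rw [hE, ← hD, hE1]
    calc Real.exp (-(T ^ 2 / 4)) * Real.exp (3 * (L + 1) + 9 / T ^ 2) * D * T ≤
          Real.exp (-(T ^ 2 / 4)) * (Real.exp 4 * Real.exp (3 * L)) * D * T := by gcongr
      _ = Real.exp 4 * D * (Real.exp (2 * L) * (T ^ 2 * Real.exp (-(T ^ 2 / 4)))) := by
          rw [h3]; ring
      _ ≤ Real.exp 4 * D * 1 := mul_le_mul_of_nonneg_left h1 (by positivity)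
      _ = _ := mul_one _
  have hE2 : E ^ 2 ≤ E1 ^ 2 / T := by
    rw [le_div_iff₀ hT0]
    have h1 : (E * T) ^ 2 ≤ E1 ^ 2 := pow_le_pow_left₀ (by positivity) hET 2
    have h2 : E ^ 2 * T ≤ (E * T) ^ 2 := by
      have : T ≤ T ^ 2 := by nlinarith
      calc E ^ 2 * T ≤ E ^ 2 * T ^ 2 := by gcongr
        _ = _ := by ring
    linarith
  -- the pointwise bound
  have hpt : ∀ u ∈ Icc (2 : ℝ) (L + 1), Vs T u ^ 2 ≤
      4 * (∑ n ∈ Finset.Ioc 1 N₂, al n * lw T u n) ^ 2 +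
        (4 * E ^ 2 + 2 * (2 * Real.pi * 8 / T)) := by
    intro u hu
    have h1 := SM_le (L := L) hT0 le_rfl hu.1 hu.2
    rw [hN1, ← hN₂, ← hE] at h1
    have h0 : 0 ≤ SM T u := tsum_nonneg (term_nonneg T u)
    obtain ⟨Sg, hSg⟩ : ∃ Sg : ℝ, Sg = ∑ n ∈ Finset.Ioc 1 N₂, al n * lw T u n := ⟨_, rfl⟩
    rw [← hSg] at h1 ⊢
    obtain ⟨M, hM⟩ : ∃ M : ℝ, M = Real.sqrt (2 * Real.pi) / T *
      Real.exp (u / 2 + 1 / (8 * T ^ 2)) := ⟨_, rfl⟩
    have hM2 : M ^ 2 ≤ 2 * Real.pi * 8 / T := by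
      rw [hM, mul_pow, div_pow, Real.sq_sqrt (by positivity), ← Real.exp_nat_mul]
      have h3 : Real.exp (((2 : ℕ) : ℝ) * (u / 2 + 1 / (8 * T ^ 2))) ≤ 8 * T := by
        refine le_trans (Real.exp_le_exp.2 (show _ ≤ L + 2 from ?_)) ?_
        · push_cast
          have h5 : 2 * (1 / (8 * T ^ 2)) ≤ 1 := by
            rw [mul_one_div, div_le_one (by positivity)]
            nlinarith
          linarith [hu.2]
        · rw [Real.exp_add, hexpL, mul_comm]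
          exact mul_le_mul_of_nonneg_right exp_two hT0.le
      calc 2 * Real.pi / T ^ 2 * Real.exp (((2 : ℕ) : ℝ) * (u / 2 + 1 / (8 * T ^ 2))) ≤
            2 * Real.pi / T ^ 2 * (8 * T) := by gcongr
        _ = _ := by field_simp
    have h2 : SM T u ^ 2 ≤ (Sg + E) ^ 2 := pow_le_pow_left₀ h0 h1 2
    rw [Vs_eq, ← hM]
    nlinarith [sq_nonneg (SM T u + M), sq_nonneg (Sg - E)]
  have c1 : Continuous fun u => (∑ n ∈ Finset.Ioc 1 N₂, al n * lw T u n) ^ 2 :=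
    (continuous_finsetSum _ fun n _ => continuous_const.mul (lw_cont T n)).pow 2
  have c0 : Continuous fun u => Vs T u ^ 2 := (Vs_cont hT0).pow 2
  have hab : (2 : ℝ) ≤ L + 1 := by linarith
  have hint : ∫ u in (2 : ℝ)..(L + 1), Vs T u ^ 2 ≤
      4 * (384 * WZ * (((L + 2) * (L + 9)) * (Real.sqrt (2 * Real.pi) / T))) +
        (L + 1 - 2) * (4 * E ^ 2 + 2 * (2 * Real.pi * 8 / T)) := by
    have h1 : ∫ u in (2 : ℝ)..(L + 1), Vs T u ^ 2 ≤ ∫ u in (2 : ℝ)..(L + 1),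
        (4 * (∑ n ∈ Finset.Ioc 1 N₂, al n * lw T u n) ^ 2 +
        (4 * E ^ 2 + 2 * (2 * Real.pi * 8 / T))) :=
      intervalIntegral.integral_mono_on hab (c0.intervalIntegrable _ _)
        (((continuous_const.mul c1).add continuous_const).intervalIntegrable _ _) hpt
    have i1 : IntervalIntegrable (fun u => 4 * (∑ n ∈ Finset.Ioc 1 N₂, al n * lw T u n) ^ 2)
        volume 2 (L + 1) := (continuous_const.mul c1).intervalIntegrable _ _
    rw [intervalIntegral.integral_add i1 (by simp), intervalIntegral.integral_const_mul,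
      intervalIntegral.integral_const, smul_eq_mul] at h1
    refine h1.trans (add_le_add ?_ le_rfl)
    refine mul_le_mul_of_nonneg_left ?_ (by norm_num)
    refine (int_sq_le hT0 hab ?_ _ hAmem).trans ?_
    · rw [Real.exp_add, hexpL, mul_comm]
      refine mul_le_mul_of_nonneg_right ?_ hT0.le
      exact (Real.exp_le_exp.2 (by norm_num : (1 : ℝ) ≤ 2)).trans exp_two
    · gcongr
  have hTL : 0 ≤ T / L ^ 2 := by positivity
  refine (mul_le_mul_of_nonneg_left hint hTL).trans ?_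
  have e1 : T / L ^ 2 * (4 * (384 * WZ * (((L + 2) * (L + 9)) *
      (Real.sqrt (2 * Real.pi) / T))) + (L + 1 - 2) * (4 * E ^ 2 + 2 * (2 * Real.pi * 8 / T))) =
      K * ((L + 2) * (L + 9) / L ^ 2) + (L + 1 - 2) / L ^ 2 *
        (4 * (E ^ 2 * T) + 2 * (2 * Real.pi * 8)) := by
    rw [hK]
    field_simp
  rw [e1]
  have b1 : (L + 2) * (L + 9) / L ^ 2 ≤ 3 := by
    rw [div_le_iff₀ (by positivity)]
    nlinarith
  have b2 : (L + 1 - 2) / L ^ 2 ≤ 1 := by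
    rw [div_le_iff₀ (by positivity)]
    nlinarith
  have b3 : E ^ 2 * T ≤ E1 ^ 2 := by
    rwa [le_div_iff₀ hT0] at hE2
  have b4 : K * ((L + 2) * (L + 9) / L ^ 2) ≤ K * 3 := mul_le_mul_of_nonneg_left b1 hK0
  have b5 : (L + 1 - 2) / L ^ 2 * (4 * (E ^ 2 * T) + 2 * (2 * Real.pi * 8)) ≤
      1 * (4 * E1 ^ 2 + 2 * (2 * Real.pi * 8)) := by
    have hE2T : 0 ≤ E ^ 2 * T := by positivity
    have hpi := Real.pi_pos
    refine mul_le_mul b2 (by linarith) (by positivity) (by positivity)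
  linarith

/-- **the uniform bound** -/
theorem UB (RH : RiemannHypothesis) {B : ℝ} (hB : 1 ≤ B) : ∃ K : ℝ, 0 < K ∧ ∀ᶠ T in atTop,
    ∫ u in (2 : ℝ)..(B * Real.log T), Vs T u ^ 2 ≤ K * (Real.log T ^ 2 / T) := by
  obtain ⟨K1, hK1, h1⟩ := Vn_bdd RH hB
  obtain ⟨K2, hK2, h2⟩ := near_all
  refine ⟨K1 + K2, by positivity, ?_⟩
  filter_upwards [h1, h2, eventually_ge_atTop 10,
    Real.tendsto_log_atTop.eventually_ge_atTop 10] with T h1 h2 hT hL
  have hT0 : 0 < T := by linarith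
  have hL0 : 0 < Real.log T := by linarith
  rw [Vn_int (by linarith)] at h1
  have c0 : Continuous fun u => Vs T u ^ 2 := (Vs_cont hT0).pow 2
  have e : ∫ u in (2 : ℝ)..(B * Real.log T), Vs T u ^ 2 =
      (∫ u in (2 : ℝ)..(3 / 4 * Real.log T), Vs T u ^ 2) +
      ∫ u in (3 / 4 * Real.log T)..(B * Real.log T), Vs T u ^ 2 :=
    (intervalIntegral.integral_add_adjacent_intervals (c0.intervalIntegrable _ _)
      (c0.intervalIntegrable _ _)).symm
  have h3 : ∫ u in (2 : ℝ)..(3 / 4 * Real.log T), Vs T u ^ 2 ≤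
      ∫ u in (2 : ℝ)..(Real.log T + 1), Vs T u ^ 2 :=
    intervalIntegral.integral_mono_interval le_rfl (by linarith) (by linarith)
      (ae_of_all _ fun u => sq_nonneg _) (c0.intervalIntegrable _ _)
  have h4 : T / Real.log T ^ 2 * (∫ u in (2 : ℝ)..(B * Real.log T), Vs T u ^ 2) ≤ K1 + K2 := by
    rw [e, mul_add]
    have h5 := mul_le_mul_of_nonneg_left h3 (show 0 ≤ T / Real.log T ^ 2 by positivity)
    linarith
  have h5 : 0 < Real.log T ^ 2 / T := by positivity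
  calc ∫ u in (2 : ℝ)..(B * Real.log T), Vs T u ^ 2 =
        (T / Real.log T ^ 2 * ∫ u in (2 : ℝ)..(B * Real.log T), Vs T u ^ 2) *
          (Real.log T ^ 2 / T) := by field_simp
    _ ≤ _ := mul_le_mul_of_nonneg_right h4 h5.le

end Pool.Agent.NH10.SV
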