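import Pool.Agent.NH10.SV.Pc

/-! # Gaussian averages: growth, the inequality of Poincaré type, the semigroup -/

set_option autoImplicit false
set_option maxHeartbeats 4000000

open Filter Topology Set MeasureTheory ArithmeticFunction

namespace Pool.Agent.NH10.SV

open Pool.Agent.NH10.GM

/-- at most exponential growth -/
def Gro (f : ℝ → ℝ) : Prop := ∃ C c : ℝ, 0 ≤ C ∧ 0 ≤ c ∧ ∀ t, |f t| ≤ C * Real.exp (c * |t|)

lemma gk_dom {ρ : ℝ} (hρ : 0 < ρ) {g : ℝ → ℝ} (hg : AEStronglyMeasurable g volume)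
    (h : Gro g) : Integrable fun w => gk ρ w * g w := by
  obtain ⟨C, c, hC, hc, hb⟩ := h
  have h1 := ((gk_exp hρ c).1.add (gk_exp hρ (-c)).1).const_mul C
  refine h1.mono' ((gk_cont ρ).aestronglyMeasurable.mul hg) (ae_of_all _ fun w => ?_)
  rw [norm_mul, Real.norm_of_nonneg (gk_pos hρ w).le, Real.norm_eq_abs]
  have h2 : Real.exp (c * |w|) ≤ Real.exp (c * w) + Real.exp (-c * w) := by
    rcases abs_choice w with h | h
    · rw [h]
      have := Real.exp_pos (-c * w)
      linarith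
    · rw [h]
      have e : c * -w = -c * w := by ring
      rw [e]
      have := Real.exp_pos (c * w)
      linarith
  have hg0 := (gk_pos hρ w).le
  simp only [Pi.add_apply]
  calc gk ρ w * |g w| ≤ gk ρ w * (C * (Real.exp (c * w) + Real.exp (-c * w))) := by
        refine mul_le_mul_of_nonneg_left ((hb w).trans ?_) hg0
        exact mul_le_mul_of_nonneg_left h2 hC
    _ = _ := by ring

lemma Gro.shift {f : ℝ → ℝ} (h : Gro f) (u : ℝ) : Gro fun w => f (u - w) := by
  obtain ⟨C, c, hC, hc, hb⟩ := h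
  refine ⟨C * Real.exp (c * |u|), c, by positivity, hc, fun w => (hb _).trans ?_⟩
  rw [mul_assoc, ← Real.exp_add]
  refine mul_le_mul_of_nonneg_left (Real.exp_le_exp.2 ?_) hC
  have := abs_sub u w
  nlinarith

lemma Gro.shift' {f : ℝ → ℝ} (h : Gro f) (u : ℝ) : Gro fun w => f (w + u) := by
  obtain ⟨C, c, hC, hc, hb⟩ := h
  refine ⟨C * Real.exp (c * |u|), c, by positivity, hc, fun w => (hb _).trans ?_⟩
  rw [mul_assoc, ← Real.exp_add]
  refine mul_le_mul_of_nonneg_left (Real.exp_le_exp.2 ?_) hC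
  have := abs_add_le w u
  nlinarith

lemma Gro.mul {f g : ℝ → ℝ} (hf : Gro f) (hg : Gro g) : Gro fun w => f w * g w := by
  obtain ⟨C, c, hC, hc, hb⟩ := hf
  obtain ⟨C', c', hC', hc', hb'⟩ := hg
  refine ⟨C * C', c + c', by positivity, by positivity, fun w => ?_⟩
  rw [abs_mul]
  have e : C * C' * Real.exp ((c + c') * |w|) =
      (C * Real.exp (c * |w|)) * (C' * Real.exp (c' * |w|)) := by
    rw [add_mul, Real.exp_add]
    ring
  rw [e]
  exact mul_le_mul (hb w) (hb' w) (abs_nonneg _) (by positivity)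

lemma Gro.add {f g : ℝ → ℝ} (hf : Gro f) (hg : Gro g) : Gro fun w => f w + g w := by
  obtain ⟨C, c, hC, hc, hb⟩ := hf
  obtain ⟨C', c', hC', hc', hb'⟩ := hg
  refine ⟨C + C', c + c', by positivity, by positivity, fun w => ?_⟩
  have h1 : Real.exp (c * |w|) ≤ Real.exp ((c + c') * |w|) := by
    apply Real.exp_le_exp.2
    have := abs_nonneg w
    nlinarith
  have h2 : Real.exp (c' * |w|) ≤ Real.exp ((c + c') * |w|) := by
    apply Real.exp_le_exp.2
    have := abs_nonneg w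
    nlinarith
  have h3 := abs_add_le (f w) (g w)
  have h4 := hb w
  have h5 := hb' w
  have h6 := mul_le_mul_of_nonneg_left h1 hC
  have h7 := mul_le_mul_of_nonneg_left h2 hC'
  linarith

lemma Gro.const (a : ℝ) : Gro fun _ => a :=
  ⟨|a|, 0, abs_nonneg _, le_rfl, fun w => by simp⟩

lemma Gro.id : Gro fun w : ℝ => w :=
  ⟨1, 1, by norm_num, by norm_num, fun w => by
    have := Real.add_one_le_exp (1 * |w|)
    linarith⟩

lemma Gro.neg {f : ℝ → ℝ} (hf : Gro f) : Gro fun w => -f w := by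
  obtain ⟨C, c, hC, hc, hb⟩ := hf
  exact ⟨C, c, hC, hc, fun w => by rw [abs_neg]; exact hb w⟩

lemma Gro.sub {f g : ℝ → ℝ} (hf : Gro f) (hg : Gro g) : Gro fun w => f w - g w := by
  have := hf.add hg.neg
  simpa only [sub_eq_add_neg] using this

lemma Gro.exp (c : ℝ) : Gro fun w => Real.exp (c * w) :=
  ⟨1, |c|, by norm_num, abs_nonneg _, fun w => by
    rw [abs_of_pos (Real.exp_pos _), one_mul, ← abs_mul]
    exact Real.exp_le_exp.2 (le_abs_self _)⟩

/-- primitives -/
lemma Gro.prim {f : ℝ → ℝ} (hf : Gro f) : Gro fun w => ∫ t in (0 : ℝ)..w, f t := by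
  obtain ⟨C, c, hC, hc, hb⟩ := hf
  refine ⟨C, c + 1, hC, by positivity, fun w => ?_⟩
  have h1 := intervalIntegral.norm_integral_le_of_norm_le_const (a := (0 : ℝ)) (b := w) (f := f)
    (C := C * Real.exp (c * |w|)) fun t ht => by
      rw [Real.norm_eq_abs]
      refine (hb t).trans (mul_le_mul_of_nonneg_left (Real.exp_le_exp.2 ?_) hC)
      refine mul_le_mul_of_nonneg_left ?_ hc
      rcases le_total 0 w with h | h
      · rw [uIoc_of_le h] at ht
        rw [abs_of_pos ht.1, abs_of_nonneg h]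
        exact ht.2
      · rw [uIoc_of_ge h] at ht
        rw [abs_of_nonpos ht.2, abs_of_nonpos h]
        linarith [ht.1]
  rw [Real.norm_eq_abs, sub_zero] at h1
  refine h1.trans ?_
  have h2 : |w| ≤ Real.exp |w| := by
    have := Real.add_one_le_exp |w|
    linarith
  have e : C * Real.exp ((c + 1) * |w|) = C * Real.exp (c * |w|) * Real.exp |w| := by
    rw [mul_assoc, ← Real.exp_add]
    congr 2
    ring
  rw [e]
  exact mul_le_mul_of_nonneg_left h2 (by positivity)

lemma prim_reg {f : ℝ → ℝ} (hf : Continuous f) (hg : Gro f) :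
    (∀ w, HasDerivAt (fun w => ∫ t in (0 : ℝ)..w, f t) (f w) w) ∧
    Gro (fun w => ∫ t in (0 : ℝ)..w, f t) :=
  ⟨fun w => intervalIntegral.integral_hasDerivAt_right (hf.intervalIntegrable _ _)
    hf.aestronglyMeasurable.stronglyMeasurableAtFilter hf.continuousAt, hg.prim⟩

/-- Cauchy–Schwarz -/
lemma cs_prim {f : ℝ → ℝ} (hf : Continuous f) (w : ℝ) :
    (∫ t in (0 : ℝ)..w, f t) ^ 2 ≤ w * ∫ t in (0 : ℝ)..w, f t ^ 2 := by
  have i1 : ∀ a b : ℝ, IntervalIntegrable f volume a b := fun a b => hf.intervalIntegrable _ _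
  have i2 : ∀ a b : ℝ, IntervalIntegrable (fun t => f t ^ 2) volume a b := fun a b =>
    (hf.pow 2).intervalIntegrable _ _
  obtain ⟨I, hI⟩ : ∃ I : ℝ, I = ∫ t in (0 : ℝ)..w, f t := ⟨_, rfl⟩
  obtain ⟨Q, hQ⟩ : ∃ Q : ℝ, Q = ∫ t in (0 : ℝ)..w, f t ^ 2 := ⟨_, rfl⟩
  rw [← hI, ← hQ]
  have key : ∀ m : ℝ, ∫ t in (0 : ℝ)..w, (f t - m) ^ 2 = Q - 2 * m * I + m ^ 2 * w := by
    intro m
    have e : ∀ t, (f t - m) ^ 2 = (f t ^ 2 - 2 * m * f t) + m ^ 2 := fun t => by ring
    simp_rw [e]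
    rw [intervalIntegral.integral_add ((i2 0 w).sub ((i1 0 w).const_mul (2 * m))) (by simp),
      intervalIntegral.integral_sub (i2 0 w) ((i1 0 w).const_mul (2 * m)),
      intervalIntegral.integral_const_mul, intervalIntegral.integral_const, smul_eq_mul, ← hI,
      ← hQ]
    ring
  rcases lt_trichotomy w 0 with h | h | h
  · have h1 : ∫ t in w..(0 : ℝ), (f t - I / w) ^ 2 = -(Q - 2 * (I / w) * I + (I / w) ^ 2 * w) := by
      rw [← key (I / w), intervalIntegral.integral_symm]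
    have h2 : 0 ≤ ∫ t in w..(0 : ℝ), (f t - I / w) ^ 2 :=
      intervalIntegral.integral_nonneg h.le fun t _ => sq_nonneg _
    have e : Q - 2 * (I / w) * I + (I / w) ^ 2 * w = Q - I ^ 2 / w := by
      field_simp
      ring
    rw [h1, e] at h2
    have h3 : Q ≤ I ^ 2 / w := by linarith
    rw [le_div_iff_of_neg h] at h3
    linarith
  · rw [h] at hI
    rw [intervalIntegral.integral_same] at hI
    rw [hI, h]
    simp
  · have h2 : 0 ≤ ∫ t in (0 : ℝ)..w, (f t - I / w) ^ 2 :=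
      intervalIntegral.integral_nonneg h.le fun t _ => sq_nonneg _
    rw [key] at h2
    have e : Q - 2 * (I / w) * I + (I / w) ^ 2 * w = Q - I ^ 2 / w := by
      field_simp
      ring
    rw [e] at h2
    have h3 : I ^ 2 / w ≤ Q := by linarith
    rw [div_le_iff₀ h] at h3
    linarith

/-- Jensen -/
lemma gk_jensen {ρ : ℝ} (hρ : 0 < ρ) {D : ℝ → ℝ} (hD : Continuous D) (hG : Gro D) :
    (∫ w, gk ρ w * D w) ^ 2 ≤ ∫ w, gk ρ w * D w ^ 2 := by
  obtain ⟨g1, g2⟩ := gk_int hρ
  have i1 := gk_dom hρ hD.aestronglyMeasurable hG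
  have i2 : Integrable fun w => gk ρ w * D w ^ 2 := by
    refine gk_dom hρ (hD.pow 2).aestronglyMeasurable ?_
    simpa only [sq] using hG.mul hG
  obtain ⟨m, hm⟩ : ∃ m : ℝ, m = ∫ w, gk ρ w * D w := ⟨_, rfl⟩
  have h1 : 0 ≤ ∫ w, gk ρ w * (D w - m) ^ 2 :=
    integral_nonneg fun w => mul_nonneg (gk_pos hρ w).le (sq_nonneg _)
  have e : ∀ w, gk ρ w * (D w - m) ^ 2 = gk ρ w * D w ^ 2 -
      2 * m * (gk ρ w * D w) + m ^ 2 * gk ρ w := fun w => by ring
  simp_rw [e] at h1
  have i3 : Integrable fun w => gk ρ w * D w ^ 2 - 2 * m * (gk ρ w * D w) :=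
    i2.sub (i1.const_mul _)
  rw [integral_add i3 (g1.const_mul _), integral_sub i2 (i1.const_mul _),
    integral_const_mul, integral_const_mul, g2, ← hm] at h1
  rw [← hm]
  linarith

lemma gk_deriv (ρ w : ℝ) : HasDerivAt (gk ρ) (-(ρ ^ 2) * (gk ρ w * w)) w := by
  have h1 : HasDerivAt (fun w : ℝ => -(ρ ^ 2 / 2) * w ^ 2) (-(ρ ^ 2) * w) w := by
    refine ((hasDerivAt_pow 2 w).const_mul (-(ρ ^ 2 / 2))).congr_deriv ?_
    push_cast
    ring
  have h2 := h1.exp.const_mul (ρ / Real.sqrt (2 * Real.pi))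
  refine h2.congr_deriv ?_
  unfold gk
  ring

/-- **the inequality of Poincaré type** -/
theorem poincare {ρ : ℝ} (hρ : 0 < ρ) {F f : ℝ → ℝ} (hF : ∀ t, HasDerivAt F (f t) t)
    (hf : Continuous f) (hfg : Gro f) (hFg : Gro F) (u : ℝ) :
    (F u - ∫ w, gk ρ w * F (u - w)) ^ 2 ≤ 1 / ρ ^ 2 * ∫ w, gk ρ w * f (u - w) ^ 2 := by
  obtain ⟨g1, g2⟩ := gk_int hρ
  have hFc : Continuous F := continuous_iff_continuousAt.2 fun t => (hF t).continuousAt
  obtain ⟨D, hD⟩ : ∃ D : ℝ → ℝ, D = fun w => F u - F (u - w) := ⟨_, rfl⟩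
  have hDc : Continuous D := by
    rw [hD]
    exact continuous_const.sub (hFc.comp (by fun_prop))
  have hDg : Gro D := by
    rw [hD]
    exact (Gro.const (F u)).sub (hFg.shift u)
  have hfs : Continuous fun w => f (u - w) := hf.comp (by fun_prop)
  have hDe : ∀ w, D w = ∫ t in (0 : ℝ)..w, f (u - t) := by
    intro w
    have h1 := intervalIntegral.integral_eq_sub_of_hasDerivAt (a := (0 : ℝ)) (b := w) (f := D)
      (f' := fun t => f (u - t)) (fun t _ => by
        rw [hD]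
        have h2 : HasDerivAt (fun t => F (u - t)) (-f (u - t)) t := by
          have := (hF (u - t)).comp_const_sub u t
          exact this
        refine (h2.const_sub (F u)).congr_deriv ?_
        ring) (hfs.intervalIntegrable _ _)
    rw [h1, hD]
    simp
  have e1 : F u - ∫ w, gk ρ w * F (u - w) = ∫ w, gk ρ w * D w := by
    have i1 : Integrable fun w => gk ρ w * F (u - w) :=
      gk_dom hρ (hFc.comp (by fun_prop : Continuous fun w => u - w)).aestronglyMeasurable
        (hFg.shift u)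
    have e2 : ∀ w, gk ρ w * D w = F u * gk ρ w - gk ρ w * F (u - w) := fun w => by
      rw [hD]; ring
    simp_rw [e2]
    rw [integral_sub (g1.const_mul _) i1, integral_const_mul, g2, mul_one]
  rw [e1]
  refine (gk_jensen hρ hDc hDg).trans ?_
  -- the primitive of the square
  have hf2 : Continuous fun w => f (u - w) ^ 2 := hfs.pow 2
  have hf2g : Gro fun w => f (u - w) ^ 2 := by
    simpa only [sq] using (hfg.shift u).mul (hfg.shift u)
  obtain ⟨Φ, hΦ⟩ : ∃ Φ : ℝ → ℝ, Φ = fun w => ∫ t in (0 : ℝ)..w, f (u - t) ^ 2 := ⟨_, rfl⟩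
  obtain ⟨p1, p2⟩ := prim_reg hf2 hf2g
  rw [← hΦ] at p1 p2
  have hΦc : Continuous Φ := continuous_iff_continuousAt.2 fun t => (p1 t).continuousAt
  have hwc : Continuous fun w : ℝ => w * Φ w := continuous_id.mul hΦc
  have hwg : Gro fun w : ℝ => w * Φ w := Gro.id.mul p2
  have h1 : ∫ w, gk ρ w * D w ^ 2 ≤ ∫ w, gk ρ w * (w * Φ w) := by
    refine integral_mono (gk_dom hρ (hDc.pow 2).aestronglyMeasurable (by
      simpa only [sq] using hDg.mul hDg)) (gk_dom hρ hwc.aestronglyMeasurable hwg) fun w => ?_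
    refine mul_le_mul_of_nonneg_left ?_ (gk_pos hρ w).le
    rw [hDe, hΦ]
    exact cs_prim hfs w
  refine h1.trans (le_of_eq ?_)
  have h2 := integral_mul_deriv_eq_deriv_mul_of_integrable (u := Φ)
    (u' := fun w => f (u - w) ^ 2) (v := gk ρ) (v' := fun w => -(ρ ^ 2) * (gk ρ w * w))
    (fun w _ => p1 w) (fun w _ => gk_deriv ρ w)
    (by
      refine ((gk_dom hρ hwc.aestronglyMeasurable hwg).const_mul (-(ρ ^ 2))).congr
        (ae_of_all _ fun w => ?_)
      simp only [Pi.mul_apply]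
      ring)
    (by
      refine (gk_dom hρ hf2.aestronglyMeasurable hf2g).congr (ae_of_all _ fun w => ?_)
      simp only [Pi.mul_apply]
      ring)
    (by
      refine (gk_dom hρ hΦc.aestronglyMeasurable p2).congr (ae_of_all _ fun w => ?_)
      simp only [Pi.mul_apply]
      ring)
  have e3 : ∫ w, Φ w * (-(ρ ^ 2) * (gk ρ w * w)) = -(ρ ^ 2) * ∫ w, gk ρ w * (w * Φ w) := by
    rw [← integral_const_mul]
    refine integral_congr_ae (ae_of_all _ fun w => ?_)
    simp only
    ring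
  have e4 : ∫ w, f (u - w) ^ 2 * gk ρ w = ∫ w, gk ρ w * f (u - w) ^ 2 :=
    integral_congr_ae (ae_of_all _ fun w => by simp only; ring)
  rw [e3, e4] at h2
  obtain ⟨I, hI⟩ : ∃ I : ℝ, I = ∫ w, gk ρ w * (w * Φ w) := ⟨_, rfl⟩
  obtain ⟨J, hJ⟩ : ∃ J : ℝ, J = ∫ w, gk ρ w * f (u - w) ^ 2 := ⟨_, rfl⟩
  rw [← hI, ← hJ] at h2
  rw [← hI, ← hJ]
  have h3 : ρ ^ 2 * I = J := by linarith
  rw [← h3]
  field_simp

/-! ### the semigroup -/

lemma gk_conv {a b : ℝ} (ha : 0 < a) (hb : 0 < b) (x : ℝ) :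
    ∫ w, gk a w * gk b (x - w) = gk (a * b / Real.sqrt (a ^ 2 + b ^ 2)) x := by
  have hs : 0 < Real.sqrt (a ^ 2 + b ^ 2) := Real.sqrt_pos.2 (by positivity)
  have hss : Real.sqrt (a ^ 2 + b ^ 2) ^ 2 = a ^ 2 + b ^ 2 := Real.sq_sqrt (by positivity)
  have hp := s2p
  have hpp : Real.sqrt (2 * Real.pi) ^ 2 = 2 * Real.pi :=
    Real.sq_sqrt (by have := Real.pi_pos; positivity)
  have e1 : ∀ w, gk a w * gk b (x - w) = a * b / (2 * Real.pi) *
      Real.exp (-((a * b / Real.sqrt (a ^ 2 + b ^ 2)) ^ 2 / 2) * x ^ 2) *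
      Real.exp (-((a ^ 2 + b ^ 2) / 2) * (w - b ^ 2 * x / (a ^ 2 + b ^ 2)) ^ 2) := by
    intro w
    unfold gk
    have e2 : a / Real.sqrt (2 * Real.pi) * Real.exp (-(a ^ 2 / 2) * w ^ 2) *
        (b / Real.sqrt (2 * Real.pi) * Real.exp (-(b ^ 2 / 2) * (x - w) ^ 2)) =
        a * b / Real.sqrt (2 * Real.pi) ^ 2 * (Real.exp (-(a ^ 2 / 2) * w ^ 2) *
        Real.exp (-(b ^ 2 / 2) * (x - w) ^ 2)) := by
      field_simp
    rw [e2, hpp, mul_assoc, ← Real.exp_add, ← Real.exp_add]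
    congr 2
    rw [div_pow, hss]
    field_simp
    ring
  simp_rw [e1]
  rw [integral_const_mul, H370.gauss_val]
  have e3 : Real.sqrt (Real.pi / ((a ^ 2 + b ^ 2) / 2)) =
      Real.sqrt (2 * Real.pi) / Real.sqrt (a ^ 2 + b ^ 2) := by
    rw [← Real.sqrt_div (by have := Real.pi_pos; positivity)]
    congr 1
    field_simp
  rw [e3]
  unfold gk
  have e4 : a * b / (2 * Real.pi) = a * b / (Real.sqrt (2 * Real.pi) * Real.sqrt (2 * Real.pi)) := by
    rw [← sq, hpp]
  rw [e4]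
  field_simp

/-- **the semigroup** -/
theorem SG_semi {T a b : ℝ} (hT : 1 ≤ T) (ha : 0 < a) (hb : 0 < b) (u : ℝ) :
    ∫ w, gk a w * SG T b (u - w) = SG T (a * b / Real.sqrt (a ^ 2 + b ^ 2)) u := by
  obtain ⟨A, hA⟩ : ∃ A : ℝ → ℝ, A = fun w => gk a w * Real.exp (-1 * w) := ⟨_, rfl⟩
  obtain ⟨B, hB⟩ : ∃ B : ℝ → ℝ, B = fun w => gk b w * Real.exp (-1 * w) := ⟨_, rfl⟩
  have hAi : Integrable A := by rw [hA]; exact (gk_exp ha (-1)).1
  have hBi : Integrable B := by rw [hB]; exact (gk_exp hb (-1)).1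
  have hprod : Integrable (fun p : ℝ × ℝ => A p.2 * B (p.1 - p.2)) (volume.prod volume) :=
    hAi.convolution_integrand (ContinuousLinearMap.mul ℝ ℝ) hBi
  have hprod' : Integrable (fun p : ℝ × ℝ => A p.1 * B (p.2 - p.1)) (volume.prod volume) :=
    hprod.swap
  have hint : Integrable (Function.uncurry fun w z => gk a w * gk b (z - w) * Su T (u - z))
      (volume.prod volume) := by
    refine (hprod'.const_mul (20 * Real.exp u)).mono' ?_ (ae_of_all _ fun p => ?_)
    · have m1 : Measurable fun p : ℝ × ℝ => gk a p.1 := (gk_cont a).measurable.comp measurable_fst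
      have m2 : Measurable fun p : ℝ × ℝ => gk b (p.2 - p.1) :=
        (gk_cont b).measurable.comp (measurable_snd.sub measurable_fst)
      have m3 : Measurable fun p : ℝ × ℝ => Su T (u - p.2) :=
        (Su_meas T).comp (measurable_const.sub measurable_snd)
      exact ((m1.mul m2).mul m3).aestronglyMeasurable
    · simp only [Function.uncurry]
      rw [norm_mul, norm_mul, Real.norm_of_nonneg (gk_pos ha _).le,
        Real.norm_of_nonneg (gk_pos hb _).le, Real.norm_eq_abs, hA, hB]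
      have h1 := Su_le hT (u - p.2)
      have e : Real.exp (u - p.2) = Real.exp u * (Real.exp (-1 * p.1) *
          Real.exp (-1 * (p.2 - p.1))) := by
        rw [← Real.exp_add, ← Real.exp_add]
        congr 1
        ring
      rw [e] at h1
      have g1 := gk_pos ha p.1
      have g2 := gk_pos hb (p.2 - p.1)
      calc gk a p.1 * gk b (p.2 - p.1) * |Su T (u - p.2)| ≤ gk a p.1 * gk b (p.2 - p.1) *
            (20 * (Real.exp u * (Real.exp (-1 * p.1) * Real.exp (-1 * (p.2 - p.1))))) :=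
            mul_le_mul_of_nonneg_left h1 (by positivity)
        _ = _ := by ring
  have hswap := integral_integral_swap hint
  have e1 : ∀ w, gk a w * SG T b (u - w) = ∫ z, gk a w * gk b (z - w) * Su T (u - z) := by
    intro w
    unfold SG
    have h1 := integral_sub_right_eq_self (μ := volume) (fun v => gk b v * Su T (u - w - v)) w
    rw [← h1, ← integral_const_mul]
    refine integral_congr_ae (ae_of_all _ fun z => ?_)
    simp only
    have : u - w - (z - w) = u - z := by ring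
    rw [this]
    ring
  have e2 : ∀ z, ∫ w, gk a w * gk b (z - w) * Su T (u - z) =
      gk (a * b / Real.sqrt (a ^ 2 + b ^ 2)) z * Su T (u - z) := by
    intro z
    rw [integral_mul_const, gk_conv ha hb]
  simp_rw [e1]
  rw [hswap]
  simp_rw [e2]
  rfl

end Pool.Agent.NH10.SV
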