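import Pool.Agent.NH10.SV.Hb
import Pool.Agent.NH10.SV.Ha

/-! # The increments of the smoothed windows -/

set_option autoImplicit false
set_option maxHeartbeats 4000000

open Filter Topology Set MeasureTheory ArithmeticFunction

namespace Pool.Agent.NH10.SV

open Pool.Agent.NH10.GM

/-- the general window lemma -/
theorem win_gen {ρ ω α β K : ℝ} {q f : ℝ → ℝ} (hρ : 7 ≤ ρ) (hω : 0 ≤ ω) (hαβ : α ≤ β)
    (hK : 0 ≤ K) (hq : Continuous q) (hq0 : ∀ t, 0 ≤ q t)
    (hqb : ∀ t, q t ≤ K * (Real.exp t + Real.exp (6 * t))) (hf : Continuous f)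
    (hfb : ∀ u, f u ≤ ∫ w, gk ρ w * (Real.exp (-w) * q (u - w))) :
    ∫ u in α..β, f u ≤ Real.exp ω * (∫ t in (α - ω)..(β + ω), q t) +
      (β - α) * (6 * K * Real.exp (-(ρ ^ 2 * ω ^ 2 / 4)) * (Real.exp β + Real.exp (6 * β))) := by
  have hρ0 : 0 < ρ := by linarith
  obtain ⟨k, hk⟩ : ∃ k : ℝ → ℝ, k = (Ioc (α - ω) (β + ω)).indicator q := ⟨_, rfl⟩
  have hs2 : Real.sqrt 2 ^ 2 = 2 := Real.sq_sqrt (by norm_num)
  have hs : 0 < Real.sqrt 2 := Real.sqrt_pos.2 (by norm_num)
  have hP2 : 0 < ρ / Real.sqrt 2 := by positivity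
  have hle : α - ω ≤ β + ω := by linarith
  have hkint : Integrable k := by
    rw [hk]
    have h1 : IntervalIntegrable q volume (α - ω) (β + ω) := hq.intervalIntegrable _ _
    rw [intervalIntegrable_iff_integrableOn_Ioc_of_le hle] at h1
    exact h1.integrable_indicator measurableSet_Ioc
  have hk0 : ∀ t, 0 ≤ k t := by
    intro t
    rw [hk]
    exact indicator_nonneg (fun t _ => hq0 t) t
  have hkm : Measurable k := by
    rw [hk]
    exact hq.measurable.indicator measurableSet_Ioc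
  have hkb : ∀ t, k t ≤ K * (Real.exp (β + ω) + Real.exp (6 * (β + ω))) := by
    intro t
    rw [hk]
    by_cases h : t ∈ Ioc (α - ω) (β + ω)
    · rw [indicator_of_mem h]
      refine (hqb t).trans (mul_le_mul_of_nonneg_left ?_ hK)
      have h1 := Real.exp_le_exp.2 h.2
      have h2 := Real.exp_le_exp.2 (show 6 * t ≤ 6 * (β + ω) by linarith [h.2])
      linarith
    · rw [indicator_of_notMem h]
      positivity
  obtain ⟨g1, g2⟩ := gk_int hρ0
  obtain ⟨f1, f2⟩ := gk_exp hP2 (-2)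
  obtain ⟨f3, f4⟩ := gk_exp hP2 (-7)
  have e7 : Real.exp ((-7) ^ 2 / (2 * (ρ / Real.sqrt 2) ^ 2)) ≤ 3 := by
    have h1 : (-7 : ℝ) ^ 2 / (2 * (ρ / Real.sqrt 2) ^ 2) ≤ 1 := by
      rw [div_pow, hs2, div_le_one (by positivity)]
      nlinarith
    have := Real.exp_one_lt_d9
    exact (Real.exp_le_exp.2 h1).trans (by linarith)
  have e2' : Real.exp ((-2) ^ 2 / (2 * (ρ / Real.sqrt 2) ^ 2)) ≤ 3 := by
    have h1 : (-2 : ℝ) ^ 2 / (2 * (ρ / Real.sqrt 2) ^ 2) ≤ 1 := by
      rw [div_pow, hs2, div_le_one (by positivity)]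
      nlinarith
    have := Real.exp_one_lt_d9
    exact (Real.exp_le_exp.2 h1).trans (by linarith)
  rw [← f2] at e2'
  rw [← f4] at e7
  -- the convolution
  obtain ⟨cv, hcv⟩ : ∃ cv : ℝ → ℝ, cv = fun u => ∫ w, gk ρ w * k (u - w) := ⟨_, rfl⟩
  have hcve : cv = convolution (gk ρ) k (ContinuousLinearMap.mul ℝ ℝ) volume := by
    rw [hcv]
    rfl
  have hcvi : Integrable cv := by
    rw [hcve]
    exact g1.integrable_convolution (ContinuousLinearMap.mul ℝ ℝ) hkint
  have hcvt : ∫ u, cv u = ∫ t in (α - ω)..(β + ω), q t := by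
    rw [hcve, integral_convolution (ContinuousLinearMap.mul ℝ ℝ) g1 hkint, g2]
    simp only [ContinuousLinearMap.mul_apply', one_mul]
    rw [hk, integral_indicator measurableSet_Ioc, intervalIntegral.integral_of_le hle]
  have hcv0 : ∀ u, 0 ≤ cv u := by
    intro u
    rw [hcv]
    exact integral_nonneg fun w => mul_nonneg (gk_pos hρ0 w).le (hk0 _)
  obtain ⟨E, hE⟩ : ∃ E : ℝ, E = Real.exp (-(ρ ^ 2 * ω ^ 2 / 4)) := ⟨_, rfl⟩
  have hE0 : 0 < E := by rw [hE]; exact Real.exp_pos _
  rw [← hE]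
  -- the pointwise bound
  have hpt : ∀ u ∈ Icc α β, f u ≤ Real.exp ω * cv u +
      6 * K * E * (Real.exp β + Real.exp (6 * β)) := by
    intro u hu
    have i1 : Integrable fun w => Real.exp ω * (gk ρ w * k (u - w)) := by
      refine (Integrable.mul_bdd (c := K * (Real.exp (β + ω) + Real.exp (6 * (β + ω)))) g1
        (hkm.comp (by fun_prop)).aestronglyMeasurable (ae_of_all _ fun w => ?_)).const_mul _
      show ‖k (u - w)‖ ≤ _
      rw [Real.norm_of_nonneg (hk0 _)]
      exact hkb _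
    have i2 : Integrable fun w => 2 * K * E * Real.exp u *
        (gk (ρ / Real.sqrt 2) w * Real.exp (-2 * w)) := f1.const_mul _
    have i3 : Integrable fun w => 2 * K * E * Real.exp (6 * u) *
        (gk (ρ / Real.sqrt 2) w * Real.exp (-7 * w)) := f3.const_mul _
    have i0 : Integrable fun w => gk ρ w * (Real.exp (-w) * q (u - w)) := by
      have hg : Gro q := ⟨2 * K, 6, by positivity, by norm_num, fun t => by
        rw [abs_of_nonneg (hq0 t)]
        refine (hqb t).trans ?_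
        have h1 := Real.exp_le_exp.2 (show t ≤ 6 * |t| by
          have := le_abs_self t
          have := abs_nonneg t
          linarith)
        have h2 := Real.exp_le_exp.2 (show 6 * t ≤ 6 * |t| by
          have := le_abs_self t
          linarith)
        have h3 := mul_le_mul_of_nonneg_left (add_le_add h1 h2) hK
        linarith⟩
      refine gk_dom hρ0 (Continuous.aestronglyMeasurable (by fun_prop)) ?_
      have := (Gro.exp (-1)).mul (hg.shift u)
      simpa only [neg_mul, one_mul] using this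
    have h2 : ∫ w, gk ρ w * (Real.exp (-w) * q (u - w)) ≤
        ∫ w, ((Real.exp ω * (gk ρ w * k (u - w)) + 2 * K * E * Real.exp u *
          (gk (ρ / Real.sqrt 2) w * Real.exp (-2 * w))) + 2 * K * E * Real.exp (6 * u) *
          (gk (ρ / Real.sqrt 2) w * Real.exp (-7 * w))) := by
      refine integral_mono i0 ((i1.add i2).add i3) fun w => ?_
      show gk ρ w * (Real.exp (-w) * q (u - w)) ≤ (Real.exp ω * (gk ρ w * k (u - w)) +
        2 * K * E * Real.exp u * (gk (ρ / Real.sqrt 2) w * Real.exp (-2 * w))) +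
        2 * K * E * Real.exp (6 * u) * (gk (ρ / Real.sqrt 2) w * Real.exp (-7 * w))
      have hg := gk_pos hρ0 w
      have hg2 := gk_pos hP2 w
      rcases lt_or_ge |w| ω with hw | hw
      · have hw' := abs_lt.1 hw
        have hmem : u - w ∈ Ioc (α - ω) (β + ω) := ⟨by linarith [hu.1], by linarith [hu.2]⟩
        have e2 : k (u - w) = q (u - w) := by rw [hk, indicator_of_mem hmem]
        rw [e2]
        have h3 : Real.exp (-w) ≤ Real.exp ω := Real.exp_le_exp.2 (by linarith)
        have h4 : 0 ≤ gk ρ w * q (u - w) := mul_nonneg hg.le (hq0 _)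
        have h5 := mul_le_mul_of_nonneg_right h3 h4
        have h6 : 0 ≤ 2 * K * E * Real.exp u *
          (gk (ρ / Real.sqrt 2) w * Real.exp (-2 * w)) := by positivity
        have h7 : 0 ≤ 2 * K * E * Real.exp (6 * u) *
          (gk (ρ / Real.sqrt 2) w * Real.exp (-7 * w)) := by positivity
        linarith
      · have h3 := gk_far hρ0 hω hw
        rw [← hE] at h3
        have h4 : Real.exp (-w) * q (u - w) ≤ K * (Real.exp u * Real.exp (-2 * w) +
            Real.exp (6 * u) * Real.exp (-7 * w)) := by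
          refine (mul_le_mul_of_nonneg_left (hqb (u - w)) (Real.exp_pos _).le).trans (le_of_eq ?_)
          have e3 : Real.exp (-w) * Real.exp (u - w) = Real.exp u * Real.exp (-2 * w) := by
            rw [← Real.exp_add, ← Real.exp_add]; congr 1; ring
          have e4 : Real.exp (-w) * Real.exp (6 * (u - w)) =
              Real.exp (6 * u) * Real.exp (-7 * w) := by
            rw [← Real.exp_add, ← Real.exp_add]; congr 1; ring
          calc Real.exp (-w) * (K * (Real.exp (u - w) + Real.exp (6 * (u - w)))) =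
                K * (Real.exp (-w) * Real.exp (u - w) +
                  Real.exp (-w) * Real.exp (6 * (u - w))) := by ring
            _ = _ := by rw [e3, e4]
        have h5 : gk ρ w * (Real.exp (-w) * q (u - w)) ≤ (2 * E * gk (ρ / Real.sqrt 2) w) *
            (K * (Real.exp u * Real.exp (-2 * w) + Real.exp (6 * u) * Real.exp (-7 * w))) :=
          mul_le_mul h3 h4 (mul_nonneg (Real.exp_pos _).le (hq0 _)) (by positivity)
        have h7 : 0 ≤ Real.exp ω * (gk ρ w * k (u - w)) :=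
          mul_nonneg (Real.exp_pos _).le (mul_nonneg hg.le (hk0 _))
        refine h5.trans ?_
        have h8 : 2 * E * gk (ρ / Real.sqrt 2) w *
            (K * (Real.exp u * Real.exp (-2 * w) + Real.exp (6 * u) * Real.exp (-7 * w))) =
            2 * K * E * Real.exp u * (gk (ρ / Real.sqrt 2) w * Real.exp (-2 * w)) +
        2 * K * E * Real.exp (6 * u) * (gk (ρ / Real.sqrt 2) w * Real.exp (-7 * w)) := by ring
        rw [h8]
        linarith
    have i12 : Integrable fun w => Real.exp ω * (gk ρ w * k (u - w)) + 2 * K * E * Real.exp u *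
          (gk (ρ / Real.sqrt 2) w * Real.exp (-2 * w)) := i1.add i2
    rw [integral_add i12 i3, integral_add i1 i2, integral_const_mul, integral_const_mul,
      integral_const_mul] at h2
    have e3 : ∫ w, gk ρ w * k (u - w) = cv u := by rw [hcv]
    rw [e3] at h2
    have h8 : Real.exp u ≤ Real.exp β := Real.exp_le_exp.2 hu.2
    have h9 : Real.exp (6 * u) ≤ Real.exp (6 * β) := Real.exp_le_exp.2 (by linarith [hu.2])
    have h10 := hfb u
    have hKE : 0 ≤ 2 * K * E := by positivity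
    have h11 : 2 * K * E * Real.exp u * (∫ w, gk (ρ / Real.sqrt 2) w * Real.exp (-2 * w)) ≤
        2 * K * E * Real.exp β * 3 := by
      refine mul_le_mul (mul_le_mul_of_nonneg_left h8 hKE) e2' ?_ (by positivity)
      rw [f2]
      positivity
    have h12 : 2 * K * E * Real.exp (6 * u) * (∫ w, gk (ρ / Real.sqrt 2) w * Real.exp (-7 * w)) ≤
        2 * K * E * Real.exp (6 * β) * 3 := by
      refine mul_le_mul (mul_le_mul_of_nonneg_left h9 hKE) e7 ?_ (by positivity)
      rw [f4]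
      positivity
    have h13 : 6 * K * E * (Real.exp β + Real.exp (6 * β)) = 2 * K * E * Real.exp β * 3 +
        2 * K * E * Real.exp (6 * β) * 3 := by ring
    linarith
  have i3 : IntervalIntegrable (fun u => Real.exp ω * cv u) volume α β :=
    (hcvi.const_mul _).intervalIntegrable
  have h1 : ∫ u in α..β, f u ≤ ∫ u in α..β, (Real.exp ω * cv u +
      6 * K * E * (Real.exp β + Real.exp (6 * β))) :=
    intervalIntegral.integral_mono_on hαβ (hf.intervalIntegrable _ _)
      (i3.add (by simp)) hpt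
  rw [intervalIntegral.integral_add i3 (by simp), intervalIntegral.integral_const_mul,
    intervalIntegral.integral_const, smul_eq_mul] at h1
  have h2 : ∫ u in α..β, cv u ≤ ∫ t in (α - ω)..(β + ω), q t := by
    rw [← hcvt, intervalIntegral.integral_of_le hαβ]
    exact setIntegral_le_integral hcvi (ae_of_all _ hcv0)
  have h3 := mul_le_mul_of_nonneg_left h2 (Real.exp_pos ω).le
  linarith

/-! ### the derivative -/

/-- the normalised Gaussian window -/
noncomputable def Nn (P v : ℝ) : ℝ := P / Real.sqrt (2 * Real.pi) * VV P (Real.exp v)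

lemma Nn_cont {P : ℝ} (hP : 0 < P) : Continuous (Nn P) := continuous_const.mul (VV_econt hP)

lemma SG_prim {T P : ℝ} (hT : 1 ≤ T) (hP : 0 < P) (u : ℝ) :
    SG T P u = (∫ v in (0 : ℝ)..(u + Real.log (1 + 1 / T)), Nn P v) -
      ∫ v in (0 : ℝ)..u, Nn P v := by
  have hc := Nn_cont hP
  rw [SG_eq hT hP, ← intervalIntegral.integral_const_mul]
  obtain ⟨h, hh⟩ : ∃ h : ℝ, h = Real.log (1 + 1 / T) := ⟨_, rfl⟩
  rw [← hh]
  have h1 := intervalIntegral.integral_comp_add_left (a := (0 : ℝ)) (b := h) (Nn P) u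
  rw [add_zero] at h1
  rw [intervalIntegral.integral_interval_sub_left (hc.intervalIntegrable _ _)
      (hc.intervalIntegrable _ _), ← h1]
  rfl

lemma SG_deriv {T P : ℝ} (hT : 1 ≤ T) (hP : 0 < P) (u : ℝ) :
    HasDerivAt (SG T P) (Nn P (u + Real.log (1 + 1 / T)) - Nn P u) u := by
  have hc := Nn_cont hP
  have hd : ∀ w, HasDerivAt (fun w => ∫ t in (0 : ℝ)..w, Nn P t) (Nn P w) w := fun w =>
    intervalIntegral.integral_hasDerivAt_right (hc.intervalIntegrable _ _)
      hc.aestronglyMeasurable.stronglyMeasurableAtFilter hc.continuousAt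
  have h1 := (hd (u + Real.log (1 + 1 / T))).comp_add_const u (Real.log (1 + 1 / T))
  have h2 := h1.sub (hd u)
  refine h2.congr_of_eventuallyEq (Eventually.of_forall fun w => ?_)
  exact SG_prim hT hP w

/-- the constant of the growth -/
noncomputable def Dl : ℝ := ∑' n, lm n

lemma Dl_nonneg : 0 ≤ Dl := tsum_nonneg lm_nonneg

lemma Nn_bd {P : ℝ} (hP : 10 ≤ P) (v : ℝ) : |Nn P v| ≤ 3 * P * (Dl + 1) *
    (Real.exp (7 / 2 * v) + Real.exp v) := by
  have hP0 : 0 < P := by linarith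
  have h2 := s2p
  have hD := Dl_nonneg
  have h2' : 1 ≤ Real.sqrt (2 * Real.pi) := by
    rw [Real.one_le_sqrt]
    have := Real.pi_gt_three
    linarith
  have hS : ∑' n, pw P v n ≤ 3 * Real.exp (7 / 2 * v) * Dl := by
    have h1 : ∑' n, pw P v n ≤ ∑' n, Kp P v * lm n :=
      (pw_sum hP0 v).tsum_le_tsum (fun n => pw_le hP0 v n) (lm_sum.mul_left _)
    rw [tsum_mul_left] at h1
    refine h1.trans (mul_le_mul_of_nonneg_right ?_ hD)
    have e : Kp P v = Real.exp (7 / 2 * v) * Real.exp (49 / (8 * P ^ 2)) := by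
      unfold Kp
      rw [← Real.exp_add, ← Real.exp_add]
      congr 1
      field_simp
      ring
    rw [e]
    have h3 : Real.exp (49 / (8 * P ^ 2)) ≤ 3 := by
      have h1 : 49 / (8 * P ^ 2) ≤ 1 := by
        rw [div_le_one (by positivity)]
        nlinarith
      have := Real.exp_one_lt_d9
      exact (Real.exp_le_exp.2 h1).trans (by linarith)
    have := mul_le_mul_of_nonneg_left h3 (Real.exp_pos (7 / 2 * v)).le
    linarith
  have hS0 : 0 ≤ ∑' n, pw P v n := tsum_nonneg (pw_nonneg P v)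
  have hM : Real.exp (1 / (2 * P ^ 2)) ≤ 3 := by
    have h1 : 1 / (2 * P ^ 2) ≤ 1 := by
      rw [div_le_one (by positivity)]
      nlinarith
    have := Real.exp_one_lt_d9
    exact (Real.exp_le_exp.2 h1).trans (by linarith)
  unfold Nn
  rw [VV_pw hP0]
  have e1 : P / Real.sqrt (2 * Real.pi) * ((∑' n, pw P v n) -
      Real.sqrt (2 * Real.pi) / P * Real.exp v * Real.exp (1 / (2 * P ^ 2))) =
      P / Real.sqrt (2 * Real.pi) * (∑' n, pw P v n) -
      Real.exp v * Real.exp (1 / (2 * P ^ 2)) := by field_simp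
  rw [e1]
  have h4 : P / Real.sqrt (2 * Real.pi) ≤ P := div_le_self hP0.le h2'
  have h5 : P / Real.sqrt (2 * Real.pi) * (∑' n, pw P v n) ≤
      P * (3 * Real.exp (7 / 2 * v) * Dl) := mul_le_mul h4 hS hS0 hP0.le
  have h6 : 0 ≤ P / Real.sqrt (2 * Real.pi) * (∑' n, pw P v n) := by positivity
  have h7 : Real.exp v * Real.exp (1 / (2 * P ^ 2)) ≤ Real.exp v * 3 :=
    mul_le_mul_of_nonneg_left hM (Real.exp_pos v).le
  have h8 : 0 < Real.exp v * Real.exp (1 / (2 * P ^ 2)) := by positivity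
  have hv := Real.exp_pos v
  have hv2 := Real.exp_pos (7 / 2 * v)
  have h9 : P * (3 * Real.exp (7 / 2 * v) * Dl) + Real.exp v * 3 ≤ 3 * P * (Dl + 1) *
      (Real.exp (7 / 2 * v) + Real.exp v) := by
    have h10 : Real.exp v * 3 ≤ 3 * P * Real.exp v := by nlinarith
    have h11 : 0 ≤ P * Dl * Real.exp v := by positivity
    have h12 : 0 ≤ P * Real.exp (7 / 2 * v) := by positivity
    nlinarith
  rw [abs_le]
  constructor <;> linarith

/-- the weight of the derivative -/
noncomputable def qd (T P t : ℝ) : ℝ :=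
  Real.exp (-t) * (Nn P (t + Real.log (1 + 1 / T)) - Nn P t) ^ 2

lemma hT_le {T : ℝ} (hT : 10 ≤ T) : 0 < Real.log (1 + 1 / T) ∧ Real.log (1 + 1 / T) ≤ 1 / 10 ∧
    Real.exp (4 * Real.log (1 + 1 / T)) ≤ 2 := by
  have hT0 : 0 < T := by linarith
  have h1 : 1 / T ≤ 1 / 10 := one_div_le_one_div_of_le (by norm_num) hT
  have h2 : 0 < 1 / T := by positivity
  refine ⟨hT_pos hT0, ?_, ?_⟩
  · have := Real.log_le_sub_one_of_pos (show 0 < 1 + 1 / T by positivity)
    linarith
  · have e : Real.exp (4 * Real.log (1 + 1 / T)) = (1 + 1 / T) ^ 4 := by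
      have h3 : (4 : ℝ) * Real.log (1 + 1 / T) = ((4 : ℕ) : ℝ) * Real.log (1 + 1 / T) := by
        norm_num
      rw [h3, Real.exp_nat_mul, Real.exp_log (by positivity)]
    rw [e]
    have : (1 + 1 / T) ^ 4 ≤ (1 + 1 / 10 : ℝ) ^ 4 := by gcongr
    norm_num at this ⊢
    linarith

lemma dd_bd {T P : ℝ} (hT : 10 ≤ T) (hP : 10 ≤ P) (t : ℝ) :
    |Nn P (t + Real.log (1 + 1 / T)) - Nn P t| ≤ 9 * P * (Dl + 1) *
      (Real.exp (7 / 2 * t) + Real.exp t) := by
  obtain ⟨h1, h2, h3⟩ := hT_le hT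
  have hD := Dl_nonneg
  obtain ⟨h, hh⟩ : ∃ h : ℝ, h = Real.log (1 + 1 / T) := ⟨_, rfl⟩
  rw [← hh] at h1 h2 h3 ⊢
  have b1 := Nn_bd hP (t + h)
  have b2 := Nn_bd hP t
  have h4 : Real.exp (7 / 2 * (t + h)) ≤ 2 * Real.exp (7 / 2 * t) := by
    have : Real.exp (7 / 2 * (t + h)) = Real.exp (7 / 2 * h) * Real.exp (7 / 2 * t) := by
      rw [← Real.exp_add]; congr 1; ring
    rw [this]
    refine mul_le_mul_of_nonneg_right (le_trans (Real.exp_le_exp.2 ?_) h3) (Real.exp_pos _).le
    linarith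
  have h5 : Real.exp (t + h) ≤ 2 * Real.exp t := by
    rw [add_comm, Real.exp_add]
    refine mul_le_mul_of_nonneg_right (le_trans (Real.exp_le_exp.2 ?_) h3) (Real.exp_pos _).le
    linarith
  have h6 : 3 * P * (Dl + 1) * (Real.exp (7 / 2 * (t + h)) + Real.exp (t + h)) ≤
      3 * P * (Dl + 1) * (2 * (Real.exp (7 / 2 * t) + Real.exp t)) :=
    mul_le_mul_of_nonneg_left (by linarith) (by positivity)
  have h7 := abs_sub (Nn P (t + h)) (Nn P t)
  linarith

lemma qd_cont {T P : ℝ} (hP : 0 < P) : Continuous (qd T P) := by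
  have := Nn_cont hP
  unfold qd
  fun_prop

lemma qd_nonneg (T P t : ℝ) : 0 ≤ qd T P t := mul_nonneg (Real.exp_pos _).le (sq_nonneg _)

lemma qd_bd {T P : ℝ} (hT : 10 ≤ T) (hP : 10 ≤ P) (t : ℝ) : qd T P t ≤
    (162 * P ^ 2 * (Dl + 1) ^ 2) * (Real.exp t + Real.exp (6 * t)) := by
  have h1 := dd_bd hT hP t
  have hD := Dl_nonneg
  have h2 := pow_le_pow_left₀ (abs_nonneg _) h1 2
  rw [sq_abs] at h2
  unfold qd
  have h3 : Real.exp (-t) * (9 * P * (Dl + 1) * (Real.exp (7 / 2 * t) + Real.exp t)) ^ 2 ≤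
      (162 * P ^ 2 * (Dl + 1) ^ 2) * (Real.exp t + Real.exp (6 * t)) := by
    have e1 : (Real.exp (7 / 2 * t) + Real.exp t) ^ 2 ≤ 2 * (Real.exp (7 * t) +
        Real.exp (2 * t)) := by
      have e2 : Real.exp (7 * t) = Real.exp (7 / 2 * t) ^ 2 := by
        rw [← Real.exp_nat_mul]; congr 1; push_cast; ring
      have e3 : Real.exp (2 * t) = Real.exp t ^ 2 := by
        rw [← Real.exp_nat_mul]; congr 1
      rw [e2, e3]
      nlinarith [sq_nonneg (Real.exp (7 / 2 * t) - Real.exp t)]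
    have e4 : Real.exp (-t) * (2 * (Real.exp (7 * t) + Real.exp (2 * t))) =
        2 * (Real.exp t + Real.exp (6 * t)) := by
      have e5 : Real.exp (-t) * Real.exp (7 * t) = Real.exp (6 * t) := by
        rw [← Real.exp_add]; congr 1; ring
      have e6 : Real.exp (-t) * Real.exp (2 * t) = Real.exp t := by
        rw [← Real.exp_add]; congr 1; ring
      calc Real.exp (-t) * (2 * (Real.exp (7 * t) + Real.exp (2 * t))) =
            2 * (Real.exp (-t) * Real.exp (7 * t) + Real.exp (-t) * Real.exp (2 * t)) := by ring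
        _ = _ := by rw [e5, e6]; ring
    calc Real.exp (-t) * (9 * P * (Dl + 1) * (Real.exp (7 / 2 * t) + Real.exp t)) ^ 2 =
          81 * P ^ 2 * (Dl + 1) ^ 2 * (Real.exp (-t) *
            (Real.exp (7 / 2 * t) + Real.exp t) ^ 2) := by ring
      _ ≤ 81 * P ^ 2 * (Dl + 1) ^ 2 * (Real.exp (-t) *
            (2 * (Real.exp (7 * t) + Real.exp (2 * t)))) := by gcongr
      _ = _ := by rw [e4]; ring
  exact (mul_le_mul_of_nonneg_left h2 (Real.exp_pos _).le).trans h3

lemma SG_abs {T P : ℝ} (hT : 1 ≤ T) (hP : 0 < P) (u : ℝ) :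
    |SG T P u| ≤ 20 * Real.exp u * Real.exp (1 / (2 * P ^ 2)) := by
  obtain ⟨g1, g2⟩ := gk_exp hP (-1)
  have h1 : |SG T P u| ≤ ∫ w, gk P w * |Su T (u - w)| := by
    have h0 := norm_integral_le_integral_norm (μ := volume) (fun w => gk P w * Su T (u - w))
    rw [Real.norm_eq_abs] at h0
    refine h0.trans (le_of_eq ?_)
    refine integral_congr_ae (ae_of_all _ fun w => ?_)
    simp only
    rw [norm_mul, Real.norm_of_nonneg (gk_pos hP w).le, Real.norm_eq_abs]
  refine h1.trans ?_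
  have h2 : ∫ w, gk P w * |Su T (u - w)| ≤
      ∫ w, 20 * Real.exp u * (gk P w * Real.exp (-1 * w)) := by
    refine integral_mono ?_ (g1.const_mul _) fun w => ?_
    · refine (SG_int hT hP u).norm.congr (ae_of_all _ fun w => ?_)
      simp only
      rw [norm_mul, Real.norm_of_nonneg (gk_pos hP w).le, Real.norm_eq_abs]
    · have h3 := Su_le hT (u - w)
      have e : Real.exp (u - w) = Real.exp u * Real.exp (-1 * w) := by
        rw [← Real.exp_add]; congr 1; ring
      rw [e] at h3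
      show gk P w * |Su T (u - w)| ≤ 20 * Real.exp u * (gk P w * Real.exp (-1 * w))
      calc gk P w * |Su T (u - w)| ≤ gk P w * (20 * (Real.exp u * Real.exp (-1 * w))) :=
            mul_le_mul_of_nonneg_left h3 (gk_pos hP w).le
        _ = _ := by ring
  rw [integral_const_mul, g2] at h2
  have e2 : (-1 : ℝ) ^ 2 / (2 * P ^ 2) = 1 / (2 * P ^ 2) := by norm_num
  rwa [e2] at h2

lemma SG_gro {T P : ℝ} (hT : 1 ≤ T) (hP : 0 < P) : Gro (SG T P) :=
  ⟨20 * Real.exp (1 / (2 * P ^ 2)), 1, by positivity, by norm_num, fun t => by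
    refine (SG_abs hT hP t).trans ?_
    have h1 := Real.exp_le_exp.2 (show t ≤ 1 * |t| by
      have := le_abs_self t
      linarith)
    have h2 := mul_le_mul_of_nonneg_left h1
      (show 0 ≤ 20 * Real.exp (1 / (2 * P ^ 2)) by positivity)
    linarith⟩

/-- **the increment** -/
theorem incr {T Q : ℝ} (hT : 10 ≤ T) (hQ : 20 ≤ Q) (u : ℝ) :
    Q ^ 2 / 3 * (Real.exp (-u) * (SG T Q u - SG T (Q / 2) u) ^ 2) ≤
      ∫ w, gk (Q / Real.sqrt 3) w * (Real.exp (-w) * qd T Q (u - w)) := by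
  have hQ0 : 0 < Q := by linarith
  have hT1 : 1 ≤ T := by linarith
  have hs : 0 < Real.sqrt 3 := Real.sqrt_pos.2 (by norm_num)
  have hss : Real.sqrt 3 ^ 2 = 3 := Real.sq_sqrt (by norm_num)
  have hρ : 0 < Q / Real.sqrt 3 := by positivity
  have hρ2 : (Q / Real.sqrt 3) ^ 2 = Q ^ 2 / 3 := by rw [div_pow, hss]
  have hhalf : Q / Real.sqrt 3 * Q / Real.sqrt ((Q / Real.sqrt 3) ^ 2 + Q ^ 2) = Q / 2 := by
    have e : (Q / Real.sqrt 3) ^ 2 + Q ^ 2 = (2 * Q / Real.sqrt 3) ^ 2 := by
      rw [hρ2, div_pow, hss]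
      ring
    rw [e, Real.sqrt_sq (by positivity)]
    field_simp
  have hsemi := SG_semi hT1 hρ hQ0 u
  rw [hhalf] at hsemi
  have hfg : Gro fun t => Nn Q (t + Real.log (1 + 1 / T)) - Nn Q t := by
    have hD := Dl_nonneg
    refine ⟨18 * Q * (Dl + 1), 7 / 2, by positivity, by norm_num, fun t => ?_⟩
    refine (dd_bd hT (by linarith) t).trans ?_
    have h1 := Real.exp_le_exp.2 (show 7 / 2 * t ≤ 7 / 2 * |t| by
      have := le_abs_self t
      linarith)
    have h2 := Real.exp_le_exp.2 (show t ≤ 7 / 2 * |t| by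
      have := le_abs_self t
      have := abs_nonneg t
      linarith)
    have h3 := mul_le_mul_of_nonneg_left (add_le_add h1 h2)
      (show 0 ≤ 9 * Q * (Dl + 1) by positivity)
    linarith
  have hN := Nn_cont hQ0
  have hp := poincare hρ (F := SG T Q)
    (f := fun t => Nn Q (t + Real.log (1 + 1 / T)) - Nn Q t) (fun t => SG_deriv hT1 hQ0 t)
    (by fun_prop) hfg (SG_gro hT1 hQ0) u
  rw [hsemi, hρ2] at hp
  have h1 := mul_le_mul_of_nonneg_left hp
    (show 0 ≤ Q ^ 2 / 3 * Real.exp (-u) by positivity)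
  have e1 : Q ^ 2 / 3 * Real.exp (-u) * (1 / (Q ^ 2 / 3) * ∫ w, gk (Q / Real.sqrt 3) w *
      (Nn Q (u - w + Real.log (1 + 1 / T)) - Nn Q (u - w)) ^ 2) =
      ∫ w, Real.exp (-u) * (gk (Q / Real.sqrt 3) w *
      (Nn Q (u - w + Real.log (1 + 1 / T)) - Nn Q (u - w)) ^ 2) := by
    rw [integral_const_mul]
    field_simp
  rw [e1] at h1
  have e2 : ∫ w, Real.exp (-u) * (gk (Q / Real.sqrt 3) w *
      (Nn Q (u - w + Real.log (1 + 1 / T)) - Nn Q (u - w)) ^ 2) =
      ∫ w, gk (Q / Real.sqrt 3) w * (Real.exp (-w) * qd T Q (u - w)) := by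
    refine integral_congr_ae (ae_of_all _ fun w => ?_)
    simp only
    unfold qd
    have : Real.exp (-u) = Real.exp (-w) * Real.exp (-(u - w)) := by
      rw [← Real.exp_add]; congr 1; ring
    rw [this]
    ring
  rw [e2] at h1
  refine le_trans (le_of_eq ?_) h1
  ring

/-- the square of the Gaussian window -/
lemma Nn_sq {P : ℝ} (hP : 10 ≤ P) (t : ℝ) :
    Real.exp (-t) * Nn P t ^ 2 ≤ P ^ 2 * Vs P (t + 1 / (2 * P ^ 2)) ^ 2 := by
  have hP0 : 0 < P := by linarith
  have hpi := Real.pi_gt_three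
  unfold Nn
  rw [VV_eq hP0 (Real.exp_pos t), Real.log_exp, mul_pow, div_pow,
    Real.sq_sqrt (by positivity), mul_pow]
  have e1 : Real.exp (t / 2 + 1 / (8 * P ^ 2)) ^ 2 = Real.exp t * Real.exp (1 / (4 * P ^ 2)) := by
    rw [← Real.exp_nat_mul, ← Real.exp_add]
    congr 1
    push_cast
    field_simp
    ring
  rw [e1]
  have e2 : Real.exp (-t) * (P ^ 2 / (2 * Real.pi) * (Real.exp t * Real.exp (1 / (4 * P ^ 2)) *
      Vs P (t + 1 / (2 * P ^ 2)) ^ 2)) = (Real.exp (-t) * Real.exp t) *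
      (Real.exp (1 / (4 * P ^ 2)) / (2 * Real.pi) * (P ^ 2 * Vs P (t + 1 / (2 * P ^ 2)) ^ 2)) := by
    ring
  rw [e2, ← Real.exp_add, neg_add_cancel, Real.exp_zero, one_mul]
  have h1 : Real.exp (1 / (4 * P ^ 2)) / (2 * Real.pi) ≤ 1 := by
    rw [div_le_one (by positivity)]
    have h2 : 1 / (4 * P ^ 2) ≤ 1 := by
      rw [div_le_one (by positivity)]
      nlinarith
    have := Real.exp_one_lt_d9
    exact (Real.exp_le_exp.2 h2).trans (by linarith)
  have h3 : 0 ≤ P ^ 2 * Vs P (t + 1 / (2 * P ^ 2)) ^ 2 := by positivity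
  nlinarith

end Pool.Agent.NH10.SV
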