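import Pool.Agent.NH10.SV.Hc

/-! # The high frequencies -/

set_option autoImplicit false
set_option maxHeartbeats 4000000

open Filter Topology Set MeasureTheory ArithmeticFunction

namespace Pool.Agent.NH10.SV

open Pool.Agent.NH10.GM

lemma qd_int {T Q α β B : ℝ} (hT : 10 ≤ T) (hQ : 20 ≤ Q) (hL : 2 ≤ Real.log Q) (hα : 3 ≤ α)
    (hαβ : α ≤ β) (hβ : β ≤ B * Real.log Q) :
    ∫ t in (α - 1)..(β + 1), qd T Q t ≤
      6 * Q ^ 2 * ∫ u in (2 : ℝ)..((B + 1) * Real.log Q), Vs Q u ^ 2 := by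
  have hQ0 : 0 < Q := by linarith
  obtain ⟨h1, h2, h3⟩ := hT_le hT
  obtain ⟨h, hh⟩ : ∃ h : ℝ, h = Real.log (1 + 1 / T) := ⟨_, rfl⟩
  rw [← hh] at h1 h2 h3
  obtain ⟨d, hd⟩ : ∃ d : ℝ, d = 1 / (2 * Q ^ 2) := ⟨_, rfl⟩
  have hd0 : 0 < d := by rw [hd]; positivity
  have hd1 : d ≤ 1 / 2 := by
    rw [hd]
    apply one_div_le_one_div_of_le (by norm_num)
    nlinarith
  have c0 : Continuous fun u => Vs Q u ^ 2 := (Vs_cont hQ0).pow 2
  have hpt : ∀ t ∈ Icc (α - 1) (β + 1), qd T Q t ≤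
      4 * Q ^ 2 * Vs Q (t + (h + d)) ^ 2 + 2 * Q ^ 2 * Vs Q (t + d) ^ 2 := by
    intro t _
    have n1 := Nn_sq (show 10 ≤ Q by linarith) (t + h)
    have n2 := Nn_sq (show 10 ≤ Q by linarith) t
    rw [← hd] at n1 n2
    have e1 : t + h + d = t + (h + d) := by ring
    rw [e1] at n1
    have e2 : Real.exp (-t) = Real.exp h * Real.exp (-(t + h)) := by
      rw [← Real.exp_add]; congr 1; ring
    have h4 : Real.exp h ≤ 2 := le_trans (Real.exp_le_exp.2 (by linarith)) h3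
    have h5 : Real.exp (-t) * Nn Q (t + h) ^ 2 ≤ 2 * (Q ^ 2 * Vs Q (t + (h + d)) ^ 2) := by
      rw [e2, mul_assoc]
      exact mul_le_mul h4 n1 (by positivity) (by norm_num)
    have h6 : qd T Q t ≤ 2 * (Real.exp (-t) * Nn Q (t + h) ^ 2) +
        2 * (Real.exp (-t) * Nn Q t ^ 2) := by
      unfold qd
      rw [← hh]
      have h7 : (Nn Q (t + h) - Nn Q t) ^ 2 ≤ 2 * Nn Q (t + h) ^ 2 + 2 * Nn Q t ^ 2 := by
        nlinarith [sq_nonneg (Nn Q (t + h) + Nn Q t)]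
      have h8 := mul_le_mul_of_nonneg_left h7 (Real.exp_pos (-t)).le
      linarith
    linarith
  have hshift : ∀ c : ℝ, 0 ≤ c → c ≤ 1 → ∫ t in (α - 1)..(β + 1), Vs Q (t + c) ^ 2 ≤
      ∫ u in (2 : ℝ)..((B + 1) * Real.log Q), Vs Q u ^ 2 := by
    intro c hc0 hc1
    rw [intervalIntegral.integral_comp_add_right (fun u => Vs Q u ^ 2)]
    exact intervalIntegral.integral_mono_interval (by linarith) (by linarith) (by linarith)
      (ae_of_all _ fun u => sq_nonneg _) (c0.intervalIntegrable _ _)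
  have s1 := hshift (h + d) (by linarith) (by linarith)
  have s2 := hshift d (by linarith) (by linarith)
  have c1 : Continuous fun t => 4 * Q ^ 2 * Vs Q (t + (h + d)) ^ 2 := by
    have := Vs_cont hQ0
    fun_prop
  have c2 : Continuous fun t => 2 * Q ^ 2 * Vs Q (t + d) ^ 2 := by
    have := Vs_cont hQ0
    fun_prop
  have h5 : ∫ t in (α - 1)..(β + 1), qd T Q t ≤ ∫ t in (α - 1)..(β + 1),
      (4 * Q ^ 2 * Vs Q (t + (h + d)) ^ 2 + 2 * Q ^ 2 * Vs Q (t + d) ^ 2) :=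
    intervalIntegral.integral_mono_on (by linarith) ((qd_cont hQ0).intervalIntegrable _ _)
      ((c1.add c2).intervalIntegrable _ _) hpt
  rw [intervalIntegral.integral_add (c1.intervalIntegrable _ _) (c2.intervalIntegrable _ _),
    intervalIntegral.integral_const_mul, intervalIntegral.integral_const_mul] at h5
  have h6 := mul_le_mul_of_nonneg_left s1 (show 0 ≤ 4 * Q ^ 2 by positivity)
  have h7 := mul_le_mul_of_nonneg_left s2 (show 0 ≤ 2 * Q ^ 2 by positivity)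
  linarith

/-- **one step** -/
theorem step (RH : RiemannHypothesis) {B : ℝ} (hB : 1 ≤ B) : ∃ C : ℝ, 0 < C ∧
    ∀ᶠ Q in atTop, ∀ T : ℝ, 10 ≤ T → ∀ α β : ℝ, 3 ≤ α → α ≤ β → β ≤ B * Real.log Q →
    ∫ u in α..β, Real.exp (-u) * (SG T Q u - SG T (Q / 2) u) ^ 2 ≤
      C * (Real.log Q ^ 2 / Q) := by
  obtain ⟨K, hK, hU⟩ := UB RH (show 1 ≤ B + 1 by linarith)
  have hD := Dl_nonneg
  refine ⟨54 * K + 1, by positivity, ?_⟩
  have t1 := (tendsto_rpow_mul_exp_neg_mul_atTop_nhds_zero (6 * B + 2) 1 one_pos).const_mul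
    (5832 * (Dl + 1) ^ 2 * B)
  rw [mul_zero] at t1
  filter_upwards [hU, t1.eventually (gt_mem_nhds (show (0 : ℝ) < 1 by norm_num)),
    eventually_ge_atTop 20, Real.tendsto_log_atTop.eventually_ge_atTop 2]
    with Q hU ht hQ hL T hT α β hα hαβ hβ
  have hQ0 : 0 < Q := by linarith
  obtain ⟨F, hF⟩ : ∃ F : ℝ, F = ∫ u in α..β,
    Real.exp (-u) * (SG T Q u - SG T (Q / 2) u) ^ 2 := ⟨_, rfl⟩
  rw [← hF]
  have hs : 0 < Real.sqrt 3 := Real.sqrt_pos.2 (by norm_num)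
  have hss : Real.sqrt 3 ^ 2 = 3 := Real.sq_sqrt (by norm_num)
  have hs2 : Real.sqrt 3 ≤ 2 := by
    rw [Real.sqrt_le_left (by norm_num)]
    norm_num
  have hρ : 7 ≤ Q / Real.sqrt 3 := by
    rw [le_div_iff₀ hs]
    linarith
  have hρ2 : (Q / Real.sqrt 3) ^ 2 = Q ^ 2 / 3 := by rw [div_pow, hss]
  have hcS1 := SG_cont (show 1 ≤ T by linarith) hQ0
  have hcS2 := SG_cont (show 1 ≤ T by linarith) (show 0 < Q / 2 by linarith)
  have hw := win_gen (ρ := Q / Real.sqrt 3) (ω := 1) (α := α) (β := β)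
    (K := 162 * Q ^ 2 * (Dl + 1) ^ 2) (q := qd T Q)
    (f := fun u => Q ^ 2 / 3 * (Real.exp (-u) * (SG T Q u - SG T (Q / 2) u) ^ 2))
    hρ zero_le_one hαβ (by positivity) (qd_cont hQ0) (qd_nonneg T Q)
    (qd_bd hT (by linarith)) (by fun_prop) (incr hT hQ)
  rw [intervalIntegral.integral_const_mul, ← hF, hρ2] at hw
  have hI := qd_int hT hQ hL hα hαβ hβ
  have h1 : Real.exp 1 * (∫ t in (α - 1)..(β + 1), qd T Q t) ≤
      3 * (6 * Q ^ 2 * (K * (Real.log Q ^ 2 / Q))) := by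
    have h2 : ∫ t in (α - 1)..(β + 1), qd T Q t ≤ 6 * Q ^ 2 * (K * (Real.log Q ^ 2 / Q)) :=
      hI.trans (mul_le_mul_of_nonneg_left hU (by positivity))
    have h3 : 0 ≤ ∫ t in (α - 1)..(β + 1), qd T Q t :=
      intervalIntegral.integral_nonneg (by linarith) fun t _ => qd_nonneg T Q t
    have := Real.exp_one_lt_d9
    exact mul_le_mul (by linarith) h2 h3 (by norm_num)
  have h2 : (β - α) * (6 * (162 * Q ^ 2 * (Dl + 1) ^ 2) *
      Real.exp (-(Q ^ 2 / 3 * 1 ^ 2 / 4)) * (Real.exp β + Real.exp (6 * β))) ≤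
      Q ^ 2 / 3 * (Real.log Q ^ 2 / Q) := by
    have e1 : Real.exp (-(Q ^ 2 / 3 * 1 ^ 2 / 4)) ≤ Real.exp (-1 * Q) := by
      apply Real.exp_le_exp.2
      nlinarith
    have e2 : Real.exp β ≤ Q ^ (6 * B) := by
      rw [Real.rpow_def_of_pos hQ0]
      apply Real.exp_le_exp.2
      nlinarith
    have e3 : Real.exp (6 * β) ≤ Q ^ (6 * B) := by
      rw [Real.rpow_def_of_pos hQ0]
      apply Real.exp_le_exp.2
      nlinarith
    have e4 : β - α ≤ B * Q := by
      have := Real.log_le_sub_one_of_pos hQ0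
      nlinarith
    have e5 : Q ^ (6 * B + 2) = Q ^ (6 * B) * Q ^ 2 := by
      rw [Real.rpow_add hQ0]
      norm_num
    have hp : 0 < Q ^ (6 * B) := Real.rpow_pos_of_pos hQ0 _
    have h3 : (β - α) * (6 * (162 * Q ^ 2 * (Dl + 1) ^ 2) *
        Real.exp (-(Q ^ 2 / 3 * 1 ^ 2 / 4)) * (Real.exp β + Real.exp (6 * β))) ≤
        (B * Q) * (6 * (162 * Q ^ 2 * (Dl + 1) ^ 2) *
        Real.exp (-1 * Q) * (Q ^ (6 * B) + Q ^ (6 * B))) := by
      gcongr
    refine h3.trans ?_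
    rw [e5] at ht
    have h4 : (B * Q) * (6 * (162 * Q ^ 2 * (Dl + 1) ^ 2) *
        Real.exp (-1 * Q) * (Q ^ (6 * B) + Q ^ (6 * B))) =
        Q / 3 * (5832 * (Dl + 1) ^ 2 * B * (Q ^ (6 * B) * Q ^ 2 * Real.exp (-1 * Q))) := by ring
    rw [h4]
    have h5 : Q ^ 2 / 3 * (Real.log Q ^ 2 / Q) = Q / 3 * Real.log Q ^ 2 := by field_simp
    rw [h5]
    refine mul_le_mul_of_nonneg_left (ht.le.trans ?_) (by positivity)
    nlinarith
  have h3 : Q ^ 2 / 3 * F ≤ Q ^ 2 / 3 * ((54 * K + 1) * (Real.log Q ^ 2 / Q)) := by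
    have e : Q ^ 2 / 3 * ((54 * K + 1) * (Real.log Q ^ 2 / Q)) =
        3 * (6 * Q ^ 2 * (K * (Real.log Q ^ 2 / Q))) + Q ^ 2 / 3 * (Real.log Q ^ 2 / Q) := by
      ring
    rw [e]
    linarith
  exact le_of_mul_le_mul_left h3 (by positivity)

/-- the constant of the summation -/
noncomputable def Ct : ℝ := ∑' k : ℕ, (2 / 3 : ℝ) ^ k * ((k : ℝ) + 2) ^ 2

lemma Ct_sum : Summable fun k : ℕ => (2 / 3 : ℝ) ^ k * ((k : ℝ) + 2) ^ 2 := by
  have h2 := summable_pow_mul_geometric_of_norm_lt_one 2 (r := (2 / 3 : ℝ)) (by norm_num)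
  have h1 := summable_pow_mul_geometric_of_norm_lt_one 1 (r := (2 / 3 : ℝ)) (by norm_num)
  have h0 := summable_pow_mul_geometric_of_norm_lt_one 0 (r := (2 / 3 : ℝ)) (by norm_num)
  have h := (h2.add (h1.mul_left 4)).add (h0.mul_left 4)
  refine h.congr fun k => ?_
  ring

lemma Ct_nonneg : 0 ≤ Ct := tsum_nonneg fun k => by positivity

/-- **telescoping** -/
theorem tele (RH : RiemannHypothesis) {B : ℝ} (hB : 1 ≤ B) : ∃ C : ℝ, 0 < C ∧
    ∀ᶠ P in atTop, ∀ T : ℝ, 10 ≤ T → ∀ α β : ℝ, 3 ≤ α → α ≤ β → β ≤ B * Real.log P →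
    ∀ K : ℕ, ∫ u in α..β, Real.exp (-u) * (SG T (2 ^ K * P) u - SG T P u) ^ 2 ≤
      C * (Real.log P ^ 2 / P) := by
  obtain ⟨C, hC, hS⟩ := step RH hB
  have hCt := Ct_nonneg
  refine ⟨2 * C * Ct + 1, by positivity, ?_⟩
  rw [eventually_atTop] at hS
  obtain ⟨Q₀, hS⟩ := hS
  filter_upwards [eventually_ge_atTop Q₀, eventually_ge_atTop 10,
    Real.tendsto_log_atTop.eventually_ge_atTop 1] with P hPQ hP hL T hT α β hα hαβ hβ K
  have hP0 : 0 < P := by linarith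
  have hT1 : 1 ≤ T := by linarith
  obtain ⟨D, hD⟩ : ∃ D : ℕ → ℝ → ℝ, D = fun k u => SG T (2 ^ (k + 1) * P) u -
    SG T (2 ^ k * P) u := ⟨_, rfl⟩
  have hDc : ∀ k, Continuous (D k) := by
    intro k
    rw [hD]
    exact (SG_cont hT1 (by positivity)).sub (SG_cont hT1 (by positivity))
  have hsum : ∀ u, SG T (2 ^ K * P) u - SG T P u = ∑ k ∈ Finset.range K, D k u := by
    intro u
    rw [hD]
    have := Finset.sum_range_sub (fun k => SG T (2 ^ k * P) u) K
    rw [this]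
    simp
  have hw : ∑ k ∈ Finset.range K, (3 / 4 : ℝ) ^ k ≤ 4 := by
    have h1 := Summable.sum_le_tsum (Finset.range K) (f := fun k : ℕ => (3 / 4 : ℝ) ^ k)
      (fun k _ => by positivity) (summable_geometric_of_lt_one (by norm_num) (by norm_num))
    rw [tsum_geometric_of_lt_one (by norm_num) (by norm_num)] at h1
    norm_num at h1 ⊢
    exact h1
  have hcs : ∀ u, (∑ k ∈ Finset.range K, D k u) ^ 2 ≤
      4 * ∑ k ∈ Finset.range K, (4 / 3 : ℝ) ^ k * D k u ^ 2 := by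
    intro u
    have h1 := Finset.sum_sq_le_sum_mul_sum_of_sq_le_mul (Finset.range K)
      (f := fun k => (3 / 4 : ℝ) ^ k) (g := fun k => (4 / 3 : ℝ) ^ k * D k u ^ 2)
      (r := fun k => D k u) (fun k _ => by positivity) (fun k _ => by positivity)
      (fun k _ => by
        rw [← mul_assoc, ← mul_pow]
        norm_num)
    refine h1.trans (mul_le_mul_of_nonneg_right hw ?_)
    exact Finset.sum_nonneg fun k _ => by positivity
  have hterm : ∀ k : ℕ, ∫ u in α..β, Real.exp (-u) * D k u ^ 2 ≤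
      C * (((k : ℝ) + 2) ^ 2 * Real.log P ^ 2 / (2 ^ (k + 1) * P)) := by
    intro k
    have hpow : (1 : ℝ) ≤ 2 ^ (k + 1) := one_le_pow₀ (by norm_num)
    have hQP : P ≤ 2 ^ (k + 1) * P := by nlinarith
    have hβ' : β ≤ B * Real.log (2 ^ (k + 1) * P) := by
      refine hβ.trans (mul_le_mul_of_nonneg_left ?_ (by linarith))
      exact Real.log_le_log hP0 hQP
    have h1 := hS (2 ^ (k + 1) * P) (hPQ.trans hQP) T hT α β hα hαβ hβ'
    have e1 : (2 : ℝ) ^ (k + 1) * P / 2 = 2 ^ k * P := by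
      rw [pow_succ]
      ring
    rw [e1] at h1
    have e2 : ∀ u, Real.exp (-u) * (SG T (2 ^ (k + 1) * P) u - SG T (2 ^ k * P) u) ^ 2 =
        Real.exp (-u) * D k u ^ 2 := by
      intro u
      rw [hD]
    simp_rw [e2] at h1
    refine h1.trans (mul_le_mul_of_nonneg_left ?_ hC.le)
    refine div_le_div_of_nonneg_right ?_ (by positivity)
    rw [← mul_pow]
    refine pow_le_pow_left₀ (Real.log_nonneg (by linarith)) ?_ 2
    rw [Real.log_mul (by positivity) hP0.ne', Real.log_pow]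
    have h2 : Real.log 2 ≤ 1 := by
      have := Real.log_two_lt_d9
      linarith
    have h3 : (((k + 1 : ℕ) : ℝ)) * Real.log 2 ≤ ((k : ℝ) + 1) * Real.log P := by
      push_cast
      refine mul_le_mul_of_nonneg_left (by linarith) (by positivity)
    linarith
  have c1 : ∀ k, Continuous fun u => Real.exp (-u) * D k u ^ 2 := fun k => by
    have := hDc k
    fun_prop
  have h1 : ∫ u in α..β, Real.exp (-u) * (SG T (2 ^ K * P) u - SG T P u) ^ 2 ≤
      ∫ u in α..β, 4 * ∑ k ∈ Finset.range K, (4 / 3 : ℝ) ^ k * (Real.exp (-u) * D k u ^ 2) := by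
    have cS1 := SG_cont hT1 (show 0 < 2 ^ K * P by positivity)
    have cS2 := SG_cont hT1 hP0
    refine intervalIntegral.integral_mono_on hαβ (Continuous.intervalIntegrable (by fun_prop) _ _)
      (Continuous.intervalIntegrable (continuous_const.mul (continuous_finsetSum _ fun k _ =>
        continuous_const.mul (c1 k))) _ _) fun u _ => ?_
    rw [hsum]
    refine (mul_le_mul_of_nonneg_left (hcs u) (Real.exp_pos (-u)).le).trans (le_of_eq ?_)
    rw [Finset.mul_sum, Finset.mul_sum, Finset.mul_sum]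
    refine Finset.sum_congr rfl fun k _ => ?_
    ring
  refine h1.trans ?_
  have i1 : ∀ k ∈ Finset.range K, IntervalIntegrable
      (fun u => (4 / 3 : ℝ) ^ k * (Real.exp (-u) * D k u ^ 2)) volume α β := fun k _ =>
    (continuous_const.mul (c1 k)).intervalIntegrable _ _
  rw [intervalIntegral.integral_const_mul, intervalIntegral.integral_finsetSum i1]
  simp_rw [intervalIntegral.integral_const_mul]
  have h2 : ∑ k ∈ Finset.range K, (4 / 3 : ℝ) ^ k * (∫ u in α..β, Real.exp (-u) * D k u ^ 2) ≤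
      ∑ k ∈ Finset.range K, (C * (Real.log P ^ 2 / P) / 2) *
        ((2 / 3 : ℝ) ^ k * ((k : ℝ) + 2) ^ 2) := by
    refine Finset.sum_le_sum fun k _ => ?_
    refine (mul_le_mul_of_nonneg_left (hterm k) (by positivity)).trans (le_of_eq ?_)
    have e : (2 / 3 : ℝ) ^ k = (4 / 3 : ℝ) ^ k / 2 ^ k := by
      rw [← div_pow]
      norm_num
    rw [e]
    field_simp
    ring
  rw [← Finset.mul_sum] at h2
  have h3 := Summable.sum_le_tsum (Finset.range K)
    (f := fun k : ℕ => (2 / 3 : ℝ) ^ k * ((k : ℝ) + 2) ^ 2) (fun k _ => by positivity) Ct_sum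
  have h4 : 0 ≤ C * (Real.log P ^ 2 / P) / 2 := by positivity
  have h5 := mul_le_mul_of_nonneg_left h3 h4
  have h6 : C * (Real.log P ^ 2 / P) / 2 * Ct = C * (Real.log P ^ 2 / P) / 2 *
    ∑' k : ℕ, (2 / 3 : ℝ) ^ k * ((k : ℝ) + 2) ^ 2 := rfl
  have h7 : (2 * C * Ct + 1) * (Real.log P ^ 2 / P) =
    4 * (C * (Real.log P ^ 2 / P) / 2 * Ct) + Real.log P ^ 2 / P := by ring
  have h8 : 0 ≤ Real.log P ^ 2 / P := by positivity
  rw [h7]
  linarith

end Pool.Agent.NH10.SV
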