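import Pool.Agent.NH10.SV.Hd
import Pool.Agent.NH10.SV.Pf

/-! # From the pair sums to the sharp windows -/

set_option autoImplicit false
set_option maxHeartbeats 4000000

open Filter Topology Set MeasureTheory ArithmeticFunction

namespace Pool.Agent.NH10.SV

open Pool.Agent.Y749.Rig hiding PT
open Pool.Agent.NH10.GM

lemma Su_ae {T : ℝ} (hT : 0 < T) : ∀ᵐ u : ℝ, ContinuousAt (Su T) u := by
  have m1 : Monotone fun u : ℝ => Chebyshev.psi (Real.exp u + Real.exp u / T) := by
    intro u v huv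
    apply Chebyshev.psi_mono
    have := Real.exp_le_exp.2 huv
    have h2 : Real.exp u / T ≤ Real.exp v / T := div_le_div_of_nonneg_right this hT.le
    linarith
  have m2 : Monotone fun u : ℝ => Chebyshev.psi (Real.exp u) := fun u v huv =>
    Chebyshev.psi_mono (Real.exp_le_exp.2 huv)
  have h1 := m1.countable_not_continuousAt.ae_notMem volume
  have h2 := m2.countable_not_continuousAt.ae_notMem volume
  filter_upwards [h1, h2] with u u1 u2
  simp only [mem_setOf_eq, not_not] at u1 u2
  have h3 : ContinuousAt (fun u : ℝ => Real.exp u / T) u := by fun_prop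
  exact (u1.sub u2).sub h3

lemma SG_scale {T P : ℝ} (hP : 0 < P) (u : ℝ) :
    SG T P u = ∫ z, gk 1 z * Su T (u - P⁻¹ * z) := by
  have h1 := Measure.integral_comp_mul_left (fun w => gk P w * Su T (u - w)) P⁻¹
  have e : |(P⁻¹)⁻¹| = P := by rw [inv_inv, abs_of_pos hP]
  rw [e, smul_eq_mul] at h1
  have h2 : SG T P u = P⁻¹ * ∫ x, gk P (P⁻¹ * x) * Su T (u - P⁻¹ * x) := by
    rw [h1]
    unfold SG
    field_simp
  rw [h2, ← integral_const_mul]
  refine integral_congr_ae (ae_of_all _ fun z => ?_)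
  simp only
  have e2 : P⁻¹ * gk P (P⁻¹ * z) = gk 1 z := by
    unfold gk
    have e3 : -(P ^ 2 / 2) * (P⁻¹ * z) ^ 2 = -(1 ^ 2 / 2) * z ^ 2 := by
      field_simp
    rw [e3]
    field_simp
  rw [← mul_assoc, e2]

lemma SG_tendsto {T u : ℝ} (hT : 1 ≤ T) (hu : ContinuousAt (Su T) u) :
    Tendsto (fun P => SG T P u) atTop (𝓝 (Su T u)) := by
  obtain ⟨g1, g2⟩ := gk_int one_pos
  have e : Su T u = ∫ z, gk 1 z * Su T u := by rw [integral_mul_const, g2, one_mul]
  rw [e]
  have hI : Integrable fun z => 20 * Real.exp u *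
      (gk 1 z * Real.exp (1 * z) + gk 1 z * Real.exp (-1 * z)) :=
    ((gk_exp one_pos 1).1.add (gk_exp one_pos (-1)).1).const_mul _
  have key : Tendsto (fun P => ∫ z, gk 1 z * Su T (u - P⁻¹ * z)) atTop
      (𝓝 (∫ z, gk 1 z * Su T u)) := by
    refine tendsto_integral_filter_of_dominated_convergence _ ?_ ?_ hI ?_
    · refine Eventually.of_forall fun P => ?_
      exact ((gk_cont 1).measurable.mul ((Su_meas T).comp (by fun_prop))).aestronglyMeasurable
    · filter_upwards [eventually_ge_atTop 1] with P hP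
      refine ae_of_all _ fun z => ?_
      rw [norm_mul, Real.norm_of_nonneg (gk_pos one_pos z).le, Real.norm_eq_abs]
      have h1 := Su_le hT (u - P⁻¹ * z)
      have h2 : Real.exp (u - P⁻¹ * z) ≤ Real.exp u * (Real.exp (1 * z) + Real.exp (-1 * z)) := by
        have h3 : Real.exp (u - P⁻¹ * z) ≤ Real.exp u * Real.exp |z| := by
          rw [← Real.exp_add]
          apply Real.exp_le_exp.2
          have h4 : P⁻¹ ≤ 1 := inv_le_one_of_one_le₀ hP
          have h5 : 0 < P⁻¹ := by positivity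
          have h6 := neg_abs_le z
          have h7 : P⁻¹ * |z| ≤ |z| := by
            have := abs_nonneg z
            nlinarith
          have h8 : -(P⁻¹ * z) ≤ P⁻¹ * |z| := by nlinarith
          linarith
        refine h3.trans (mul_le_mul_of_nonneg_left ?_ (Real.exp_pos _).le)
        rcases abs_choice z with h | h
        · rw [h, one_mul]
          have := Real.exp_pos (-1 * z)
          linarith
        · rw [h]
          have e : -z = -1 * z := by ring
          rw [e]
          have := Real.exp_pos (1 * z)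
          linarith
      have hg := (gk_pos one_pos z).le
      calc gk 1 z * |Su T (u - P⁻¹ * z)| ≤ gk 1 z *
            (20 * (Real.exp u * (Real.exp (1 * z) + Real.exp (-1 * z)))) :=
            mul_le_mul_of_nonneg_left (h1.trans (by linarith)) hg
        _ = _ := by ring
    · refine ae_of_all _ fun z => ?_
      have h1 : Tendsto (fun P : ℝ => u - P⁻¹ * z) atTop (𝓝 u) := by
        have h2 := (tendsto_inv_atTop_zero (𝕜 := ℝ)).mul_const z
        rw [zero_mul] at h2
        have h3 := h2.const_sub u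
        rwa [sub_zero] at h3
      exact (hu.tendsto.comp h1).const_mul (gk 1 z)
  refine key.congr' ?_
  filter_upwards [eventually_gt_atTop 0] with P hP
  exact (SG_scale hP u).symm

/-- **the high frequencies** -/
theorem high (RH : RiemannHypothesis) {B : ℝ} (hB : 1 ≤ B) : ∃ C : ℝ, 0 < C ∧
    ∀ᶠ P in atTop, ∀ T : ℝ, 10 ≤ T → ∀ α β : ℝ, 3 ≤ α → α ≤ β → β ≤ B * Real.log P →
    ∫ u in α..β, Real.exp (-u) * (Su T u - SG T P u) ^ 2 ≤ C * (Real.log P ^ 2 / P) := by
  obtain ⟨C, hC, hS⟩ := tele RH hB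
  refine ⟨C, hC, ?_⟩
  filter_upwards [hS, eventually_ge_atTop 10] with P h hP T hT α β hα hαβ hβ
  have hP0 : 0 < P := by linarith
  have hT1 : 1 ≤ T := by linarith
  have hpow : Tendsto (fun K : ℕ => (2 : ℝ) ^ K * P) atTop atTop :=
    (tendsto_pow_atTop_atTop_of_one_lt (by norm_num)).atTop_mul_const hP0
  have key : Tendsto (fun K : ℕ => ∫ u in α..β,
      Real.exp (-u) * (SG T (2 ^ K * P) u - SG T P u) ^ 2) atTop
      (𝓝 (∫ u in α..β, Real.exp (-u) * (Su T u - SG T P u) ^ 2)) := by
    refine intervalIntegral.tendsto_integral_filter_of_dominated_convergence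
      (fun _ => (120 * Real.exp β) ^ 2) ?_ ?_ (by simp) ?_
    · refine Eventually.of_forall fun K => ?_
      have c1 := SG_cont hT1 (show 0 < (2 : ℝ) ^ K * P by positivity)
      have c2 := SG_cont hT1 hP0
      exact Continuous.aestronglyMeasurable (by fun_prop)
    · refine Eventually.of_forall fun K => ae_of_all _ fun u hu => ?_
      rw [uIoc_of_le hαβ] at hu
      have hK : (1 : ℝ) ≤ 2 ^ K := one_le_pow₀ (by norm_num)
      have hKP : 10 ≤ 2 ^ K * P := by nlinarith
      have h3 : ∀ Q : ℝ, 10 ≤ Q → |SG T Q u| ≤ 60 * Real.exp β := by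
        intro Q hQ
        refine (SG_abs hT1 (by linarith) u).trans ?_
        have h4 : Real.exp (1 / (2 * Q ^ 2)) ≤ 3 := by
          have h1 : 1 / (2 * Q ^ 2) ≤ 1 := by
            rw [div_le_one (by positivity)]
            nlinarith
          have := Real.exp_one_lt_d9
          exact (Real.exp_le_exp.2 h1).trans (by linarith)
        have h5 : Real.exp u ≤ Real.exp β := Real.exp_le_exp.2 hu.2
        calc 20 * Real.exp u * Real.exp (1 / (2 * Q ^ 2)) ≤ 20 * Real.exp β * 3 := by gcongr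
          _ = _ := by ring
      have h6 : |SG T (2 ^ K * P) u - SG T P u| ≤ 120 * Real.exp β := by
        have h7 := abs_sub (SG T (2 ^ K * P) u) (SG T P u)
        have h8 := h3 _ hKP
        have h9 := h3 P hP
        linarith
      rw [Real.norm_of_nonneg (by positivity)]
      have h10 : Real.exp (-u) ≤ 1 := by
        rw [Real.exp_le_one_iff]
        linarith [hu.1]
      have h11 : (SG T (2 ^ K * P) u - SG T P u) ^ 2 ≤ (120 * Real.exp β) ^ 2 := by
        rw [← sq_abs]
        exact pow_le_pow_left₀ (abs_nonneg _) h6 2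
      calc Real.exp (-u) * (SG T (2 ^ K * P) u - SG T P u) ^ 2 ≤
            1 * (120 * Real.exp β) ^ 2 := mul_le_mul h10 h11 (sq_nonneg _) zero_le_one
        _ = _ := one_mul _
    · filter_upwards [Su_ae (show 0 < T by linarith)] with u hu _
      have h1 := (SG_tendsto hT1 hu).comp hpow
      exact ((h1.sub_const (SG T P u)).pow 2).const_mul _
  exact le_of_tendsto' key fun K => h T hT α β hα hαβ hβ K

lemma Pf_atTop : Tendsto Pf atTop atTop := by
  refine tendsto_atTop_mono' _ ?_ tendsto_id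
  filter_upwards [eventually_ge_atTop 10] with T hT
  exact (Pf_facts hT).1

lemma high_Pf (RH : RiemannHypothesis) {a b : ℝ} (ha : 0 < a) (hab : a ≤ b) {ε : ℝ} (hε : 0 < ε) :
    ∀ᶠ T in atTop, T / Real.log T ^ 2 * (∫ u in (a * Real.log T)..(b * Real.log T),
      Real.exp (-u) * (Su T u - SG T (Pf T) u) ^ 2) ≤ ε := by
  obtain ⟨C, hC, hH⟩ := high RH (show 1 ≤ max 1 b from le_max_left _ _)
  have t1 : Tendsto (fun T : ℝ => 4 * C / Real.sqrt (Real.log T)) atTop (𝓝 0) :=
    Tendsto.div_atTop tendsto_const_nhds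
      (Real.tendsto_sqrt_atTop.comp Real.tendsto_log_atTop)
  filter_upwards [Pf_atTop.eventually hH, t1.eventually (gt_mem_nhds hε),
    eventually_ge_atTop 10, Real.tendsto_log_atTop.eventually_ge_atTop (3 / a)]
    with T h1 h2 hT hLa
  have hT0 : 0 < T := by linarith
  have hL := one_lt_log (show 3 ≤ T by linarith)
  have hL0 : 0 < Real.log T := by linarith
  obtain ⟨p1, p2, p3⟩ := Pf_facts hT
  have hP0 : 0 < Pf T := by linarith
  have hLP : Real.log T ≤ Real.log (Pf T) := Real.log_le_log hT0 p1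
  rw [div_le_iff₀ ha] at hLa
  have h3 := h1 T hT (a * Real.log T) (b * Real.log T) (by linarith)
    (mul_le_mul_of_nonneg_right hab hL0.le)
    (mul_le_mul (le_max_right 1 b) hLP hL0.le (by
      have := le_max_left 1 b
      linarith))
  have hTL : 0 ≤ T / Real.log T ^ 2 := by positivity
  refine (mul_le_mul_of_nonneg_left h3 hTL).trans (le_trans ?_ h2.le)
  have h4 : Real.log (Pf T) ^ 2 ≤ (2 * Real.log T) ^ 2 :=
    pow_le_pow_left₀ (by linarith) p2 2
  have hs : 0 < Real.sqrt (Real.log T) := Real.sqrt_pos.2 hL0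
  calc T / Real.log T ^ 2 * (C * (Real.log (Pf T) ^ 2 / Pf T)) ≤
        T / Real.log T ^ 2 * (C * ((2 * Real.log T) ^ 2 / Pf T)) := by gcongr
    _ = 4 * C / Real.sqrt (Real.log T) := by
        unfold Pf
        field_simp
        norm_num

/-- the two mean squares -/
lemma Js_Wn (RH : RiemannHypothesis) {a b : ℝ} (ha : 0 < a) (hab : a ≤ b) {η ε : ℝ} (hη : 0 < η)
    (hε : 0 < ε) : ∀ᶠ T in atTop,
      Js T a b ≤ (1 + η) * (∫ α in a..b, Wn T (Pf T) α) + ε ∧
      (∫ α in a..b, Wn T (Pf T) α) ≤ (1 + η) * Js T a b + ε := by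
  have hη' : 0 < 1 + 1 / η := by positivity
  filter_upwards [high_Pf RH ha hab (show 0 < ε / (1 + 1 / η) by positivity),
    eventually_ge_atTop 10] with T h1 hT
  have hT0 : 0 < T := by linarith
  have hT1 : 1 < T := by linarith
  have hL := one_lt_log (show 3 ≤ T by linarith)
  have hL0 : 0 < Real.log T := by linarith
  obtain ⟨p1, p2, p3⟩ := Pf_facts hT
  have hP0 : 0 < Pf T := by linarith
  have hαβ := mul_le_mul_of_nonneg_right hab hL0.le
  obtain ⟨α, hα⟩ : ∃ α : ℝ, α = a * Real.log T := ⟨_, rfl⟩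
  obtain ⟨β, hβ⟩ : ∃ β : ℝ, β = b * Real.log T := ⟨_, rfl⟩
  rw [Wn_int hT1, Js_JQ hT1 hab]
  unfold JQ
  rw [← hα, ← hβ] at h1 hαβ ⊢
  have hTL : 0 ≤ T / Real.log T ^ 2 := by positivity
  have cS := SG_cont hT1.le hP0
  have cW : Continuous fun u => Real.exp (-u) * SG T (Pf T) u ^ 2 := by fun_prop
  have iW : IntervalIntegrable (fun u => Real.exp (-u) * SG T (Pf T) u ^ 2) volume α β :=
    cW.intervalIntegrable _ _
  have iQ : IntervalIntegrable (fun u => Qu T u) volume α β := Qu_ii hT1.le _ _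
  have iD : IntervalIntegrable (fun u => Real.exp (-u) * (Su T u - SG T (Pf T) u) ^ 2)
      volume α β := by
    have h2 : IntervalIntegrable (fun u => 2 * Qu T u +
        2 * (Real.exp (-u) * SG T (Pf T) u ^ 2)) volume α β := (iQ.const_mul 2).add (iW.const_mul 2)
    refine h2.mono_fun' ?_ ?_
    · have m1 := Su_meas T
      have m2 := cS.measurable
      exact Measurable.aestronglyMeasurable (by fun_prop)
    · refine ae_of_all _ fun u => ?_
      simp only
      rw [Real.norm_of_nonneg (by positivity)]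
      unfold Qu
      have h3 : (Su T u - SG T (Pf T) u) ^ 2 ≤ 2 * Su T u ^ 2 + 2 * SG T (Pf T) u ^ 2 := by
        nlinarith [sq_nonneg (Su T u + SG T (Pf T) u)]
      have h4 := mul_le_mul_of_nonneg_left h3 (Real.exp_pos (-u)).le
      linarith
  have hmain : T / Real.log T ^ 2 * ((1 + 1 / η) * ∫ u in α..β,
      Real.exp (-u) * (Su T u - SG T (Pf T) u) ^ 2) ≤ ε := by
    have h2 := mul_le_mul_of_nonneg_left h1 hη'.le
    have h3 : (1 + 1 / η) * (ε / (1 + 1 / η)) = ε := by field_simp
    rw [h3] at h2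
    linarith
  have hsq : ∀ x y : ℝ, x ^ 2 ≤ (1 + η) * y ^ 2 + (1 + 1 / η) * (x - y) ^ 2 := by
    intro x y
    have h2 : 0 ≤ (η * y - (x - y)) ^ 2 / η := by positivity
    have h3 : (1 + η) * y ^ 2 + (1 + 1 / η) * (x - y) ^ 2 - x ^ 2 =
        (η * y - (x - y)) ^ 2 / η := by
      field_simp
      ring
    linarith
  constructor
  · have h2 : ∫ u in α..β, Qu T u ≤ ∫ u in α..β,
        ((1 + η) * (Real.exp (-u) * SG T (Pf T) u ^ 2) +
        (1 + 1 / η) * (Real.exp (-u) * (Su T u - SG T (Pf T) u) ^ 2)) := by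
      refine intervalIntegral.integral_mono_on hαβ iQ ((iW.const_mul _).add (iD.const_mul _))
        fun u _ => ?_
      unfold Qu
      have h3 := mul_le_mul_of_nonneg_left (hsq (Su T u) (SG T (Pf T) u)) (Real.exp_pos (-u)).le
      linarith
    rw [intervalIntegral.integral_add (iW.const_mul _) (iD.const_mul _),
      intervalIntegral.integral_const_mul, intervalIntegral.integral_const_mul] at h2
    have h3 := mul_le_mul_of_nonneg_left h2 hTL
    linarith
  · have h2 : ∫ u in α..β, Real.exp (-u) * SG T (Pf T) u ^ 2 ≤ ∫ u in α..β,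
        ((1 + η) * Qu T u +
        (1 + 1 / η) * (Real.exp (-u) * (Su T u - SG T (Pf T) u) ^ 2)) := by
      refine intervalIntegral.integral_mono_on hαβ iW ((iQ.const_mul _).add (iD.const_mul _))
        fun u _ => ?_
      unfold Qu
      have h3 := mul_le_mul_of_nonneg_left (hsq (SG T (Pf T) u) (Su T u)) (Real.exp_pos (-u)).le
      have h4 : (SG T (Pf T) u - Su T u) ^ 2 = (Su T u - SG T (Pf T) u) ^ 2 := by ring
      rw [h4] at h3
      linarith
    rw [intervalIntegral.integral_add (iQ.const_mul _) (iD.const_mul _),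
      intervalIntegral.integral_const_mul, intervalIntegral.integral_const_mul] at h2
    have h3 := mul_le_mul_of_nonneg_left h2 hTL
    linarith

/-- **from the pair sums to the sharp windows** -/
theorem Js_lim (RH : RiemannHypothesis)
    (H : ∀ h : ℝ, 0 < h → Tendsto (fun T => Pool.Agent.NH10.GM.PT T h) atTop (𝓝 (PG h)))
    {a b : ℝ} (ha : 1 ≤ a) (hab : a < b) : Tendsto (fun T => Js T a b) atTop (𝓝 (b - a)) := by
  obtain ⟨Yf, hY, hE⟩ := EFf RH
  have hE' : EFp Yf := hE
  have hpar := Pf_par hY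
  have hJ : ∀ y : ℝ, 0 < y → Tendsto (fun T => Jt (Ds T (Pf T) (Yf (Pf T))) y) atTop
      (𝓝 (1 * PG y)) := by
    intro y hy
    rw [one_mul]
    refine mix_limS hpar hy ?_
    filter_upwards [lt_mem_nhds hy] with z hz
    exact H z hz
  have hW : ∀ p q : ℝ, 1 ≤ p → p < q → Tendsto (fun T => ∫ α in p..q, Ds T (Pf T) (Yf (Pf T)) α)
      atTop (𝓝 (q - p)) := by
    intro p q hp hpq
    have h1 := win_lim (D := fun T => Ds T (Pf T) (Yf (Pf T))) (c := 1) one_pos
      (Eventually.of_forall fun T => Ds_cont T _ _)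
      ((eventually_ge_atTop 1).mono fun T hT α => Ds_nonneg hT _ _ α) hJ
      (show 0 < p by linarith) hpq
    have e : 1 * ∫ α in p..q, mn α = q - p := by
      rw [one_mul, mn_one hp hpq.le]
    rwa [e] at h1
  -- the windows of the zeros
  have hba : 0 ≤ b - a := by linarith
  have U1 : ∀ ε : ℝ, 0 < ε → ∀ᶠ T in atTop,
      (∫ α in (a + th T)..(b + th T), Ds T (Pf T) (Yf (Pf T)) α) ≤ b - a + ε := by
    intro ε hε
    filter_upwards [(hW a (b + ε / 2) ha (by linarith)).eventually
      (gt_mem_nhds (show b + ε / 2 - a < b - a + ε by linarith)),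
      th_small (show 0 < ε / 2 by linarith), eventually_ge_atTop 10] with T h1 h2 hT
    refine le_trans ?_ h1.le
    exact intervalIntegral.integral_mono_interval (by linarith) (by linarith) (by linarith)
      (ae_of_all _ fun α => Ds_nonneg (by linarith) _ _ α)
      ((Ds_cont _ _ _).intervalIntegrable _ _)
  have L1 : ∀ ε : ℝ, 0 < ε → ∀ᶠ T in atTop,
      b - a - ε ≤ (∫ α in (a + th T)..(b + th T), Ds T (Pf T) (Yf (Pf T)) α) := by
    intro ε hε
    obtain ⟨δ, hδ⟩ : ∃ δ : ℝ, δ = min (ε / 2) ((b - a) / 2) := ⟨_, rfl⟩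
    have hδ0 : 0 < δ := by rw [hδ]; exact lt_min (by linarith) (by linarith)
    have hδ1 : δ ≤ ε / 2 := by rw [hδ]; exact min_le_left _ _
    have hδ2 : δ ≤ (b - a) / 2 := by rw [hδ]; exact min_le_right _ _
    filter_upwards [(hW (a + δ) b (by linarith) (by linarith)).eventually
      (lt_mem_nhds (show b - a - ε < b - (a + δ) by linarith)),
      th_small hδ0, eventually_ge_atTop 10] with T h1 h2 hT
    refine le_trans h1.le ?_
    exact intervalIntegral.integral_mono_interval (by linarith) (by linarith) (by linarith)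
      (ae_of_all _ fun α => Ds_nonneg (by linarith) _ _ α)
      ((Ds_cont _ _ _).intervalIntegrable _ _)
  have ha' : 3 / 4 ≤ a := by linarith
  have U2 : ∀ ε : ℝ, 0 < ε → ∀ᶠ T in atTop, (∫ α in a..b, Wn T (Pf T) α) ≤ b - a + ε :=
    fun ε hε => ub_trans (g := fun T => ∫ α in (a + th T)..(b + th T),
      Ds T (Pf T) (Yf (Pf T)) α) hba (fun η hη ε₁ hε₁ =>
        (compare_intS hE' ha' hab.le hη hε₁).mono fun T hT => hT.2) U1 hε
  have L2 : ∀ ε : ℝ, 0 < ε → ∀ᶠ T in atTop, b - a - ε ≤ (∫ α in a..b, Wn T (Pf T) α) :=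
    fun ε hε => lb_trans (g := fun T => ∫ α in (a + th T)..(b + th T),
      Ds T (Pf T) (Yf (Pf T)) α) hba (fun η hη ε₁ hε₁ =>
        (compare_intS hE' ha' hab.le hη hε₁).mono fun T hT => hT.1) L1 hε
  have U3 : ∀ ε : ℝ, 0 < ε → ∀ᶠ T in atTop, Js T a b ≤ b - a + ε :=
    fun ε hε => ub_trans (g := fun T => ∫ α in a..b, Wn T (Pf T) α) hba (fun η hη ε₁ hε₁ =>
        (Js_Wn RH (by linarith) hab.le hη hε₁).mono fun T hT => hT.1) U2 hε
  have L3 : ∀ ε : ℝ, 0 < ε → ∀ᶠ T in atTop, b - a - ε ≤ Js T a b :=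
    fun ε hε => lb_trans (g := fun T => ∫ α in a..b, Wn T (Pf T) α) hba (fun η hη ε₁ hε₁ =>
        (Js_Wn RH (by linarith) hab.le hη hε₁).mono fun T hT => hT.2) L2 hε
  rw [Metric.tendsto_nhds]
  intro ε hε
  filter_upwards [U3 (ε / 2) (by linarith), L3 (ε / 2) (by linarith)] with T h1 h2
  rw [Real.dist_eq, abs_lt]
  constructor <;> linarith

end Pool.Agent.NH10.SV
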