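import Pool.Agent.NH10.GM.Rigid
import Mathlib.MeasureTheory.Function.SpecialFunctions.Sinc

/-! # The square of the cardinal sine -/

set_option autoImplicit false
set_option maxHeartbeats 4000000

open MeasureTheory Set Filter Topology

namespace Pool.Agent.NH10.SV

open Pool.Agent.Y749.Rig Pool.Agent.NH10.GM

lemma sinc_int (x : ℝ) : ∫ t in (0 : ℝ)..1, Real.cos (x * t) = Real.sinc x := by
  rcases eq_or_ne x 0 with h | h
  · rw [h]; simp
  · rw [Real.sinc_of_ne_zero h, intervalIntegral.integral_comp_mul_left (fun y => Real.cos y) h,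
      integral_cos, mul_zero, mul_one, Real.sin_zero, sub_zero, smul_eq_mul]
    field_simp

lemma cos_lip (a b : ℝ) : |Real.cos a - Real.cos b| ≤ |a - b| := by
  have h := Real.lipschitzWith_cos.dist_le_mul a b
  simpa [Real.dist_eq] using h

lemma sinc_lip (a b : ℝ) : |Real.sinc a - Real.sinc b| ≤ |a - b| := by
  rw [← sinc_int, ← sinc_int, ← intervalIntegral.integral_sub
    ((by fun_prop : Continuous fun t : ℝ => Real.cos (a * t)).intervalIntegrable _ _)
    ((by fun_prop : Continuous fun t : ℝ => Real.cos (b * t)).intervalIntegrable _ _)]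
  have h := intervalIntegral.norm_integral_le_of_norm_le_const (a := (0 : ℝ)) (b := 1)
    (f := fun t => Real.cos (a * t) - Real.cos (b * t)) (C := |a - b|) ?_
  · simpa [Real.norm_eq_abs] using h
  · intro t ht
    rw [uIoc_of_le zero_le_one] at ht
    rw [Real.norm_eq_abs]
    refine (cos_lip _ _).trans ?_
    rw [← sub_mul, abs_mul, abs_of_pos ht.1]
    nlinarith [abs_nonneg (a - b), ht.2]

/-- the square of the cardinal sine -/
noncomputable def om (c : ℝ) : ℝ := Real.sinc (c / 2) ^ 2

lemma om_nonneg (c : ℝ) : 0 ≤ om c := sq_nonneg _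

lemma om_le_one (c : ℝ) : om c ≤ 1 := by
  unfold om
  rw [← sq_abs]
  exact pow_le_one₀ (abs_nonneg _) (Real.abs_sinc_le_one _)

lemma om_zero : om 0 = 1 := by unfold om; simp

lemma om_cont : Continuous om := by
  unfold om
  exact (Real.continuous_sinc.comp (by fun_prop)).pow 2

lemma om_even (c : ℝ) : om (-c) = om c := by
  unfold om
  rw [neg_div, Real.sinc_neg]

lemma om_eq' {c : ℝ} (hc : c ≠ 0) : om c = 4 * Real.sin (c / 2) ^ 2 / c ^ 2 := by
  unfold om
  rw [Real.sinc_of_ne_zero (by positivity)]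
  field_simp
  ring

lemma om_eq {c : ℝ} (hc : c ≠ 0) : om c = 2 * (1 - Real.cos c) / c ^ 2 := by
  rw [om_eq' hc]
  have h1 : Real.cos c = 1 - 2 * Real.sin (c / 2) ^ 2 := by
    have h2 : Real.cos c = Real.cos (2 * (c / 2)) := by congr 1; ring
    rw [h2, Real.cos_two_mul]
    nlinarith [Real.sin_sq_add_cos_sq (c / 2)]
  rw [h1]
  ring

lemma om_le {c : ℝ} (hc : c ≠ 0) : om c ≤ 4 / c ^ 2 := by
  rw [om_eq' hc]
  have := Real.sin_sq_le_one (c / 2)
  gcongr
  linarith

lemma om_lip (a b : ℝ) : |om a - om b| ≤ |a - b| := by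
  unfold om
  have h1 := sinc_lip (a / 2) (b / 2)
  have h2 := Real.abs_sinc_le_one (a / 2)
  have h3 := Real.abs_sinc_le_one (b / 2)
  have e : Real.sinc (a / 2) ^ 2 - Real.sinc (b / 2) ^ 2 =
    (Real.sinc (a / 2) + Real.sinc (b / 2)) * (Real.sinc (a / 2) - Real.sinc (b / 2)) := by ring
  have e2 : |a / 2 - b / 2| = |a - b| / 2 := by
    rw [← sub_div, abs_div, abs_of_pos (show (0 : ℝ) < 2 by norm_num)]
  rw [e, abs_mul]
  rw [e2] at h1
  have h4 := abs_add_le (Real.sinc (a / 2)) (Real.sinc (b / 2))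
  calc |Real.sinc (a / 2) + Real.sinc (b / 2)| * |Real.sinc (a / 2) - Real.sinc (b / 2)| ≤
        2 * (|a - b| / 2) := mul_le_mul (by linarith) h1 (abs_nonneg _) (by norm_num)
    _ = _ := by ring

/-- the derivative -/
noncomputable def omd (c : ℝ) : ℝ := 2 * Real.sin c / c ^ 2 - 4 * (1 - Real.cos c) / c ^ 3

lemma omd_meas : Measurable omd := by
  unfold omd
  exact ((Real.measurable_sin.const_mul 2).div (measurable_id.pow_const 2)).sub
    (((measurable_const.sub Real.measurable_cos).const_mul 4).div (measurable_id.pow_const 3))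

lemma om_deriv {c : ℝ} (hc : c ≠ 0) : HasDerivAt om (omd c) c := by
  have h0 : HasDerivAt (fun c : ℝ => 2 * (1 - Real.cos c)) (2 * Real.sin c) c := by
    have := ((hasDerivAt_const c (1 : ℝ)).fun_sub (Real.hasDerivAt_cos c)).const_mul 2
    simpa using this
  have h1 : HasDerivAt (fun c : ℝ => c ^ 2) (2 * c) c := by
    simpa using hasDerivAt_pow 2 c
  have h2 := h0.fun_div h1 (pow_ne_zero 2 hc)
  have h3 : om =ᶠ[𝓝 c] fun c => 2 * (1 - Real.cos c) / c ^ 2 := by
    filter_upwards [isOpen_ne.mem_nhds hc] with x hx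
    exact om_eq hx
  refine (h2.congr_of_eventuallyEq h3).congr_deriv ?_
  unfold omd
  field_simp
  ring

lemma omd_le {c : ℝ} (hc : c ≠ 0) : |omd c| ≤ 1 := by
  have h := (om_deriv hc).le_of_lipschitz (C := 1) ?_
  · simpa using h
  · refine LipschitzWith.of_dist_le_mul fun a b => ?_
    rw [Real.dist_eq, Real.dist_eq]
    simpa using om_lip a b

lemma omd_contOn : ContinuousOn omd (Ioi 0) := by
  unfold omd
  refine ContinuousOn.sub ?_ ?_
  · refine ContinuousOn.div (by fun_prop) (by fun_prop) fun c hc => ?_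
    have : (0 : ℝ) < c := hc
    positivity
  · refine ContinuousOn.div (by fun_prop) (by fun_prop) fun c hc => ?_
    have : (0 : ℝ) < c := hc
    positivity

lemma om_ftc {m R : ℝ} (hm : 0 < m) (hmR : m ≤ R) : om m = om R - ∫ c in m..R, omd c := by
  have h := intervalIntegral.integral_eq_sub_of_hasDerivAt (a := m) (b := R) (f := om)
    (f' := omd) (fun c hc => ?_) ?_
  · linarith
  · rw [uIcc_of_le hmR] at hc
    exact om_deriv (by linarith [hc.1])
  · refine (omd_contOn.mono fun c hc => ?_).intervalIntegrable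
    rw [uIcc_of_le hmR] at hc
    exact lt_of_lt_of_le hm hc.1

lemma om_fl (c : ℝ) : om c = fl (tr 1) (c / (2 * Real.pi)) := by
  have hpi := Real.pi_pos
  rcases eq_or_ne c 0 with h | h
  · rw [h, zero_div, fl_tr_zero one_pos, om_zero]
  · rw [fl_tr one_pos (by positivity), om_eq' h]
    have e : Real.pi * 1 * (c / (2 * Real.pi)) = c / 2 := by field_simp
    rw [e]
    field_simp
    norm_num

lemma om_int : Integrable om := by
  have hpi := Real.pi_pos
  have h := (fl_int (adm_tr one_pos)).comp_div (show (2 * Real.pi) ≠ 0 by positivity)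
  exact h.congr (ae_of_all _ fun c => (om_fl c).symm)

lemma om_total : ∫ c, om c = 2 * Real.pi := by
  have hpi := Real.pi_pos
  have h1 := inv_four (adm_tr one_pos) 0
  have h2 : fl (fl (tr 1)) 0 = ∫ x, fl (tr 1) x := by
    unfold fl
    simp
  have h3 : tr 1 0 = 1 := by unfold tr; simp
  rw [h2, h3] at h1
  have h4 : ∫ c, om c = ∫ c, fl (tr 1) (c / (2 * Real.pi)) :=
    integral_congr_ae (ae_of_all _ om_fl)
  rw [h4, Measure.integral_comp_div (fun x => fl (tr 1) x) (2 * Real.pi), h1, smul_eq_mul, mul_one,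
    abs_of_pos (by positivity)]

lemma om_half : ∫ c in Ioi (0 : ℝ), om c = Real.pi := by
  have h1 : ∫ c in Iic (0 : ℝ), om c = ∫ c in Ioi (0 : ℝ), om c := by
    have := integral_comp_neg_Iic (0 : ℝ) om
    rw [neg_zero] at this
    rw [← this]
    refine integral_congr_ae (ae_of_all _ fun c => ?_)
    exact (om_even c).symm
  have h2 := intervalIntegral.integral_Iic_add_Ioi (f := om) (b := (0 : ℝ)) (μ := volume)
    om_int.integrableOn om_int.integrableOn
  rw [h1, om_total] at h2
  linarith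

lemma inv_sq_int {R : ℝ} (hR : 0 < R) : IntegrableOn (fun c : ℝ => 4 / c ^ 2) (Ioi R) ∧
    ∫ c in Ioi R, 4 / c ^ 2 = 4 / R := by
  have h1 := integrableOn_Ioi_rpow_of_lt (a := -2) (by norm_num) hR
  have h2 := integral_Ioi_rpow_of_lt (a := -2) (by norm_num) hR
  have e : ∀ c ∈ Ioi R, c ^ (-2 : ℝ) * 4 = 4 / c ^ 2 := by
    intro c hc
    have hc0 : 0 < c := hR.trans hc
    rw [Real.rpow_neg hc0.le, Real.rpow_two]
    field_simp
  constructor
  · have h3 : IntegrableOn (fun c : ℝ => c ^ (-2 : ℝ) * 4) (Ioi R) := h1.mul_const 4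
    exact h3.congr_fun e measurableSet_Ioi
  · rw [← setIntegral_congr_fun measurableSet_Ioi e, integral_mul_const, h2]
    norm_num
    rw [Real.rpow_neg_one]
    field_simp

lemma om_tail {R : ℝ} (hR : 0 < R) : |(∫ c in (0 : ℝ)..R, om c) - Real.pi| ≤ 4 / R := by
  have h1 : (∫ c in (0 : ℝ)..R, om c) + ∫ c in Ioi R, om c = Real.pi := by
    rw [← om_half, intervalIntegral.integral_of_le hR.le, ← setIntegral_union
      (Ioc_disjoint_Ioi le_rfl) measurableSet_Ioi om_int.integrableOn om_int.integrableOn,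
      Ioc_union_Ioi_eq_Ioi hR.le]
  obtain ⟨h2, h3⟩ := inv_sq_int hR
  have h4 : ∫ c in Ioi R, om c ≤ 4 / R := by
    rw [← h3]
    refine setIntegral_mono_on om_int.integrableOn h2 measurableSet_Ioi fun c hc => ?_
    exact om_le (hR.trans hc).ne'
  have h5 : 0 ≤ ∫ c in Ioi R, om c := integral_nonneg om_nonneg
  rw [abs_le]
  constructor <;> linarith

end Pool.Agent.NH10.SV
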