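import Pool.Agent.NH10.SV.RHs
import Pool.Agent.NH10.GM.Val

/-! # The smoothed sharp windows: preparations -/

set_option autoImplicit false
set_option maxHeartbeats 4000000

open Filter Topology Set MeasureTheory ArithmeticFunction

namespace Pool.Agent.NH10.SV

open Pool.Agent.NH10.GM

/-- the Gaussian kernel of width `1 / P` -/
noncomputable def gk (P w : ℝ) : ℝ := P / Real.sqrt (2 * Real.pi) * Real.exp (-(P ^ 2 / 2) * w ^ 2)

lemma s2p : 0 < Real.sqrt (2 * Real.pi) := Real.sqrt_pos.2 (by have := Real.pi_pos; positivity)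

lemma gk_cont (P : ℝ) : Continuous (gk P) := by unfold gk; fun_prop

lemma gk_pos {P : ℝ} (hP : 0 < P) (w : ℝ) : 0 < gk P w := by
  have := s2p
  unfold gk
  positivity

lemma gk_int {P : ℝ} (hP : 0 < P) : Integrable (gk P) ∧ ∫ w, gk P w = 1 := by
  have h2 := s2p
  have hb : 0 < P ^ 2 / 2 := by positivity
  have h1 := integrable_exp_neg_mul_sq hb
  refine ⟨h1.const_mul _, ?_⟩
  unfold gk
  rw [integral_const_mul, integral_gaussian]
  have e : Real.pi / (P ^ 2 / 2) = 2 * Real.pi / P ^ 2 := by field_simp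
  rw [e, Real.sqrt_div (by have := Real.pi_pos; positivity), Real.sqrt_sq hP.le]
  field_simp

lemma gk_shift {P : ℝ} (hP : 0 < P) (c w : ℝ) : gk P w * Real.exp (c * w) =
    Real.exp (c ^ 2 / (2 * P ^ 2)) * gk P (w - c / P ^ 2) := by
  unfold gk
  have e1 : P / Real.sqrt (2 * Real.pi) * Real.exp (-(P ^ 2 / 2) * w ^ 2) * Real.exp (c * w) =
      P / Real.sqrt (2 * Real.pi) * (Real.exp (-(P ^ 2 / 2) * w ^ 2) * Real.exp (c * w)) := by ring
  have e2 : Real.exp (c ^ 2 / (2 * P ^ 2)) * (P / Real.sqrt (2 * Real.pi) *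
      Real.exp (-(P ^ 2 / 2) * (w - c / P ^ 2) ^ 2)) = P / Real.sqrt (2 * Real.pi) *
      (Real.exp (c ^ 2 / (2 * P ^ 2)) * Real.exp (-(P ^ 2 / 2) * (w - c / P ^ 2) ^ 2)) := by ring
  rw [e1, e2, ← Real.exp_add, ← Real.exp_add]
  congr 2
  field_simp
  ring

lemma gk_exp {P : ℝ} (hP : 0 < P) (c : ℝ) : Integrable (fun w => gk P w * Real.exp (c * w)) ∧
    ∫ w, gk P w * Real.exp (c * w) = Real.exp (c ^ 2 / (2 * P ^ 2)) := by
  obtain ⟨h1, h2⟩ := gk_int hP
  simp_rw [gk_shift hP c]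
  refine ⟨(h1.comp_sub_right (c / P ^ 2)).const_mul _, ?_⟩
  rw [integral_const_mul, integral_sub_right_eq_self (gk P), h2, mul_one]

/-- the kernel away from the origin -/
lemma gk_far {P ω w : ℝ} (hP : 0 < P) (hω : 0 ≤ ω) (hw : ω ≤ |w|) :
    gk P w ≤ 2 * Real.exp (-(P ^ 2 * ω ^ 2 / 4)) * gk (P / Real.sqrt 2) w := by
  have h2 := s2p
  have hs : 0 < Real.sqrt 2 := Real.sqrt_pos.2 (by norm_num)
  have hs2 : Real.sqrt 2 ^ 2 = 2 := Real.sq_sqrt (by norm_num)
  have hs3 : Real.sqrt 2 ≤ 2 := by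
    rw [Real.sqrt_le_left (by norm_num)]
    norm_num
  unfold gk
  have e1 : -((P / Real.sqrt 2) ^ 2 / 2) * w ^ 2 = -(P ^ 2 / 4) * w ^ 2 := by
    rw [div_pow, hs2]
    ring
  have e2 : Real.exp (-(P ^ 2 / 2) * w ^ 2) =
      Real.exp (-(P ^ 2 / 4) * w ^ 2) * Real.exp (-(P ^ 2 / 4) * w ^ 2) := by
    rw [← Real.exp_add]
    congr 1
    ring
  have e3 : Real.exp (-(P ^ 2 / 4) * w ^ 2) ≤ Real.exp (-(P ^ 2 * ω ^ 2 / 4)) := by
    apply Real.exp_le_exp.2
    have h4 : ω ^ 2 ≤ w ^ 2 := by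
      rw [← sq_abs w]
      exact pow_le_pow_left₀ hω hw 2
    have : P ^ 2 * ω ^ 2 ≤ P ^ 2 * w ^ 2 := by gcongr
    linarith
  rw [e1, e2]
  obtain ⟨X, hX⟩ : ∃ X : ℝ, X = Real.exp (-(P ^ 2 / 4) * w ^ 2) := ⟨_, rfl⟩
  have hX0 : 0 < X := by rw [hX]; exact Real.exp_pos _
  rw [← hX] at e3 ⊢
  calc P / Real.sqrt (2 * Real.pi) * (X * X) ≤
        P / Real.sqrt (2 * Real.pi) * (Real.exp (-(P ^ 2 * ω ^ 2 / 4)) * X) := by gcongr
    _ = Real.sqrt 2 * (Real.exp (-(P ^ 2 * ω ^ 2 / 4)) *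
        (P / Real.sqrt 2 / Real.sqrt (2 * Real.pi) * X)) := by field_simp
    _ ≤ 2 * (Real.exp (-(P ^ 2 * ω ^ 2 / 4)) *
        (P / Real.sqrt 2 / Real.sqrt (2 * Real.pi) * X)) := by gcongr
    _ = _ := by ring

/-- the sharp window in the logarithmic variable -/
noncomputable def Su (T u : ℝ) : ℝ := Sx T (Real.exp u)

lemma Su_meas (T : ℝ) : Measurable (Su T) := (Sx_meas T).comp Real.measurable_exp

lemma Su_le {T : ℝ} (hT : 1 ≤ T) (u : ℝ) : |Su T u| ≤ 20 * Real.exp u :=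
  Sx_le hT (Real.exp_pos u).le

/-- the normalised mean square in the logarithmic variable -/
lemma Js_eq {T a b : ℝ} (hT : 1 < T) (hab : a ≤ b) : Js T a b =
    T / Real.log T ^ 2 * ∫ u in (a * Real.log T)..(b * Real.log T), Real.exp (-u) * Su T u ^ 2 := by
  have hL := Real.log_pos hT
  have hT0 : 0 < T := by linarith
  obtain ⟨α, hα⟩ : ∃ α : ℝ, α = a * Real.log T := ⟨_, rfl⟩
  obtain ⟨β, hβ⟩ : ∃ β : ℝ, β = b * Real.log T := ⟨_, rfl⟩
  have e1 : T ^ a = Real.exp α := by rw [Real.rpow_def_of_pos hT0, hα, mul_comm]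
  have e2 : T ^ b = Real.exp β := by rw [Real.rpow_def_of_pos hT0, hβ, mul_comm]
  have hαβ : α ≤ β := by rw [hα, hβ]; exact mul_le_mul_of_nonneg_right hab hL.le
  unfold Js
  rw [e1, e2, ← hα, ← hβ]
  congr 1
  rw [intervalIntegral.integral_of_le (Real.exp_le_exp.2 hαβ),
    intervalIntegral.integral_of_le hαβ]
  have himg : Real.exp '' Ioc α β = Ioc (Real.exp α) (Real.exp β) := by
    ext x
    constructor
    · rintro ⟨y, ⟨h1, h2⟩, rfl⟩
      exact ⟨Real.exp_lt_exp.2 h1, Real.exp_le_exp.2 h2⟩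
    · rintro ⟨h1, h2⟩
      have hx : 0 < x := (Real.exp_pos _).trans h1
      refine ⟨Real.log x, ⟨?_, ?_⟩, Real.exp_log hx⟩
      · rwa [Real.lt_log_iff_exp_lt hx]
      · rwa [Real.log_le_iff_le_exp hx]
  have h1 := integral_image_eq_integral_abs_deriv_smul (s := Ioc α β) (f := Real.exp)
    (f' := Real.exp) measurableSet_Ioc (fun y _ => (Real.hasDerivAt_exp y).hasDerivWithinAt)
    Real.exp_injective.injOn (fun x => Sx T x ^ 2 / x ^ 2)
  rw [himg] at h1
  rw [h1]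
  refine setIntegral_congr_fun measurableSet_Ioc fun u _ => ?_
  show |Real.exp u| • (Sx T (Real.exp u) ^ 2 / Real.exp u ^ 2) = Real.exp (-u) * Su T u ^ 2
  rw [abs_of_pos (Real.exp_pos u), smul_eq_mul, Real.exp_neg]
  unfold Su
  have := Real.exp_pos u
  field_simp

/-- the smoothed window -/
noncomputable def SG (T P u : ℝ) : ℝ := ∫ w, gk P w * Su T (u - w)

lemma SG_int {T P : ℝ} (hT : 1 ≤ T) (hP : 0 < P) (u : ℝ) :
    Integrable fun w => gk P w * Su T (u - w) := by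
  have h1 := ((gk_exp hP (-1)).1.const_mul (20 * Real.exp u))
  refine h1.mono' ?_ (ae_of_all _ fun w => ?_)
  · exact ((gk_cont P).measurable.mul ((Su_meas T).comp (by fun_prop))).aestronglyMeasurable
  · rw [norm_mul, Real.norm_of_nonneg (gk_pos hP w).le, Real.norm_eq_abs]
    have h2 := Su_le hT (u - w)
    have e : Real.exp (u - w) = Real.exp u * Real.exp (-1 * w) := by
      rw [← Real.exp_add]
      congr 1
      ring
    rw [e] at h2
    calc gk P w * |Su T (u - w)| ≤ gk P w * (20 * (Real.exp u * Real.exp (-1 * w))) :=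
          mul_le_mul_of_nonneg_left h2 (gk_pos hP w).le
      _ = _ := by ring

lemma SG_sq_int {T P : ℝ} (hT : 1 ≤ T) (hP : 0 < P) (u : ℝ) :
    Integrable fun w => gk P w * Su T (u - w) ^ 2 := by
  have h1 := ((gk_exp hP (-2)).1.const_mul (400 * Real.exp (2 * u)))
  refine h1.mono' ?_ (ae_of_all _ fun w => ?_)
  · exact ((gk_cont P).measurable.mul
      (((Su_meas T).comp (by fun_prop)).pow_const 2)).aestronglyMeasurable
  · rw [norm_mul, Real.norm_of_nonneg (gk_pos hP w).le, Real.norm_of_nonneg (sq_nonneg _)]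
    have h2 := Su_le hT (u - w)
    have h3 : Su T (u - w) ^ 2 ≤ 400 * Real.exp (2 * u) * Real.exp (-2 * w) := by
      rw [← sq_abs]
      refine (pow_le_pow_left₀ (abs_nonneg _) h2 2).trans (le_of_eq ?_)
      rw [mul_pow, ← Real.exp_nat_mul, mul_assoc, ← Real.exp_add]
      norm_num
      ring
    calc gk P w * Su T (u - w) ^ 2 ≤ gk P w * (400 * Real.exp (2 * u) * Real.exp (-2 * w)) :=
          mul_le_mul_of_nonneg_left h3 (gk_pos hP w).le
      _ = _ := by ring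

/-- Jensen -/
lemma SG_sq {T P : ℝ} (hT : 1 ≤ T) (hP : 0 < P) (u : ℝ) :
    SG T P u ^ 2 ≤ ∫ w, gk P w * Su T (u - w) ^ 2 := by
  obtain ⟨g1, g2⟩ := gk_int hP
  have i1 := SG_int hT hP u
  have i2 := SG_sq_int hT hP u
  obtain ⟨m, hm⟩ : ∃ m : ℝ, m = SG T P u := ⟨_, rfl⟩
  have h1 : 0 ≤ ∫ w, gk P w * (Su T (u - w) - m) ^ 2 :=
    integral_nonneg fun w => mul_nonneg (gk_pos hP w).le (sq_nonneg _)
  have e : ∀ w, gk P w * (Su T (u - w) - m) ^ 2 = gk P w * Su T (u - w) ^ 2 -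
      2 * m * (gk P w * Su T (u - w)) + m ^ 2 * gk P w := fun w => by ring
  simp_rw [e] at h1
  have i3 : Integrable fun w => gk P w * Su T (u - w) ^ 2 -
      2 * m * (gk P w * Su T (u - w)) := i2.sub (i1.const_mul _)
  rw [integral_add i3 (g1.const_mul _), integral_sub i2 (i1.const_mul _),
    integral_const_mul, integral_const_mul, g2] at h1
  have e2 : ∫ w, gk P w * Su T (u - w) = m := hm.symm
  rw [e2] at h1
  rw [← hm]
  linarith

end Pool.Agent.NH10.SV
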