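import Pool.Agent.NH10.SV.Pa

/-! # The smoothed sharp windows and the Gaussian windows -/

set_option autoImplicit false
set_option maxHeartbeats 4000000

open Filter Topology Set MeasureTheory ArithmeticFunction

namespace Pool.Agent.NH10.SV

open Pool.Agent.NH10.GM

/-- the terms of the Gaussian windows -/
noncomputable def pw (P v : ℝ) (n : ℕ) : ℝ :=
  vonMangoldt n * Real.exp (-(P ^ 2 / 2) * (v - Real.log n) ^ 2)

lemma pw_nonneg (P v : ℝ) (n : ℕ) : 0 ≤ pw P v n :=
  mul_nonneg vonMangoldt_nonneg (Real.exp_pos _).le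

lemma pw_cont (P : ℝ) (n : ℕ) : Continuous fun v => pw P v n := by
  unfold pw
  fun_prop

lemma pw_eq {P : ℝ} (hP : 0 < P) (v : ℝ) (n : ℕ) : pw P v n =
    Real.exp (v / 2 + 1 / (8 * P ^ 2)) * (al n * lw P (v + 1 / (2 * P ^ 2)) n) := by
  rcases Nat.eq_zero_or_pos n with h0 | h0
  · subst h0
    simp [al, pw]
  · have hn0 : (0 : ℝ) < n := by exact_mod_cast h0
    rw [lw_eq hP]
    have e1 : (Real.sqrt n)⁻¹ = Real.exp (-(Real.log n / 2)) := by
      rw [Real.sqrt_eq_rpow, Real.rpow_def_of_pos hn0, ← Real.exp_neg]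
      congr 1
      ring
    unfold al pw
    rw [e1]
    have e2 : Real.exp (v / 2 + 1 / (8 * P ^ 2)) * (vonMangoldt n *
        Real.exp (-(Real.log n / 2)) *
        Real.exp (-(P ^ 2 * (v + 1 / (2 * P ^ 2) - Real.log n) ^ 2 / 2))) =
        vonMangoldt n * (Real.exp (v / 2 + 1 / (8 * P ^ 2)) * Real.exp (-(Real.log n / 2)) *
        Real.exp (-(P ^ 2 * (v + 1 / (2 * P ^ 2) - Real.log n) ^ 2 / 2))) := by ring
    rw [e2, ← Real.exp_add, ← Real.exp_add]
    congr 2
    field_simp
    ring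

/-- the constant of the majorant -/
noncomputable def Kp (P v : ℝ) : ℝ := Real.exp (v / 2 + 1 / (8 * P ^ 2)) *
  Real.exp (3 * (v + 1 / (2 * P ^ 2)) + 9 / (2 * P ^ 2))

lemma Kp_mono (P : ℝ) {v v' : ℝ} (h : v ≤ v') : Kp P v ≤ Kp P v' := by
  unfold Kp
  gcongr

lemma Kp_pos (P v : ℝ) : 0 < Kp P v := by unfold Kp; positivity

lemma pw_le {P : ℝ} (hP : 0 < P) (v : ℝ) (n : ℕ) : pw P v n ≤ Kp P v * lm n := by
  rw [pw_eq hP]
  unfold Kp
  rw [mul_assoc]
  exact mul_le_mul_of_nonneg_left (term_le hP _ n) (Real.exp_pos _).le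

lemma pw_sum {P : ℝ} (hP : 0 < P) (v : ℝ) : Summable fun n => pw P v n :=
  Summable.of_nonneg_of_le (pw_nonneg P v) (pw_le hP v) (lm_sum.mul_left _)

lemma VV_pw {P : ℝ} (hP : 0 < P) (v : ℝ) : VV P (Real.exp v) = (∑' n, pw P v n) -
    Real.sqrt (2 * Real.pi) / P * Real.exp v * Real.exp (1 / (2 * P ^ 2)) := by
  unfold VV
  rw [gauss_log hP (Real.exp_pos v)]
  congr 2
  funext n
  rcases Nat.eq_zero_or_pos n with h0 | h0
  · subst h0
    simp [pw]
  · have hn0 : (0 : ℝ) < n := by exact_mod_cast h0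
    unfold pw
    rw [Real.log_div hn0.ne' (Real.exp_pos v).ne', Real.log_exp]
    congr 2
    ring

/-- the terms of the sharp window -/
noncomputable def In (T t : ℝ) (n : ℕ) : ℝ :=
  if Real.exp t < n ∧ (n : ℝ) ≤ Real.exp t * (1 + 1 / T) then vonMangoldt n else 0

lemma In_nonneg (T t : ℝ) (n : ℕ) : 0 ≤ In T t n := by
  unfold In
  split_ifs
  · exact vonMangoldt_nonneg
  · exact le_rfl

lemma In_tsum {T : ℝ} (hT : 0 < T) (t : ℝ) : (∑ n ∈ Finset.Ioc ⌊Real.exp t⌋₊
      ⌊Real.exp t * (1 + 1 / T)⌋₊, vonMangoldt n) = ∑' n, In T t n := by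
  have hx := Real.exp_pos t
  have hmem : ∀ n : ℕ, n ∈ Finset.Ioc ⌊Real.exp t⌋₊ ⌊Real.exp t * (1 + 1 / T)⌋₊ ↔
      Real.exp t < n ∧ (n : ℝ) ≤ Real.exp t * (1 + 1 / T) := by
    intro n
    rw [Finset.mem_Ioc, Nat.floor_lt hx.le, Nat.le_floor_iff (by positivity)]
  rw [tsum_eq_sum (s := Finset.Ioc ⌊Real.exp t⌋₊ ⌊Real.exp t * (1 + 1 / T)⌋₊) fun n hn => by
    unfold In
    rw [if_neg fun h => hn ((hmem n).2 h)]]
  refine Finset.sum_congr rfl fun n hn => ?_
  unfold In
  rw [if_pos ((hmem n).1 hn)]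

lemma Su_In {T : ℝ} (hT : 0 < T) (t : ℝ) : Su T t = (∑' n, In T t n) - Real.exp t / T := by
  rw [← In_tsum hT]
  have hx := Real.exp_pos t
  have e : Real.exp t + Real.exp t / T = Real.exp t * (1 + 1 / T) := by ring
  unfold Su Sx
  rw [e, Chebyshev.psi, Chebyshev.psi]
  have h1 : ⌊Real.exp t⌋₊ ≤ ⌊Real.exp t * (1 + 1 / T)⌋₊ := by
    apply Nat.floor_le_floor
    have : 0 < 1 / T := by positivity
    nlinarith
  rw [← Finset.sum_Ioc_consecutive _ (Nat.zero_le _) h1]
  ring

lemma In_shift {T : ℝ} (hT : 0 < T) (u w : ℝ) (n : ℕ) : In T (u - w) n =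
    (Ioc (u - Real.log n) (u - Real.log n + Real.log (1 + 1 / T))).indicator
      (fun _ => vonMangoldt n) w := by
  rcases Nat.eq_zero_or_pos n with h0 | h0
  · subst h0
    unfold In
    simp
  · have hn0 : (0 : ℝ) < n := by exact_mod_cast h0
    have h1T : 0 < 1 + 1 / T := by positivity
    have hc : (Real.exp (u - w) < n ∧ (n : ℝ) ≤ Real.exp (u - w) * (1 + 1 / T)) ↔
        w ∈ Ioc (u - Real.log n) (u - Real.log n + Real.log (1 + 1 / T)) := by
      have e1 : Real.exp (u - w) < n ↔ u - w < Real.log n := (Real.lt_log_iff_exp_lt hn0).symm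
      have e2 : (n : ℝ) ≤ Real.exp (u - w) * (1 + 1 / T) ↔
          Real.log n ≤ u - w + Real.log (1 + 1 / T) := by
        have e3 : Real.exp (u - w) * (1 + 1 / T) = Real.exp (u - w + Real.log (1 + 1 / T)) := by
          rw [Real.exp_add, Real.exp_log h1T]
        rw [e3, Real.log_le_iff_le_exp hn0]
      rw [e1, e2, mem_Ioc]
      constructor <;> rintro ⟨h1, h2⟩ <;> constructor <;> linarith
    unfold In
    by_cases h : w ∈ Ioc (u - Real.log n) (u - Real.log n + Real.log (1 + 1 / T))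
    · rw [if_pos (hc.2 h), indicator_of_mem h]
    · rw [if_neg fun h' => h (hc.1 h'), indicator_of_notMem h]

lemma hT_pos {T : ℝ} (hT : 0 < T) : 0 < Real.log (1 + 1 / T) :=
  Real.log_pos (by have : 0 < 1 / T := by positivity
                   linarith)

lemma F_term {T P : ℝ} (hT : 0 < T) (hP : 0 < P) (u : ℝ) (n : ℕ) :
    Integrable (fun w => gk P w * In T (u - w) n) ∧
    ∫ w, gk P w * In T (u - w) n =
      P / Real.sqrt (2 * Real.pi) * ∫ y in (0 : ℝ)..(Real.log (1 + 1 / T)), pw P (u + y) n := by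
  have hh := hT_pos hT
  have e1 : (fun w => gk P w * In T (u - w) n) =
      (Ioc (u - Real.log n) (u - Real.log n + Real.log (1 + 1 / T))).indicator
        (fun w => vonMangoldt n * gk P w) := by
    funext w
    rw [In_shift hT]
    by_cases h : w ∈ Ioc (u - Real.log n) (u - Real.log n + Real.log (1 + 1 / T))
    · rw [indicator_of_mem h, indicator_of_mem h, mul_comm]
    · rw [indicator_of_notMem h, indicator_of_notMem h, mul_zero]
  rw [e1]
  refine ⟨((gk_int hP).1.const_mul _).indicator measurableSet_Ioc, ?_⟩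
  rw [integral_indicator measurableSet_Ioc, ← intervalIntegral.integral_of_le (by linarith),
    ← intervalIntegral.integral_const_mul]
  have h1 := intervalIntegral.integral_comp_add_left (a := (0 : ℝ)) (b := Real.log (1 + 1 / T))
    (fun w => vonMangoldt n * gk P w) (u - Real.log n)
  rw [add_zero] at h1
  rw [← h1]
  refine intervalIntegral.integral_congr fun y _ => ?_
  show vonMangoldt n * gk P (u - Real.log n + y) = P / Real.sqrt (2 * Real.pi) * pw P (u + y) n
  unfold gk pw
  have e2 : u - Real.log n + y = u + y - Real.log n := by ring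
  rw [e2]
  ring

lemma pw_int_le {P h : ℝ} (hP : 0 < P) (hh : 0 ≤ h) (u : ℝ) (n : ℕ) :
    ∫ y in (0 : ℝ)..h, pw P (u + y) n ≤ h * Kp P (u + h) * lm n := by
  have h1 : ∫ y in (0 : ℝ)..h, pw P (u + y) n ≤ ∫ y in (0 : ℝ)..h, Kp P (u + h) * lm n := by
    refine intervalIntegral.integral_mono_on hh
      (((pw_cont P n).comp (continuous_const_add u)).intervalIntegrable _ _) (by simp)
      fun y hy => ?_
    exact (pw_le hP _ n).trans (mul_le_mul_of_nonneg_right (Kp_mono P (by linarith [hy.2]))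
      (lm_nonneg n))
  rw [intervalIntegral.integral_const, smul_eq_mul, sub_zero] at h1
  linarith

/-- the integral of the Gaussian windows -/
lemma pw_tsum_int {P h : ℝ} (hP : 0 < P) (hh : 0 ≤ h) (u : ℝ) :
    ∑' n, ∫ y in (0 : ℝ)..h, pw P (u + y) n = ∫ y in (0 : ℝ)..h, ∑' n, pw P (u + y) n := by
  have hint : ∀ n, Integrable (fun y => pw P (u + y) n) (volume.restrict (Ioc 0 h)) := by
    intro n
    have h1 : IntervalIntegrable (fun y => pw P (u + y) n) volume 0 h :=
      ((pw_cont P n).comp (continuous_const_add u)).intervalIntegrable _ _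
    rwa [intervalIntegrable_iff_integrableOn_Ioc_of_le hh] at h1
  have hsum : Summable fun n => ∫ y in Ioc 0 h, ‖pw P (u + y) n‖ := by
    refine Summable.of_nonneg_of_le (fun n => integral_nonneg fun y => norm_nonneg _) (fun n => ?_)
      (lm_sum.mul_left (h * Kp P (u + h)))
    have e : ∫ y in Ioc 0 h, ‖pw P (u + y) n‖ = ∫ y in (0 : ℝ)..h, pw P (u + y) n := by
      rw [intervalIntegral.integral_of_le hh]
      refine integral_congr_ae (ae_of_all _ fun y => ?_)
      exact Real.norm_of_nonneg (pw_nonneg _ _ _)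
    rw [e]
    exact pw_int_le hP hh u n
  have h1 := hasSum_integral_of_summable_integral_norm hint hsum
  rw [intervalIntegral.integral_of_le hh, ← h1.tsum_eq]
  congr 1
  funext n
  rw [intervalIntegral.integral_of_le hh]

lemma VV_econt {P : ℝ} (hP : 0 < P) : Continuous fun v => VV P (Real.exp v) := by
  have e : (fun v => VV P (Real.exp v)) = fun v => Real.exp (v / 2 + 1 / (8 * P ^ 2)) *
      Vs P (v + 1 / (2 * P ^ 2)) := by
    funext v
    rw [VV_eq hP (Real.exp_pos v), Real.log_exp]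
  rw [e]
  have h1 := (Vs_cont hP).comp (continuous_add_const (1 / (2 * P ^ 2)))
  have h2 : Continuous fun v : ℝ => Real.exp (v / 2 + 1 / (8 * P ^ 2)) := by fun_prop
  exact h2.mul h1

/-- **the smoothed sharp window is an integral of Gaussian windows** -/
theorem SG_eq {T P : ℝ} (hT : 1 ≤ T) (hP : 0 < P) (u : ℝ) : SG T P u =
    P / Real.sqrt (2 * Real.pi) * ∫ y in (0 : ℝ)..(Real.log (1 + 1 / T)),
      VV P (Real.exp (u + y)) := by
  have hT0 : 0 < T := by linarith
  have hh := hT_pos hT0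
  have h2 := s2p
  obtain ⟨h, hhe⟩ : ∃ h : ℝ, h = Real.log (1 + 1 / T) := ⟨_, rfl⟩
  rw [← hhe] at hh ⊢
  -- the prime part
  have hnn : ∀ n w, 0 ≤ gk P w * In T (u - w) n := fun n w =>
    mul_nonneg (gk_pos hP w).le (In_nonneg _ _ _)
  have hsum : Summable fun n => ∫ w, ‖gk P w * In T (u - w) n‖ := by
    refine Summable.of_nonneg_of_le (fun n => integral_nonneg fun y => norm_nonneg _) (fun n => ?_)
      (lm_sum.mul_left (P / Real.sqrt (2 * Real.pi) * (h * Kp P (u + h))))
    have e : ∫ w, ‖gk P w * In T (u - w) n‖ = ∫ w, gk P w * In T (u - w) n :=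
      integral_congr_ae (ae_of_all _ fun w => Real.norm_of_nonneg (hnn n w))
    rw [e, (F_term hT0 hP u n).2, ← hhe, mul_assoc]
    exact mul_le_mul_of_nonneg_left (pw_int_le hP hh.le u n) (by positivity)
  have hS := hasSum_integral_of_summable_integral_norm (fun n => (F_term hT0 hP u n).1) hsum
  have e1 : ∫ w, ∑' n, gk P w * In T (u - w) n =
      P / Real.sqrt (2 * Real.pi) * ∫ y in (0 : ℝ)..h, ∑' n, pw P (u + y) n := by
    rw [← hS.tsum_eq, ← pw_tsum_int hP hh.le, ← tsum_mul_left]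
    congr 1
    funext n
    rw [(F_term hT0 hP u n).2, ← hhe]
  -- the expected part
  obtain ⟨g1, g2⟩ := gk_exp hP (-1)
  have e2 : ∀ w, gk P w * Su T (u - w) = (∑' n, gk P w * In T (u - w) n) -
      Real.exp u / T * (gk P w * Real.exp (-1 * w)) := by
    intro w
    rw [Su_In hT0, tsum_mul_left]
    have : Real.exp (u - w) = Real.exp u * Real.exp (-1 * w) := by
      rw [← Real.exp_add]; congr 1; ring
    rw [this]
    ring
  have iS := SG_int hT hP u
  have iE : Integrable fun w => Real.exp u / T * (gk P w * Real.exp (-1 * w)) := g1.const_mul _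
  have iF : Integrable fun w => ∑' n, gk P w * In T (u - w) n := by
    refine (iS.add iE).congr (ae_of_all _ fun w => ?_)
    simp only [Pi.add_apply]
    rw [e2 w]
    ring
  have e3 : SG T P u = P / Real.sqrt (2 * Real.pi) * (∫ y in (0 : ℝ)..h, ∑' n, pw P (u + y) n) -
      Real.exp u / T * Real.exp (1 / (2 * P ^ 2)) := by
    unfold SG
    simp_rw [e2]
    rw [integral_sub iF iE, e1, integral_const_mul, g2]
    norm_num
  rw [e3]
  have c1 : Continuous fun y => VV P (Real.exp (u + y)) :=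
    (VV_econt hP).comp (continuous_const_add u)
  have c2 : Continuous fun y : ℝ => Real.sqrt (2 * Real.pi) / P * Real.exp (u + y) *
    Real.exp (1 / (2 * P ^ 2)) := by fun_prop
  have e4 : ∀ y, ∑' n, pw P (u + y) n = VV P (Real.exp (u + y)) +
      Real.sqrt (2 * Real.pi) / P * Real.exp (u + y) * Real.exp (1 / (2 * P ^ 2)) := by
    intro y
    rw [VV_pw hP]
    ring
  simp_rw [e4]
  rw [intervalIntegral.integral_add (c1.intervalIntegrable _ _) (c2.intervalIntegrable _ _)]
  have e5 : ∫ y in (0 : ℝ)..h, Real.sqrt (2 * Real.pi) / P * Real.exp (u + y) *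
      Real.exp (1 / (2 * P ^ 2)) = Real.sqrt (2 * Real.pi) / P * Real.exp (1 / (2 * P ^ 2)) *
      (Real.exp u / T) := by
    have e6 : ∀ y : ℝ, Real.sqrt (2 * Real.pi) / P * Real.exp (u + y) *
        Real.exp (1 / (2 * P ^ 2)) = (Real.sqrt (2 * Real.pi) / P * Real.exp (1 / (2 * P ^ 2)) *
        Real.exp u) * Real.exp y := by
      intro y
      rw [Real.exp_add]
      ring
    simp_rw [e6]
    rw [intervalIntegral.integral_const_mul, integral_exp, Real.exp_zero, hhe,
      Real.exp_log (by positivity)]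
    ring
  rw [e5]
  field_simp
  ring

end Pool.Agent.NH10.SV
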