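import Pool.Agent.NH10.SV.Pb

/-! # The smoothed mean squares are at most the sharp ones -/

set_option autoImplicit false
set_option maxHeartbeats 4000000

open Filter Topology Set MeasureTheory ArithmeticFunction

namespace Pool.Agent.NH10.SV

open Pool.Agent.NH10.GM

lemma SG_cont {T P : ℝ} (hT : 1 ≤ T) (hP : 0 < P) : Continuous (SG T P) := by
  obtain ⟨h, hh⟩ : ∃ h : ℝ, h = Real.log (1 + 1 / T) := ⟨_, rfl⟩
  obtain ⟨f, hf⟩ : ∃ f : ℝ → ℝ, f = fun v => VV P (Real.exp v) := ⟨_, rfl⟩
  have hc : Continuous f := by rw [hf]; exact VV_econt hP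
  have e : SG T P = fun u => P / Real.sqrt (2 * Real.pi) *
      ((∫ v in (0 : ℝ)..(u + h), f v) - ∫ v in (0 : ℝ)..u, f v) := by
    funext u
    rw [SG_eq hT hP, ← hh]
    have h1 := intervalIntegral.integral_comp_add_left (a := (0 : ℝ)) (b := h) f u
    rw [add_zero] at h1
    have h2 : ∫ y in (0 : ℝ)..h, VV P (Real.exp (u + y)) = ∫ v in u..(u + h), f v := by
      rw [← h1, hf]
    rw [h2, intervalIntegral.integral_interval_sub_left (hc.intervalIntegrable _ _)
      (hc.intervalIntegrable _ _)]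
  rw [e]
  have hp : Continuous fun t => ∫ v in (0 : ℝ)..t, f v :=
    intervalIntegral.continuous_primitive (fun a b => hc.intervalIntegrable a b) 0
  exact continuous_const.mul ((hp.comp (continuous_add_const h)).sub hp)

/-- the integrand of the sharp mean square -/
noncomputable def Qu (T t : ℝ) : ℝ := Real.exp (-t) * Su T t ^ 2

lemma Qu_meas (T : ℝ) : Measurable (Qu T) := by
  unfold Qu
  exact (Real.measurable_exp.comp measurable_neg).mul ((Su_meas T).pow_const 2)

lemma Qu_nonneg (T t : ℝ) : 0 ≤ Qu T t := mul_nonneg (Real.exp_pos _).le (sq_nonneg _)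

lemma Qu_le {T : ℝ} (hT : 1 ≤ T) (t : ℝ) : Qu T t ≤ 400 * Real.exp t := by
  unfold Qu
  have h1 := Su_le hT t
  have h2 : Su T t ^ 2 ≤ 400 * (Real.exp t * Real.exp t) := by
    rw [← sq_abs]
    refine (pow_le_pow_left₀ (abs_nonneg _) h1 2).trans (le_of_eq ?_)
    ring
  calc Real.exp (-t) * Su T t ^ 2 ≤ Real.exp (-t) * (400 * (Real.exp t * Real.exp t)) :=
        mul_le_mul_of_nonneg_left h2 (Real.exp_pos _).le
    _ = 400 * Real.exp t := by
        rw [Real.exp_neg]
        have := Real.exp_pos t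
        field_simp

lemma Qu_ii {T : ℝ} (hT : 1 ≤ T) (a b : ℝ) : IntervalIntegrable (Qu T) volume a b := by
  have key : ∀ a b : ℝ, a ≤ b → IntervalIntegrable (Qu T) volume a b := by
    intro a b hab
    rw [intervalIntegrable_iff_integrableOn_Ioc_of_le hab]
    refine Measure.integrableOn_of_bounded (M := 400 * Real.exp b) (by simp)
      (Qu_meas T).aestronglyMeasurable ?_
    refine (ae_restrict_mem measurableSet_Ioc).mono fun c hc => ?_
    rw [Real.norm_of_nonneg (Qu_nonneg T c)]
    refine (Qu_le hT c).trans ?_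
    have := Real.exp_le_exp.2 hc.2
    linarith
  rcases le_total a b with h | h
  · exact key a b h
  · exact (key b a h).symm

/-- **the smoothed mean squares** -/
theorem win_SG {T P ω α β : ℝ} (hT : 1 ≤ T) (hP : 0 < P) (hω : 0 ≤ ω) (hαβ : α ≤ β) :
    ∫ u in α..β, Real.exp (-u) * SG T P u ^ 2 ≤
      Real.exp ω * (∫ t in (α - ω)..(β + ω), Qu T t) +
      (β - α) * (800 * Real.exp β * Real.exp (-(P ^ 2 * ω ^ 2 / 4)) * Real.exp (4 / P ^ 2)) := by
  obtain ⟨k, hk⟩ : ∃ k : ℝ → ℝ, k = (Ioc (α - ω - 0) (β + ω)).indicator (Qu T) := ⟨_, rfl⟩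
  rw [sub_zero] at hk
  have hs2 : Real.sqrt 2 ^ 2 = 2 := Real.sq_sqrt (by norm_num)
  have hs : 0 < Real.sqrt 2 := Real.sqrt_pos.2 (by norm_num)
  have hP2 : 0 < P / Real.sqrt 2 := by positivity
  have hle : α - ω ≤ β + ω := by linarith
  have hkint : Integrable k := by
    rw [hk]
    have h1 := Qu_ii hT (α - ω) (β + ω)
    rw [intervalIntegrable_iff_integrableOn_Ioc_of_le hle] at h1
    exact h1.integrable_indicator measurableSet_Ioc
  have hk0 : ∀ t, 0 ≤ k t := by
    intro t
    rw [hk]
    exact indicator_nonneg (fun t _ => Qu_nonneg T t) t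
  have hkm : Measurable k := by
    rw [hk]
    exact (Qu_meas T).indicator measurableSet_Ioc
  have hkb : ∀ t, k t ≤ 400 * Real.exp (β + ω) := by
    intro t
    rw [hk]
    by_cases h : t ∈ Ioc (α - ω) (β + ω)
    · rw [indicator_of_mem h]
      refine (Qu_le hT t).trans ?_
      have := Real.exp_le_exp.2 h.2
      linarith
    · rw [indicator_of_notMem h]
      positivity
  obtain ⟨g1, g2⟩ := gk_int hP
  obtain ⟨f1, f2⟩ := gk_exp hP2 (-2)
  have f3 : Real.exp ((-2) ^ 2 / (2 * (P / Real.sqrt 2) ^ 2)) = Real.exp (4 / P ^ 2) := by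
    rw [div_pow, hs2]
    congr 1
    field_simp
    norm_num
  rw [f3] at f2
  -- the convolution
  obtain ⟨cv, hcv⟩ : ∃ cv : ℝ → ℝ, cv = fun u => ∫ w, gk P w * k (u - w) := ⟨_, rfl⟩
  have hcve : cv = convolution (gk P) k (ContinuousLinearMap.mul ℝ ℝ) volume := by
    rw [hcv]
    rfl
  have hcvi : Integrable cv := by
    rw [hcve]
    exact g1.integrable_convolution (ContinuousLinearMap.mul ℝ ℝ) hkint
  have hcvt : ∫ u, cv u = ∫ t in (α - ω)..(β + ω), Qu T t := by
    rw [hcve, integral_convolution (ContinuousLinearMap.mul ℝ ℝ) g1 hkint, g2]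
    simp only [ContinuousLinearMap.mul_apply', one_mul]
    rw [hk, integral_indicator measurableSet_Ioc, intervalIntegral.integral_of_le hle]
  have hcv0 : ∀ u, 0 ≤ cv u := by
    intro u
    rw [hcv]
    exact integral_nonneg fun w => mul_nonneg (gk_pos hP w).le (hk0 _)
  -- the pointwise bound
  have hpt : ∀ u ∈ Icc α β, Real.exp (-u) * SG T P u ^ 2 ≤ Real.exp ω * cv u +
      800 * Real.exp β * Real.exp (-(P ^ 2 * ω ^ 2 / 4)) * Real.exp (4 / P ^ 2) := by
    intro u hu
    have h1 := mul_le_mul_of_nonneg_left (SG_sq hT hP u) (Real.exp_pos (-u)).le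
    have i1 : Integrable fun w => Real.exp ω * (gk P w * k (u - w)) := by
      refine (Integrable.mul_bdd (c := 400 * Real.exp (β + ω)) g1
        (hkm.comp (by fun_prop)).aestronglyMeasurable (ae_of_all _ fun w => ?_)).const_mul _
      show ‖k (u - w)‖ ≤ _
      rw [Real.norm_of_nonneg (hk0 _)]
      exact hkb _
    have i2 : Integrable fun w => 800 * Real.exp u * Real.exp (-(P ^ 2 * ω ^ 2 / 4)) *
        (gk (P / Real.sqrt 2) w * Real.exp (-2 * w)) := f1.const_mul _
    have h2 : Real.exp (-u) * (∫ w, gk P w * Su T (u - w) ^ 2) ≤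
        ∫ w, (Real.exp ω * (gk P w * k (u - w)) + 800 * Real.exp u *
          Real.exp (-(P ^ 2 * ω ^ 2 / 4)) * (gk (P / Real.sqrt 2) w * Real.exp (-2 * w))) := by
      rw [← integral_const_mul]
      refine integral_mono ((SG_sq_int hT hP u).const_mul _) (i1.add i2) fun w => ?_
      show Real.exp (-u) * (gk P w * Su T (u - w) ^ 2) ≤ Real.exp ω * (gk P w * k (u - w)) +
        800 * Real.exp u * Real.exp (-(P ^ 2 * ω ^ 2 / 4)) *
          (gk (P / Real.sqrt 2) w * Real.exp (-2 * w))
      have hg := gk_pos hP w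
      have hg2 := gk_pos hP2 w
      have e1 : Real.exp (-u) * (gk P w * Su T (u - w) ^ 2) =
          Real.exp (-w) * (gk P w * Qu T (u - w)) := by
        unfold Qu
        have : Real.exp (-u) = Real.exp (-w) * Real.exp (-(u - w)) := by
          rw [← Real.exp_add]; congr 1; ring
        rw [this]
        ring
      rw [e1]
      rcases lt_or_ge |w| ω with hw | hw
      · have hw' := abs_lt.1 hw
        have hmem : u - w ∈ Ioc (α - ω) (β + ω) := ⟨by linarith [hu.1], by linarith [hu.2]⟩
        have e2 : k (u - w) = Qu T (u - w) := by rw [hk, indicator_of_mem hmem]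
        rw [e2]
        have h3 : Real.exp (-w) ≤ Real.exp ω := Real.exp_le_exp.2 (by linarith)
        have h4 : 0 ≤ gk P w * Qu T (u - w) := mul_nonneg hg.le (Qu_nonneg _ _)
        have h5 := mul_le_mul_of_nonneg_right h3 h4
        have h6 : 0 ≤ 800 * Real.exp u * Real.exp (-(P ^ 2 * ω ^ 2 / 4)) *
          (gk (P / Real.sqrt 2) w * Real.exp (-2 * w)) := by positivity
        linarith
      · have h3 := gk_far hP hω hw
        have h4 : Qu T (u - w) ≤ 400 * (Real.exp u * Real.exp (-w)) := by
          rw [← Real.exp_add]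
          exact Qu_le hT _
        have h5 : Real.exp (-w) * (gk P w * Qu T (u - w)) ≤ Real.exp (-w) *
            ((2 * Real.exp (-(P ^ 2 * ω ^ 2 / 4)) * gk (P / Real.sqrt 2) w) *
            (400 * (Real.exp u * Real.exp (-w)))) := by
          refine mul_le_mul_of_nonneg_left ?_ (Real.exp_pos _).le
          exact mul_le_mul h3 h4 (Qu_nonneg _ _) (by positivity)
        have h6 : Real.exp (-w) * ((2 * Real.exp (-(P ^ 2 * ω ^ 2 / 4)) *
            gk (P / Real.sqrt 2) w) * (400 * (Real.exp u * Real.exp (-w)))) =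
            800 * Real.exp u * Real.exp (-(P ^ 2 * ω ^ 2 / 4)) *
          (gk (P / Real.sqrt 2) w * Real.exp (-2 * w)) := by
          have : Real.exp (-2 * w) = Real.exp (-w) * Real.exp (-w) := by
            rw [← Real.exp_add]; congr 1; ring
          rw [this]
          ring
        have h7 : 0 ≤ Real.exp ω * (gk P w * k (u - w)) :=
          mul_nonneg (Real.exp_pos _).le (mul_nonneg hg.le (hk0 _))
        linarith
    rw [integral_add i1 i2, integral_const_mul, integral_const_mul, f2] at h2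
    have e3 : ∫ w, gk P w * k (u - w) = cv u := by rw [hcv]
    rw [e3] at h2
    have h8 : Real.exp u ≤ Real.exp β := Real.exp_le_exp.2 hu.2
    have h9 : 800 * Real.exp u * Real.exp (-(P ^ 2 * ω ^ 2 / 4)) * Real.exp (4 / P ^ 2) ≤
        800 * Real.exp β * Real.exp (-(P ^ 2 * ω ^ 2 / 4)) * Real.exp (4 / P ^ 2) := by gcongr
    linarith
  have c1 : Continuous fun u => Real.exp (-u) * SG T P u ^ 2 := by
    have := SG_cont hT hP
    fun_prop
  have i3 : IntervalIntegrable (fun u => Real.exp ω * cv u +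
      800 * Real.exp β * Real.exp (-(P ^ 2 * ω ^ 2 / 4)) * Real.exp (4 / P ^ 2)) volume α β :=
    ((hcvi.const_mul _).intervalIntegrable).add (by simp)
  have h1 := intervalIntegral.integral_mono_on hαβ (c1.intervalIntegrable _ _) i3 hpt
  rw [intervalIntegral.integral_add (hcvi.const_mul _).intervalIntegrable (by simp),
    intervalIntegral.integral_const_mul, intervalIntegral.integral_const, smul_eq_mul] at h1
  refine h1.trans (add_le_add ?_ le_rfl)
  refine mul_le_mul_of_nonneg_left ?_ (Real.exp_pos _).le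
  rw [← hcvt, intervalIntegral.integral_of_le hαβ]
  exact setIntegral_le_integral hcvi (ae_of_all _ hcv0)

end Pool.Agent.NH10.SV
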