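import Pool.Agent.NH10.SV.ZC
import Pool.Agent.NH10.SV.Pc

/-! # The explicit formula for the smoothed sharp windows -/

set_option autoImplicit false
set_option maxHeartbeats 4000000

open Filter Topology Set MeasureTheory ArithmeticFunction

namespace Pool.Agent.NH10.SV

open Pool.Agent.Y749.Rig hiding PT
open Pool.Agent.NH10.GM

/-- the number of zeros -/
lemma nn_bd : ∃ C : ℝ, 0 < C ∧ ∀ y : ℝ, 0 ≤ y →
    ∑ s ∈ ZZ y, mm s ≤ C * ((y + 10) * Real.log (y + 10)) := by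
  obtain ⟨T0, hT0, h⟩ := Pool.Agent.W54.TCF.NT_asymp' 1 one_pos
  obtain ⟨n0, hn0⟩ : ∃ n0 : ℝ, n0 = ∑ s ∈ ZZ T0, mm s := ⟨_, rfl⟩
  have hn00 : 0 ≤ n0 := by rw [hn0]; exact Finset.sum_nonneg fun s _ => mm_nonneg s
  refine ⟨n0 + 1, by linarith, fun y hy => ?_⟩
  have hpi := Real.pi_gt_three
  have hl : 1 ≤ Real.log (y + 10) := (one_lt_log (show 3 ≤ y + 10 by linarith)).le
  have hX : 1 ≤ (y + 10) * Real.log (y + 10) := by nlinarith
  rcases le_or_gt T0 y with h1 | h1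
  · have h2 := (h y h1).2
    have e : (∑ s ∈ ZZ y, mm s) = (H370.NN riemannZeta 0 y : ℝ) := by
      rw [ZZ_eq]
      exact Pool.Agent.Y744.sum_Zt y
    rw [← e] at h2
    have hy1 : 1 < Real.log y := one_lt_log (by linarith)
    have h3 : Real.log y ≤ Real.log (y + 10) := Real.log_le_log (by linarith) (by linarith)
    have h4 : (1 + 1) * (y / (2 * Real.pi) * Real.log y) ≤ y * Real.log y := by
      have : (1 + 1) * (y / (2 * Real.pi) * Real.log y) = y * Real.log y / Real.pi := by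
        field_simp
        ring
      rw [this, div_le_iff₀ (by linarith)]
      have : 0 ≤ y * Real.log y := by positivity
      nlinarith
    have h5 : y * Real.log y ≤ (y + 10) * Real.log (y + 10) := by
      apply mul_le_mul (by linarith) h3 (by linarith) (by linarith)
    nlinarith
  · have h2 : ∑ s ∈ ZZ y, mm s ≤ n0 := by
      rw [hn0]
      exact Finset.sum_le_sum_of_subset_of_nonneg (ZZ_mono h1.le) fun s _ _ => mm_nonneg s
    nlinarith

/-- the total weight -/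
lemma zc : ∃ C : ℝ, 0 < C ∧ ∀ P : ℝ, 10 ≤ P → ∀ Y : ℝ,
    ∑ s ∈ ZZ Y, mm s * Real.exp (-(s.im ^ 2 / (2 * P ^ 2))) ≤ C * (P * Real.log P) := by
  obtain ⟨C, hC, hN⟩ := nn_bd
  obtain ⟨I, hI⟩ : ∃ I : ℝ, I = ∫ c in Ioi (0 : ℝ), gd c * (1 + 2 * c) ^ 2 := ⟨_, rfl⟩
  have hI0 : 0 ≤ I := by
    rw [hI]
    exact setIntegral_nonneg measurableSet_Ioi fun c hc => mul_nonneg (gd_nonneg (le_of_lt hc))
      (sq_nonneg _)
  refine ⟨C * I + 1, by positivity, fun P hP Y => ?_⟩
  have hLP : 1 < Real.log P := one_lt_log (by linarith)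
  have hP0 : 0 < P := by linarith
  have hs2 : Real.sqrt 2 ^ 2 = 2 := Real.sq_sqrt (by norm_num)
  have hs : 0 < Real.sqrt 2 := Real.sqrt_pos.2 (by norm_num)
  have hsle : Real.sqrt 2 ≤ 2 := by
    rw [Real.sqrt_le_left (by norm_num)]
    norm_num
  obtain ⟨τ, hτ⟩ : ∃ τ : ℝ, τ = Real.sqrt 2 * P := ⟨_, rfl⟩
  have hτ0 : 0 < τ := by rw [hτ]; positivity
  have hτ2 : τ ≤ 2 * P := by rw [hτ]; nlinarith
  have him : ∀ s ∈ ZZ Y, 0 ≤ s.im := by
    intro s hs
    rw [mem_ZZ] at hs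
    exact (zs_im_pos hs).le
  have e1 : ∑ s ∈ ZZ Y, mm s * Real.exp (-(s.im ^ 2 / (2 * P ^ 2))) =
      ∫ c in Ioi (0 : ℝ), ∑ s ∈ ZZ Y, gd c * (if s.im ≤ c * τ then mm s else 0) := by
    rw [integral_finsetSum _ fun s hs => (gd_ind (him s hs) hτ0 _).1]
    refine Finset.sum_congr rfl fun s hs => ?_
    rw [(gd_ind (him s hs) hτ0 _).2]
    congr 2
    rw [hτ, div_pow, mul_pow, hs2]
  have i1 : IntegrableOn (fun c => ∑ s ∈ ZZ Y, gd c * (if s.im ≤ c * τ then mm s else 0))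
      (Ioi 0) := integrable_finsetSum _ fun s hs => (gd_ind (him s hs) hτ0 _).1
  have i2 : IntegrableOn (fun c => C * (P * Real.log P) * (gd c * (1 + 2 * c) ^ 2)) (Ioi 0) :=
    (gd_poly_int 2).const_mul _
  have h1 : ∫ c in Ioi (0 : ℝ), ∑ s ∈ ZZ Y, gd c * (if s.im ≤ c * τ then mm s else 0) ≤
      ∫ c in Ioi (0 : ℝ), C * (P * Real.log P) * (gd c * (1 + 2 * c) ^ 2) := by
    refine setIntegral_mono_on i1 i2 measurableSet_Ioi fun c hc => ?_
    have hc0 : (0 : ℝ) < c := hc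
    rw [← Finset.mul_sum, ← Finset.sum_filter]
    have h2 : ∑ s ∈ (ZZ Y).filter (fun s => s.im ≤ c * τ), mm s ≤ ∑ s ∈ ZZ (c * τ), mm s := by
      refine Finset.sum_le_sum_of_subset_of_nonneg ?_ fun s _ _ => mm_nonneg s
      rw [← ZZ_min]
      exact ZZ_mono (min_le_left _ _)
    have h3 := hN (c * τ) (by positivity)
    have b2 : c * τ + 10 ≤ P * (1 + 2 * c) := by nlinarith
    have b3 : Real.log (c * τ + 10) ≤ Real.log P * (1 + 2 * c) := by
      refine (Real.log_le_log (by positivity) b2).trans ?_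
      rw [Real.log_mul (by positivity) (by positivity)]
      have b4 : Real.log (1 + 2 * c) ≤ 2 * c := by
        have := Real.log_le_sub_one_of_pos (show 0 < 1 + 2 * c by positivity)
        linarith
      nlinarith
    have b5 : 0 ≤ Real.log (c * τ + 10) := Real.log_nonneg (by
      have : 0 ≤ c * τ := by positivity
      linarith)
    have h4 : C * ((c * τ + 10) * Real.log (c * τ + 10)) ≤
        C * (P * Real.log P) * (1 + 2 * c) ^ 2 := by
      calc C * ((c * τ + 10) * Real.log (c * τ + 10)) ≤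
            C * ((P * (1 + 2 * c)) * (Real.log P * (1 + 2 * c))) := by gcongr
        _ = _ := by ring
    calc gd c * ∑ s ∈ (ZZ Y).filter (fun s => s.im ≤ c * τ), mm s ≤
          gd c * (C * (P * Real.log P) * (1 + 2 * c) ^ 2) :=
          mul_le_mul_of_nonneg_left (h2.trans (h3.trans h4)) (gd_nonneg hc0.le)
      _ = _ := by ring
  rw [integral_const_mul, ← hI] at h1
  rw [e1]
  refine h1.trans ?_
  have : 0 ≤ P * Real.log P := by positivity
  nlinarith

lemma Zr_bd : ∃ C : ℝ, 0 < C ∧ ∀ P : ℝ, 10 ≤ P → ∀ Y u : ℝ,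
    |Zr P Y u| ≤ C * (P * Real.log P) := by
  obtain ⟨C, hC, h⟩ := zc
  refine ⟨2 * C, by positivity, fun P hP Y u => ?_⟩
  unfold Zr
  refine (Finset.abs_sum_le_sum_abs _ _).trans ?_
  have h1 : ∑ s ∈ ZZ Y, |mm s * (2 * Real.cos (u * s.im) * Real.exp (-(s.im ^ 2 / (2 * P ^ 2))))| ≤
      2 * ∑ s ∈ ZZ Y, mm s * Real.exp (-(s.im ^ 2 / (2 * P ^ 2))) := by
    rw [Finset.mul_sum]
    refine Finset.sum_le_sum fun s _ => ?_
    rw [abs_mul, abs_mul, abs_mul, abs_of_nonneg (mm_nonneg s), abs_of_pos (Real.exp_pos _),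
      abs_of_pos (show (0 : ℝ) < 2 by norm_num)]
    have h2 := Real.abs_cos_le_one (u * s.im)
    have h3 := mm_nonneg s
    calc mm s * (2 * |Real.cos (u * s.im)| * Real.exp (-(s.im ^ 2 / (2 * P ^ 2)))) ≤
          mm s * (2 * 1 * Real.exp (-(s.im ^ 2 / (2 * P ^ 2)))) := by gcongr
      _ = _ := by ring
  have h2 := h P hP Y
  linarith

/-- the sums for sharp windows are integrals -/
lemma Zs_eq {T : ℝ} (hT : 0 < T) (P Y v : ℝ) :
    Zs T P Y (v + 1 / (2 * T)) = T * ∫ y in (0 : ℝ)..(1 / T), Zr P Y (v + y) := by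
  have him : ∀ s ∈ ZZ Y, 0 < s.im := by
    intro s hs
    rw [mem_ZZ] at hs
    exact zs_im_pos hs
  unfold Zr
  rw [intervalIntegral.integral_finsetSum fun s _ =>
    (by fun_prop : Continuous fun y : ℝ => mm s * (2 * Real.cos ((v + y) * s.im) *
      Real.exp (-(s.im ^ 2 / (2 * P ^ 2))))).intervalIntegrable _ _, Finset.mul_sum]
  unfold Zs
  refine Finset.sum_congr rfl fun s hs => ?_
  have hg := him s hs
  have e1 : ∫ y in (0 : ℝ)..(1 / T), mm s * (2 * Real.cos ((v + y) * s.im) *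
      Real.exp (-(s.im ^ 2 / (2 * P ^ 2)))) = (mm s * 2 * Real.exp (-(s.im ^ 2 / (2 * P ^ 2)))) *
      ∫ y in (0 : ℝ)..(1 / T), Real.cos (s.im * y + v * s.im) := by
    rw [← intervalIntegral.integral_const_mul]
    refine intervalIntegral.integral_congr fun y _ => ?_
    show mm s * (2 * Real.cos ((v + y) * s.im) * Real.exp (-(s.im ^ 2 / (2 * P ^ 2)))) =
      mm s * 2 * Real.exp (-(s.im ^ 2 / (2 * P ^ 2))) * Real.cos (s.im * y + v * s.im)
    have : (v + y) * s.im = s.im * y + v * s.im := by ring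
    rw [this]
    ring
  have e2 : ∫ y in (0 : ℝ)..(1 / T), Real.cos (s.im * y + v * s.im) =
      s.im⁻¹ * (Real.sin (s.im * (1 / T) + v * s.im) - Real.sin (v * s.im)) := by
    rw [intervalIntegral.integral_comp_mul_add (fun x => Real.cos x) hg.ne', integral_cos,
      smul_eq_mul, mul_zero, zero_add]
  have e3 : Real.sin (s.im * (1 / T) + v * s.im) - Real.sin (v * s.im) =
      2 * Real.sin (s.im / (2 * T)) * Real.cos ((v + 1 / (2 * T)) * s.im) := by
    rw [Real.sin_sub_sin]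
    congr 2
    · congr 1
      field_simp
      ring
    · field_simp
      ring
  rw [e1, e2, e3]
  unfold sc
  rw [Real.sinc_of_ne_zero (by positivity)]
  field_simp

/-- **the explicit formula for the smoothed sharp windows** -/
lemma EFs {Yf : ℝ → ℝ} (hE : EFp Yf) {B : ℝ} (hB : 0 ≤ B) : ∃ C T₀ : ℝ, 0 < C ∧ 10 ≤ T₀ ∧
    ∀ T P : ℝ, T₀ ≤ T → T ≤ P → ∀ u : ℝ, 0 ≤ u → u ≤ B * Real.log T →
      |T * (Real.exp (-(u / 2)) * SG T P u) +
        Zs T P (Yf P) (u + 1 / (2 * P ^ 2) + 1 / (2 * T))| ≤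
        C * (Real.exp (-u) * (P * Real.log P) + 1 + P * Real.log P / T) := by
  obtain ⟨C, T₀, hC, hT₀, hEF⟩ := hE (B + 2) (by linarith)
  obtain ⟨C2, hC2, hZ⟩ := Zr_bd
  refine ⟨3 * C + 5 * C2, T₀, by positivity, hT₀, fun T P hT hPT u hu huB => ?_⟩
  have hT10 : 10 ≤ T := hT₀.trans hT
  have hT0 : 0 < T := by linarith
  have hP0 : 0 < P := by linarith
  have hL := one_lt_log (show 3 ≤ T by linarith)
  have hLP := one_lt_log (show 3 ≤ P by linarith)
  have hLL : Real.log T ≤ Real.log P := Real.log_le_log hT0 hPT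
  obtain ⟨h, hh⟩ : ∃ h : ℝ, h = Real.log (1 + 1 / T) := ⟨_, rfl⟩
  have h1T : (0 : ℝ) < 1 / T := by positivity
  have hh0 : 0 < h := by rw [hh]; exact hT_pos hT0
  have hh1 : h ≤ 1 / T := by
    rw [hh]
    have := Real.log_le_sub_one_of_pos (show 0 < 1 + 1 / T by linarith)
    linarith
  have hh2 : 1 / T - h ≤ 1 / T ^ 2 := by
    have h3 := Real.one_sub_inv_le_log_of_pos (show 0 < 1 + 1 / T by linarith)
    rw [← hh] at h3
    have h4 : 1 / T - (1 - (1 + 1 / T)⁻¹) ≤ 1 / T ^ 2 := by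
      have e : 1 / T - (1 - (1 + 1 / T)⁻¹) = 1 / (T * (T + 1)) := by
        field_simp
        ring
      rw [e]
      apply one_div_le_one_div_of_le (by positivity)
      nlinarith
    linarith
  have hinvT : 1 / T ≤ 1 / 10 := one_div_le_one_div_of_le (by norm_num) hT10
  have hinvP2 : 1 / P ^ 2 ≤ 1 / T ^ 2 :=
    one_div_le_one_div_of_le (by positivity) (pow_le_pow_left₀ hT0.le hPT 2)
  have hinvT2 : 1 / T ^ 2 ≤ 1 / T := by
    apply one_div_le_one_div_of_le hT0
    nlinarith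
  obtain ⟨σ, hσ⟩ : ∃ σ : ℝ, σ = 1 / (2 * P ^ 2) := ⟨_, rfl⟩
  have hσ0 : 0 < σ := by rw [hσ]; positivity
  have hσe : σ = 1 / P ^ 2 / 2 := by rw [hσ]; field_simp
  have hσ1 : σ ≤ 1 / T := by rw [hσe]; linarith
  obtain ⟨ρ, hρ⟩ : ∃ ρ : ℝ, ρ = 1 / (8 * P ^ 2) := ⟨_, rfl⟩
  have hρ0 : 0 < ρ := by rw [hρ]; positivity
  have hρe : ρ = 1 / P ^ 2 / 8 := by rw [hρ]; field_simp
  have hρ1 : ρ ≤ 1 / T / 8 := by rw [hρe]; linarith
  obtain ⟨A, hA⟩ : ∃ A : ℝ → ℝ, A = fun y => Zr P (Yf P) (u + σ + y) := ⟨_, rfl⟩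
  obtain ⟨V, hV⟩ : ∃ V : ℝ → ℝ, V = fun y => P / Real.sqrt (2 * Real.pi) * Vs P (u + σ + y) :=
    ⟨_, rfl⟩
  obtain ⟨M, hM⟩ : ∃ M : ℝ, M = C2 * (P * Real.log P) := ⟨_, rfl⟩
  have hM0 : 0 < M := by rw [hM]; positivity
  have hAM : ∀ y, |A y| ≤ M := by
    intro y
    rw [hA, hM]
    exact hZ P (by linarith) _ _
  have hAc : Continuous A := by
    rw [hA]
    exact (Zr_cont P (Yf P)).comp (continuous_const_add _)
  have hVc : Continuous V := by
    rw [hV]
    exact continuous_const.mul ((Vs_cont hP0).comp (continuous_const_add _))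
  obtain ⟨X, hX⟩ : ∃ X : ℝ, X = Real.exp (-u) * (P * Real.log P) + 1 := ⟨_, rfl⟩
  have hX0 : 0 < X := by rw [hX]; positivity
  have hAV : ∀ y ∈ Icc 0 (1 / T), |A y + V y| ≤ C * X := by
    intro y hy
    rw [hA, hV]
    have h3 := hEF P (by linarith) (u + σ + y) (by linarith [hy.1]) (by
      have h4 : B * Real.log T ≤ B * Real.log P := mul_le_mul_of_nonneg_left hLL hB
      have h5 : y ≤ 1 := by linarith [hy.2]
      have h6 : σ ≤ 1 := by linarith
      nlinarith)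
    refine h3.trans (mul_le_mul_of_nonneg_left ?_ hC.le)
    rw [hX]
    have h4 : Real.exp (-(u + σ + y)) ≤ Real.exp (-u) :=
      Real.exp_le_exp.2 (by linarith [hy.1])
    have h5 : 0 ≤ P * Real.log P := by positivity
    nlinarith [mul_le_mul_of_nonneg_right h4 h5]
  -- the smoothed window
  have eS : Real.exp (-(u / 2)) * SG T P u = ∫ y in (0 : ℝ)..h, Real.exp (y / 2 + ρ) * V y := by
    rw [SG_eq (by linarith) hP0, ← hh, ← intervalIntegral.integral_const_mul,
      ← intervalIntegral.integral_const_mul]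
    refine intervalIntegral.integral_congr fun y _ => ?_
    show Real.exp (-(u / 2)) * (P / Real.sqrt (2 * Real.pi) * VV P (Real.exp (u + y))) =
      Real.exp (y / 2 + ρ) * V y
    rw [VV_eq hP0 (Real.exp_pos _), Real.log_exp, hV, ← hρ, ← hσ]
    have e1 : Real.exp (y / 2 + ρ) = Real.exp (-(u / 2)) * Real.exp ((u + y) / 2 + ρ) := by
      rw [← Real.exp_add]
      congr 1
      ring
    have e2 : u + y + σ = u + σ + y := by ring
    rw [e1, e2]
    ring
  have eZ : Zs T P (Yf P) (u + σ + 1 / (2 * T)) = T * ∫ y in (0 : ℝ)..(1 / T), A y := by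
    rw [Zs_eq hT0, hA]
  have hc1 : Continuous fun y : ℝ => Real.exp (y / 2 + ρ) := by fun_prop
  have eA : ∫ y in (0 : ℝ)..(1 / T), A y = (∫ y in (0 : ℝ)..h, A y) + ∫ y in h..(1 / T), A y :=
    (intervalIntegral.integral_add_adjacent_intervals (hAc.intervalIntegrable _ _)
      (hAc.intervalIntegrable _ _)).symm
  have e3 : (∫ y in (0 : ℝ)..h, Real.exp (y / 2 + ρ) * V y) + ∫ y in (0 : ℝ)..h, A y =
      (∫ y in (0 : ℝ)..h, Real.exp (y / 2 + ρ) * (A y + V y)) +
      ∫ y in (0 : ℝ)..h, (1 - Real.exp (y / 2 + ρ)) * A y := by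
    have j1 : IntervalIntegrable (fun y => Real.exp (y / 2 + ρ) * V y) volume 0 h :=
      (hc1.mul hVc).intervalIntegrable _ _
    have j2 : IntervalIntegrable (fun y => A y) volume 0 h := hAc.intervalIntegrable _ _
    have j3 : IntervalIntegrable (fun y => Real.exp (y / 2 + ρ) * (A y + V y)) volume 0 h :=
      (hc1.mul (hAc.add hVc)).intervalIntegrable _ _
    have j4 : IntervalIntegrable (fun y => (1 - Real.exp (y / 2 + ρ)) * A y) volume 0 h :=
      ((continuous_const.sub hc1).mul hAc).intervalIntegrable _ _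
    rw [← intervalIntegral.integral_add j1 j2, ← intervalIntegral.integral_add j3 j4]
    refine intervalIntegral.integral_congr fun y _ => ?_
    ring
  have hsmall : ∀ y ∈ Icc (0 : ℝ) h, y / 2 + ρ ≤ 1 / T ∧ 0 ≤ y / 2 + ρ := by
    intro y hy
    have h3 := hy.1
    have h4 := hy.2
    constructor
    · linarith
    · linarith
  have hexp3 : Real.exp 1 ≤ 3 := by have := Real.exp_one_lt_d9; linarith
  have hexps : ∀ x : ℝ, 0 ≤ x → x ≤ 1 / 10 → Real.exp x ≤ 1 + 2 * x := by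
    intro x hx hx1
    have h3 := Real.add_one_le_exp (-x)
    rw [Real.exp_neg] at h3
    have h4 := Real.exp_pos x
    have h5 : 0 < 1 - x := by linarith
    have h6 : Real.exp x ≤ (1 - x)⁻¹ := by
      have h7 : (-x + 1) * Real.exp x ≤ 1 := by
        calc (-x + 1) * Real.exp x ≤ (Real.exp x)⁻¹ * Real.exp x :=
              mul_le_mul_of_nonneg_right h3 h4.le
          _ = 1 := inv_mul_cancel₀ h4.ne'
      rw [le_inv_comm₀ h4 h5, ← one_div, le_div_iff₀ h4]
      linarith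
    refine h6.trans ?_
    rw [inv_eq_one_div, div_le_iff₀ h5]
    nlinarith
  have b1 : |∫ y in (0 : ℝ)..h, Real.exp (y / 2 + ρ) * (A y + V y)| ≤ 3 * (C * X) * (1 / T) := by
    rw [← Real.norm_eq_abs]
    have h3 := intervalIntegral.norm_integral_le_of_norm_le_const (a := (0 : ℝ)) (b := h)
      (f := fun y => Real.exp (y / 2 + ρ) * (A y + V y)) (C := 3 * (C * X)) ?_
    · rw [sub_zero, abs_of_pos hh0] at h3
      refine h3.trans (mul_le_mul_of_nonneg_left hh1 (by positivity))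
    · intro y hy
      rw [uIoc_of_le hh0.le] at hy
      have hy' : y ∈ Icc (0 : ℝ) h := ⟨hy.1.le, hy.2⟩
      obtain ⟨k1, k2⟩ := hsmall y hy'
      rw [norm_mul, Real.norm_eq_abs, Real.norm_eq_abs, abs_of_pos (Real.exp_pos _)]
      have k3 : Real.exp (y / 2 + ρ) ≤ 3 := (Real.exp_le_exp.2 (by linarith)).trans hexp3
      exact mul_le_mul k3 (hAV y ⟨hy.1.le, hy.2.trans hh1⟩) (abs_nonneg _) (by norm_num)
  have b2 : |∫ y in (0 : ℝ)..h, (1 - Real.exp (y / 2 + ρ)) * A y| ≤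
      (2 * (1 / T) * M) * (1 / T) := by
    rw [← Real.norm_eq_abs]
    have h3 := intervalIntegral.norm_integral_le_of_norm_le_const (a := (0 : ℝ)) (b := h)
      (f := fun y => (1 - Real.exp (y / 2 + ρ)) * A y) (C := 2 * (1 / T) * M) ?_
    · rw [sub_zero, abs_of_pos hh0] at h3
      refine h3.trans (mul_le_mul_of_nonneg_left hh1 (by positivity))
    · intro y hy
      rw [uIoc_of_le hh0.le] at hy
      have hy' : y ∈ Icc (0 : ℝ) h := ⟨hy.1.le, hy.2⟩
      obtain ⟨k1, k2⟩ := hsmall y hy'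
      rw [norm_mul, Real.norm_eq_abs, Real.norm_eq_abs]
      have k3 := hexps (y / 2 + ρ) k2 (by linarith)
      have k4 : 1 ≤ Real.exp (y / 2 + ρ) := Real.one_le_exp k2
      have k5 : |1 - Real.exp (y / 2 + ρ)| ≤ 2 * (1 / T) := by
        rw [abs_of_nonpos (by linarith)]
        linarith
      exact mul_le_mul k5 (hAM y) (abs_nonneg _) (by positivity)
  have b3 : |∫ y in h..(1 / T), A y| ≤ M * (1 / T ^ 2) := by
    rw [← Real.norm_eq_abs]
    have h3 := intervalIntegral.norm_integral_le_of_norm_le_const (a := h) (b := 1 / T)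
      (f := A) (C := M) fun y _ => by rw [Real.norm_eq_abs]; exact hAM y
    rw [abs_of_nonneg (by linarith)] at h3
    exact h3.trans (mul_le_mul_of_nonneg_left hh2 hM0.le)
  rw [← hσ, eZ, eS, ← mul_add, abs_mul, abs_of_pos hT0, eA, ← add_assoc, e3]
  have b4 : |(∫ y in (0 : ℝ)..h, Real.exp (y / 2 + ρ) * (A y + V y)) +
      (∫ y in (0 : ℝ)..h, (1 - Real.exp (y / 2 + ρ)) * A y) + ∫ y in h..(1 / T), A y| ≤
      3 * (C * X) * (1 / T) + (2 * (1 / T) * M) * (1 / T) + M * (1 / T ^ 2) :=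
    (abs_add_le _ _).trans (add_le_add ((abs_add_le _ _).trans (add_le_add b1 b2)) b3)
  refine (mul_le_mul_of_nonneg_left b4 hT0.le).trans ?_
  have e5 : T * (3 * (C * X) * (1 / T) + (2 * (1 / T) * M) * (1 / T) + M * (1 / T ^ 2)) =
      3 * C * X + 3 * C2 * (P * Real.log P / T) := by
    rw [hM]
    field_simp
    ring
  rw [e5]
  have h6 : 0 ≤ P * Real.log P / T := by positivity
  have e6 : Real.exp (-u) * (P * Real.log P) + 1 + P * Real.log P / T =
    X + P * Real.log P / T := by rw [hX]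
  rw [e6]
  nlinarith [mul_pos hC2 hX0, mul_nonneg hC.le h6, mul_nonneg hC2.le h6]

end Pool.Agent.NH10.SV
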