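import Pool.Agent.NH10.SV.RHof

/-! # A bound for the variance of the primes in short intervals implies the Riemann hypothesis -/

set_option autoImplicit false
set_option maxHeartbeats 4000000

open MeasureTheory Filter Topology Set

namespace Pool.Agent.NH10.SV

/-- the primes in `(x, x + x/T]` minus the expected value -/
noncomputable def Sx (T x : ℝ) : ℝ := Chebyshev.psi (x + x / T) - Chebyshev.psi x - x / T

/-- the normalised mean square -/
noncomputable def Js (T a b : ℝ) : ℝ :=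
  T / Real.log T ^ 2 * ∫ x in (T ^ a)..(T ^ b), Sx T x ^ 2 / x ^ 2

/-- the primes in `(x, 2x]` minus the expected value -/
noncomputable def Hx (x : ℝ) : ℝ := Chebyshev.psi (2 * x) - Chebyshev.psi x - x

lemma psi_meas : Measurable Chebyshev.psi := Chebyshev.psi_mono.measurable

lemma Sx_meas (T : ℝ) : Measurable (Sx T) := by
  unfold Sx
  exact ((psi_meas.comp (by fun_prop)).sub psi_meas).sub (by fun_prop)

lemma Hx_meas : Measurable Hx := by
  unfold Hx
  exact ((psi_meas.comp (by fun_prop)).sub psi_meas).sub (by fun_prop)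

lemma psi_le6 {x : ℝ} (hx : 0 ≤ x) : Chebyshev.psi x ≤ 6 * x := by
  refine (Chebyshev.psi_le_const_mul_self hx).trans (mul_le_mul_of_nonneg_right ?_ hx)
  have h1 : Real.log 4 = 2 * Real.log 2 := by
    rw [show (4 : ℝ) = 2 ^ 2 by norm_num, Real.log_pow]
    norm_num
  have := Real.log_two_lt_d9
  rw [h1]
  linarith

lemma Hx_le {x : ℝ} (hx : 0 ≤ x) : |Hx x| ≤ 20 * x := by
  unfold Hx
  have h1 := psi_le6 (show 0 ≤ 2 * x by linarith)
  have h2 := psi_le6 hx
  have h3 := Chebyshev.psi_nonneg (2 * x)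
  have h4 := Chebyshev.psi_nonneg x
  rw [abs_le]
  constructor <;> linarith

lemma Sx_le {T x : ℝ} (hT : 1 ≤ T) (hx : 0 ≤ x) : |Sx T x| ≤ 20 * x := by
  unfold Sx
  have h0 : x / T ≤ x := div_le_self hx hT
  have h00 : 0 ≤ x / T := div_nonneg hx (by linarith)
  have h1 := psi_le6 (show 0 ≤ x + x / T by linarith)
  have h2 := psi_le6 hx
  have h3 := Chebyshev.psi_nonneg (x + x / T)
  have h4 := Chebyshev.psi_nonneg x
  rw [abs_le]
  constructor <;> linarith

lemma Sx_q {T x : ℝ} (hT : 1 ≤ T) (hx : 0 < x) : Sx T x ^ 2 / x ^ 2 ≤ 400 := by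
  rw [div_le_iff₀ (by positivity), ← sq_abs]
  calc |Sx T x| ^ 2 ≤ (20 * x) ^ 2 := pow_le_pow_left₀ (abs_nonneg _) (Sx_le hT hx.le) 2
    _ = _ := by ring

lemma Hx_q {x : ℝ} (hx : 0 < x) : Hx x ^ 2 / x ^ 2 ≤ 400 := by
  rw [div_le_iff₀ (by positivity), ← sq_abs]
  calc |Hx x| ^ 2 ≤ (20 * x) ^ 2 := pow_le_pow_left₀ (abs_nonneg _) (Hx_le hx.le) 2
    _ = _ := by ring

lemma Sx_ii {T a b : ℝ} (hT : 1 ≤ T) (ha : 0 < a) (hb : 0 < b) :
    IntervalIntegrable (fun x => Sx T x ^ 2 / x ^ 2) volume a b := by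
  have hmeas : Measurable fun x => Sx T x ^ 2 / x ^ 2 := by
    have := Sx_meas T
    fun_prop
  rw [intervalIntegrable_iff]
  refine Measure.integrableOn_of_bounded (M := 400) (by
    rw [Set.uIoc]
    exact measure_Ioc_lt_top.ne) hmeas.aestronglyMeasurable ?_
  refine (ae_restrict_mem measurableSet_uIoc).mono fun x hx => ?_
  have hx0 : 0 < x := by
    rw [Set.uIoc, mem_Ioc] at hx
    exact (lt_min ha hb).trans hx.1
  rw [Real.norm_of_nonneg (by positivity)]
  exact Sx_q hT hx0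

lemma Hx_ii {a b : ℝ} (ha : 0 < a) (hb : 0 < b) :
    IntervalIntegrable (fun x => Hx x ^ 2 / x ^ 2) volume a b := by
  have hmeas : Measurable fun x => Hx x ^ 2 / x ^ 2 := by
    have := Hx_meas
    fun_prop
  rw [intervalIntegrable_iff]
  refine Measure.integrableOn_of_bounded (M := 400) (by
    rw [Set.uIoc]
    exact measure_Ioc_lt_top.ne) hmeas.aestronglyMeasurable ?_
  refine (ae_restrict_mem measurableSet_uIoc).mono fun x hx => ?_
  have hx0 : 0 < x := by
    rw [Set.uIoc, mem_Ioc] at hx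
    exact (lt_min ha hb).trans hx.1
  rw [Real.norm_of_nonneg (by positivity)]
  exact Hx_q hx0

/-- telescoping -/
lemma dyadic {J : ℕ} (hJ : 1 ≤ J) {T : ℝ} (hT1 : 1 ≤ T) (hT : (1 + 1 / T) ^ J = 2) {X : ℝ}
    (hX : 0 < X) : ∫ x in X..(2 * X), Hx x ^ 2 / x ^ 2 ≤
      2 * (J : ℝ) ^ 2 * ∫ x in X..(4 * X), Sx T x ^ 2 / x ^ 2 := by
  obtain ⟨r, hr⟩ : ∃ r : ℝ, r = 1 + 1 / T := ⟨_, rfl⟩
  have hr1 : 1 ≤ r := by
    rw [hr]
    have : 0 < 1 / T := by positivity
    linarith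
  have hr0 : 0 < r := by linarith
  rw [← hr] at hT
  have hstep : ∀ x : ℝ, ∀ j : ℕ, Sx T (r ^ j * x) = Chebyshev.psi (r ^ (j + 1) * x) -
      Chebyshev.psi (r ^ j * x) - (r ^ (j + 1) * x - r ^ j * x) := by
    intro x j
    unfold Sx
    have e : r ^ j * x + r ^ j * x / T = r ^ (j + 1) * x := by
      rw [pow_succ, hr]
      ring
    rw [e]
    have e2 : r ^ j * x / T = r ^ (j + 1) * x - r ^ j * x := by rw [← e]; ring
    rw [e2]
  have htel : ∀ x : ℝ, Hx x = ∑ j ∈ Finset.range J, Sx T (r ^ j * x) := by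
    intro x
    obtain ⟨g, hg⟩ : ∃ g : ℕ → ℝ, ∀ j, g j = Chebyshev.psi (r ^ j * x) - r ^ j * x :=
      ⟨_, fun j => rfl⟩
    have h1 : ∑ j ∈ Finset.range J, Sx T (r ^ j * x) = ∑ j ∈ Finset.range J,
        (g (j + 1) - g j) := by
      refine Finset.sum_congr rfl fun j _ => ?_
      rw [hstep, hg, hg]
      ring
    rw [h1, Finset.sum_range_sub, hg, hg, hT]
    unfold Hx
    rw [pow_zero, one_mul]
    ring
  have hpt : ∀ x : ℝ, Hx x ^ 2 ≤ J * ∑ j ∈ Finset.range J, Sx T (r ^ j * x) ^ 2 := by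
    intro x
    rw [htel x]
    have := sq_sum_le_card_mul_sum_sq (s := Finset.range J) (f := fun j => Sx T (r ^ j * x))
    rwa [Finset.card_range] at this
  have hrj : ∀ j < J, 1 ≤ r ^ j ∧ r ^ j ≤ 2 := by
    intro j hj
    refine ⟨one_le_pow₀ hr1, ?_⟩
    rw [← hT]
    exact pow_le_pow_right₀ hr1 hj.le
  have hterm : ∀ j ∈ Finset.range J, ∫ x in X..(2 * X), Sx T (r ^ j * x) ^ 2 / x ^ 2 ≤
      2 * ∫ x in X..(4 * X), Sx T x ^ 2 / x ^ 2 := by
    intro j hj
    obtain ⟨c, hc⟩ : ∃ c : ℝ, c = r ^ j := ⟨_, rfl⟩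
    obtain ⟨h1, h2⟩ := hrj j (Finset.mem_range.1 hj)
    rw [← hc] at h1 h2 ⊢
    have hc0 : 0 < c := by linarith
    have e1 : ∫ x in X..(2 * X), Sx T (c * x) ^ 2 / x ^ 2 =
        c ^ 2 * ∫ x in X..(2 * X), (fun y => Sx T y ^ 2 / y ^ 2) (c * x) := by
      rw [← intervalIntegral.integral_const_mul]
      refine intervalIntegral.integral_congr fun x hx => ?_
      rw [uIcc_of_le (by linarith)] at hx
      have hx0 : 0 < x := by linarith [hx.1]
      simp only
      field_simp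
    have e3 := intervalIntegral.integral_comp_mul_left (a := X) (b := 2 * X)
      (fun y => Sx T y ^ 2 / y ^ 2) hc0.ne'
    rw [e1, e3, smul_eq_mul, ← mul_assoc]
    have e2 : c ^ 2 * c⁻¹ = c := by field_simp
    rw [e2]
    have h3 : ∫ x in (c * X)..(c * (2 * X)), Sx T x ^ 2 / x ^ 2 ≤
        ∫ x in X..(4 * X), Sx T x ^ 2 / x ^ 2 := by
      refine intervalIntegral.integral_mono_interval (by nlinarith) (by nlinarith) (by nlinarith)
        (ae_of_all _ fun x => by positivity) (Sx_ii hT1 hX (by linarith))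
    have h4 : 0 ≤ ∫ x in X..(4 * X), Sx T x ^ 2 / x ^ 2 :=
      intervalIntegral.integral_nonneg (by linarith) fun x _ => by positivity
    calc c * ∫ x in (c * X)..(c * (2 * X)), Sx T x ^ 2 / x ^ 2 ≤
          c * ∫ x in X..(4 * X), Sx T x ^ 2 / x ^ 2 := mul_le_mul_of_nonneg_left h3 hc0.le
      _ ≤ _ := mul_le_mul_of_nonneg_right h2 h4
  have hi : ∀ j ∈ Finset.range J, IntervalIntegrable (fun x => Sx T (r ^ j * x) ^ 2 / x ^ 2)
      volume X (2 * X) := by
    intro j hj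
    obtain ⟨h1, h2⟩ := hrj j (Finset.mem_range.1 hj)
    have hc0 : 0 < r ^ j := by linarith
    have h3 := (Sx_ii (T := T) hT1 (show 0 < r ^ j * X by positivity)
      (show 0 < r ^ j * (2 * X) by positivity)).comp_mul_left (c := r ^ j)
    have h4 := h3.const_mul ((r ^ j) ^ 2)
    have e1 : r ^ j * X / r ^ j = X := by field_simp
    have e2 : r ^ j * (2 * X) / r ^ j = 2 * X := by field_simp
    rw [e1, e2] at h4
    refine h4.congr fun x hx => ?_
    rw [uIoc_of_le (by linarith)] at hx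
    have hx0 : 0 < x := by linarith [hx.1]
    field_simp
  calc ∫ x in X..(2 * X), Hx x ^ 2 / x ^ 2 ≤ ∫ x in X..(2 * X),
        (J : ℝ) * ∑ j ∈ Finset.range J, Sx T (r ^ j * x) ^ 2 / x ^ 2 := by
        refine intervalIntegral.integral_mono_on (by linarith) (Hx_ii hX (by linarith)) ?_
          fun x hx => ?_
        · refine IntervalIntegrable.const_mul ?_ _
          have := IntervalIntegrable.sum _ hi
          refine this.congr fun x _ => ?_
          rw [Finset.sum_apply]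
        · have hx0 : 0 < x := by linarith [hx.1]
          rw [← Finset.sum_div, ← mul_div_assoc]
          exact div_le_div_of_nonneg_right (hpt x) (by positivity)
    _ = (J : ℝ) * ∑ j ∈ Finset.range J, ∫ x in X..(2 * X), Sx T (r ^ j * x) ^ 2 / x ^ 2 := by
        rw [intervalIntegral.integral_const_mul, intervalIntegral.integral_finsetSum hi]
    _ ≤ (J : ℝ) * ∑ j ∈ Finset.range J, 2 * ∫ x in X..(4 * X), Sx T x ^ 2 / x ^ 2 :=
        mul_le_mul_of_nonneg_left (Finset.sum_le_sum hterm) (by positivity)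
    _ = _ := by
        rw [Finset.sum_const, Finset.card_range, nsmul_eq_mul]
        ring

/-- the widths -/
lemma width {J : ℕ} (hJ : 1 ≤ J) : ∃ T : ℝ, (J : ℝ) ≤ T ∧ T ≤ 2 * J ∧ (1 + 1 / T) ^ J = 2 := by
  have hJ0 : (0 : ℝ) < J := by exact_mod_cast hJ
  obtain ⟨r, hr⟩ : ∃ r : ℝ, r = (2 : ℝ) ^ ((1 : ℝ) / J) := ⟨_, rfl⟩
  have hrJ : r ^ J = 2 := by
    rw [hr, ← Real.rpow_natCast, ← Real.rpow_mul (by norm_num)]
    field_simp
    norm_num
  have hr0 : 0 < r := by rw [hr]; positivity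
  have hr1 : 1 < r := by
    rw [hr]
    exact Real.one_lt_rpow (by norm_num) (by positivity)
  have h1 : r - 1 ≤ 1 / J := by
    by_contra hcon
    push Not at hcon
    have h2 : (1 + 1 / (J : ℝ)) ^ J < r ^ J := by
      refine pow_lt_pow_left₀ (by linarith) (by positivity) (by omega)
    have h3 := one_add_mul_le_pow (a := 1 / (J : ℝ)) (by
      have : 0 < 1 / (J : ℝ) := by positivity
      linarith) J
    rw [hrJ] at h2
    have : (J : ℝ) * (1 / J) = 1 := by field_simp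
    rw [this] at h3
    linarith
  have h2 : 1 / (2 * J) ≤ r - 1 := by
    have h3 : Real.log r = Real.log 2 / J := by
      rw [hr, Real.log_rpow (by norm_num)]
      ring
    have h4 := Real.log_le_sub_one_of_pos hr0
    have h5 : (1 : ℝ) / (2 * J) ≤ Real.log 2 / J := by
      rw [div_le_div_iff₀ (by positivity) hJ0]
      have := Real.log_two_gt_d9
      nlinarith
    linarith
  have hr2 : 0 < r - 1 := by linarith
  refine ⟨1 / (r - 1), ?_, ?_, ?_⟩
  · rw [le_div_iff₀ hr2]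
    rw [le_div_iff₀ hJ0] at h1
    linarith
  · rw [div_le_iff₀ hr2]
    rw [div_le_iff₀ (by positivity)] at h2
    linarith
  · rw [one_div_one_div, add_sub_cancel]
    exact hrJ

/-- **growth** -/
theorem growth (h : ∀ B : ℝ, 1 < B → ∃ C T₀ : ℝ, ∀ T : ℝ, T₀ ≤ T → Js T 1 B ≤ C) {ε : ℝ}
    (hε : 0 < ε) : ∃ C X₀ : ℝ, 0 < C ∧ 1 ≤ X₀ ∧ ∀ X : ℝ, X₀ ≤ X →
      ∫ x in X..(2 * X), Hx x ^ 2 / x ^ 2 ≤ C * X ^ ε := by
  obtain ⟨B, hB⟩ : ∃ B : ℝ, B = 4 + 3 / ε := ⟨_, rfl⟩
  have hB4 : 4 ≤ B := by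
    rw [hB]
    have : 0 < 3 / ε := by positivity
    linarith
  have hBε : 3 / B ≤ ε := by
    rw [div_le_iff₀ (by linarith), hB, mul_add]
    have : ε * (3 / ε) = 3 := by field_simp
    rw [this]
    linarith
  obtain ⟨C₀, T₀, hC₀⟩ := h B (by linarith)
  obtain ⟨C, hC⟩ : ∃ C : ℝ, C = max C₀ 1 := ⟨_, rfl⟩
  have hC1 : 1 ≤ C := by rw [hC]; exact le_max_right _ _
  have hCC : C₀ ≤ C := by rw [hC]; exact le_max_left _ _
  obtain ⟨T₁, hT₁⟩ : ∃ T₁ : ℝ, T₁ = max T₀ 10 := ⟨_, rfl⟩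
  have hT10 : 10 ≤ T₁ := by rw [hT₁]; exact le_max_right _ _
  have hTT : T₀ ≤ T₁ := by rw [hT₁]; exact le_max_left _ _
  refine ⟨128 * C * 4 ^ ε, max 100 (T₁ ^ B), by positivity, le_trans (by norm_num)
    (le_max_left _ _), fun X hX => ?_⟩
  have hX100 : 100 ≤ X := (le_max_left _ _).trans hX
  have hXB : T₁ ^ B ≤ X := (le_max_right _ _).trans hX
  have hX0 : 0 < X := by linarith
  obtain ⟨Z, hZ⟩ : ∃ Z : ℝ, Z = (4 * X) ^ (1 / B) := ⟨_, rfl⟩
  have hZB : Z ^ B = 4 * X := by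
    rw [hZ, ← Real.rpow_mul (by positivity)]
    have : 1 / B * B = 1 := by field_simp
    rw [this, Real.rpow_one]
  have hZ0 : 0 < Z := by rw [hZ]; positivity
  have hZT : T₁ ≤ Z := by
    by_contra hcon
    push Not at hcon
    have h1 := Real.rpow_lt_rpow hZ0.le hcon (show 0 < B by linarith)
    rw [hZB] at h1
    linarith
  have hZX : Z ≤ 2 * Real.sqrt X := by
    have h1 : Z ≤ (4 * X) ^ (1 / 2 : ℝ) := by
      rw [hZ]
      refine Real.rpow_le_rpow_of_exponent_le (by linarith) ?_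
      apply one_div_le_one_div_of_le (by norm_num)
      linarith
    rw [← Real.sqrt_eq_rpow] at h1
    have h2 : Real.sqrt (4 * X) = 2 * Real.sqrt X := by
      rw [Real.sqrt_mul (by norm_num), show (4 : ℝ) = 2 ^ 2 by norm_num,
        Real.sqrt_sq (by norm_num)]
    rwa [h2] at h1
  obtain ⟨J, hJ⟩ : ∃ J : ℕ, J = ⌈Z⌉₊ := ⟨_, rfl⟩
  have hJZ : Z ≤ J := by rw [hJ]; exact Nat.le_ceil Z
  have hJZ2 : (J : ℝ) ≤ 2 * Z := by
    rw [hJ]
    have := (Nat.ceil_lt_add_one hZ0.le).le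
    linarith
  have hJ1 : 1 ≤ J := by
    have : (0 : ℝ) < J := by linarith
    exact_mod_cast this
  obtain ⟨T, hT1, hT2, hTr⟩ := width hJ1
  have hTZ : Z ≤ T := hJZ.trans hT1
  have hT4 : T ≤ 4 * Z := by linarith
  have hTone : 1 ≤ T := by linarith
  have hT0 : 0 < T := by linarith
  have hTX : T ≤ X := by
    have h1 : T ≤ 8 * Real.sqrt X := by linarith
    have h2 : 10 ≤ Real.sqrt X := by
      rw [show (10 : ℝ) = Real.sqrt 100 by
        rw [show (100 : ℝ) = 10 ^ 2 by norm_num, Real.sqrt_sq (by norm_num)]]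
      exact Real.sqrt_le_sqrt hX100
    have h3 : Real.sqrt X * Real.sqrt X = X := Real.mul_self_sqrt hX0.le
    nlinarith
  have hTB : 4 * X ≤ T ^ B := by
    rw [← hZB]
    exact Real.rpow_le_rpow hZ0.le hTZ (by linarith)
  have h1 := dyadic hJ1 hTone hTr hX0
  have h2 : ∫ x in X..(4 * X), Sx T x ^ 2 / x ^ 2 ≤ ∫ x in (T ^ (1 : ℝ))..(T ^ B),
      Sx T x ^ 2 / x ^ 2 := by
    refine intervalIntegral.integral_mono_interval ?_ (by linarith) hTB
      (ae_of_all _ fun x => by positivity) (Sx_ii hTone (by positivity) (by positivity))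
    rw [Real.rpow_one]
    exact hTX
  have h3 := hC₀ T (hTT.trans (hZT.trans hTZ))
  have hlog : 0 < Real.log T := Real.log_pos (by linarith)
  have h4 : ∫ x in (T ^ (1 : ℝ))..(T ^ B), Sx T x ^ 2 / x ^ 2 ≤ C * (Real.log T ^ 2 / T) := by
    unfold Js at h3
    have h5 : ∫ x in (T ^ (1 : ℝ))..(T ^ B), Sx T x ^ 2 / x ^ 2 = (Real.log T ^ 2 / T) *
        (T / Real.log T ^ 2 * ∫ x in (T ^ (1 : ℝ))..(T ^ B), Sx T x ^ 2 / x ^ 2) := by
      field_simp
    rw [h5, mul_comm C]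
    exact mul_le_mul_of_nonneg_left (h3.trans hCC) (by positivity)
  have hlogT : Real.log T ≤ T := (Real.log_le_sub_one_of_pos hT0).trans (by linarith)
  calc ∫ x in X..(2 * X), Hx x ^ 2 / x ^ 2 ≤ 2 * (J : ℝ) ^ 2 * (C * (Real.log T ^ 2 / T)) :=
        h1.trans (mul_le_mul_of_nonneg_left (h2.trans h4) (by positivity))
    _ ≤ 2 * T ^ 2 * (C * (T ^ 2 / T)) := by gcongr
    _ = 2 * C * T ^ 3 := by field_simp
    _ ≤ 2 * C * (4 * Z) ^ 3 := by gcongr
    _ = 128 * C * Z ^ (3 : ℝ) := by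
        rw [show (3 : ℝ) = ((3 : ℕ) : ℝ) by norm_num, Real.rpow_natCast]
        ring
    _ = 128 * C * (4 * X) ^ (3 / B) := by
        rw [hZ, ← Real.rpow_mul (by positivity)]
        congr 2
        ring
    _ ≤ 128 * C * (4 * X) ^ ε := by
        refine mul_le_mul_of_nonneg_left ?_ (by positivity)
        exact Real.rpow_le_rpow_of_exponent_le (by linarith) hBε
    _ = 128 * C * 4 ^ ε * X ^ ε := by
        rw [Real.mul_rpow (by norm_num) hX0.le]
        ring

end Pool.Agent.NH10.SV
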