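import Pool.Agent.NH10.SV.RHs

/-! # A bound for the variance of the primes in short intervals implies RH: the Mellin transform -/

set_option autoImplicit false
set_option maxHeartbeats 4000000

open MeasureTheory Filter Topology Set

namespace Pool.Agent.NH10.SV

/-- the growth condition -/
def Grow (H : ℝ → ℝ) : Prop := ∀ ε : ℝ, 0 < ε → ∃ C X₀ : ℝ, 0 < C ∧ 1 ≤ X₀ ∧ ∀ X : ℝ, X₀ ≤ X →
      ∫ x in X..(2 * X), H x ^ 2 / x ^ 2 ≤ C * X ^ ε

lemma Hx_integrable (hg : Grow Hx) {σ : ℝ} (hσ : 1 / 2 < σ) :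
    IntegrableOn (fun x => Hx x * x ^ (-σ - 1)) (Ioi 1) := by
  obtain ⟨ε, hε⟩ : ∃ ε : ℝ, ε = (2 * σ - 1) / 4 := ⟨_, rfl⟩
  have hε0 : 0 < ε := by rw [hε]; linarith
  obtain ⟨C, X₀, hC, hX₀, h⟩ := hg ε hε0
  have hmeas : Measurable fun x => Hx x * x ^ (-σ - 1) := by
    have := Hx_meas
    fun_prop
  -- local integrability
  have hloc : ∀ a b : ℝ, 0 < a → a ≤ b → IntegrableOn (fun x => Hx x * x ^ (-σ - 1)) (Ioc a b) := by
    intro a b ha hab
    refine Measure.integrableOn_of_bounded (M := 20 * b * a ^ (-σ - 1)) measure_Ioc_lt_top.ne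
      hmeas.aestronglyMeasurable ?_
    refine (ae_restrict_mem measurableSet_Ioc).mono fun x hx => ?_
    have hx0 : 0 < x := ha.trans hx.1
    rw [norm_mul, Real.norm_eq_abs, Real.norm_eq_abs, abs_of_pos (Real.rpow_pos_of_pos hx0 _)]
    refine mul_le_mul ((Hx_le hx0.le).trans (by linarith [hx.2])) ?_
      (Real.rpow_pos_of_pos hx0 _).le (by linarith)
    exact Real.rpow_le_rpow_of_nonpos ha hx.1.le (by linarith)
  -- the dyadic blocks
  have hblk : ∀ X : ℝ, X₀ ≤ X → ∫ x in X..(2 * X), ‖Hx x * x ^ (-σ - 1)‖ ≤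
      (C + 1) * X ^ (-ε) := by
    intro X hX
    have hX0 : 0 < X := by linarith
    obtain ⟨lam, hlam⟩ : ∃ lam : ℝ, lam = X ^ (-(2 * ε)) := ⟨_, rfl⟩
    have hl0 : 0 < lam := by rw [hlam]; positivity
    have hpt : ∀ x ∈ Icc X (2 * X), ‖Hx x * x ^ (-σ - 1)‖ ≤
        lam / 2 * (Hx x ^ 2 / x ^ 2) + X ^ (-(2 * σ)) / (2 * lam) := by
      intro x hx
      have hx0 : 0 < x := by linarith [hx.1]
      have e1 : ‖Hx x * x ^ (-σ - 1)‖ = (|Hx x| / x) * x ^ (-σ) := by
        rw [norm_mul, Real.norm_eq_abs, Real.norm_eq_abs, abs_of_pos (Real.rpow_pos_of_pos hx0 _),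
          Real.rpow_sub hx0, Real.rpow_one]
        ring
      have e2 : Hx x ^ 2 / x ^ 2 = (|Hx x| / x) ^ 2 := by rw [div_pow, sq_abs]
      have e3 : (x ^ (-σ)) ^ 2 ≤ X ^ (-(2 * σ)) := by
        rw [← Real.rpow_natCast, ← Real.rpow_mul hx0.le]
        have : -σ * ((2 : ℕ) : ℝ) = -(2 * σ) := by push_cast; ring
        rw [this]
        exact Real.rpow_le_rpow_of_nonpos hX0 hx.1 (by linarith)
      rw [e1, e2]
      obtain ⟨p, hp⟩ : ∃ p : ℝ, p = |Hx x| / x := ⟨_, rfl⟩
      obtain ⟨q, hq⟩ : ∃ q : ℝ, q = x ^ (-σ) := ⟨_, rfl⟩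
      rw [← hp, ← hq]
      rw [← hq] at e3
      have k1 : q ^ 2 / (2 * lam) ≤ X ^ (-(2 * σ)) / (2 * lam) :=
        div_le_div_of_nonneg_right e3 (by positivity)
      have k2 : p * q ≤ lam / 2 * p ^ 2 + q ^ 2 / (2 * lam) := by
        have : lam / 2 * p ^ 2 + q ^ 2 / (2 * lam) - p * q = (lam * p - q) ^ 2 / (2 * lam) := by
          field_simp
          ring
        have h2 : 0 ≤ (lam * p - q) ^ 2 / (2 * lam) := by positivity
        linarith
      linarith
    have h1 : ∫ x in X..(2 * X), ‖Hx x * x ^ (-σ - 1)‖ ≤ ∫ x in X..(2 * X),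
        (lam / 2 * (Hx x ^ 2 / x ^ 2) + X ^ (-(2 * σ)) / (2 * lam)) := by
      refine intervalIntegral.integral_mono_on (by linarith) ?_ ?_ hpt
      · rw [intervalIntegrable_iff_integrableOn_Ioc_of_le (by linarith)]
        exact (hloc X (2 * X) hX0 (by linarith)).norm
      · exact ((Hx_ii hX0 (by linarith)).const_mul _).add (by simp)
    rw [intervalIntegral.integral_add ((Hx_ii hX0 (by linarith)).const_mul _) (by simp),
      intervalIntegral.integral_const_mul, intervalIntegral.integral_const, smul_eq_mul] at h1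
    have h2 := h X hX
    have e4 : lam / 2 * (C * X ^ ε) = C / 2 * X ^ (-ε) := by
      have : X ^ (-ε) = lam * X ^ ε := by
        rw [hlam, ← Real.rpow_add hX0]
        congr 1
        ring
      rw [this]
      ring
    have e5 : (2 * X - X) * (X ^ (-(2 * σ)) / (2 * lam)) = 1 / 2 * X ^ (-(2 * ε)) := by
      have h3 : X ^ (-(2 * ε)) * lam = X * X ^ (-(2 * σ)) := by
        rw [hlam, ← Real.rpow_add hX0]
        nth_rw 2 [← Real.rpow_one X]
        rw [← Real.rpow_add hX0]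
        congr 1
        rw [hε]
        ring
      field_simp
      linarith
    have h6 : X ^ (-(2 * ε)) ≤ X ^ (-ε) :=
      Real.rpow_le_rpow_of_exponent_le (by linarith) (by linarith)
    have h7 : 0 < X ^ (-ε) := by positivity
    calc ∫ x in X..(2 * X), ‖Hx x * x ^ (-σ - 1)‖ ≤ lam / 2 * (C * X ^ ε) +
          (2 * X - X) * (X ^ (-(2 * σ)) / (2 * lam)) := by
          refine h1.trans ?_
          have := mul_le_mul_of_nonneg_left h2 (show 0 ≤ lam / 2 by positivity)
          linarith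
      _ ≤ _ := by
          rw [e4, e5]
          nlinarith [mul_pos hC h7]
  -- the sum of the blocks
  have hq : (2 : ℝ) ^ (-ε) < 1 := Real.rpow_lt_one_of_one_lt_of_neg (by norm_num) (by linarith)
  have hq0 : 0 < (2 : ℝ) ^ (-ε) := by positivity
  have hsum : ∀ n : ℕ, ∫ x in X₀..(2 ^ n * X₀), ‖Hx x * x ^ (-σ - 1)‖ ≤
      (C + 1) * (1 - (2 : ℝ) ^ (-ε))⁻¹ := by
    intro n
    have hi : ∀ k < n, IntervalIntegrable (fun x => ‖Hx x * x ^ (-σ - 1)‖) volume
        ((fun k : ℕ => 2 ^ k * X₀) k) ((fun k : ℕ => 2 ^ k * X₀) (k + 1)) := by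
      intro k _
      have hk : (0 : ℝ) < 2 ^ k * X₀ := by positivity
      have hk2 : (2 : ℝ) ^ k * X₀ ≤ 2 ^ (k + 1) * X₀ := by
        rw [pow_succ]
        nlinarith
      show IntervalIntegrable (fun x => ‖Hx x * x ^ (-σ - 1)‖) volume (2 ^ k * X₀)
        (2 ^ (k + 1) * X₀)
      rw [intervalIntegrable_iff_integrableOn_Ioc_of_le hk2]
      exact (hloc _ _ hk hk2).norm
    have e1 := intervalIntegral.sum_integral_adjacent_intervals hi
    simp only [pow_zero, one_mul] at e1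
    rw [← e1]
    have hle : ∀ k ∈ Finset.range n, ∫ x in (2 ^ k * X₀)..(2 ^ (k + 1) * X₀),
        ‖Hx x * x ^ (-σ - 1)‖ ≤ (C + 1) * ((2 : ℝ) ^ (-ε)) ^ k := by
      intro k _
      have h1k : (1 : ℝ) ≤ 2 ^ k := one_le_pow₀ (by norm_num)
      have hb := hblk (2 ^ k * X₀) (by nlinarith)
      have e2 : (2 : ℝ) ^ (k + 1) * X₀ = 2 * (2 ^ k * X₀) := by rw [pow_succ]; ring
      rw [e2]
      refine hb.trans (mul_le_mul_of_nonneg_left ?_ (by linarith))
      rw [Real.mul_rpow (by positivity) (by linarith), ← Real.rpow_natCast, ← Real.rpow_mul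
        (by norm_num), ← Real.rpow_natCast, ← Real.rpow_mul (by norm_num)]
      have h3 : X₀ ^ (-ε) ≤ 1 := Real.rpow_le_one_of_one_le_of_nonpos hX₀ (by linarith)
      have h4 : (k : ℝ) * -ε = -ε * k := by ring
      rw [h4]
      have h5 : 0 < (2 : ℝ) ^ (-ε * (k : ℝ)) := by positivity
      nlinarith
    refine (Finset.sum_le_sum hle).trans ?_
    rw [← Finset.mul_sum]
    refine mul_le_mul_of_nonneg_left ?_ (by linarith)
    rw [← tsum_geometric_of_lt_one hq0.le hq]
    exact (summable_geometric_of_lt_one hq0.le hq).sum_le_tsum _ fun k _ => by positivity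
  have hinf : IntegrableOn (fun x => Hx x * x ^ (-σ - 1)) (Ioi X₀) := by
    refine integrableOn_Ioi_of_intervalIntegral_norm_bounded ((C + 1) * (1 - (2 : ℝ) ^ (-ε))⁻¹) X₀
      (b := fun n : ℕ => 2 ^ n * X₀) (l := atTop) (fun n => ?_) ?_
      (Eventually.of_forall fun n => hsum n)
    · refine hloc X₀ _ (by linarith) ?_
      have : (1 : ℝ) ≤ 2 ^ n := one_le_pow₀ (by norm_num)
      nlinarith
    · exact (tendsto_pow_atTop_atTop_of_one_lt (by norm_num)).atTop_mul_const (by linarith)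
  rw [← Ioc_union_Ioi_eq_Ioi hX₀]
  exact (hloc 1 X₀ one_pos hX₀).union hinf

/-- the Mellin transform -/
noncomputable def FH (s : ℂ) : ℂ := ∫ x in Ioi (1 : ℝ), (Hx x : ℂ) * (x : ℂ) ^ (-(s + 1))

lemma cpow_norm {x : ℝ} (hx : 0 < x) (s : ℂ) : ‖(x : ℂ) ^ (-(s + 1))‖ = x ^ (-s.re - 1) := by
  rw [Complex.norm_cpow_eq_rpow_re_of_pos hx]
  congr 1
  simp
  ring

lemma FH_diff (hg : Grow Hx) {s : ℂ} (hs : 1 / 2 < s.re) : DifferentiableAt ℂ FH s := by
  obtain ⟨δ, hδ⟩ : ∃ δ : ℝ, δ = (s.re - 1 / 2) / 4 := ⟨_, rfl⟩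
  have hδ0 : 0 < δ := by rw [hδ]; linarith
  have hbound := (Hx_integrable hg (σ := s.re - 2 * δ) (by rw [hδ]; linarith)).norm.const_mul (1 / δ)
  have hmeasx : ∀ z : ℂ, Measurable fun x : ℝ => (x : ℂ) ^ (-(z + 1)) := fun z =>
    Complex.measurable_ofReal.pow_const _
  have hHm : Measurable fun x : ℝ => (Hx x : ℂ) := Complex.measurable_ofReal.comp Hx_meas
  refine (hasDerivAt_integral_of_dominated_loc_of_deriv_le (μ := volume.restrict (Ioi 1))
    (F := fun z (x : ℝ) => (Hx x : ℂ) * (x : ℂ) ^ (-(z + 1)))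
    (F' := fun z (x : ℝ) => (Hx x : ℂ) * ((x : ℂ) ^ (-(z + 1)) * Complex.log x * (-1)))
    (bound := fun x => 1 / δ * ‖Hx x * x ^ (-(s.re - 2 * δ) - 1)‖)
    (Metric.ball_mem_nhds s hδ0) ?_ ?_ ?_ ?_ hbound ?_).2.differentiableAt
  · exact Eventually.of_forall fun z => (hHm.mul (hmeasx z)).aestronglyMeasurable
  · have h1 := Hx_integrable hg hs
    refine h1.norm.mono' (hHm.mul (hmeasx s)).aestronglyMeasurable ?_
    refine (ae_restrict_mem measurableSet_Ioi).mono fun x hx => ?_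
    have hx0 : 0 < x := lt_trans one_pos hx
    rw [norm_mul, cpow_norm hx0, Complex.norm_real, norm_mul, Real.norm_eq_abs, Real.norm_eq_abs,
      abs_of_pos (Real.rpow_pos_of_pos hx0 _)]
  · refine (hHm.mul (((hmeasx s).mul ?_).mul_const _)).aestronglyMeasurable
    exact Complex.measurable_log.comp Complex.measurable_ofReal
  · refine (ae_restrict_mem measurableSet_Ioi).mono fun x hx z hz => ?_
    have hx1 : 1 < x := hx
    have hx0 : 0 < x := lt_trans one_pos hx
    rw [Metric.mem_ball, Complex.dist_eq] at hz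
    have hre : s.re - δ ≤ z.re := by
      have := (Complex.abs_re_le_norm (z - s)).trans hz.le
      rw [Complex.sub_re] at this
      have := (abs_le.1 this).1
      linarith
    have hlog : ‖Complex.log x‖ ≤ x ^ δ / δ := by
      rw [← Complex.ofReal_log hx0.le, Complex.norm_real, Real.norm_of_nonneg
        (Real.log_nonneg hx1.le)]
      exact Real.log_le_rpow_div hx0.le hδ0
    have hp1 : x ^ (-z.re - 1) ≤ x ^ (-(s.re - δ) - 1) :=
      Real.rpow_le_rpow_of_exponent_le hx1.le (by linarith)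
    have hp2 : x ^ (-(s.re - δ) - 1) * x ^ δ = x ^ (-(s.re - 2 * δ) - 1) := by
      rw [← Real.rpow_add hx0]
      congr 1
      ring
    rw [norm_mul, norm_mul, norm_mul, norm_neg, norm_one, mul_one, cpow_norm hx0,
      Complex.norm_real, norm_mul, Real.norm_of_nonneg (Real.rpow_pos_of_pos hx0 _).le, ← hp2]
    calc ‖Hx x‖ * (x ^ (-z.re - 1) * ‖Complex.log x‖) ≤
          ‖Hx x‖ * (x ^ (-(s.re - δ) - 1) * (x ^ δ / δ)) := by
          refine mul_le_mul_of_nonneg_left ?_ (norm_nonneg _)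
          exact mul_le_mul hp1 hlog (norm_nonneg _) (Real.rpow_pos_of_pos hx0 _).le
      _ = _ := by ring
  · refine (ae_restrict_mem measurableSet_Ioi).mono fun x hx z _ => ?_
    have hx0 : 0 < x := lt_trans one_pos hx
    have h1 : HasDerivAt (fun z : ℂ => -(z + 1)) (-1) z := ((hasDerivAt_id z).add_const 1).neg
    have h2 := h1.const_cpow (c := (x : ℂ)) (Or.inl (by exact_mod_cast hx0.ne'))
    exact h2.const_mul _

end Pool.Agent.NH10.SV
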