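import Pool.Agent.NH10.SV.Om

/-! # Layers for the square of the cardinal sine -/

set_option autoImplicit false
set_option maxHeartbeats 4000000

open MeasureTheory Set Filter Topology

namespace Pool.Agent.NH10.SV

open Pool.Agent.Y749.Rig Pool.Agent.NH10.GM

lemma omd_bint {g : ℝ → ℝ} (hg : Measurable g) {R B : ℝ} (hR : 0 ≤ R)
    (hB : ∀ c, 0 < c → c ≤ R → |g c| ≤ B) :
    IntervalIntegrable (fun c => omd c * g c) volume 0 R := by
  rw [intervalIntegrable_iff_integrableOn_Ioc_of_le hR]
  refine Measure.integrableOn_of_bounded (M := B) (by simp)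
    (omd_meas.mul hg).aestronglyMeasurable ?_
  refine (ae_restrict_mem measurableSet_Ioc).mono fun c hc => ?_
  rw [Real.norm_eq_abs, abs_mul]
  have h1 := omd_le (ne_of_gt hc.1)
  have h2 := hB c hc.1 hc.2
  calc |omd c| * |g c| ≤ 1 * B := mul_le_mul h1 h2 (abs_nonneg _) zero_le_one
    _ = B := one_mul B

lemma ind_meas (m T r : ℝ) : Measurable fun c : ℝ => if m ≤ c * T then r else 0 := by
  refine Measurable.ite ?_ measurable_const measurable_const
  exact measurableSet_le measurable_const (measurable_id.mul_const T)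

lemma omd_ind {m T R : ℝ} (hm : 0 < m) (hT : 0 < T) (hR : 0 < R) (r : ℝ) :
    IntervalIntegrable (fun c => omd c * (if m ≤ c * T then r else 0)) volume 0 R ∧
    ∫ c in (0 : ℝ)..R, omd c * (if m ≤ c * T then r else 0) =
      if m ≤ R * T then r * (om R - om (m / T)) else 0 := by
  have hi : IntervalIntegrable (fun c => omd c * (if m ≤ c * T then r else 0)) volume 0 R := by
    refine omd_bint (ind_meas m T r) hR.le (B := |r|) fun c _ _ => ?_
    split_ifs
    · exact le_rfl
    · rw [abs_zero]; exact abs_nonneg r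
  refine ⟨hi, ?_⟩
  have hmt : 0 < m / T := div_pos hm hT
  by_cases h : m ≤ R * T
  · rw [if_pos h]
    have h1 : m / T ≤ R := (div_le_iff₀ hT).2 h
    have hsub : ∀ {x y : ℝ}, 0 ≤ x → x ≤ y → y ≤ R →
        IntervalIntegrable (fun c => omd c * (if m ≤ c * T then r else 0)) volume x y := by
      intro x y hx hxy hy
      refine hi.mono_set ?_
      rw [uIcc_of_le hxy, uIcc_of_le hR.le]
      exact Icc_subset_Icc hx hy
    rw [← intervalIntegral.integral_add_adjacent_intervals (hsub le_rfl hmt.le h1)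
      (hsub hmt.le h1 le_rfl)]
    have e1 : ∫ c in (0 : ℝ)..(m / T), omd c * (if m ≤ c * T then r else 0) = 0 := by
      rw [intervalIntegral.integral_of_le hmt.le, integral_Ioc_eq_integral_Ioo]
      refine (setIntegral_congr_fun measurableSet_Ioo (g := fun _ => (0 : ℝ)) fun c hc => ?_).trans
        (by simp)
      have : ¬ (m ≤ c * T) := fun h2 => absurd ((div_le_iff₀ hT).2 h2) (not_le.2 hc.2)
      show omd c * (if m ≤ c * T then r else 0) = 0
      rw [if_neg this, mul_zero]
    have e2 : ∫ c in (m / T)..R, omd c * (if m ≤ c * T then r else 0) =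
        ∫ c in (m / T)..R, r * omd c := by
      refine intervalIntegral.integral_congr fun c hc => ?_
      rw [uIcc_of_le h1] at hc
      show omd c * (if m ≤ c * T then r else 0) = r * omd c
      rw [if_pos ((div_le_iff₀ hT).1 hc.1), mul_comm]
    rw [e1, e2, zero_add, intervalIntegral.integral_const_mul]
    have h3 := om_ftc hmt h1
    rw [h3]
    ring
  · rw [if_neg h, intervalIntegral.integral_of_le hR.le]
    refine (setIntegral_congr_fun measurableSet_Ioc (g := fun _ => (0 : ℝ)) fun c hc => ?_).trans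
      (by simp)
    have : ¬ (m ≤ c * T) := fun h2 => h (h2.trans (mul_le_mul_of_nonneg_right hc.2 hT.le))
    show omd c * (if m ≤ c * T then r else 0) = 0
    rw [if_neg this, mul_zero]

variable {ι : Type*}

lemma lay (A : Finset ι) (w m : ι → ℝ) (hm : ∀ i ∈ A, 0 < m i) {T R : ℝ} (hT : 0 < T)
    (hR : 0 < R) :
    ∑ i ∈ A, (if m i ≤ R * T then w i * om (m i / T) else 0) =
      om R * (∑ i ∈ A, if m i ≤ R * T then w i else 0) -
      ∫ c in (0 : ℝ)..R, omd c * ∑ i ∈ A, if m i ≤ c * T then w i else 0 := by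
  have e1 : ∫ c in (0 : ℝ)..R, omd c * (∑ i ∈ A, if m i ≤ c * T then w i else 0) =
      ∑ i ∈ A, (if m i ≤ R * T then w i * (om R - om (m i / T)) else 0) := by
    have : ∀ c : ℝ, omd c * (∑ i ∈ A, if m i ≤ c * T then w i else 0) =
        ∑ i ∈ A, omd c * (if m i ≤ c * T then w i else 0) := fun c => Finset.mul_sum _ _ _
    simp_rw [this]
    rw [intervalIntegral.integral_finsetSum fun i hi => (omd_ind (hm i hi) hT hR (w i)).1]
    exact Finset.sum_congr rfl fun i hi => (omd_ind (hm i hi) hT hR (w i)).2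
  rw [e1, Finset.mul_sum, ← Finset.sum_sub_distrib]
  refine Finset.sum_congr rfl fun i _ => ?_
  split_ifs <;> ring

/-- the density for the tails -/
lemma cub_int {R : ℝ} (hR : 0 < R) : IntegrableOn (fun c : ℝ => 2 / c ^ 3) (Ioi R) ∧
    ∫ c in Ioi R, 2 / c ^ 3 = 1 / R ^ 2 := by
  have h1 := integrableOn_Ioi_rpow_of_lt (a := -3) (by norm_num) hR
  have h2 := integral_Ioi_rpow_of_lt (a := -3) (by norm_num) hR
  have e : ∀ c ∈ Ioi R, c ^ (-3 : ℝ) * 2 = 2 / c ^ 3 := by
    intro c hc
    have hc0 : 0 < c := hR.trans hc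
    rw [Real.rpow_neg hc0.le, show (3 : ℝ) = ((3 : ℕ) : ℝ) by norm_num, Real.rpow_natCast]
    field_simp
  constructor
  · have h3 : IntegrableOn (fun c : ℝ => c ^ (-3 : ℝ) * 2) (Ioi R) := h1.mul_const 2
    exact h3.congr_fun e measurableSet_Ioi
  · rw [← setIntegral_congr_fun measurableSet_Ioi e, integral_mul_const, h2]
    have : (-3 : ℝ) + 1 = -2 := by norm_num
    rw [this, Real.rpow_neg hR.le, Real.rpow_two]
    field_simp

lemma cub_ind {m T R : ℝ} (hT : 0 < T) (hR : 0 < R) {r : ℝ} (hr : 0 ≤ r) :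
    IntegrableOn (fun c => 2 / c ^ 3 * (if m ≤ c * T then r else 0)) (Ioi R) ∧
    (if R * T < m then r * (T / m) ^ 2 else 0) ≤
      ∫ c in Ioi R, 2 / c ^ 3 * (if m ≤ c * T then r else 0) := by
  have hi : IntegrableOn (fun c => 2 / c ^ 3 * (if m ≤ c * T then r else 0)) (Ioi R) := by
    refine ((cub_int hR).1.mul_const r).mono ?_ ?_
    · exact ((measurable_const.div (measurable_id.pow_const 3)).mul
        (ind_meas m T r)).aestronglyMeasurable
    · refine (ae_restrict_mem measurableSet_Ioi).mono fun c hc => ?_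
      have hc0 : 0 < c := hR.trans hc
      rw [norm_mul, norm_mul]
      refine mul_le_mul_of_nonneg_left ?_ (norm_nonneg _)
      split_ifs
      · exact le_rfl
      · rw [norm_zero]; exact norm_nonneg _
  refine ⟨hi, ?_⟩
  have h0 : 0 ≤ᵐ[volume.restrict (Ioi R)] fun c => 2 / c ^ 3 * (if m ≤ c * T then r else 0) := by
    refine (ae_restrict_mem measurableSet_Ioi).mono fun c hc => ?_
    have hc0 : 0 < c := hR.trans hc
    have : 0 ≤ (if m ≤ c * T then r else 0) := by split_ifs <;> [exact hr; exact le_rfl]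
    show 0 ≤ 2 / c ^ 3 * (if m ≤ c * T then r else 0)
    positivity
  by_cases h : R * T < m
  · rw [if_pos h]
    have h1 : R < m / T := (lt_div_iff₀ hT).2 h
    have hmt : 0 < m / T := hR.trans h1
    have hm : 0 < m := by
      have := mul_pos hR hT
      linarith
    have h2 : ∫ c in Ioi (m / T), 2 / c ^ 3 * (if m ≤ c * T then r else 0) ≤
        ∫ c in Ioi R, 2 / c ^ 3 * (if m ≤ c * T then r else 0) :=
      setIntegral_mono_set hi h0 (Ioi_subset_Ioi h1.le).eventuallyLE
    have h3 : ∫ c in Ioi (m / T), 2 / c ^ 3 * (if m ≤ c * T then r else 0) =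
        ∫ c in Ioi (m / T), 2 / c ^ 3 * r := by
      refine setIntegral_congr_fun measurableSet_Ioi fun c hc => ?_
      show 2 / c ^ 3 * (if m ≤ c * T then r else 0) = 2 / c ^ 3 * r
      rw [if_pos ((div_le_iff₀ hT).1 (le_of_lt hc))]
    rw [h3, integral_mul_const, (cub_int hmt).2] at h2
    refine le_trans (le_of_eq ?_) h2
    field_simp
  · rw [if_neg h]
    exact integral_nonneg_of_ae h0

lemma lay_tail (A : Finset ι) (w m : ι → ℝ) (hw : ∀ i ∈ A, 0 ≤ w i) {T R : ℝ} (hT : 0 < T)
    (hR : 0 < R) :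
    IntegrableOn (fun c => 2 / c ^ 3 * ∑ i ∈ A, if m i ≤ c * T then w i else 0) (Ioi R) ∧
    ∑ i ∈ A, (if R * T < m i then w i * (T / m i) ^ 2 else 0) ≤
      ∫ c in Ioi R, 2 / c ^ 3 * ∑ i ∈ A, if m i ≤ c * T then w i else 0 := by
  have this : (fun c : ℝ => 2 / c ^ 3 * (∑ i ∈ A, if m i ≤ c * T then w i else 0)) =
      fun c => ∑ i ∈ A, 2 / c ^ 3 * (if m i ≤ c * T then w i else 0) :=
    funext fun c => Finset.mul_sum _ _ _
  rw [this]
  constructor
  · exact integrable_finsetSum _ fun i hi => (cub_ind hT hR (hw i hi)).1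
  · rw [integral_finsetSum _ fun i hi => (cub_ind hT hR (hw i hi)).1]
    exact Finset.sum_le_sum fun i hi => (cub_ind hT hR (hw i hi)).2

lemma omd_parts {R : ℝ} (hR : 0 < R) :
    ∫ c in (0 : ℝ)..R, omd c * c = R * om R - ∫ c in (0 : ℝ)..R, om c := by
  have i1 : IntervalIntegrable (fun c => omd c * c) volume 0 R := by
    refine omd_bint measurable_id hR.le (B := R) fun c h1 h2 => ?_
    simp only [id]
    rw [abs_of_pos h1]
    exact h2
  have i2 : IntervalIntegrable om volume 0 R := om_cont.intervalIntegrable _ _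
  have h := intervalIntegral.integral_eq_sub_of_hasDerivAt_of_le (f := fun c => c * om c)
    (f' := fun c => om c + omd c * c) hR.le (continuous_id.mul om_cont).continuousOn
    (fun c hc => by
      have h1 := (hasDerivAt_id c).fun_mul (om_deriv hc.1.ne')
      refine h1.congr_deriv ?_
      simp only [id]
      ring) (i2.add i1)
  rw [intervalIntegral.integral_add i2 i1] at h
  simp only [zero_mul, sub_zero] at h
  linarith

/-- the functional -/
noncomputable def VF (f : ℝ → ℝ) (R : ℝ) : ℝ := om R * f R - ∫ c in (0 : ℝ)..R, omd c * f c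

/-- **limits of the functional** -/
lemma VF_lim {F : ℝ → ℝ → ℝ} (hmono : ∀ᶠ T in atTop, Monotone (F T))
    (h0 : ∀ᶠ T in atTop, ∀ c, 0 ≤ F T c) {Q : ℝ}
    (hlim : ∀ c : ℝ, 0 < c → Tendsto (fun T => F T c) atTop (𝓝 (2 * c * Q))) {R : ℝ}
    (hR : 0 < R) :
    Tendsto (fun T => VF (F T) R) atTop (𝓝 (2 * Q * ∫ c in (0 : ℝ)..R, om c)) := by
  have h1 := (hlim R hR).const_mul (om R)
  have h2 : Tendsto (fun T => ∫ c in (0 : ℝ)..R, omd c * F T c) atTop
      (𝓝 (∫ c in (0 : ℝ)..R, omd c * (2 * c * Q))) := by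
    refine intervalIntegral.tendsto_integral_filter_of_dominated_convergence
      (fun _ => 2 * R * Q + 1) ?_ ?_ ?_ ?_
    · filter_upwards [hmono] with T hT
      exact (omd_meas.mul hT.measurable).aestronglyMeasurable
    · filter_upwards [hmono, h0, (hlim R hR).eventually (ge_mem_nhds
        (show 2 * R * Q < 2 * R * Q + 1 by linarith))] with T hT h0T hTR
      refine ae_of_all _ fun c hc => ?_
      rw [uIoc_of_le hR.le] at hc
      rw [Real.norm_eq_abs, abs_mul, abs_of_nonneg (h0T c)]
      have h3 := omd_le (ne_of_gt hc.1)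
      have h4 := (hT hc.2).trans hTR
      calc |omd c| * F T c ≤ 1 * (2 * R * Q + 1) := mul_le_mul h3 h4 (h0T c) zero_le_one
        _ = _ := one_mul _
    · simp
    · refine ae_of_all _ fun c hc => ?_
      rw [uIoc_of_le hR.le] at hc
      exact (hlim c hc.1).const_mul _
  have h3 := h1.sub h2
  have e : om R * (2 * R * Q) - (∫ c in (0 : ℝ)..R, omd c * (2 * c * Q)) =
      2 * Q * ∫ c in (0 : ℝ)..R, om c := by
    have e1 : ∫ c in (0 : ℝ)..R, omd c * (2 * c * Q) = 2 * Q * ∫ c in (0 : ℝ)..R, omd c * c := by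
      rw [← intervalIntegral.integral_const_mul]
      refine intervalIntegral.integral_congr fun c _ => ?_
      show omd c * (2 * c * Q) = 2 * Q * (omd c * c)
      ring
    rw [e1, omd_parts hR]
    ring
  rw [e] at h3
  exact h3

end Pool.Agent.NH10.SV
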