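import Pool.Agent.NH10.SV.ZA
import Pool.Agent.NH10.GM.Mix3

/-! # The mean square of the sums over the zeros for sharp windows -/

set_option autoImplicit false
set_option maxHeartbeats 4000000

open MeasureTheory Set Filter Topology

namespace Pool.Agent.NH10.SV

open Pool.Agent.Y749.Rig Pool.Agent.NH10.GM

/-- the factor of the sharp window -/
noncomputable def sc (T x : ℝ) : ℝ := Real.sinc (x / (2 * T))

/-- the sum over the zeros of height up to `Y`, with the weights of a smoothed sharp window -/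
noncomputable def Zs (T P Y u : ℝ) : ℝ :=
  ∑ s ∈ ZZ Y, mm s * (2 * Real.cos (u * s.im) * Real.exp (-(s.im ^ 2 / (2 * P ^ 2))) * sc T s.im)

/-- its normalised square -/
noncomputable def Ds (T P Y α : ℝ) : ℝ :=
  1 / (T * Real.log T) * Zs T P Y (α * Real.log T) ^ 2

lemma Zs_cont (T P Y : ℝ) : Continuous (Zs T P Y) := by
  unfold Zs
  fun_prop

lemma Ds_cont (T P Y : ℝ) : Continuous (Ds T P Y) := by
  unfold Ds
  have := Zs_cont T P Y
  fun_prop

lemma Zs_even (T P Y u : ℝ) : Zs T P Y (-u) = Zs T P Y u := by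
  unfold Zs
  refine Finset.sum_congr rfl fun s _ => ?_
  rw [neg_mul, Real.cos_neg]

lemma Ds_even (T P Y α : ℝ) : Ds T P Y (-α) = Ds T P Y α := by
  unfold Ds
  rw [neg_mul, Zs_even]

lemma Ds_nonneg {T : ℝ} (hT : 1 ≤ T) (P Y α : ℝ) : 0 ≤ Ds T P Y α := by
  unfold Ds
  have := Real.log_nonneg hT
  positivity

lemma sc_le (T x : ℝ) : |sc T x| ≤ 1 := Real.abs_sinc_le_one _

lemma sc_lip {T : ℝ} (hT : 0 < T) (x y : ℝ) : |sc T x - sc T y| ≤ |x - y| / (2 * T) := by
  unfold sc
  refine (sinc_lip _ _).trans (le_of_eq ?_)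
  rw [← sub_div, abs_div, abs_of_pos (show 0 < 2 * T by positivity)]

lemma om_sc {T : ℝ} (x : ℝ) : om (x / T) = sc T x ^ 2 := by
  unfold om sc
  rw [div_div, mul_comm T 2]

lemma Jt_Ds {T : ℝ} (P Y : ℝ) (hT : 1 < T) {h : ℝ} (hh : 0 < h) :
    Jt (Ds T P Y) h = 2 / (T * Real.log T) *
      ∑ s ∈ ZZ Y, ∑ s' ∈ ZZ Y, mm s * mm s' * (gw P s s' * (sc T s.im * sc T s'.im) *
        (Kt h ((s.im - s'.im) * Real.log T / (2 * Real.pi)) +
          Kt h ((s.im + s'.im) * Real.log T / (2 * Real.pi)))) := by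
  have hpi := Real.pi_pos
  have hL := Real.log_pos hT
  rw [← tent_Jt (Ds_cont T P Y) (Ds_even T P Y) hh]
  have e1 : ∀ α : ℝ, max 0 (h - |α|) * Ds T P Y α = 2 / (T * Real.log T) *
      ∑ s ∈ ZZ Y, ∑ s' ∈ ZZ Y, mm s * mm s' * (gw P s s' * (sc T s.im * sc T s'.im) *
        (max 0 (h - |α|) * Real.cos (2 * Real.pi * α *
          ((s.im - s'.im) * Real.log T / (2 * Real.pi))) +
          max 0 (h - |α|) * Real.cos (2 * Real.pi * α *
          ((s.im + s'.im) * Real.log T / (2 * Real.pi))))) := by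
    intro α
    unfold Ds Zs
    rw [sq, Finset.sum_mul_sum, Finset.mul_sum, Finset.mul_sum, Finset.mul_sum]
    refine Finset.sum_congr rfl fun s _ => ?_
    rw [Finset.mul_sum, Finset.mul_sum, Finset.mul_sum]
    refine Finset.sum_congr rfl fun s' _ => ?_
    have a1 : 2 * Real.pi * α * ((s.im - s'.im) * Real.log T / (2 * Real.pi)) =
        α * Real.log T * s.im - α * Real.log T * s'.im := by field_simp
    have a2 : 2 * Real.pi * α * ((s.im + s'.im) * Real.log T / (2 * Real.pi)) =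
        α * Real.log T * s.im + α * Real.log T * s'.im := by field_simp
    have a3 : gw P s s' = Real.exp (-(s.im ^ 2 / (2 * P ^ 2))) *
        Real.exp (-(s'.im ^ 2 / (2 * P ^ 2))) := by
      unfold gw
      rw [← Real.exp_add]
      congr 1
      ring
    rw [a1, a2, a3, Real.cos_sub, Real.cos_add]
    ring
  simp_rw [e1]
  have hci : ∀ x : ℝ, Integrable fun α => max 0 (h - |α|) * Real.cos (2 * Real.pi * α * x) :=
    fun x => tent_integrable h (by fun_prop)
  rw [integral_const_mul, integral_finsetSum _ fun s _ => ?_]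
  · congr 1
    refine Finset.sum_congr rfl fun s _ => ?_
    rw [integral_finsetSum _ fun s' _ => ?_]
    · refine Finset.sum_congr rfl fun s' _ => ?_
      rw [integral_const_mul, integral_const_mul, integral_add (hci _) (hci _), ← Kt_rep hh,
        ← Kt_rep hh]
    · exact (((hci _).add (hci _)).const_mul _).const_mul _
  · exact integrable_finsetSum _ fun s' _ => (((hci _).add (hci _)).const_mul _).const_mul _

lemma sc_diff {T : ℝ} (hT : 0 < T) (x y : ℝ) :
    |sc T x * sc T y - om (max x y / T)| ≤ |x - y| / (2 * T) := by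
  rw [om_sc]
  have hx := sc_le T x
  have hy := sc_le T y
  have h1 := sc_lip hT x y
  rcases le_total x y with h | h
  · rw [max_eq_right h]
    have e : sc T x * sc T y - sc T y ^ 2 = (sc T x - sc T y) * sc T y := by ring
    rw [e, abs_mul]
    calc _ ≤ |sc T x - sc T y| * 1 := mul_le_mul_of_nonneg_left hy (abs_nonneg _)
      _ ≤ _ := by rw [mul_one]; exact h1
  · rw [max_eq_left h]
    have e : sc T x * sc T y - sc T x ^ 2 = -((sc T x - sc T y) * sc T x) := by ring
    rw [e, abs_neg, abs_mul]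
    calc _ ≤ |sc T x - sc T y| * 1 := mul_le_mul_of_nonneg_left hx (abs_nonneg _)
      _ ≤ _ := by rw [mul_one]; exact h1

lemma pwS {g : ℝ} (hg : 0 < g) {T P h : ℝ} (hT : 10 ≤ T) (hP : T ≤ P) (hh : 0 < h)
    (hhT : h * Real.log T ≤ T) {s s' : ℂ} (h1 : g ≤ s.im) (h2 : g ≤ s'.im) :
    |gw P s s' * (sc T s.im * sc T s'.im) *
        (Kt h ((s.im - s'.im) * Real.log T / (2 * Real.pi)) +
        Kt h ((s.im + s'.im) * Real.log T / (2 * Real.pi))) -
      Kt h ((s.im - s'.im) * Real.log T / (2 * Real.pi)) * (om (max s.im s'.im / T) *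
        Real.exp (-(max s.im s'.im / P) ^ 2))| ≤
    (20 + 1 / g ^ 2) / Real.log T ^ 2 *
      (wq s s' * Real.exp (-(max s.im s'.im / (2 * P)) ^ 2)) := by
  have hpi := Real.pi_pos
  have hL := one_lt_log (show 3 ≤ T by linarith)
  have hT0 : 0 < T := by linarith
  have hP0 : 0 < P := by linarith
  obtain ⟨L, hLe⟩ : ∃ L : ℝ, L = Real.log T := ⟨_, rfl⟩
  rw [← hLe] at hhT hL ⊢
  have hL0 : 0 < L := by linarith
  obtain ⟨a1, a2, a3⟩ := gw_diff hP0 (hg.trans_le h1) (hg.trans_le h2)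
  have a4 := sc_diff hT0 s.im s'.im
  obtain ⟨O, hO⟩ : ∃ O : ℝ, O = om (max s.im s'.im / T) := ⟨_, rfl⟩
  have hO0 : 0 ≤ O := by rw [hO]; exact om_nonneg _
  have hO1 : O ≤ 1 := by rw [hO]; exact om_le_one _
  rw [← hO] at a4 ⊢
  obtain ⟨S, hS⟩ : ∃ S : ℝ, S = sc T s.im * sc T s'.im := ⟨_, rfl⟩
  have hS1 : |S| ≤ 1 := by
    rw [hS, abs_mul]
    exact mul_le_one₀ (sc_le _ _) (abs_nonneg _) (sc_le _ _)
  rw [← hS] at a4 ⊢
  obtain ⟨E, hE⟩ : ∃ E : ℝ, E = Real.exp (-(max s.im s'.im / (2 * P)) ^ 2) := ⟨_, rfl⟩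
  obtain ⟨G, hG⟩ : ∃ G : ℝ, G = Real.exp (-(max s.im s'.im / P) ^ 2) := ⟨_, rfl⟩
  have hE0 : 0 < E := by rw [hE]; exact Real.exp_pos _
  have hG0 : 0 < G := by rw [hG]; exact Real.exp_pos _
  have hgw0 : 0 < gw P s s' := Real.exp_pos _
  rw [← hE] at a2 a3 ⊢
  rw [← hG] at a1 a2 ⊢
  obtain ⟨d, hd⟩ : ∃ d : ℝ, d = s.im - s'.im := ⟨_, rfl⟩
  obtain ⟨σ, hσ⟩ : ∃ σ : ℝ, σ = s.im + s'.im := ⟨_, rfl⟩
  rw [← hd] at a2 a4 ⊢
  rw [← hσ]
  have hwq : wq s s' = 1 / (1 + d ^ 2) := by unfold wq; rw [hd]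
  rw [hwq]
  have hσ1 : 2 * g ≤ σ := by rw [hσ]; linarith
  have hσ2 : d ^ 2 ≤ σ ^ 2 := by
    rw [hσ, hd]
    have : 0 ≤ s.im * s'.im := mul_nonneg (by linarith) (by linarith)
    nlinarith
  have hσ0 : 0 < σ := by linarith
  have K1 := Kt_nonneg hh (d * L / (2 * Real.pi))
  have K2 := Kt_nonneg hh (σ * L / (2 * Real.pi))
  -- the bound for the sum
  have b2 : |gw P s s' * S * Kt h (σ * L / (2 * Real.pi))| ≤
      (4 + 1 / g ^ 2) / L ^ 2 * (1 / (1 + d ^ 2) * E) := by
    have c1 := Kt_le' hh (x := σ * L / (2 * Real.pi)) (by positivity)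
    have c2 : 1 / (Real.pi * (σ * L / (2 * Real.pi))) ^ 2 = 4 / L ^ 2 * (1 / σ ^ 2) := by
      field_simp
      norm_num
    have c3 : 1 / σ ^ 2 ≤ (1 + 1 / (4 * g ^ 2)) * (1 / (1 + d ^ 2)) := by
      rw [mul_one_div, div_le_div_iff₀ (by positivity) (by positivity)]
      have d1 : 1 ≤ σ ^ 2 / (4 * g ^ 2) := by
        rw [le_div_iff₀ (by positivity)]
        nlinarith
      have d2 : (1 + 1 / (4 * g ^ 2)) * σ ^ 2 = σ ^ 2 + σ ^ 2 / (4 * g ^ 2) := by
        field_simp
      rw [d2]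
      linarith
    rw [c2] at c1
    have c4 : Kt h (σ * L / (2 * Real.pi)) ≤ (4 + 1 / g ^ 2) / L ^ 2 * (1 / (1 + d ^ 2)) := by
      refine c1.trans ((mul_le_mul_of_nonneg_left c3 (by positivity)).trans (le_of_eq ?_))
      field_simp
    have c5 : |gw P s s' * S| ≤ E := by
      rw [abs_mul, abs_of_pos hgw0]
      calc gw P s s' * |S| ≤ E * 1 := mul_le_mul a3 hS1 (abs_nonneg _) hE0.le
        _ = E := mul_one E
    rw [abs_mul, abs_of_nonneg K2]
    calc |gw P s s' * S| * Kt h (σ * L / (2 * Real.pi)) ≤ E * ((4 + 1 / g ^ 2) / L ^ 2 *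
          (1 / (1 + d ^ 2))) := mul_le_mul c5 c4 K2 hE0.le
      _ = _ := by ring
  -- the factor of the difference
  have hGE : G ≤ E := by
    rw [hG, hE]
    apply Real.exp_le_exp.2
    have : (max s.im s'.im / (2 * P)) ^ 2 = (max s.im s'.im / P) ^ 2 / 4 := by
      field_simp
      norm_num
    rw [this]
    nlinarith [sq_nonneg (max s.im s'.im / P)]
  have x1 : |gw P s s' * S - O * G| ≤ 2 * E * (|d| / T) := by
    have e : gw P s s' * S - O * G = (gw P s s' - G) * S + G * (S - O) := by ring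
    rw [e]
    refine (abs_add_le _ _).trans ?_
    rw [abs_mul, abs_mul, abs_of_nonneg a1, abs_of_pos hG0]
    have hd0 := abs_nonneg d
    have y1 : (gw P s s' - G) * |S| ≤ E * (|d| / P) * 1 :=
      mul_le_mul a2 hS1 (abs_nonneg _) (by positivity)
    have y2 : G * |S - O| ≤ E * (|d| / (2 * T)) := mul_le_mul hGE a4 (abs_nonneg _) hE0.le
    have y3 : |d| / P ≤ |d| / T := div_le_div_of_nonneg_left hd0 hT0 hP
    have y4 : |d| / (2 * T) ≤ |d| / T := div_le_div_of_nonneg_left hd0 hT0 (by linarith)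
    have y5 := mul_le_mul_of_nonneg_left y3 hE0.le
    have y6 := mul_le_mul_of_nonneg_left y4 hE0.le
    linarith
  have x2 : |gw P s s' * S - O * G| ≤ 2 * E := by
    refine (abs_sub _ _).trans ?_
    rw [abs_mul, abs_mul, abs_of_pos hgw0, abs_of_nonneg hO0, abs_of_pos hG0]
    have y1 : gw P s s' * |S| ≤ E * 1 := mul_le_mul a3 hS1 (abs_nonneg _) hE0.le
    have y2 : O * G ≤ 1 * E := mul_le_mul hO1 hGE hG0.le zero_le_one
    linarith
  -- the bound for the difference
  have b1 : |(gw P s s' * S - O * G) * Kt h (d * L / (2 * Real.pi))| ≤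
      16 / L ^ 2 * (1 / (1 + d ^ 2) * E) := by
    rw [abs_mul, abs_of_nonneg K1]
    rcases eq_or_ne d 0 with hd0 | hd0
    · have : |gw P s s' * S - O * G| ≤ 0 := by
        rw [hd0, abs_zero, zero_div, mul_zero] at x1
        exact x1
      have : |gw P s s' * S - O * G| * Kt h (d * L / (2 * Real.pi)) ≤ 0 :=
        mul_nonpos_of_nonpos_of_nonneg this K1
      exact this.trans (by positivity)
    · have hdp : 0 < |d| := abs_pos.2 hd0
      have c1 := Kt_le' hh (x := d * L / (2 * Real.pi)) (by positivity)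
      have c2 : 1 / (Real.pi * (d * L / (2 * Real.pi))) ^ 2 = 4 / (|d| * L) ^ 2 := by
        rw [mul_pow |d|, sq_abs]
        field_simp
        norm_num
      rw [c2] at c1
      have c3 := Kt_le hh (d * L / (2 * Real.pi))
      rcases le_or_gt |d| 1 with hd1 | hd1
      · have c4 : Kt h (d * L / (2 * Real.pi)) ≤ 2 * h / (|d| * L) := by
          refine (sq_le_sq₀ K1 (by positivity)).1 ?_
          calc Kt h (d * L / (2 * Real.pi)) ^ 2 = Kt h (d * L / (2 * Real.pi)) *
                Kt h (d * L / (2 * Real.pi)) := sq _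
            _ ≤ h ^ 2 * (4 / (|d| * L) ^ 2) := mul_le_mul c3 c1 K1 (by positivity)
            _ = (2 * h / (|d| * L)) ^ 2 := by ring
        calc |gw P s s' * S - O * G| * Kt h (d * L / (2 * Real.pi)) ≤
              (2 * E * (|d| / T)) * (2 * h / (|d| * L)) := mul_le_mul x1 c4 K1 (by positivity)
          _ = E * (4 * (h / (T * L))) := by field_simp; norm_num
          _ ≤ E * (4 * (1 / L ^ 2)) := by
              have : h / (T * L) ≤ 1 / L ^ 2 := by
                rw [div_le_div_iff₀ (by positivity) (by positivity)]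
                nlinarith
              gcongr
          _ ≤ 16 / L ^ 2 * (1 / (1 + d ^ 2) * E) := by
              have h3 : d ^ 2 ≤ 1 := by
                rw [← sq_abs]
                exact pow_le_one₀ hdp.le hd1
              have h4 : 1 / 2 ≤ 1 / (1 + d ^ 2) := by
                apply one_div_le_one_div_of_le (by positivity)
                linarith
              have h5 : 16 / L ^ 2 * (1 / 2 * E) ≤ 16 / L ^ 2 * (1 / (1 + d ^ 2) * E) := by
                gcongr
              have h6 : E * (4 * (1 / L ^ 2)) ≤ 16 / L ^ 2 * (1 / 2 * E) := by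
                have : 0 ≤ E * (1 / L ^ 2) := by positivity
                calc E * (4 * (1 / L ^ 2)) = 4 * (E * (1 / L ^ 2)) := by ring
                  _ ≤ 8 * (E * (1 / L ^ 2)) := by linarith
                  _ = _ := by ring
              exact h6.trans h5
      · calc |gw P s s' * S - O * G| * Kt h (d * L / (2 * Real.pi)) ≤
              (2 * E) * (4 / (|d| * L) ^ 2) := mul_le_mul x2 c1 K1 (by positivity)
          _ = 8 / L ^ 2 * (1 / d ^ 2 * E) := by
              rw [mul_pow, sq_abs]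
              field_simp
              norm_num
          _ ≤ 8 / L ^ 2 * (2 * (1 / (1 + d ^ 2)) * E) := by
              have h3 : 1 ≤ d ^ 2 := by
                rw [← sq_abs]
                nlinarith
              have h4 : 1 / d ^ 2 ≤ 2 * (1 / (1 + d ^ 2)) := by
                rw [mul_one_div, div_le_div_iff₀ (by positivity) (by positivity)]
                linarith
              gcongr
          _ = _ := by ring
  have e : gw P s s' * S * (Kt h (d * L / (2 * Real.pi)) + Kt h (σ * L / (2 * Real.pi))) -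
      Kt h (d * L / (2 * Real.pi)) * (O * G) =
      (gw P s s' * S - O * G) * Kt h (d * L / (2 * Real.pi)) +
      gw P s s' * S * Kt h (σ * L / (2 * Real.pi)) := by ring
  have e2 : (20 + 1 / g ^ 2) / L ^ 2 * (1 / (1 + d ^ 2) * E) =
      16 / L ^ 2 * (1 / (1 + d ^ 2) * E) + (4 + 1 / g ^ 2) / L ^ 2 * (1 / (1 + d ^ 2) * E) := by
    ring
  rw [e, e2]
  exact (abs_add_le _ _).trans (add_le_add b1 b2)

/-- the main part of the mean square -/
noncomputable def Mn (T P Y h : ℝ) : ℝ := 2 / (T * Real.log T) *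
  ∑ s ∈ ZZ Y, ∑ s' ∈ ZZ Y, mm s * mm s' *
    (Kt h ((s.im - s'.im) * Real.log T / (2 * Real.pi)) * (om (max s.im s'.im / T) *
      Real.exp (-(max s.im s'.im / P) ^ 2)))

/-- **the mean square** -/
theorem Jt_mixS : ∃ C : ℝ, 0 < C ∧ ∀ T P : ℝ, 10 ≤ T → T ≤ P → ∀ Y h : ℝ, 0 < h →
    h * Real.log T ≤ T →
    |Jt (Ds T P Y) h - Mn T P Y h| ≤ C * (P / T * Real.log P ^ 2) / Real.log T ^ 3 := by
  obtain ⟨C, hC, hrow⟩ := row_bound
  obtain ⟨g, hg, _, hlow⟩ := low_ord
  have hpi := Real.pi_pos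
  obtain ⟨I, hI⟩ : ∃ I : ℝ, I = ∫ c in Ioi (0 : ℝ), gd c * (1 + 2 * c) ^ 3 := ⟨_, rfl⟩
  have hI0 : 0 ≤ I := by
    rw [hI]
    exact setIntegral_nonneg measurableSet_Ioi fun c hc => mul_nonneg (gd_nonneg (le_of_lt hc))
      (by have : (0 : ℝ) < c := hc
          positivity)
  obtain ⟨K, hK⟩ : ∃ K : ℝ, K = 20 + 1 / g ^ 2 := ⟨_, rfl⟩
  have hK0 : 0 < K := by rw [hK]; positivity
  refine ⟨2 * K * C * I + 1, by positivity, fun T P hT hPT Y h hh hhT => ?_⟩
  have hL := one_lt_log (show 3 ≤ T by linarith)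
  have hLP := one_lt_log (show 3 ≤ P by linarith)
  have hT0 : 0 < T := by linarith
  have hP0 : 0 < P := by linarith
  obtain ⟨L, hLe⟩ : ∃ L : ℝ, L = Real.log T := ⟨_, rfl⟩
  obtain ⟨Q, hQe⟩ : ∃ Q : ℝ, Q = Real.log P := ⟨_, rfl⟩
  have hL0 : 0 < L := by rw [hLe]; linarith
  have hQ0 : 0 < Q := by rw [hQe]; linarith
  unfold Mn
  rw [Jt_Ds P Y (by linarith) hh, ← mul_sub, abs_mul, abs_of_nonneg (by positivity),
    ← Finset.sum_sub_distrib]
  have h1 : |∑ s ∈ ZZ Y, (∑ s' ∈ ZZ Y, mm s * mm s' * (gw P s s' * (sc T s.im * sc T s'.im) *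
        (Kt h ((s.im - s'.im) * Real.log T / (2 * Real.pi)) +
          Kt h ((s.im + s'.im) * Real.log T / (2 * Real.pi)))) -
      ∑ s' ∈ ZZ Y, mm s * mm s' * (Kt h ((s.im - s'.im) * Real.log T / (2 * Real.pi)) *
        (om (max s.im s'.im / T) * Real.exp (-(max s.im s'.im / P) ^ 2))))| ≤
      ∑ s ∈ ZZ Y, ∑ s' ∈ ZZ Y, mm s * mm s' * (K / L ^ 2 *
        (wq s s' * Real.exp (-(max s.im s'.im / (2 * P)) ^ 2))) := by
    refine (Finset.abs_sum_le_sum_abs _ _).trans (Finset.sum_le_sum fun s hs => ?_)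
    rw [← Finset.sum_sub_distrib]
    refine (Finset.abs_sum_le_sum_abs _ _).trans (Finset.sum_le_sum fun s' hs' => ?_)
    rw [← mul_sub, abs_mul, abs_of_nonneg (mul_nonneg (mm_nonneg _) (mm_nonneg _))]
    refine mul_le_mul_of_nonneg_left ?_ (mul_nonneg (mm_nonneg _) (mm_nonneg _))
    rw [hK, hLe]
    exact pwS hg hT hPT hh hhT (hlow Y s hs) (hlow Y s' hs')
  have h2 : ∑ s ∈ ZZ Y, ∑ s' ∈ ZZ Y, mm s * mm s' * (K / L ^ 2 *
        (wq s s' * Real.exp (-(max s.im s'.im / (2 * P)) ^ 2))) =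
      K / L ^ 2 * ∫ c in Ioi (0 : ℝ), gd c * SPair (min (c * (2 * P)) Y) wq := by
    rw [← layer Y (by positivity) wq, Finset.mul_sum]
    refine Finset.sum_congr rfl fun s _ => ?_
    rw [Finset.mul_sum]
    refine Finset.sum_congr rfl fun s' _ => ?_
    ring
  have h3 : ∫ c in Ioi (0 : ℝ), gd c * SPair (min (c * (2 * P)) Y) wq ≤
      ∫ c in Ioi (0 : ℝ), C * (P * Q ^ 2) * (gd c * (1 + 2 * c) ^ 3) := by
    refine setIntegral_mono_on (layer_int Y (by positivity) wq) ((gd_poly_int 3).const_mul _)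
      measurableSet_Ioi fun c hc => ?_
    have hc0 : 0 < c := hc
    have b1 : SPair (min (c * (2 * P)) Y) wq ≤ C * (P * Q ^ 2) * (1 + 2 * c) ^ 3 := by
      refine (SPair_mono (min_le_left _ _) wq_nonneg).trans ((hrow _ (by positivity)).trans ?_)
      have b2 : c * (2 * P) + 10 ≤ P * (1 + 2 * c) := by nlinarith
      have b3 : Real.log (c * (2 * P) + 10) ≤ Q * (1 + 2 * c) := by
        refine (Real.log_le_log (by positivity) b2).trans ?_
        rw [Real.log_mul (by positivity) (by positivity)]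
        have b4 : Real.log (1 + 2 * c) ≤ 2 * c := by
          have := Real.log_le_sub_one_of_pos (show 0 < 1 + 2 * c by positivity)
          linarith
        rw [← hQe]
        rw [← hQe] at hLP
        nlinarith
      have b5 : 0 ≤ Real.log (c * (2 * P) + 10) := Real.log_nonneg (by nlinarith)
      calc C * ((c * (2 * P) + 10) * Real.log (c * (2 * P) + 10) ^ 2)
          ≤ C * ((P * (1 + 2 * c)) * (Q * (1 + 2 * c)) ^ 2) := by gcongr
        _ = _ := by ring
    calc gd c * SPair (min (c * (2 * P)) Y) wq ≤ gd c * (C * (P * Q ^ 2) * (1 + 2 * c) ^ 3) :=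
          mul_le_mul_of_nonneg_left b1 (gd_nonneg hc0.le)
      _ = _ := by ring
  rw [integral_const_mul, ← hI] at h3
  rw [h2] at h1
  refine (mul_le_mul_of_nonneg_left (h1.trans (mul_le_mul_of_nonneg_left h3 (by positivity)))
    (by positivity)).trans ?_
  rw [← hLe, ← hQe]
  have e4 : 2 / (T * L) * (K / L ^ 2 * (C * (P * Q ^ 2) * I)) =
      (2 * K * C * I) * (P / T * Q ^ 2) / L ^ 3 := by
    field_simp
  rw [e4]
  have h5 : 0 ≤ P / T * Q ^ 2 := by positivity
  gcongr
  linarith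

end Pool.Agent.NH10.SV
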