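import Pool.Agent.NH10.SV.ZB

/-! # The mean square for sharp windows: limits -/

set_option autoImplicit false
set_option maxHeartbeats 4000000

open MeasureTheory Set Filter Topology

namespace Pool.Agent.NH10.SV

open Pool.Agent.Y749.Rig hiding PT
open Pool.Agent.NH10.GM

lemma SPair_prod (Y y : ℝ) (f : ℂ → ℂ → ℝ) : SPair (min y Y) f =
    ∑ p ∈ ZZ Y ×ˢ ZZ Y, (if max p.1.im p.2.im ≤ y then mm p.1 * mm p.2 * f p.1 p.2 else 0) := by
  rw [SPair_min, Finset.sum_product]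
  refine Finset.sum_congr rfl fun s _ => Finset.sum_congr rfl fun s' _ => ?_
  split_ifs
  · rfl
  · rw [mul_zero]

lemma log_cube {c : ℝ} (hc : 1 ≤ c) : (1 + Real.log c) ^ 3 ≤ 216 * Real.sqrt c := by
  have hc0 : 0 < c := by linarith
  obtain ⟨x, hx⟩ : ∃ x : ℝ, x = Real.log c := ⟨_, rfl⟩
  have hx0 : 0 ≤ x := by rw [hx]; exact Real.log_nonneg hc
  have h1 : Real.sqrt c = Real.exp (x / 6) ^ 3 := by
    rw [← Real.exp_nat_mul, Real.sqrt_eq_rpow, Real.rpow_def_of_pos hc0, ← hx]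
    congr 1
    push_cast
    ring
  have h2 : (1 + x) / 6 ≤ Real.exp (x / 6) := by
    have := Real.add_one_le_exp (x / 6)
    linarith
  rw [← hx, h1]
  have h3 := pow_le_pow_left₀ (by linarith) h2 3
  calc (1 + x) ^ 3 = 216 * ((1 + x) / 6) ^ 3 := by ring
    _ ≤ _ := mul_le_mul_of_nonneg_left h3 (by norm_num)

/-- domination -/
lemma MTf_dom2 {h : ℝ} (hh : 0 < h) : ∃ C : ℝ, 0 < C ∧ ∀ᶠ T in atTop, ∀ c : ℝ, 1 ≤ c →
    MTf T h c ≤ C * (c * Real.sqrt c) := by
  obtain ⟨C, hC, hB⟩ := PT_bdd hh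
  obtain ⟨T₁, hT₁⟩ := eventually_atTop.1 hB
  refine ⟨432 * C, by positivity, ?_⟩
  filter_upwards [eventually_ge_atTop T₁, eventually_ge_atTop 10] with T hTT hT c hc
  have hL := one_lt_log (show 3 ≤ T by linarith)
  have hT0 : 0 < T := by linarith
  have hc0 : 0 < c := by linarith
  have hcT : T ≤ c * T := by nlinarith
  have hlog : Real.log (c * T) = Real.log c + Real.log T := Real.log_mul hc0.ne' hT0.ne'
  have hlc0 : 0 ≤ Real.log c := Real.log_nonneg hc
  have hLc : 0 < Real.log (c * T) := by rw [hlog]; linarith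
  rw [MTf_eq hT (by linarith) hh]
  have hr1 : Real.log (c * T) / Real.log T ≤ 1 + Real.log c := by
    rw [div_le_iff₀ (by linarith), hlog]
    nlinarith
  have hr0 : 0 ≤ Real.log (c * T) / Real.log T := div_nonneg hLc.le (by linarith)
  have hmu : Real.log T / Real.log (c * T) * h ≤ h := by
    have : Real.log T / Real.log (c * T) ≤ 1 := by
      rw [div_le_one hLc, hlog]
      linarith
    nlinarith
  have hmu0 : 0 < Real.log T / Real.log (c * T) * h :=
    mul_pos (div_pos (by linarith) hLc) hh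
  have hp : PT (c * T) (Real.log T / Real.log (c * T) * h) ≤ C :=
    (PT_mono (by linarith) hmu0 hmu).trans (hT₁ _ (by linarith))
  have hp0 := PT_nonneg (c * T) hmu0
  calc 2 * c * (Real.log (c * T) / Real.log T) ^ 3 *
        PT (c * T) (Real.log T / Real.log (c * T) * h)
      ≤ 2 * c * (1 + Real.log c) ^ 3 * C := by gcongr
    _ ≤ 2 * c * (216 * Real.sqrt c) * C := by
        have := log_cube hc
        gcongr
    _ = _ := by ring

lemma tail_int {R C : ℝ} (hR : 0 < R) :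
    IntegrableOn (fun c : ℝ => 2 / c ^ 3 * (C * (c * Real.sqrt c))) (Ioi R) ∧
    ∫ c in Ioi R, 2 / c ^ 3 * (C * (c * Real.sqrt c)) = 4 * C / Real.sqrt R := by
  have h1 := integrableOn_Ioi_rpow_of_lt (a := -3 / 2) (by norm_num) hR
  have h2 := integral_Ioi_rpow_of_lt (a := -3 / 2) (by norm_num) hR
  have e : ∀ c ∈ Ioi R, c ^ (-3 / 2 : ℝ) * (2 * C) = 2 / c ^ 3 * (C * (c * Real.sqrt c)) := by
    intro c hc
    have hc0 : 0 < c := hR.trans hc
    have hs := Real.sqrt_pos.2 hc0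
    have e1 : c ^ (-3 / 2 : ℝ) = 1 / (c * Real.sqrt c) := by
      have : (-3 / 2 : ℝ) = -(1 + 1 / 2) := by norm_num
      rw [this, Real.rpow_neg hc0.le, Real.rpow_add hc0, Real.rpow_one, ← Real.sqrt_eq_rpow,
        one_div]
    have e2 : c ^ 3 = (c * Real.sqrt c) * (c * Real.sqrt c) := by
      have : Real.sqrt c * Real.sqrt c = c := Real.mul_self_sqrt hc0.le
      calc c ^ 3 = c * c * c := by ring
        _ = c * c * (Real.sqrt c * Real.sqrt c) := by rw [this]
        _ = _ := by ring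
    rw [e1, e2]
    field_simp
  constructor
  · have h3 : IntegrableOn (fun c : ℝ => c ^ (-3 / 2 : ℝ) * (2 * C)) (Ioi R) := h1.mul_const _
    exact h3.congr_fun e measurableSet_Ioi
  · rw [← setIntegral_congr_fun measurableSet_Ioi e, integral_mul_const, h2]
    have : (-3 / 2 : ℝ) + 1 = -(1 / 2) := by norm_num
    rw [this, Real.rpow_neg hR.le, ← Real.sqrt_eq_rpow]
    have := Real.sqrt_pos.2 hR
    field_simp
    ring

lemma Mn_VF {T P Y h R C : ℝ} (hT : 1 < T) (hP : 0 < P) (hh : 0 < h) (hR : 0 < R)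
    (hY : R * T ≤ Y) (hC : ∀ c : ℝ, R < c → MTf T h c ≤ C * (c * Real.sqrt c)) :
    |2 * Real.pi * Mn T P Y h - VF (MTf T h) R| ≤
      (R * T / P) ^ 2 * MTf T h R + 16 * C / Real.sqrt R := by
  classical
  have hpi := Real.pi_pos
  have hL := Real.log_pos hT
  have hT0 : 0 < T := by linarith
  obtain ⟨a, ha⟩ : ∃ a : ℝ, a = 4 * Real.pi / (T * Real.log T) := ⟨_, rfl⟩
  have ha0 : 0 < a := by rw [ha]; positivity
  obtain ⟨w, hw⟩ : ∃ w : ℂ × ℂ → ℝ, w = fun p => a * (mm p.1 * mm p.2 *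
    Kt h ((p.1.im - p.2.im) * Real.log T / (2 * Real.pi))) := ⟨_, rfl⟩
  obtain ⟨m, hm⟩ : ∃ m : ℂ × ℂ → ℝ, m = fun p => max p.1.im p.2.im := ⟨_, rfl⟩
  obtain ⟨A, hA⟩ : ∃ A : Finset (ℂ × ℂ), A = ZZ Y ×ˢ ZZ Y := ⟨_, rfl⟩
  have hw0 : ∀ p, 0 ≤ w p := by
    intro p
    rw [hw]
    exact mul_nonneg ha0.le (mul_nonneg (mul_nonneg (mm_nonneg _) (mm_nonneg _))
      (Kt_nonneg hh _))
  have hmp : ∀ p ∈ A, 0 < m p := by
    intro p hp
    rw [hA, Finset.mem_product, mem_ZZ] at hp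
    rw [hm]
    exact (zs_im_pos hp.1).trans_le (le_max_left _ _)
  have eMT : ∀ c : ℝ, MT T Y h c = ∑ p ∈ A, (if m p ≤ c * T then w p else 0) := by
    intro c
    unfold MT
    rw [SPair_prod, ← ha, Finset.mul_sum, hA]
    refine Finset.sum_congr rfl fun p _ => ?_
    rw [hw, hm]
    simp only
    split_ifs
    · ring
    · rw [mul_zero]
  have eMn : 2 * Real.pi * Mn T P Y h =
      ∑ p ∈ A, w p * (om (m p / T) * Real.exp (-(m p / P) ^ 2)) := by
    unfold Mn
    rw [hA, Finset.sum_product, ← mul_assoc, Finset.mul_sum]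
    refine Finset.sum_congr rfl fun s _ => ?_
    rw [Finset.mul_sum]
    refine Finset.sum_congr rfl fun s' _ => ?_
    rw [hw, hm, ha]
    simp only
    ring
  have eVF : VF (MTf T h) R = ∑ p ∈ A, (if m p ≤ R * T then w p * om (m p / T) else 0) := by
    rw [lay A w m hmp hT0 hR]
    unfold VF
    rw [← eMT, MT_eq h hY]
    congr 1
    refine intervalIntegral.integral_congr fun c hc => ?_
    rw [uIcc_of_le hR.le] at hc
    have h1 : c * T ≤ Y := (mul_le_mul_of_nonneg_right hc.2 hT0.le).trans hY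
    show omd c * MTf T h c = omd c * ∑ p ∈ A, (if m p ≤ c * T then w p else 0)
    rw [← eMT, MT_eq h h1]
  obtain ⟨t1, t2⟩ := lay_tail A w m (fun p _ => hw0 p) hT0 hR
  have key : ∀ p ∈ A, |w p * (om (m p / T) * Real.exp (-(m p / P) ^ 2)) -
      (if m p ≤ R * T then w p * om (m p / T) else 0)| ≤
      (R * T / P) ^ 2 * (if m p ≤ R * T then w p else 0) +
        4 * (if R * T < m p then w p * (T / m p) ^ 2 else 0) := by
    intro p hp
    have h0 := hw0 p
    have hmp0 := hmp p hp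
    have ho := om_nonneg (m p / T)
    have ho1 := om_le_one (m p / T)
    have he : Real.exp (-(m p / P) ^ 2) ≤ 1 := Real.exp_le_one_iff.2 (by
      have := sq_nonneg (m p / P); linarith)
    have he0 := Real.exp_pos (-(m p / P) ^ 2)
    by_cases h1 : m p ≤ R * T
    · rw [if_pos h1, if_pos h1, if_neg (not_lt.2 h1), mul_zero, add_zero]
      have e1 : w p * (om (m p / T) * Real.exp (-(m p / P) ^ 2)) - w p * om (m p / T) =
          -(w p * (om (m p / T) * (1 - Real.exp (-(m p / P) ^ 2)))) := by ring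
      rw [e1, abs_neg, abs_of_nonneg (mul_nonneg h0 (mul_nonneg ho (by linarith)))]
      have h2 : 1 - Real.exp (-(m p / P) ^ 2) ≤ (R * T / P) ^ 2 := by
        have h3 := Real.add_one_le_exp (-(m p / P) ^ 2)
        have h4 : (m p / P) ^ 2 ≤ (R * T / P) ^ 2 := by
          apply pow_le_pow_left₀ (div_nonneg hmp0.le hP.le)
          gcongr
        linarith
      calc w p * (om (m p / T) * (1 - Real.exp (-(m p / P) ^ 2))) ≤
            w p * (1 * (R * T / P) ^ 2) := by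
            refine mul_le_mul_of_nonneg_left ?_ h0
            exact mul_le_mul ho1 h2 (by linarith) zero_le_one
        _ = _ := by ring
    · rw [if_neg h1, if_neg h1, if_pos (not_le.1 h1), mul_zero, zero_add, sub_zero,
        abs_of_nonneg (mul_nonneg h0 (mul_nonneg ho he0.le))]
      have h2 := om_le (show m p / T ≠ 0 by positivity)
      have e2 : 4 / (m p / T) ^ 2 = 4 * (T / m p) ^ 2 := by
        field_simp
      rw [e2] at h2
      calc w p * (om (m p / T) * Real.exp (-(m p / P) ^ 2)) ≤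
            w p * (4 * (T / m p) ^ 2 * 1) := by
            refine mul_le_mul_of_nonneg_left ?_ h0
            exact mul_le_mul h2 he he0.le (by positivity)
        _ = _ := by ring
  rw [eMn, eVF, ← Finset.sum_sub_distrib]
  refine (Finset.abs_sum_le_sum_abs _ _).trans ((Finset.sum_le_sum key).trans ?_)
  rw [Finset.sum_add_distrib, ← Finset.mul_sum, ← Finset.mul_sum, ← eMT, MT_eq h hY]
  refine add_le_add le_rfl ?_
  have t3 : ∫ c in Ioi R, 2 / c ^ 3 * ∑ i ∈ A, (if m i ≤ c * T then w i else 0) ≤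
      ∫ c in Ioi R, 2 / c ^ 3 * (C * (c * Real.sqrt c)) := by
    refine setIntegral_mono_on t1 (tail_int hR).1 measurableSet_Ioi fun c hc => ?_
    have hc0 : 0 < c := hR.trans hc
    rw [← eMT]
    exact mul_le_mul_of_nonneg_left ((MT_le hT Y hh c).trans (hC c hc)) (by positivity)
  rw [(tail_int hR).2] at t3
  have t4 := mul_le_mul_of_nonneg_left (t2.trans t3) (show (0 : ℝ) ≤ 4 by norm_num)
  refine t4.trans (le_of_eq ?_)
  ring

/-- the hypotheses on the parameters -/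
structure Par (P Y : ℝ → ℝ) : Prop where
  one : ∀ᶠ T in atTop, T ≤ P T
  big : Tendsto (fun T => P T / T) atTop atTop
  small : Tendsto (fun T => P T / T * Real.log (P T) ^ 2 / Real.log T ^ 3) atTop (𝓝 0)
  Y : ∀ᶠ T in atTop, T ^ 2 ≤ Y T

variable {P Y : ℝ → ℝ}

lemma log_le_self {h : ℝ} (hh : 0 < h) : ∀ᶠ T : ℝ in atTop, h * Real.log T ≤ T := by
  have h4 : Tendsto (fun T : ℝ => Real.log T / T) atTop (𝓝 0) := by
    simpa using Real.tendsto_pow_log_div_mul_add_atTop 1 0 1 one_ne_zero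
  filter_upwards [h4.eventually (gt_mem_nhds (show (0 : ℝ) < 1 / h by positivity)),
    eventually_gt_atTop 0] with T hT hT0
  rw [div_lt_div_iff₀ hT0 hh] at hT
  linarith

lemma Jt_Mn (hp : Par P Y) {h : ℝ} (hh : 0 < h) :
    Tendsto (fun T => Jt (Ds T (P T) (Y T)) h - Mn T (P T) (Y T) h) atTop (𝓝 0) := by
  obtain ⟨C, hC, hJ⟩ := Jt_mixS
  have h1 := hp.small.const_mul C
  rw [mul_zero] at h1
  refine squeeze_zero_norm' ?_ h1
  filter_upwards [log_le_self hh, eventually_ge_atTop 10, hp.one] with T h3 hT h4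
  rw [Real.norm_eq_abs]
  refine (hJ T (P T) hT h4 (Y T) h hh h3).trans (le_of_eq ?_)
  ring

/-- comparison with the functional -/
lemma mix_toS (hp : Par P Y) {h : ℝ} (hh : 0 < h) {ε : ℝ} (hε : 0 < ε) :
    ∃ R₀ : ℝ, 1 ≤ R₀ ∧ ∀ R : ℝ, R₀ ≤ R → ∀ᶠ T in atTop,
      |2 * Real.pi * Jt (Ds T (P T) (Y T)) h - VF (MTf T h) R| ≤ ε := by
  have hpi := Real.pi_pos
  obtain ⟨C, hC, hdom⟩ := MTf_dom2 hh
  obtain ⟨R₀, hR₀⟩ : ∃ R₀ : ℝ, R₀ = 1 + (48 * C / ε) ^ 2 := ⟨_, rfl⟩
  refine ⟨R₀, by rw [hR₀]; nlinarith [sq_nonneg (48 * C / ε)], fun R hR => ?_⟩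
  have hR1 : 1 ≤ R := by rw [hR₀] at hR; nlinarith [sq_nonneg (48 * C / ε)]
  have hR0 : 0 < R := by linarith
  have hs : 16 * C / Real.sqrt R ≤ ε / 3 := by
    have h1 : 48 * C / ε ≤ Real.sqrt R := by
      apply Real.le_sqrt_of_sq_le
      rw [hR₀] at hR
      linarith
    rw [div_le_iff₀ (Real.sqrt_pos.2 hR0)]
    rw [div_le_iff₀ hε] at h1
    nlinarith
  have h1 : Tendsto (fun T => (R * T / P T) ^ 2) atTop (𝓝 0) := by
    have h2 := ((hp.big.inv_tendsto_atTop).const_mul R).pow 2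
    rw [mul_zero, zero_pow two_ne_zero] at h2
    refine h2.congr fun T => ?_
    simp only [Pi.inv_apply, inv_div]
    ring
  have h3 := h1.mul_const (C * (R * Real.sqrt R))
  rw [zero_mul] at h3
  have h4 := (Jt_Mn hp hh).const_mul (2 * Real.pi)
  rw [mul_zero] at h4
  filter_upwards [h3.eventually (gt_mem_nhds (show (0 : ℝ) < ε / 3 by linarith)),
    (Metric.tendsto_nhds.1 h4) (ε / 3) (by linarith), hdom, hp.Y, hp.one,
    eventually_ge_atTop (max R 10)] with T h3 h4 hd hY h1 hT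
  have hTR : R ≤ T := (le_max_left _ _).trans hT
  have hT10 : 10 ≤ T := (le_max_right _ _).trans hT
  have h5 := Mn_VF (P := P T) (Y := Y T) (C := C) (show 1 < T by linarith)
    (show 0 < P T by linarith) hh hR0 (by nlinarith) fun c hc => hd c (by linarith)
  rw [Real.dist_eq, sub_zero] at h4
  have h6 : (R * T / P T) ^ 2 * MTf T h R ≤ ε / 3 :=
    (mul_le_mul_of_nonneg_left (hd R hR1) (sq_nonneg _)).trans h3.le
  have e : 2 * Real.pi * Jt (Ds T (P T) (Y T)) h - VF (MTf T h) R =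
      2 * Real.pi * (Jt (Ds T (P T) (Y T)) h - Mn T (P T) (Y T) h) +
      (2 * Real.pi * Mn T (P T) (Y T) h - VF (MTf T h) R) := by ring
  rw [e]
  refine (abs_add_le _ _).trans ?_
  linarith

/-- **from the pair sums to the mean squares** -/
theorem mix_limS (hp : Par P Y) {h : ℝ} (hh : 0 < h)
    (hP : ∀ᶠ y in 𝓝 h, Tendsto (fun T => PT T y) atTop (𝓝 (PG y))) :
    Tendsto (fun T => Jt (Ds T (P T) (Y T)) h) atTop (𝓝 (PG h)) := by
  have hpi := Real.pi_pos
  have hPG := PG_pos hh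
  have key : Tendsto (fun T => 2 * Real.pi * Jt (Ds T (P T) (Y T)) h) atTop
      (𝓝 (2 * Real.pi * PG h)) := by
    rw [Metric.tendsto_nhds]
    intro ε hε
    obtain ⟨R₀, hR₀, hR⟩ := mix_toS hp hh (show 0 < ε / 4 by linarith)
    obtain ⟨R, hRe⟩ : ∃ R : ℝ, R = R₀ + 32 * PG h / ε := ⟨_, rfl⟩
    have hq : 0 ≤ 32 * PG h / ε := by positivity
    have hRR : R₀ ≤ R := by rw [hRe]; linarith
    have hR0 : 0 < R := by linarith
    have h1 := VF_lim (F := fun T c => MTf T h c)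
      ((eventually_gt_atTop 1).mono fun T hT => MTf_mono hT hh)
      ((eventually_gt_atTop 1).mono fun T hT => MTf_nonneg hT hh) (Q := PG h)
      (fun c hc => MTf_lim hh hP hc) hR0
    have h2 : |2 * PG h * (∫ c in (0 : ℝ)..R, om c) - 2 * Real.pi * PG h| ≤ ε / 4 := by
      have h3 := om_tail hR0
      have e : 2 * PG h * (∫ c in (0 : ℝ)..R, om c) - 2 * Real.pi * PG h =
          2 * PG h * ((∫ c in (0 : ℝ)..R, om c) - Real.pi) := by ring
      rw [e, abs_mul, abs_of_pos (by positivity)]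
      have h4 : 2 * PG h * (4 / R) ≤ ε / 4 := by
        have h5 : 32 * PG h / ε ≤ R := by rw [hRe]; linarith
        rw [div_le_iff₀ hε] at h5
        rw [← mul_div_assoc, div_le_iff₀ hR0]
        linarith
      exact (mul_le_mul_of_nonneg_left h3 (by positivity)).trans h4
    filter_upwards [hR R hRR, (Metric.tendsto_nhds.1 h1) (ε / 4) (by linarith)] with T t1 t2
    rw [Real.dist_eq] at t2 ⊢
    have e : 2 * Real.pi * Jt (Ds T (P T) (Y T)) h - 2 * Real.pi * PG h =
        (2 * Real.pi * Jt (Ds T (P T) (Y T)) h - VF (MTf T h) R) +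
        (VF (MTf T h) R - 2 * PG h * (∫ c in (0 : ℝ)..R, om c)) +
        (2 * PG h * (∫ c in (0 : ℝ)..R, om c) - 2 * Real.pi * PG h) := by ring
    rw [e]
    refine lt_of_le_of_lt ((abs_add_le _ _).trans (add_le_add (abs_add_le _ _) le_rfl)) ?_
    linarith
  have h3 := key.const_mul (2 * Real.pi)⁻¹
  have e : (2 * Real.pi)⁻¹ * (2 * Real.pi * PG h) = PG h := by field_simp
  rw [e] at h3
  refine h3.congr fun T => ?_
  field_simp

/-- the number of zeros -/
lemma nn_one : Tendsto (fun y : ℝ => (∑ s ∈ ZZ y, mm s) / (y / (2 * Real.pi) * Real.log y)) atTop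
    (𝓝 1) := by
  have hpi := Real.pi_pos
  rw [Metric.tendsto_nhds]
  intro ε hε
  obtain ⟨T0, hT0, h⟩ := Pool.Agent.W54.TCF.NT_asymp' (ε / 2) (by linarith)
  filter_upwards [eventually_ge_atTop T0] with y hy
  obtain ⟨h1, h2⟩ := h y hy
  have hL := one_lt_log (show 3 ≤ y by linarith)
  have hy0 : 0 < y := by linarith
  have hX : 0 < y / (2 * Real.pi) * Real.log y := by positivity
  have e : (∑ s ∈ ZZ y, mm s) = (H370.NN riemannZeta 0 y : ℝ) := by
    rw [ZZ_eq]
    exact Pool.Agent.Y744.sum_Zt y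
  rw [e, Real.dist_eq, abs_lt]
  constructor
  · rw [lt_sub_iff_add_lt, lt_div_iff₀ hX]
    nlinarith
  · rw [sub_lt_iff_lt_add, div_lt_iff₀ hX]
    nlinarith


lemma nn_lim {c : ℝ} (hc : 0 < c) (A : ℝ) :
    Tendsto (fun T : ℝ => 4 * Real.pi / (T * Real.log T) * (A * ∑ s ∈ ZZ (c * T), mm s)) atTop
      (𝓝 (2 * c * A)) := by
  have hpi := Real.pi_pos
  have h1 := (((nn_one.comp (scale_top hc)).mul (ratio_lim hc))).const_mul (2 * c * A)
  rw [one_mul, mul_one] at h1
  refine h1.congr' ?_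
  filter_upwards [eventually_ge_atTop 10, (scale_top hc).eventually_ge_atTop 10] with T hT hcT
  have hL := one_lt_log (show 3 ≤ T by linarith)
  have hLc := one_lt_log (show 3 ≤ c * T by linarith)
  have hT0 : 0 < T := by linarith
  have : Real.log T ≠ 0 := by linarith
  have : Real.log (c * T) ≠ 0 := by linarith
  simp only [Function.comp_apply]
  field_simp
  ring

lemma mm_sq (s : ℂ) : mm s ≤ mm s * mm s := by
  unfold mm
  rcases Nat.eq_zero_or_pos (H370.mult riemannZeta s) with h5 | h5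
  · rw [h5]; simp
  · have : (1 : ℝ) ≤ (H370.mult riemannZeta s : ℝ) := by exact_mod_cast h5
    nlinarith

lemma ZZ_min (y Y : ℝ) : ZZ (min y Y) = (ZZ Y).filter fun s => s.im ≤ y := by
  ext s
  rw [Finset.mem_filter, mem_ZZ, mem_ZZ]
  constructor
  · rintro ⟨h1, h2, h3, h4, h5⟩
    exact ⟨⟨h1, h2, h3, h4, h5.trans (min_le_right _ _)⟩, h5.trans (min_le_left _ _)⟩
  · rintro ⟨⟨h1, h2, h3, h4, h5⟩, h6⟩
    exact ⟨h1, h2, h3, h4, le_min h6 h5⟩

/-- the diagonal -/
lemma Mn_diag {T P Y h R : ℝ} (hT : 1 < T) (hP : 0 < P) (hh : 0 < h) (hR : 0 < R)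
    (hY : R * T ≤ Y) :
    Real.exp (-(R * T / P) ^ 2) * VF (fun c => 4 * Real.pi / (T * Real.log T) *
      (h ^ 2 * ∑ s ∈ ZZ (c * T), mm s)) R ≤ 2 * Real.pi * Mn T P Y h := by
  classical
  have hpi := Real.pi_pos
  have hL := Real.log_pos hT
  have hT0 : 0 < T := by linarith
  obtain ⟨a, ha⟩ : ∃ a : ℝ, a = 4 * Real.pi / (T * Real.log T) := ⟨_, rfl⟩
  have ha0 : 0 < a := by rw [ha]; positivity
  obtain ⟨w, hw⟩ : ∃ w : ℂ → ℝ, w = fun s => a * (h ^ 2 * mm s) := ⟨_, rfl⟩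
  have hw0 : ∀ s, 0 ≤ w s := by
    intro s
    rw [hw]
    exact mul_nonneg ha0.le (mul_nonneg (sq_nonneg h) (mm_nonneg _))
  have hmp : ∀ s ∈ ZZ Y, 0 < s.im := by
    intro s hs
    rw [mem_ZZ] at hs
    exact zs_im_pos hs
  have eF : ∀ c : ℝ, c * T ≤ Y → a * (h ^ 2 * ∑ s ∈ ZZ (c * T), mm s) =
      ∑ s ∈ ZZ Y, (if s.im ≤ c * T then w s else 0) := by
    intro c hc
    have h1 := ZZ_min (c * T) Y
    rw [min_eq_left hc] at h1
    rw [h1, Finset.mul_sum, Finset.mul_sum, Finset.sum_filter]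
    refine Finset.sum_congr rfl fun s _ => ?_
    rw [hw]
  have eVF : VF (fun c => a * (h ^ 2 * ∑ s ∈ ZZ (c * T), mm s)) R =
      ∑ s ∈ ZZ Y, (if s.im ≤ R * T then w s * om (s.im / T) else 0) := by
    rw [lay (ZZ Y) w (fun s => s.im) hmp hT0 hR]
    unfold VF
    simp only
    rw [eF R hY]
    congr 1
    refine intervalIntegral.integral_congr fun c hc => ?_
    rw [uIcc_of_le hR.le] at hc
    have h1 : c * T ≤ Y := (mul_le_mul_of_nonneg_right hc.2 hT0.le).trans hY
    show omd c * (a * (h ^ 2 * ∑ s ∈ ZZ (c * T), mm s)) = _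
    rw [eF c h1]
  have eMn : 2 * Real.pi * Mn T P Y h = ∑ s ∈ ZZ Y, ∑ s' ∈ ZZ Y, a * (mm s * mm s' *
      (Kt h ((s.im - s'.im) * Real.log T / (2 * Real.pi)) * (om (max s.im s'.im / T) *
      Real.exp (-(max s.im s'.im / P) ^ 2)))) := by
    unfold Mn
    rw [← mul_assoc, Finset.mul_sum]
    refine Finset.sum_congr rfl fun s _ => ?_
    rw [Finset.mul_sum]
    refine Finset.sum_congr rfl fun s' _ => ?_
    rw [ha]
    ring
  rw [← ha, eVF, eMn, Finset.mul_sum]
  refine Finset.sum_le_sum fun s hs => ?_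
  have hterm : ∀ s' ∈ ZZ Y, 0 ≤ a * (mm s * mm s' *
      (Kt h ((s.im - s'.im) * Real.log T / (2 * Real.pi)) * (om (max s.im s'.im / T) *
      Real.exp (-(max s.im s'.im / P) ^ 2)))) := by
    intro s' _
    exact mul_nonneg ha0.le (mul_nonneg (mul_nonneg (mm_nonneg _) (mm_nonneg _))
      (mul_nonneg (Kt_nonneg hh _) (mul_nonneg (om_nonneg _) (Real.exp_pos _).le)))
  refine le_trans ?_ (Finset.single_le_sum (f := fun s' => a * (mm s * mm s' *
      (Kt h ((s.im - s'.im) * Real.log T / (2 * Real.pi)) * (om (max s.im s'.im / T) *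
      Real.exp (-(max s.im s'.im / P) ^ 2))))) hterm hs)
  simp only [sub_self, zero_mul, zero_div, max_self]
  rw [Kt_zero hh]
  have ho := om_nonneg (s.im / T)
  have hs0 := hmp s hs
  by_cases h1 : s.im ≤ R * T
  · rw [if_pos h1, hw]
    have h2 : Real.exp (-(R * T / P) ^ 2) ≤ Real.exp (-(s.im / P) ^ 2) := by
      apply Real.exp_le_exp.2
      have h4 : (s.im / P) ^ 2 ≤ (R * T / P) ^ 2 := by
        apply pow_le_pow_left₀ (div_nonneg hs0.le hP.le)
        gcongr
      linarith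
    have h3 := mm_sq s
    have h4 := mm_nonneg s
    simp only
    calc Real.exp (-(R * T / P) ^ 2) * (a * (h ^ 2 * mm s) * om (s.im / T)) ≤
          Real.exp (-(s.im / P) ^ 2) * (a * (h ^ 2 * (mm s * mm s)) * om (s.im / T)) := by
          gcongr
      _ = _ := by ring
  · rw [if_neg h1, mul_zero]
    have h5 := mm_nonneg s
    positivity

/-- **the lower bound** -/
theorem mix_lowS (hp : Par P Y) {h : ℝ} (hh : 0 < h) {ε : ℝ} (hε : 0 < ε) :
    ∀ᶠ T in atTop, h ^ 2 - ε ≤ Jt (Ds T (P T) (Y T)) h := by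
  have hpi := Real.pi_pos
  have hpi3 := Real.pi_gt_three
  obtain ⟨R, hRe⟩ : ∃ R : ℝ, R = 1 + 4 * h ^ 2 / ε := ⟨_, rfl⟩
  have hq : 0 ≤ 4 * h ^ 2 / ε := by positivity
  have hR0 : 0 < R := by rw [hRe]; linarith
  have h1 := VF_lim (F := fun T c => 4 * Real.pi / (T * Real.log T) *
      (h ^ 2 * ∑ s ∈ ZZ (c * T), mm s))
    ((eventually_gt_atTop 1).mono fun T hT c c' hcc => by
      have hL := Real.log_pos hT
      have : ∑ s ∈ ZZ (c * T), mm s ≤ ∑ s ∈ ZZ (c' * T), mm s :=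
        Finset.sum_le_sum_of_subset_of_nonneg
          (ZZ_mono (mul_le_mul_of_nonneg_right hcc (by linarith))) fun s _ _ => mm_nonneg s
      have h0 : 0 ≤ 4 * Real.pi / (T * Real.log T) := by positivity
      have h2 : 0 ≤ h ^ 2 := sq_nonneg h
      exact mul_le_mul_of_nonneg_left (mul_le_mul_of_nonneg_left this h2) h0)
    ((eventually_gt_atTop 1).mono fun T hT c => by
      have hL := Real.log_pos hT
      have : 0 ≤ ∑ s ∈ ZZ (c * T), mm s := Finset.sum_nonneg fun s _ => mm_nonneg s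
      positivity) (Q := h ^ 2) (fun c hc => nn_lim hc (h ^ 2)) hR0
  have h2 : Tendsto (fun T => Real.exp (-(R * T / P T) ^ 2)) atTop (𝓝 1) := by
    have h2 := (((hp.big.inv_tendsto_atTop).const_mul R).pow 2).neg
    rw [mul_zero, zero_pow two_ne_zero, neg_zero] at h2
    have h3 := (Real.continuous_exp.tendsto 0).comp h2
    rw [Real.exp_zero] at h3
    refine h3.congr fun T => ?_
    simp only [Function.comp_apply, Pi.inv_apply, inv_div]
    congr 1
    ring
  have h3 := h2.mul h1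
  rw [one_mul] at h3
  have h4 : 2 * Real.pi * h ^ 2 - Real.pi * ε ≤ 2 * h ^ 2 * ∫ c in (0 : ℝ)..R, om c := by
    have h5 := (abs_le.1 (om_tail hR0)).1
    have h6 : 2 * h ^ 2 * (4 / R) ≤ 2 * ε := by
      rw [← mul_div_assoc, div_le_iff₀ hR0, hRe]
      have : ε * (4 * h ^ 2 / ε) = 4 * h ^ 2 := by field_simp
      nlinarith
    have h7 : 2 * h ^ 2 * Real.pi - 2 * h ^ 2 * (4 / R) ≤
        2 * h ^ 2 * ∫ c in (0 : ℝ)..R, om c := by
      have : 0 ≤ 2 * h ^ 2 := by positivity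
      nlinarith
    nlinarith
  have h5 := (Jt_Mn hp hh)
  filter_upwards [h3.eventually (lt_mem_nhds (show 2 * Real.pi * h ^ 2 - Real.pi * ε -
      ε / 2 < 2 * h ^ 2 * ∫ c in (0 : ℝ)..R, om c by linarith)),
    (Metric.tendsto_nhds.1 h5) (ε / 4) (by linarith), hp.Y, hp.one,
    eventually_ge_atTop (max R 10)] with T h3 h4 hY h1 hT
  have hTR : R ≤ T := (le_max_left _ _).trans hT
  have hT10 : 10 ≤ T := (le_max_right _ _).trans hT
  have h6 := Mn_diag (P := P T) (Y := Y T) (show 1 < T by linarith)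
    (show 0 < P T by linarith) hh hR0 (by nlinarith)
  rw [Real.dist_eq, sub_zero] at h4
  have h7 := (abs_lt.1 h4).1
  have h8 := h3.le.trans h6
  nlinarith

end Pool.Agent.NH10.SV
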